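import Pool.Agent.MP_d920b6_mp.Cx.Defs

/-! Elementary API: projections, bilinearity, pairings. -/

namespace Pool.Agent.MP_d920b6_mp.Cx

open Matrix

section proj
variable {R : Type*}

@[simp] theorem gP_mkK (g : Mat R) (s t : R) (u : Mat R) (n : Vec R) : gP (mkK g s t u n) = g := rfl
@[simp] theorem sP_mkK (g : Mat R) (s t : R) (u : Mat R) (n : Vec R) : sP (mkK g s t u n) = s := rfl
@[simp] theorem tP_mkK (g : Mat R) (s t : R) (u : Mat R) (n : Vec R) : tP (mkK g s t u n) = t := rfl
@[simp] theorem uP_mkK (g : Mat R) (s t : R) (u : Mat R) (n : Vec R) : uP (mkK g s t u n) = u := rfl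
@[simp] theorem nP_mkK (g : Mat R) (s t : R) (u : Mat R) (n : Vec R) : nP (mkK g s t u n) = n := rfl
@[simp] theorem wP_mkV (w : Mat R) (σ : Fin 2 → Fin 2 → Mat R) (τ : Vec R) :
    wP (mkV w σ τ) = w := rfl
@[simp] theorem sgP_mkV (w : Mat R) (σ : Fin 2 → Fin 2 → Mat R) (τ : Vec R) :
    sgP (mkV w σ τ) = σ := rfl
@[simp] theorem tauP_mkV (w : Mat R) (σ : Fin 2 → Fin 2 → Mat R) (τ : Vec R) :
    tauP (mkV w σ τ) = τ := rfl
@[simp] theorem kp_elim (ξ : IK → R) (v : IV → R) : kp (Sum.elim ξ v) = ξ := rfl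
@[simp] theorem vp_elim (ξ : IK → R) (v : IV → R) : vp (Sum.elim ξ v) = v := rfl
theorem elim_kp_vp (x : II → R) : Sum.elim (kp x) (vp x) = x := by
  funext i; rcases i with i | i <;> rfl

theorem mkK_eta (X : IK → R) : mkK (gP X) (sP X) (tP X) (uP X) (nP X) = X := by
  funext i; rcases i with i | i | i | i | i <;> rfl
theorem mkV_eta (v : IV → R) : mkV (wP v) (sgP v) (tauP v) = v := by
  funext i; rcases i with i | i | i <;> rfl
theorem extK {X Y : IK → R} (h1 : gP X = gP Y) (h2 : sP X = sP Y) (h3 : tP X = tP Y)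
    (h4 : uP X = uP Y) (h5 : nP X = nP Y) : X = Y := by
  rw [← mkK_eta X, h1, h2, h3, h4, h5, mkK_eta]
theorem extV {v v' : IV → R} (h1 : wP v = wP v') (h2 : ∀ a b, sgP v a b = sgP v' a b)
    (h3 : tauP v = tauP v') : v = v' := by
  rw [← mkV_eta v, h1, show sgP v = sgP v' from funext₂ h2, h3, mkV_eta]
theorem extI {x x' : II → R} (h1 : kp x = kp x') (h2 : vp x = vp x') : x = x' := by
  rw [← elim_kp_vp x, h1, h2, elim_kp_vp]

variable {S : Type*} (f : R → S)
theorem gP_comp (X : IK → R) : gP (f ∘ X) = (gP X).map f := rfl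
theorem sP_comp (X : IK → R) : sP (f ∘ X) = f (sP X) := rfl
theorem tP_comp (X : IK → R) : tP (f ∘ X) = f (tP X) := rfl
theorem uP_comp (X : IK → R) : uP (f ∘ X) = (uP X).map f := rfl
theorem nP_comp (X : IK → R) : nP (f ∘ X) = f ∘ nP X := rfl
theorem wP_comp (v : IV → R) : wP (f ∘ v) = (wP v).map f := rfl
theorem sgP_comp (v : IV → R) (a b : Fin 2) : sgP (f ∘ v) a b = (sgP v a b).map f := rfl
theorem tauP_comp (v : IV → R) : tauP (f ∘ v) = f ∘ tauP v := rfl
theorem kp_comp (x : II → R) : kp (f ∘ x) = f ∘ kp x := rfl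
theorem vp_comp (x : II → R) : vp (f ∘ x) = f ∘ vp x := rfl
theorem comp_mkK (g : Mat R) (s t : R) (u : Mat R) (n : Vec R) :
    f ∘ mkK g s t u n = mkK (g.map f) (f s) (f t) (u.map f) (f ∘ n) := extK rfl rfl rfl rfl rfl
theorem comp_mkV (w : Mat R) (σ : Fin 2 → Fin 2 → Mat R) (τ : Vec R) :
    f ∘ mkV w σ τ = mkV (w.map f) (fun a b => (σ a b).map f) (f ∘ τ) :=
  extV rfl (fun _ _ => rfl) rfl
theorem comp_elim (ξ : IK → R) (v : IV → R) :
    f ∘ Sum.elim ξ v = Sum.elim (f ∘ ξ) (f ∘ v) := extI rfl rfl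

theorem card_IK : Fintype.card IK = 38 := by simp
theorem card_IV : Fintype.card IV = 84 := by simp
theorem card_II : Fintype.card II = 122 := by simp

end proj

variable {R : Type*} [CommRing R]

section lin
variable (X Y : IK → R) (v v' : IV → R) (x x' : II → R) (c : R)
@[simp] theorem gP_add : gP (X + Y) = gP X + gP Y := rfl
@[simp] theorem sP_add : sP (X + Y) = sP X + sP Y := rfl
@[simp] theorem tP_add : tP (X + Y) = tP X + tP Y := rfl
@[simp] theorem uP_add : uP (X + Y) = uP X + uP Y := rfl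
@[simp] theorem nP_add : nP (X + Y) = nP X + nP Y := rfl
@[simp] theorem gP_sub : gP (X - Y) = gP X - gP Y := rfl
@[simp] theorem sP_sub : sP (X - Y) = sP X - sP Y := rfl
@[simp] theorem tP_sub : tP (X - Y) = tP X - tP Y := rfl
@[simp] theorem uP_sub : uP (X - Y) = uP X - uP Y := rfl
@[simp] theorem nP_sub : nP (X - Y) = nP X - nP Y := rfl
@[simp] theorem gP_neg : gP (-X) = -gP X := rfl
@[simp] theorem sP_neg : sP (-X) = -sP X := rfl
@[simp] theorem tP_neg : tP (-X) = -tP X := rfl
@[simp] theorem uP_neg : uP (-X) = -uP X := rfl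
@[simp] theorem nP_neg : nP (-X) = -nP X := rfl
@[simp] theorem gP_smul : gP (c • X) = c • gP X := rfl
@[simp] theorem sP_smul : sP (c • X) = c * sP X := rfl
@[simp] theorem tP_smul : tP (c • X) = c * tP X := rfl
@[simp] theorem uP_smul : uP (c • X) = c • uP X := rfl
@[simp] theorem nP_smul : nP (c • X) = c • nP X := rfl
@[simp] theorem gP_zero : gP (0 : IK → R) = 0 := rfl
@[simp] theorem sP_zero : sP (0 : IK → R) = 0 := rfl
@[simp] theorem tP_zero : tP (0 : IK → R) = 0 := rfl
@[simp] theorem uP_zero : uP (0 : IK → R) = 0 := rfl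
@[simp] theorem nP_zero : nP (0 : IK → R) = 0 := rfl
@[simp] theorem wP_add : wP (v + v') = wP v + wP v' := rfl
@[simp] theorem sgP_add (a b : Fin 2) : sgP (v + v') a b = sgP v a b + sgP v' a b := rfl
@[simp] theorem tauP_add : tauP (v + v') = tauP v + tauP v' := rfl
@[simp] theorem wP_sub : wP (v - v') = wP v - wP v' := rfl
@[simp] theorem sgP_sub (a b : Fin 2) : sgP (v - v') a b = sgP v a b - sgP v' a b := rfl
@[simp] theorem tauP_sub : tauP (v - v') = tauP v - tauP v' := rfl
@[simp] theorem wP_neg : wP (-v) = -wP v := rfl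
@[simp] theorem sgP_neg (a b : Fin 2) : sgP (-v) a b = -sgP v a b := rfl
@[simp] theorem tauP_neg : tauP (-v) = -tauP v := rfl
@[simp] theorem wP_smul : wP (c • v) = c • wP v := rfl
@[simp] theorem sgP_smul (a b : Fin 2) : sgP (c • v) a b = c • sgP v a b := rfl
@[simp] theorem tauP_smul : tauP (c • v) = c • tauP v := rfl
@[simp] theorem wP_zero : wP (0 : IV → R) = 0 := rfl
@[simp] theorem sgP_zero (a b : Fin 2) : sgP (0 : IV → R) a b = 0 := rfl
@[simp] theorem tauP_zero : tauP (0 : IV → R) = 0 := rfl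
@[simp] theorem kp_add : kp (x + x') = kp x + kp x' := rfl
@[simp] theorem vp_add : vp (x + x') = vp x + vp x' := rfl
@[simp] theorem kp_sub : kp (x - x') = kp x - kp x' := rfl
@[simp] theorem vp_sub : vp (x - x') = vp x - vp x' := rfl
@[simp] theorem kp_neg : kp (-x) = -kp x := rfl
@[simp] theorem vp_neg : vp (-x) = -vp x := rfl
@[simp] theorem kp_smul : kp (c • x) = c • kp x := rfl
@[simp] theorem vp_smul : vp (c • x) = c • vp x := rfl
@[simp] theorem kp_zero : kp (0 : II → R) = 0 := rfl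
@[simp] theorem vp_zero : vp (0 : II → R) = 0 := rfl
@[simp] theorem kp_aI : kp (aI : II → R) = 0 := rfl
@[simp] theorem vp_aI : vp (aI : II → R) = aV := rfl
@[simp] theorem wP_aV : wP (aV : IV → R) = 1 := rfl
@[simp] theorem sgP_aV (a b : Fin 2) : sgP (aV : IV → R) a b = 0 := rfl
@[simp] theorem tauP_aV : tauP (aV : IV → R) = 0 := rfl
@[simp] theorem kp_pt (ξ : IK → R) (φ : IV → R) : kp (pt ξ v φ) = ξ + coad φ aV := rfl
@[simp] theorem vp_pt (ξ : IK → R) (φ : IV → R) : vp (pt ξ v φ) = v := rfl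

theorem wP_act : wP (act X v) = sP X • (JJ * wP v) - wP v * hat (gP X) := rfl
theorem sgP_act (a b : Fin 2) : sgP (act X v) a b = MM (wP v) (uP X) a b -
    ((hat (gP X))ᵀ * sk (sgP v a b) + sk (sgP v a b) * hat (gP X)) := rfl
theorem tauP_act : tauP (act X v) =
    sP X • (JJ *ᵥ tauP v) + tP X • tauP v + wP v *ᵥ nP X := rfl
theorem gP_kbr : gP (kbr X Y) = hat (gP X) * hat (gP Y) - hat (gP Y) * hat (gP X) := rfl
@[simp] theorem sP_kbr : sP (kbr X Y) = 0 := rfl
@[simp] theorem tP_kbr : tP (kbr X Y) = 0 := rfl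
theorem uP_kbr : uP (kbr X Y) =
    uP X * hat (gP Y) - uP Y * hat (gP X) + sP X • (JJ * uP Y) - sP Y • (JJ * uP X) := rfl
theorem nP_kbr : nP (kbr X Y) =
    hat (gP X) *ᵥ nP Y - hat (gP Y) *ᵥ nP X + tP X • nP Y - tP Y • nP X := rfl

theorem dotK : X ⬝ᵥ Y = (∑ i, ∑ j, gP X i j * gP Y i j) + sP X * sP Y + tP X * tP Y +
    (∑ i, ∑ j, uP X i j * uP Y i j) + nP X ⬝ᵥ nP Y := by
  simp only [dotProduct, Fintype.sum_sum_type, Fintype.sum_prod_type, Finset.univ_unique,
    Finset.sum_singleton, gP, sP, tP, uP, nP, of_apply]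
  ring
theorem dotV : v ⬝ᵥ v' = (∑ i, ∑ j, wP v i j * wP v' i j) +
    (∑ a, ∑ b, ∑ i, ∑ j, sgP v a b i j * sgP v' a b i j) + tauP v ⬝ᵥ tauP v' := by
  simp only [dotProduct, Fintype.sum_sum_type, Fintype.sum_prod_type, wP, sgP, tauP, of_apply]
  ring
theorem dotI : x ⬝ᵥ x' = kp x ⬝ᵥ kp x' + vp x ⬝ᵥ vp x' := by
  simp only [dotProduct, Fintype.sum_sum_type (α₁ := IK) (α₂ := IV), kp, vp]
end lin

section hatsk
variable (g g' : Mat R) (c : R)
@[simp] theorem hat_add : hat (g + g') = hat g + hat g' := by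
  simp only [hat, trace_add, single_add]; abel
@[simp] theorem hat_smul : hat (c • g) = c • hat g := by
  simp only [hat, trace_smul, smul_sub, smul_single]
@[simp] theorem hat_zero : hat (0 : Mat R) = 0 := by simp [hat]
@[simp] theorem hat_neg : hat (-g) = -hat g := by
  have := hat_smul g (-1); simpa using this
@[simp] theorem hat_sub : hat (g - g') = hat g - hat g' := by
  rw [sub_eq_add_neg, hat_add, hat_neg, sub_eq_add_neg]
@[simp] theorem trace_hat : trace (hat g) = 0 := by simp [hat]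
theorem hat_of_trace (h : trace g = 0) : hat g = g := by simp [hat, h]
@[simp] theorem hat_hat : hat (hat g) = hat g := hat_of_trace _ (trace_hat g)
theorem hat_comm : hat (g * g' - g' * g) = g * g' - g' * g :=
  hat_of_trace _ (by rw [trace_sub, trace_mul_comm, sub_self])
theorem hat_vecMulVec (κ φ : Vec R) (h : φ ⬝ᵥ κ = 0) : hat (vecMulVec κ φ) = vecMulVec κ φ :=
  hat_of_trace _ (by rw [trace_vecMulVec, dotProduct_comm, h])
@[simp] theorem hat_gP_kbr (X Y : IK → R) :
    hat (gP (kbr X Y)) = hat (gP X) * hat (gP Y) - hat (gP Y) * hat (gP X) := hat_comm _ _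
@[simp] theorem sk_add : sk (g + g') = sk g + sk g' := by
  ext i j; simp only [sk, of_apply, Matrix.add_apply]; split_ifs <;> ring
@[simp] theorem sk_smul : sk (c • g) = c • sk g := by
  ext i j; simp only [sk, of_apply, Matrix.smul_apply, smul_eq_mul]; split_ifs <;> ring
@[simp] theorem sk_zero : sk (0 : Mat R) = 0 := by
  ext i j; simp [sk]
@[simp] theorem sk_neg : sk (-g) = -sk g := by
  have := sk_smul g (-1); simpa using this
@[simp] theorem sk_sub : sk (g - g') = sk g - sk g' := by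
  rw [sub_eq_add_neg, sk_add, sk_neg, sub_eq_add_neg]
theorem sk_transpose : (sk g)ᵀ = -sk g := by
  ext i j
  simp only [sk, of_apply, transpose_apply, Matrix.neg_apply]
  rcases lt_trichotomy i j with h | h | h
  · simp [h, h.not_gt]
  · simp [h]
  · simp [h, h.not_gt]
theorem sk_diag (i : Fin 4) : sk g i i = 0 := by simp [sk]
theorem sk_of_skew (h : gᵀ = -g) (h' : ∀ i, g i i = 0) : sk g = g := by
  ext i j
  simp only [sk, of_apply]
  rcases lt_trichotomy i j with h1 | h1 | h1
  · simp [h1]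
  · simp [h1, h']
  · have := congrFun (congrFun h i) j
    simp only [transpose_apply, Matrix.neg_apply] at this
    simp [h1, h1.not_gt, this]
theorem wedge_transpose (ψ χ : Vec R) : (wedge ψ χ)ᵀ = -wedge ψ χ := by
  ext i j; simp [wedge, vecMulVec_apply]; ring
theorem wedge_diag (ψ χ : Vec R) (i : Fin 4) : wedge ψ χ i i = 0 := by
  simp [wedge, vecMulVec_apply]; ring
theorem JJ_mul_JJ : (JJ : Mat R) * JJ = 1 := by
  ext i j; fin_cases i <;> fin_cases j <;> simp [JJ]
theorem trace_JJ : trace (JJ : Mat R) = 0 := by simp [JJ, Fin.sum_univ_four]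
theorem JJ_transpose : (JJ : Mat R)ᵀ = JJ := diagonal_transpose _
theorem MM_add_left (w w' u : Mat R) (a b : Fin 2) :
    MM (w + w') u a b = MM w u a b + MM w' u a b := by
  ext i j; simp [MM, wedge, vecMulVec_apply]; ring
theorem MM_add_right (w u u' : Mat R) (a b : Fin 2) :
    MM w (u + u') a b = MM w u a b + MM w u' a b := by
  ext i j; simp [MM, wedge, vecMulVec_apply]; ring
theorem MM_smul_left (w u : Mat R) (a b : Fin 2) : MM (c • w) u a b = c • MM w u a b := by
  ext i j; simp [MM, wedge, vecMulVec_apply]; ring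
theorem MM_smul_right (w u : Mat R) (a b : Fin 2) : MM w (c • u) a b = c • MM w u a b := by
  ext i j; simp [MM, wedge, vecMulVec_apply]; ring
theorem MM_sub_left (w w' u : Mat R) (a b : Fin 2) :
    MM (w - w') u a b = MM w u a b - MM w' u a b := by
  ext i j; simp [MM, wedge, vecMulVec_apply]; ring
theorem MM_sub_right (w u u' : Mat R) (a b : Fin 2) :
    MM w (u - u') a b = MM w u a b - MM w u' a b := by
  ext i j; simp [MM, wedge, vecMulVec_apply]; ring
@[simp] theorem MM_zero_right (w : Mat R) (a b : Fin 2) : MM w 0 a b = 0 := by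
  ext i j; simp [MM, wedge, vecMulVec_apply]
@[simp] theorem MM_zero_left (u : Mat R) (a b : Fin 2) : MM 0 u a b = 0 := by
  ext i j; simp [MM, wedge, vecMulVec_apply]
theorem MM_self (w : Mat R) (a b : Fin 2) : MM w w a b = 0 := by
  ext i j; simp [MM, wedge, vecMulVec_apply]
theorem sk_MM (w u : Mat R) (a b : Fin 2) : sk (MM w u a b) = MM w u a b :=
  sk_of_skew _ (by rw [MM, transpose_add, wedge_transpose, wedge_transpose, neg_add])
    fun i => by rw [MM, Matrix.add_apply, wedge_diag, wedge_diag, add_zero]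
end hatsk

section bil
variable (X X' Y Y' : IK → R) (v v' φ φ' : IV → R) (c : R)
theorem act_add_left : act (X + X') v = act X v + act X' v := by
  refine extV ?_ (fun a b => ?_) ?_
  · simp only [wP_act, wP_add, sP_add, gP_add, hat_add, add_smul, Matrix.mul_add]; abel
  · simp only [sgP_act, sgP_add, uP_add, gP_add, hat_add, MM_add_right, transpose_add,
      Matrix.mul_add, Matrix.add_mul]; abel
  · simp only [tauP_act, tauP_add, sP_add, tP_add, nP_add, add_smul, mulVec_add]; abel
theorem act_smul_left : act (c • X) v = c • act X v := by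
  refine extV ?_ (fun a b => ?_) ?_
  · simp only [wP_act, wP_smul, sP_smul, gP_smul, hat_smul, mul_smul, Matrix.mul_smul, smul_sub]
  · simp only [sgP_act, sgP_smul, uP_smul, gP_smul, hat_smul, MM_smul_right, transpose_smul,
      Matrix.mul_smul, Matrix.smul_mul, smul_sub, smul_add]
  · simp only [tauP_act, tauP_smul, sP_smul, tP_smul, nP_smul, mul_smul, mulVec_smul, smul_add]
theorem act_add_right : act X (v + v') = act X v + act X v' := by
  refine extV ?_ (fun a b => ?_) ?_
  · simp only [wP_act, wP_add, smul_add, Matrix.mul_add, Matrix.add_mul]; abel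
  · simp only [sgP_act, sgP_add, wP_add, sk_add, MM_add_left, Matrix.mul_add,
      Matrix.add_mul]; abel
  · simp only [tauP_act, tauP_add, wP_add, smul_add, mulVec_add, add_mulVec]; abel
theorem act_smul_right : act X (c • v) = c • act X v := by
  refine extV ?_ (fun a b => ?_) ?_
  · simp only [wP_act, wP_smul, Matrix.mul_smul, Matrix.smul_mul, smul_sub, smul_comm c]
  · simp only [sgP_act, sgP_smul, wP_smul, sk_smul, MM_smul_left,
      Matrix.mul_smul, Matrix.smul_mul, smul_sub, smul_add]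
  · simp only [tauP_act, tauP_smul, wP_smul, mulVec_smul, smul_mulVec, smul_add, smul_comm c]
theorem kbr_add_left : kbr (X + X') Y = kbr X Y + kbr X' Y := by
  refine extK ?_ (by simp) (by simp) ?_ ?_
  · simp only [gP_kbr, gP_add, hat_add, Matrix.mul_add, Matrix.add_mul]; abel
  · simp only [uP_kbr, uP_add, gP_add, sP_add, hat_add, Matrix.mul_add, Matrix.add_mul,
      add_smul, smul_add]; abel
  · simp only [nP_kbr, nP_add, gP_add, tP_add, hat_add, mulVec_add, add_mulVec,
      add_smul, smul_add]; abel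
theorem kbr_smul_left : kbr (c • X) Y = c • kbr X Y := by
  refine extK ?_ (by simp) (by simp) ?_ ?_
  · simp only [gP_kbr, gP_smul, hat_smul, Matrix.mul_smul, Matrix.smul_mul, smul_sub]
  · simp only [uP_kbr, uP_smul, gP_smul, sP_smul, hat_smul, Matrix.mul_smul, Matrix.smul_mul,
      mul_smul, smul_add, smul_sub, smul_comm c]
  · simp only [nP_kbr, nP_smul, gP_smul, tP_smul, hat_smul, mulVec_smul, smul_mulVec,
      mul_smul, smul_add, smul_sub, smul_comm c]
theorem kbr_skew : kbr X Y = -kbr Y X := by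
  refine extK ?_ (by simp) (by simp) ?_ ?_
  · simp only [gP_kbr, gP_neg]; abel
  · simp only [uP_kbr, uP_neg]; abel
  · simp only [nP_kbr, nP_neg]; abel
theorem kbr_self : kbr X X = 0 := by
  refine extK ?_ (by simp) (by simp) ?_ ?_
  · simp only [gP_kbr, gP_zero]; abel
  · simp only [uP_kbr, uP_zero]; abel
  · simp only [nP_kbr, nP_zero]; abel
theorem kbr_add_right : kbr X (Y + Y') = kbr X Y + kbr X Y' := by
  rw [kbr_skew, kbr_add_left, neg_add, ← kbr_skew, ← kbr_skew]
theorem kbr_smul_right : kbr X (c • Y) = c • kbr X Y := by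
  rw [kbr_skew, kbr_smul_left, ← smul_neg, ← kbr_skew]

/-- `act` as a bilinear map -/
def actL : (IK → R) →ₗ[R] (IV → R) →ₗ[R] (IV → R) :=
  LinearMap.mk₂ R act act_add_left (fun c X v => act_smul_left X v c) act_add_right
    fun c X v => act_smul_right X v c
/-- `kbr` as a bilinear map -/
def kbrL : (IK → R) →ₗ[R] (IK → R) →ₗ[R] (IK → R) :=
  LinearMap.mk₂ R kbr kbr_add_left (fun c X Y => kbr_smul_left X Y c) kbr_add_right
    fun c X Y => kbr_smul_right X Y c
@[simp] theorem actL_apply : actL X v = act X v := rfl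
@[simp] theorem kbrL_apply : kbrL X Y = kbr X Y := rfl

@[simp] theorem act_zero_left : act (0 : IK → R) v = 0 := (actL (R := R)).map_zero₂ v
@[simp] theorem act_zero_right : act X (0 : IV → R) = 0 := (actL X).map_zero
theorem act_neg_left : act (-X) v = -act X v := (actL (R := R)).map_neg₂ X v
theorem act_neg_right : act X (-v) = -act X v := (actL X).map_neg v
theorem act_sub_left : act (X - X') v = act X v - act X' v := (actL (R := R)).map_sub₂ X X' v
theorem act_sub_right : act X (v - v') = act X v - act X v' := (actL X).map_sub v v'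
@[simp] theorem kbr_zero_left : kbr (0 : IK → R) Y = 0 := (kbrL (R := R)).map_zero₂ Y
@[simp] theorem kbr_zero_right : kbr X (0 : IK → R) = 0 := (kbrL X).map_zero
theorem kbr_neg_left : kbr (-X) Y = -kbr X Y := (kbrL (R := R)).map_neg₂ X Y
theorem kbr_neg_right : kbr X (-Y) = -kbr X Y := (kbrL X).map_neg Y
theorem kbr_sub_left : kbr (X - X') Y = kbr X Y - kbr X' Y := (kbrL (R := R)).map_sub₂ X X' Y
theorem kbr_sub_right : kbr X (Y - Y') = kbr X Y - kbr X Y' := (kbrL X).map_sub Y Y'

theorem actMat_mulVec : actMat v *ᵥ X = act X v := by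
  have : X = ∑ i, X i • (Pi.single i 1 : IK → R) := by
    ext j; simp [Finset.sum_apply, Pi.single_apply]
  conv_rhs => rw [this, ← actL_apply, map_sum, LinearMap.sum_apply]
  ext j
  simp only [mulVec, dotProduct, actMat, of_apply, map_smul, LinearMap.smul_apply, actL_apply,
    Finset.sum_apply, Pi.smul_apply, smul_eq_mul, mul_comm]
theorem coad_dot : coad φ v ⬝ᵥ X = φ ⬝ᵥ act X v := by
  rw [coad, ← dotProduct_mulVec, actMat_mulVec]
theorem dact_dot : dact φ X ⬝ᵥ v = φ ⬝ᵥ act X v := by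
  have : v = ∑ i, v i • (Pi.single i 1 : IV → R) := by
    ext j; simp [Finset.sum_apply, Pi.single_apply]
  conv_rhs => rw [this, ← actL_apply, map_sum, dotProduct_sum]
  simp only [map_smul, actL_apply, dotProduct_smul, smul_eq_mul]
  simp only [dotProduct, dact, mul_comm]
theorem mem_kst : X ∈ kst v ↔ act X v = 0 := by
  rw [kst, LinearMap.mem_ker, mulVecLin_apply, actMat_mulVec]
theorem eq_of_dotK {ξ ξ' : IK → R} (h : ∀ X, ξ ⬝ᵥ X = ξ' ⬝ᵥ X) : ξ = ξ' := by
  ext i; simpa using h (Pi.single i 1)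
theorem eq_of_dotV {φ φ' : IV → R} (h : ∀ v, φ ⬝ᵥ v = φ' ⬝ᵥ v) : φ = φ' := by
  ext i; simpa using h (Pi.single i 1)
theorem coad_add_left : coad (φ + φ') v = coad φ v + coad φ' v := add_vecMul _ _ _
theorem coad_sub_left : coad (φ - φ') v = coad φ v - coad φ' v := sub_vecMul _ _ _
theorem coad_smul_left : coad (c • φ) v = c • coad φ v := smul_vecMul _ _ _
@[simp] theorem coad_zero_left : coad (0 : IV → R) v = 0 := zero_vecMul _
theorem actMat_add : actMat (v + v') = actMat v + actMat v' := by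
  ext j i; simp [actMat, act_add_right]
theorem actMat_smul : actMat (c • v) = c • actMat v := by
  ext j i; simp [actMat, act_smul_right]
theorem act_aV : act X aV = mkV (sP X • JJ - hat (gP X)) (MM 1 (uP X)) (nP X) := by
  refine extV ?_ (fun a b => ?_) ?_
  · simp [wP_act]
  · simp [sgP_act]
  · simp [tauP_act]
theorem th_dot (y m : Vec R) : th y m ⬝ᵥ v = y ⬝ᵥ (wP v *ᵥ m) := by
  rw [dotV]
  simp only [th, wP_mkV, sgP_mkV, tauP_mkV, Pi.zero_apply, Matrix.zero_apply, zero_mul,
    Finset.sum_const_zero, add_zero, vecMulVec_apply, dotProduct, mulVec,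
    Finset.mul_sum]
  exact Finset.sum_congr rfl fun i _ => Finset.sum_congr rfl fun j _ => by ring
theorem dl_dot (y m : Vec R) :
    dl y m ⬝ᵥ X = y ⬝ᵥ (hat (gP X) *ᵥ m - sP X • (JJ *ᵥ m) + nP X) := by
  rw [dl, sub_dotProduct, coad_dot, th_dot, act_aV, dotK]
  simp only [gP_mkK, sP_mkK, tP_mkK, uP_mkK, nP_mkK, Matrix.zero_apply, zero_mul, Finset.sum_const_zero,
    zero_add, wP_mkV, sub_mulVec, smul_mulVec, dotProduct_sub, dotProduct_add]
  ring
theorem MMat_mulVec (w u : Mat R) (j : IS) :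
    (MMat w *ᵥ fun i => u i.1 i.2) j = MM w u j.1 j.2.1 j.2.2.1 j.2.2.2 := by
  obtain ⟨a, b, i, j⟩ := j
  simp only [MMat, mulVec, dotProduct, of_apply, Fintype.sum_prod_type, MM, wedge, Matrix.add_apply,
    Matrix.sub_apply, vecMulVec_apply, single_apply, ite_mul, one_mul, zero_mul, mul_ite, mul_one,
    mul_zero, add_mul, sub_mul, Finset.sum_add_distrib, Finset.sum_sub_distrib, ite_and,
    Finset.sum_ite_irrel, Finset.sum_ite_eq', Finset.mem_univ, if_true, Finset.sum_const_zero]
  ring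

variable (x x' Z Z' Z'' : II → R)
theorem PF_skew : PF x Z Z' = -PF x Z' Z := by
  rw [PF, PF, kbr_skew, dotProduct_neg]; ring
theorem PF_self : PF x Z Z = 0 := by simp [PF, kbr_self]
theorem PF_add_left : PF x (Z + Z') Z'' = PF x Z Z'' + PF x Z' Z'' := by
  simp only [PF, kp_add, vp_add, kbr_add_left, act_add_left, dotProduct_add, add_dotProduct]; ring
theorem PF_smul_left : PF x (c • Z) Z' = c * PF x Z Z' := by
  simp only [PF, kp_smul, vp_smul, kbr_smul_left, act_smul_left, dotProduct_smul,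
    smul_dotProduct, smul_eq_mul]; ring
theorem PF_add_right : PF x Z (Z' + Z'') = PF x Z Z' + PF x Z Z'' := by
  rw [PF_skew, PF_add_left, PF_skew x Z', PF_skew x Z'']; ring
theorem PF_smul_right : PF x Z (c • Z') = c * PF x Z Z' := by
  rw [PF_skew, PF_smul_left, PF_skew x Z']; ring
theorem PF_add_pt : PF (x + x') Z Z' = PF x Z Z' + PF x' Z Z' := by
  simp only [PF, kp_add, vp_add, act_add_right, dotProduct_add, add_dotProduct]; ring
theorem PF_smul_pt : PF (c • x) Z Z' = c * PF x Z Z' := by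
  simp only [PF, kp_smul, vp_smul, act_smul_right, dotProduct_smul,
    smul_dotProduct, smul_eq_mul]; ring
theorem PF_eq_lbr : PF x Z Z' = x ⬝ᵥ lbr Z Z' := by
  rw [dotI, lbr, kp_elim, vp_elim, dotProduct_sub, dotProduct_comm (vp x),
    dotProduct_comm (vp x), dact_dot, dact_dot, PF]; ring
theorem PF_aI : PF aI Z Z' = vp Z ⬝ᵥ act (kp Z') aV - vp Z' ⬝ᵥ act (kp Z) aV := by
  simp [PF]

/-- `PF x` as a bilinear form -/
def PFL (x : II → R) : LinearMap.BilinForm R (II → R) :=
  LinearMap.mk₂ R (PF x) (PF_add_left x) (fun c Z Z' => PF_smul_left c x Z Z') (PF_add_right x)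
    fun c Z Z' => PF_smul_right c x Z Z'
@[simp] theorem PFL_apply : PFL x Z Z' = PF x Z Z' := rfl
theorem PF_sub_left : PF x (Z - Z') Z'' = PF x Z Z'' - PF x Z' Z'' := (PFL x).map_sub₂ Z Z' Z''
theorem PF_sub_right : PF x Z (Z' - Z'') = PF x Z Z' - PF x Z Z'' := (PFL x Z).map_sub Z' Z''
@[simp] theorem PF_zero_left : PF x 0 Z = 0 := (PFL x).map_zero₂ Z
@[simp] theorem PF_zero_right : PF x Z 0 = 0 := (PFL x Z).map_zero
end bil

end Pool.Agent.MP_d920b6_mp.Cx
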