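import Mathlib

/-! Abstract linear algebra of pencils of skew forms. -/

namespace Pool.Agent.MP_d920b6_mp.Cx

open Module

variable {K W : Type*} [Field K] [AddCommGroup W] [Module K W] [FiniteDimensional K W]

omit [FiniteDimensional K W] in
theorem xlina_skew (B : LinearMap.BilinForm K W) (hB : ∀ x, B x x = 0) (x y : W) :
    B x y = -B y x := by
  have := hB (x + y)
  simp only [map_add, LinearMap.add_apply, hB] at this
  linear_combination this

theorem xlina_dim (B : LinearMap.BilinForm K W) (hB : ∀ x, B x x = 0) (L : Submodule K W) :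
    finrank K L + finrank K (B.orthogonal L) =
      finrank K W + finrank K (L ⊓ LinearMap.ker B : Submodule K W) := by
  have hr : B.IsRefl := fun x y h => by rw [xlina_skew B hB, h, neg_zero]
  rw [LinearMap.BilinForm.finrank_add_finrank_orthogonal hr,
    LinearMap.BilinForm.orthogonal_top_eq_ker hr]

omit [FiniteDimensional K W] in
theorem xlina_mem (B : LinearMap.BilinForm K W) (hB : ∀ x, B x x = 0) (L : Submodule K W) {ζ : W}
    (hζ : ∀ y ∈ L, B ζ y = 0) : ζ ∈ B.orthogonal L := fun y hy => by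
  change B y ζ = 0
  rw [xlina_skew B hB, hζ y hy, neg_zero]

/-- an isotropic subspace bounds the corank from below -/
theorem iso_le (B : LinearMap.BilinForm K W) (hB : ∀ x, B x x = 0) (L : Submodule K W)
    (hL : ∀ x ∈ L, ∀ y ∈ L, B x y = 0) :
    2 * finrank K L ≤ finrank K W + finrank K (LinearMap.ker B) := by
  have h1 := xlina_dim B hB L
  have h2 := Submodule.finrank_mono (fun x hx => xlina_mem B hB L (hL x hx) : L ≤ B.orthogonal L)
  have h3 := Submodule.finrank_mono (inf_le_right : L ⊓ LinearMap.ker B ≤ LinearMap.ker B)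
  omega

/-- a maximal isotropic subspace is its own orthogonal -/
theorem mem_of_orth (B : LinearMap.BilinForm K W) (hB : ∀ x, B x x = 0) (L : Submodule K W)
    (hL : ∀ x ∈ L, ∀ y ∈ L, B x y = 0)
    (hd : finrank K W + finrank K (LinearMap.ker B) ≤ 2 * finrank K L)
    {ζ : W} (hζ : ∀ y ∈ L, B ζ y = 0) : ζ ∈ L := by
  have h1 := xlina_dim B hB L
  have h3 := Submodule.finrank_mono (inf_le_right : L ⊓ LinearMap.ker B ≤ LinearMap.ker B)
  have h4 : L = B.orthogonal L :=
    Submodule.eq_of_le_of_finrank_le (fun x hx => xlina_mem B hB L (hL x hx)) (by omega)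
  rw [h4]
  exact xlina_mem B hB L hζ

/-- chains orthogonal to the unique Jordan block lie in every bi-Lagrangian subspace -/
theorem chain_mem (A B : LinearMap.BilinForm K W) (hA : ∀ x, A x x = 0) (hB : ∀ x, B x x = 0)
    (L : Submodule K W) (hLA : ∀ x ∈ L, ∀ y ∈ L, A x y = 0) (hLB : ∀ x ∈ L, ∀ y ∈ L, B x y = 0)
    (hd : finrank K W + finrank K (LinearMap.ker B) ≤ 2 * finrank K L)
    (hk : finrank K (LinearMap.ker A) ≤ finrank K (LinearMap.ker B) + 2)
    {θ n : W} (hθ : A θ = 0) (hn : A n = 0) (hθn : B θ n ≠ 0)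
    {ζ₁ ζ₂ ζ₃ : W} (h₁ : A ζ₁ + B ζ₂ = 0) (h₂ : A ζ₂ + B ζ₃ = 0) (h₃ : A ζ₃ = 0)
    (e₁ : B ζ₁ θ = 0) (e₂ : B ζ₁ n = 0) : ζ₁ ∈ L := by
  have h1 := xlina_dim A hA L
  have h2 : L ⊓ LinearMap.ker A < LinearMap.ker A := lt_of_le_of_ne inf_le_right fun e => by
    have h : LinearMap.ker A ≤ L := inf_eq_right.1 e
    exact hθn (hLB _ (h hθ) _ (h hn))
  have h3 := Submodule.finrank_lt_finrank_of_lt h2
  have hker : ∀ {x : W}, A x = 0 → x ∈ A.orthogonal L := fun hx =>
    xlina_mem A hA L fun y _ => by rw [hx, LinearMap.zero_apply]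
  have key : ∀ ζ, (∀ y ∈ L, A ζ y = 0) → B ζ θ = 0 → B ζ n = 0 → ζ ∈ L := by
    intro ζ hζ a b
    by_contra hne
    have hlt : L < L ⊔ Submodule.span K {ζ} := lt_of_le_of_ne le_sup_left fun e =>
      hne (e ▸ Submodule.mem_sup_right (Submodule.mem_span_singleton_self ζ))
    have h4 := Submodule.finrank_lt_finrank_of_lt hlt
    have h5 : L ⊔ Submodule.span K {ζ} = A.orthogonal L :=
      Submodule.eq_of_le_of_finrank_le (sup_le (fun x hx => xlina_mem A hA L (hLA x hx))
        ((Submodule.span_singleton_le_iff_mem _ _).2 (xlina_mem A hA L hζ))) (by omega)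
    obtain ⟨l₁, m₁, _, t₁, rfl⟩ := Submodule.mem_sup.1 (h5 ▸ hker hθ)
    obtain ⟨l₂, m₂, _, t₂, rfl⟩ := Submodule.mem_sup.1 (h5 ▸ hker hn)
    obtain ⟨c₁, rfl⟩ := Submodule.mem_span_singleton.1 t₁
    obtain ⟨c₂, rfl⟩ := Submodule.mem_span_singleton.1 t₂
    simp only [map_add, map_smul, hB, smul_zero, add_zero] at a b
    refine hθn ?_
    simp [hB, hLB _ m₁ _ m₂, b, xlina_skew B hB l₁ ζ, a]
  have step : ∀ {ζ ζ' : W}, A ζ + B ζ' = 0 → ∀ y, B ζ' y = -A ζ y := fun h y => by
    have := LinearMap.congr_fun h y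
    simp only [LinearMap.add_apply, LinearMap.zero_apply] at this
    linear_combination this
  have z : ∀ {x : W}, A x = 0 → ∀ ζ, -A ζ x = 0 := fun hx ζ => by
    rw [← xlina_skew A hA, hx, LinearMap.zero_apply]
  have m₃ : ζ₃ ∈ L := key _ (fun y _ => by rw [h₃, LinearMap.zero_apply])
    ((step h₂ θ).trans (z hθ _)) ((step h₂ n).trans (z hn _))
  have m₂ : ζ₂ ∈ L := key _ (fun y hy => neg_eq_zero.1 ((step h₂ y).symm.trans (hLB _ m₃ _ hy)))
    ((step h₁ θ).trans (z hθ _)) ((step h₁ n).trans (z hn _))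
  exact key _ (fun y hy => neg_eq_zero.1 ((step h₁ y).symm.trans (hLB _ m₂ _ hy))) e₁ e₂

end Pool.Agent.MP_d920b6_mp.Cx
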