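import Mathlib

/-! Semicontinuity of rank along lines; generalised inverses over local rings. -/

namespace Pool.Agent.MP_d920b6_mp.Cx

open Module Matrix

section field
variable {K U W : Type*} [Field K] [AddCommGroup U] [Module K U]
  [FiniteDimensional K U] [AddCommGroup W] [Module K W] [FiniteDimensional K W]

theorem li_cofinite {ι : Type*} [Fintype ι] (a b : ι → W) (h : LinearIndependent K a) :
    {t : K | ¬LinearIndependent K fun i => a i + t • b i}.Finite := by
  classical
  obtain ⟨f, hf⟩ := (Fintype.linearCombination K a).exists_leftInverse_of_injective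
    (LinearMap.ker_eq_bot.2 (linearIndependent_iff_injective_fintypeLinearCombination.1 h))
  have hfa : ∀ i, f (a i) = Pi.single i 1 := fun i => by
    have := LinearMap.congr_fun hf (Pi.single i 1)
    simpa using this
  let M : Matrix ι ι K := of fun i j => f (b i) j
  let p : Polynomial K := (1 + (Polynomial.X : Polynomial K) • M.map Polynomial.C).det
  have hp : ∀ t, p.eval t = (1 + t • M).det := fun t => by
    have := (Polynomial.evalRingHom t).map_det (1 + (Polynomial.X : Polynomial K) • M.map Polynomial.C)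
    rw [Polynomial.coe_evalRingHom] at this
    rw [this]
    congr 1
    ext i j
    simp only [RingHom.mapMatrix_apply, map_apply, Matrix.add_apply, Matrix.smul_apply, one_apply,
      smul_eq_mul, Polynomial.coe_evalRingHom, Polynomial.eval_add, Polynomial.eval_mul,
      Polynomial.eval_X, Polynomial.eval_C]
    split_ifs <;> simp
  have hp0 : p ≠ 0 := fun h0 => by
    have := hp 0
    simp [h0] at this
  refine (Polynomial.finite_setOfPred_isRoot hp0).subset fun t ht => ?_
  by_contra hc
  refine ht (LinearIndependent.of_comp f ?_)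
  have h1 : IsUnit (1 + t • M) := by
    rw [isUnit_iff_isUnit_det, isUnit_iff_ne_zero, ← hp]
    exact hc
  have e : (f ∘ fun i => a i + t • b i) = (1 + t • M).row := by
    ext i j
    simp [hfa, M, one_apply, Pi.single_apply, eq_comm]
  rw [e]
  exact linearIndependent_rows_iff_isUnit.2 h1

theorem xLinB_rank {ι : Type*} [Fintype ι] (T : K → U →ₗ[K] W) (a b : ι → W)
    (h : LinearIndependent K a) (hm : ∀ t, t ≠ 0 → ∀ i, a i + t • b i ∈ LinearMap.range (T t)) :
    {t : K | finrank K U < Fintype.card ι + finrank K (LinearMap.ker (T t))}.Finite := by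
  refine ((li_cofinite a b h).insert 0).subset fun t ht => ?_
  by_contra hc
  simp only [Set.mem_insert_iff, Set.mem_ofPred_eq, not_or, not_not] at hc
  have h1 : LinearIndependent K fun i => (⟨_, hm t hc.1 i⟩ : LinearMap.range (T t)) :=
    LinearIndependent.of_comp (LinearMap.range (T t)).subtype hc.2
  have h2 := h1.fintype_card_le_finrank
  have h3 := (T t).finrank_range_add_finrank_ker
  simp only [Set.mem_ofPred_eq] at ht
  omega

omit [FiniteDimensional K U] in
theorem xLinB_basis (T₀ : U →ₗ[K] W) : ∃ X : Fin (finrank K (LinearMap.range T₀)) → U,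
    LinearIndependent K fun i => T₀ (X i) := by
  let B := Module.finBasis K (LinearMap.range T₀)
  choose X hX using fun i => (B i).2
  refine ⟨X, ?_⟩
  simp only [hX]
  exact B.linearIndependent.map' (LinearMap.range T₀).subtype (Submodule.ker_subtype _)

omit [FiniteDimensional K U] [FiniteDimensional K W] in
theorem xLinB_mem (T₀ T₁ : U →ₗ[K] W) {ν : U} (hν : T₀ ν = 0) {t : K} (ht : t ≠ 0) :
    T₁ ν + t • (0 : W) ∈ LinearMap.range (T₀ + t • T₁) :=
  ⟨t⁻¹ • ν, by simp [hν, smul_smul, ht]⟩

omit [FiniteDimensional K W] in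
theorem xLinB_theta {ι : Type*} (a : ι → W) (θ : W →ₗ[K] K) (h : ∀ i, θ (a i) = 0) {w : W}
    (hw : θ w ≠ 0) : w ∉ Submodule.span K (Set.range a) := fun hm =>
  hw ((Submodule.span_le (p := LinearMap.ker θ)).2 (by rintro _ ⟨i, rfl⟩; exact h i) hm)

theorem ker_cofinite (T₀ T₁ : U →ₗ[K] W) :
    {t : K | finrank K (LinearMap.ker T₀) < finrank K (LinearMap.ker (T₀ + t • T₁))}.Finite := by
  obtain ⟨X, hX⟩ := xLinB_basis T₀
  refine (xLinB_rank (fun t => T₀ + t • T₁) _ (fun i => T₁ (X i)) hX
    fun t _ i => ⟨X i, by simp⟩).subset fun t ht => ?_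
  have h3 := T₀.finrank_range_add_finrank_ker
  simp only [Set.mem_ofPred_eq, Fintype.card_fin] at ht ⊢
  omega

/-- a first-order jump forces a larger kernel -/
theorem ker_jump (T₀ T₁ : U →ₗ[K] W) (r : ℕ)
    (hr : {t : K | r ≤ finrank K (LinearMap.ker (T₀ + t • T₁))}.Infinite)
    {ν : U} (hν : T₀ ν = 0) (θ : W →ₗ[K] K) (hθ : ∀ X, θ (T₀ X) = 0) (hθν : θ (T₁ ν) ≠ 0) :
    r + 1 ≤ finrank K (LinearMap.ker T₀) := by
  obtain ⟨X, hX⟩ := xLinB_basis T₀
  have hli : LinearIndependent K fun o : Option _ => o.elim (T₁ ν) fun i => T₀ (X i) :=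
    linearIndependent_option.2 ⟨hX, xLinB_theta _ θ (fun i => hθ _) hθν⟩
  obtain ⟨t, h1, h2⟩ := hr.exists_notMem_finite (xLinB_rank (fun t => T₀ + t • T₁) _
    (fun o => o.elim 0 fun i => T₁ (X i)) hli (by
      rintro t ht (_ | i)
      · exact xLinB_mem T₀ T₁ hν ht
      · exact ⟨X i, by simp⟩))
  have h3 := T₀.finrank_range_add_finrank_ker
  simp only [Set.mem_ofPred_eq, Fintype.card_option, Fintype.card_fin] at h1 h2
  omega

/-- kernel vectors orthogonal to the jump extend to first order -/
theorem exists_partner (T₀ T₁ : U →ₗ[K] W) (r : ℕ)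
    (hr : {t : K | r ≤ finrank K (LinearMap.ker (T₀ + t • T₁))}.Infinite)
    (hk : finrank K (LinearMap.ker T₀) ≤ r + 1)
    {ν : U} (hν : T₀ ν = 0) (θ : W →ₗ[K] K) (hθ : ∀ X, θ (T₀ X) = 0) (hθν : θ (T₁ ν) ≠ 0)
    {Z : U} (hZ : T₀ Z = 0) (hθZ : θ (T₁ Z) = 0) : ∃ X, T₁ Z = T₀ X := by
  by_contra hc
  obtain ⟨X, hX⟩ := xLinB_basis T₀
  have hli₀ : LinearIndependent K fun o : Option _ => o.elim (T₁ Z) fun i => T₀ (X i) := by
    refine linearIndependent_option.2 ⟨hX, fun hm => hc ?_⟩
    obtain ⟨Y, hY⟩ : T₁ Z ∈ LinearMap.range T₀ :=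
      (Submodule.span_le (p := LinearMap.range T₀)).2 (by rintro _ ⟨i, rfl⟩; exact ⟨_, rfl⟩) hm
    exact ⟨Y, hY.symm⟩
  have hli : LinearIndependent K fun o : Option (Option _) =>
      o.elim (T₁ ν) fun o' => o'.elim (T₁ Z) fun i => T₀ (X i) :=
    linearIndependent_option.2 ⟨hli₀, xLinB_theta _ θ (by
      rintro (_ | i)
      exacts [hθZ, hθ _]) hθν⟩
  obtain ⟨t, h1, h2⟩ := hr.exists_notMem_finite (xLinB_rank (fun t => T₀ + t • T₁) _
    (fun o => o.elim 0 fun o' => o'.elim 0 fun i => T₁ (X i)) hli (by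
      rintro t ht (_ | _ | i)
      · exact xLinB_mem T₀ T₁ hν ht
      · exact xLinB_mem T₀ T₁ hZ ht
      · exact ⟨X i, by simp⟩))
  have h3 := T₀.finrank_range_add_finrank_ker
  simp only [Set.mem_ofPred_eq, Fintype.card_option, Fintype.card_fin] at h1 h2
  omega

end field

/-- generalised inverse over a local domain when the rank does not drop -/
theorem exists_ginv {O K m n : Type*} [CommRing O] [IsLocalRing O] [Field K] [Fintype m]
    [Fintype n] [DecidableEq m] [DecidableEq n] (ι : O →+* K) (hι : Function.Injective ι)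
    (M : Matrix m n O) (h : (M.map ι).rank ≤ (M.map (IsLocalRing.residue O)).rank) :
    ∃ N : Matrix n m O, M * N * M = M := by
  classical
  obtain ⟨κ, a, ha, hsp, hli⟩ :=
    exists_linearIndependent' (IsLocalRing.ResidueField O) (M.map (IsLocalRing.residue O)).col
  have : Finite κ := Finite.of_injective a ha
  have : Fintype κ := Fintype.ofFinite κ
  let M' : Matrix m κ O := M.submatrix id a
  have hli' : LinearIndependent (IsLocalRing.ResidueField O)
      (M'.map (IsLocalRing.residue O)).col := hli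
  obtain ⟨f, hf⟩ := (M'.map (IsLocalRing.residue O)).mulVecLin.exists_leftInverse_of_injective
    (LinearMap.ker_eq_bot.2 (mulVec_injective_iff.2 hli'))
  have hf' : LinearMap.toMatrix' f * M'.map (IsLocalRing.residue O) = 1 := by
    have := congrArg LinearMap.toMatrix' hf
    rwa [LinearMap.toMatrix'_comp, ← toLin'_apply', LinearMap.toMatrix'_toLin',
      LinearMap.toMatrix'_id] at this
  choose N₀ hN₀ using fun i j => IsLocalRing.residue_surjective (LinearMap.toMatrix' f i j)
  have hG : IsUnit ((of N₀ : Matrix κ m O) * M').det := by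
    rw [← IsLocalRing.residue_ne_zero_iff_isUnit, RingHom.map_det, RingHom.mapMatrix_apply,
      Matrix.map_mul, show (of N₀ : Matrix κ m O).map (IsLocalRing.residue O) =
        LinearMap.toMatrix' f from Matrix.ext hN₀, hf', det_one]
    exact one_ne_zero
  obtain ⟨N₁, hN₁⟩ : ∃ N₁ : Matrix κ m O, N₁ * M' = 1 :=
    ⟨((of N₀ : Matrix κ m O) * M')⁻¹ * of N₀, by rw [Matrix.mul_assoc, nonsing_inv_mul _ hG]⟩
  have hK : N₁.map ι * M'.map ι = 1 := by
    rw [← Matrix.map_mul, hN₁, Matrix.map_one _ (map_zero ι) (map_one ι)]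
  have hliK : LinearIndependent K (M'.map ι).col := by
    refine mulVec_injective_iff.1 fun x y hxy => ?_
    have := congrArg (fun z => N₁.map ι *ᵥ z) hxy
    simpa only [mulVec_mulVec, hK, one_mulVec] using this
  have hle : Submodule.span K (Set.range (M'.map ι).col) ≤
      Submodule.span K (Set.range (M.map ι).col) :=
    Submodule.span_mono (by rintro _ ⟨i, rfl⟩; exact ⟨a i, rfl⟩)
  have heq : Submodule.span K (Set.range (M'.map ι).col) =
      Submodule.span K (Set.range (M.map ι).col) := by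
    refine Submodule.eq_of_le_of_finrank_le hle ?_
    rw [finrank_span_eq_card hliK, ← rank_eq_finrank_span_cols, ← finrank_span_eq_card hli, hsp,
      ← rank_eq_finrank_span_cols]
    exact h
  refine ⟨(1 : Matrix n n O).submatrix id a * N₁, ?_⟩
  have hC : M * (1 : Matrix n n O).submatrix id a = M' := by
    ext i j
    simp [M', mul_apply, one_apply]
  rw [← Matrix.mul_assoc, hC]
  refine Matrix.map_injective hι ?_
  show (M' * N₁ * M).map ι = M.map ι
  rw [Matrix.map_mul, Matrix.map_mul]
  refine Matrix.ext_col fun j => ?_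
  have hj : (M.map ι).col j ∈ LinearMap.range (M'.map ι).mulVecLin := by
    rw [range_mulVecLin, heq]
    exact Submodule.subset_span ⟨j, rfl⟩
  obtain ⟨c, hc⟩ := hj
  rw [mulVecLin_apply] at hc
  have e : (M'.map ι * N₁.map ι * M.map ι).col j = (M'.map ι * N₁.map ι) *ᵥ (M.map ι).col j := rfl
  rw [e, ← hc, mulVec_mulVec, Matrix.mul_assoc, hK, Matrix.mul_one]

end Pool.Agent.MP_d920b6_mp.Cx
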