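import Pool.Agent.MP_d920b6_mp.Cx.Basic

/-! `act` is a representation, Jacobi identities, the abelian subalgebra `InA κ`. -/

namespace Pool.Agent.MP_d920b6_mp.Cx

open Matrix

variable {R : Type*} [CommRing R]

theorem xRep_wedge_mul (g : Mat R) (ψ χ : Vec R) :
    gᵀ * wedge ψ χ + wedge ψ χ * g = wedge (ψ ᵥ* g) χ + wedge ψ (χ ᵥ* g) := by
  simp only [wedge, Matrix.mul_sub, Matrix.sub_mul, mul_vecMulVec, vecMulVec_mul,
    mulVec_transpose]
  abel

theorem xRep_row_mul (w g : Mat R) (i : Fin 4) : (w * g) i = w i ᵥ* g := by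
  ext j; simp [Matrix.mul_apply, vecMul, dotProduct]

theorem xRep_MM_mul (g w u : Mat R) (a b : Fin 2) :
    gᵀ * MM w u a b + MM w u a b * g = MM w (u * g) a b + MM (w * g) u a b := by
  have h1 := xRep_wedge_mul g (u (lo a)) (w (hi b))
  have h2 := xRep_wedge_mul g (u (hi b)) (w (lo a))
  simp only [MM, xRep_row_mul, Matrix.mul_add, Matrix.add_mul]
  rw [eq_sub_of_add_eq h1, eq_sub_of_add_eq h2]
  abel

theorem xRep_JJ_lo (w : Mat R) (a : Fin 2) : (JJ * w : Mat R) (lo a) = w (lo a) := by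
  ext j; fin_cases a <;> simp [JJ, lo, diagonal_mul]

theorem xRep_JJ_hi (w : Mat R) (a : Fin 2) : (JJ * w : Mat R) (hi a) = -w (hi a) := by
  ext j; fin_cases a <;> simp [JJ, hi, diagonal_mul]

theorem xRep_MM_JJ (w u : Mat R) (a b : Fin 2) :
    MM (JJ * w) u a b = -MM w (JJ * u) a b := by
  simp only [MM, xRep_JJ_lo, xRep_JJ_hi]
  ext i j; simp [wedge, vecMulVec_apply]; ring

theorem xRep_sk_conj (g σ : Mat R) : sk (gᵀ * sk σ + sk σ * g) = gᵀ * sk σ + sk σ * g := by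
  refine sk_of_skew _ ?_ fun i => ?_
  · rw [transpose_add, transpose_mul, transpose_mul, transpose_transpose, sk_transpose,
      Matrix.neg_mul, Matrix.mul_neg]
    abel
  · have h : (sk σ * g) i i = -(gᵀ * sk σ) i i := by
      rw [← transpose_apply (sk σ * g), transpose_mul, sk_transpose, Matrix.mul_neg,
        Matrix.neg_apply]
    rw [Matrix.add_apply, h, add_neg_cancel]

theorem xRep_sk_act (X : IK → R) (v : IV → R) (a b : Fin 2) :
    sk (sgP (act X v) a b) = sgP (act X v) a b := by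
  rw [sgP_act, sk_sub, sk_MM, xRep_sk_conj]

theorem act_kbr (X Y : IK → R) (v : IV → R) :
    act (kbr X Y) v = act X (act Y v) - act Y (act X v) := by
  refine extV ?_ (fun a b => ?_) ?_
  · simp only [wP_act, wP_sub, sP_kbr, hat_gP_kbr, zero_smul, Matrix.mul_sub, Matrix.sub_mul,
      Matrix.mul_smul, Matrix.smul_mul, smul_sub, Matrix.mul_assoc, smul_comm (sP X) (sP Y)]
    abel
  · have h1 := xRep_MM_mul (hat (gP X)) (wP v) (uP Y) a b
    have h2 := xRep_MM_mul (hat (gP Y)) (wP v) (uP X) a b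
    rw [sgP_sub, sgP_act X (act Y v), sgP_act Y (act X v), xRep_sk_act, xRep_sk_act]
    simp only [sgP_act, wP_act, uP_kbr, hat_gP_kbr, MM_sub_left, MM_sub_right, MM_add_right,
      MM_smul_left, MM_smul_right, xRep_MM_JJ, transpose_sub, transpose_mul, Matrix.mul_sub,
      Matrix.sub_mul, Matrix.mul_add, Matrix.add_mul, Matrix.mul_assoc, smul_neg]
    rw [eq_sub_of_add_eq h1, eq_sub_of_add_eq h2]
    abel
  · simp only [tauP_act, tauP_sub, wP_act, sP_kbr, tP_kbr, nP_kbr, zero_smul, mulVec_add,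
      mulVec_sub, mulVec_smul, sub_mulVec, smul_mulVec, smul_add, ← mulVec_mulVec,
      smul_comm (sP X) (sP Y), smul_comm (tP X) (tP Y), smul_comm (sP X) (tP Y),
      smul_comm (tP X) (sP Y)]
    abel

theorem kbr_leibniz (X Y Z : IK → R) :
    kbr X (kbr Y Z) = kbr (kbr X Y) Z + kbr Y (kbr X Z) := by
  refine extK ?_ (by simp) (by simp) ?_ ?_
  · simp only [gP_add, gP_kbr X (kbr Y Z), gP_kbr (kbr X Y), gP_kbr Y (kbr X Z), hat_gP_kbr]
    noncomm_ring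
  · simp only [uP_add, uP_kbr, hat_gP_kbr, sP_kbr, zero_smul, Matrix.mul_sub, Matrix.sub_mul,
      Matrix.mul_add, Matrix.add_mul, Matrix.mul_smul, Matrix.smul_mul, smul_sub, smul_add,
      Matrix.mul_assoc, smul_comm (sP X) (sP Y), smul_comm (sP X) (sP Z), smul_comm (sP Y) (sP Z)]
    abel
  · simp only [nP_add, nP_kbr, hat_gP_kbr, tP_kbr, zero_smul, mulVec_add, mulVec_sub,
      mulVec_smul, sub_mulVec, smul_add, smul_sub, ← mulVec_mulVec,
      smul_comm (tP X) (tP Y), smul_comm (tP X) (tP Z), smul_comm (tP Y) (tP Z)]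
    abel

theorem xRep_kp_lbr (X Y : II → R) : kp (lbr X Y) = kbr (kp X) (kp Y) := rfl
theorem xRep_vp_lbr (X Y : II → R) :
    vp (lbr X Y) = dact (vp X) (kp Y) - dact (vp Y) (kp X) := rfl
theorem xRep_vp_lbr_dot (X Y : II → R) (v : IV → R) :
    vp (lbr X Y) ⬝ᵥ v = vp X ⬝ᵥ act (kp Y) v - vp Y ⬝ᵥ act (kp X) v := by
  rw [xRep_vp_lbr, sub_dotProduct, dact_dot, dact_dot]

theorem lbr_add_left (X Y Z : II → R) : lbr (X + Y) Z = lbr X Z + lbr Y Z := by
  refine extI ?_ (eq_of_dotV fun v => ?_)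
  · simp only [kp_add, xRep_kp_lbr, kbr_add_left]
  · simp only [vp_add, kp_add, add_dotProduct, xRep_vp_lbr_dot, act_add_left, dotProduct_add]
    ring
theorem lbr_add_right (X Y Z : II → R) : lbr X (Y + Z) = lbr X Y + lbr X Z := by
  refine extI ?_ (eq_of_dotV fun v => ?_)
  · simp only [kp_add, xRep_kp_lbr, kbr_add_right]
  · simp only [vp_add, kp_add, add_dotProduct, xRep_vp_lbr_dot, act_add_left, dotProduct_add]
    ring
theorem lbr_smul_right (c : R) (X Y : II → R) : lbr X (c • Y) = c • lbr X Y := by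
  refine extI ?_ (eq_of_dotV fun v => ?_)
  · simp only [kp_smul, xRep_kp_lbr, kbr_smul_right]
  · simp only [vp_smul, kp_smul, smul_dotProduct, xRep_vp_lbr_dot, act_smul_left,
      dotProduct_smul, smul_eq_mul]
    ring
theorem lbr_self (X : II → R) : lbr X X = 0 := by
  refine extI ?_ ?_
  · rw [xRep_kp_lbr, kbr_self, kp_zero]
  · rw [xRep_vp_lbr, sub_self, vp_zero]
theorem lbr_leibniz (X Y Z : II → R) :
    lbr X (lbr Y Z) = lbr (lbr X Y) Z + lbr Y (lbr X Z) := by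
  refine extI ?_ (eq_of_dotV fun v => ?_)
  · simp only [kp_add, xRep_kp_lbr, kbr_leibniz (kp X)]
  · simp only [vp_add, add_dotProduct, xRep_vp_lbr_dot, xRep_kp_lbr, act_kbr, dotProduct_sub]
    ring

variable {κ : Vec R} {X Y Z : IK → R}

theorem InA.add (hX : InA κ X) (hY : InA κ Y) : InA κ (X + Y) := by
  obtain ⟨⟨φ, h1, h1'⟩, h2, h3, h4, c, h5⟩ := hX
  obtain ⟨⟨φ', k1, k1'⟩, k2, k3, k4, c', k5⟩ := hY
  refine ⟨⟨φ + φ', ?_, ?_⟩, ?_, ?_, ?_, c + c', ?_⟩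
  · rw [gP_add, hat_add, h1, k1, vecMulVec_add]
  · rw [add_dotProduct, h1', k1', add_zero]
  · rw [sP_add, h2, k2, add_zero]
  · rw [tP_add, h3, k3, add_zero]
  · rw [uP_add, add_mulVec, h4, k4, add_zero]
  · rw [nP_add, h5, k5, add_smul]
theorem InA.smul (c : R) (hX : InA κ X) : InA κ (c • X) := by
  obtain ⟨⟨φ, h1, h1'⟩, h2, h3, h4, c', h5⟩ := hX
  refine ⟨⟨c • φ, ?_, ?_⟩, ?_, ?_, ?_, c * c', ?_⟩
  · rw [gP_smul, hat_smul, h1, vecMulVec_smul]
  · rw [smul_dotProduct, h1', smul_zero]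
  · rw [sP_smul, h2, mul_zero]
  · rw [tP_smul, h3, mul_zero]
  · rw [uP_smul, smul_mulVec, h4, smul_zero]
  · rw [nP_smul, h5, mul_smul]

theorem xRep_GG (φ φ' : Vec R) (h : φ ⬝ᵥ κ = 0) : vecMulVec κ φ * vecMulVec κ φ' = 0 := by
  rw [vecMulVec_mul_vecMulVec, h]; simp
theorem xRep_uG (u : Mat R) (φ : Vec R) (h : u *ᵥ κ = 0) : u * vecMulVec κ φ = 0 := by
  rw [mul_vecMulVec, h]; simp
theorem xRep_Gv (φ m : Vec R) : vecMulVec κ φ *ᵥ m = (φ ⬝ᵥ m) • κ := by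
  ext i; simp [mulVec, dotProduct, vecMulVec_apply, Finset.sum_mul]
  exact Finset.sum_congr rfl fun _ _ => by ring

theorem InA.kbr_eq_zero (hX : InA κ X) (hY : InA κ Y) : kbr X Y = 0 := by
  obtain ⟨⟨φ, h1, h1'⟩, h2, h3, h4, c, h5⟩ := hX
  obtain ⟨⟨φ', k1, k1'⟩, k2, k3, k4, c', k5⟩ := hY
  refine extK ?_ (by simp) (by simp) ?_ ?_
  · rw [gP_kbr, h1, k1, xRep_GG _ _ h1', xRep_GG _ _ k1', sub_self, gP_zero]
  · rw [uP_kbr, h1, k1, xRep_uG _ _ h4, xRep_uG _ _ k4, h2, k2]; simp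
  · rw [nP_kbr, h1, k1, h5, k5, h3, k3, xRep_Gv, xRep_Gv, dotProduct_smul, dotProduct_smul,
      h1', k1']; simp

/-- the normaliser condition: the bracket with an element fixing the line of `κ` stays in `A` -/
theorem xRep_kbr_mem (hY : InA κ Y) (W : IK → R) (c : R) (hW : hat (gP W) *ᵥ κ = c • κ) :
    InA κ (kbr Y W) := by
  obtain ⟨⟨φ, h1, h1'⟩, h2, h3, h4, c', h5⟩ := hY
  refine ⟨⟨φ ᵥ* hat (gP W) - c • φ, ?_, ?_⟩, rfl, rfl, ?_, φ ⬝ᵥ nP W - c' * c - tP W * c', ?_⟩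
  · rw [hat_gP_kbr, h1, vecMulVec_mul, mul_vecMulVec, hW, vecMulVec_sub, vecMulVec_smul,
      smul_vecMulVec]
  · rw [sub_dotProduct, ← dotProduct_mulVec, hW, dotProduct_smul, smul_dotProduct, h1', sub_self]
  · rw [uP_kbr, h1, h2]
    simp only [sub_mulVec, smul_mulVec, ← mulVec_mulVec, hW, mulVec_smul, h4,
      xRep_Gv, h1', smul_zero, zero_smul, mulVec_zero, sub_zero, add_zero]
  · rw [nP_kbr, h1, h3, h5, xRep_Gv, mulVec_smul, hW]
    simp only [sub_smul, mul_smul, zero_smul, add_zero]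

theorem InA.kbr₃ (hX : InA κ X) (hY : InA κ Y) (hZ : InA κ Z) (W : IK → R) :
    kbr X (kbr Y (kbr Z W)) = 0 := by
  obtain ⟨⟨φ, h1, h1'⟩, -⟩ := hZ
  refine hX.kbr_eq_zero (xRep_kbr_mem hY _ (φ ⬝ᵥ (hat (gP W) *ᵥ κ)) ?_)
  rw [hat_gP_kbr, h1, sub_mulVec, ← mulVec_mulVec, ← mulVec_mulVec, xRep_Gv, xRep_Gv, h1',
    zero_smul, mulVec_zero, sub_zero]
theorem InA.kbr₂ (hY : InA κ Y) (W : IK → R) (c : R) (hW : hat (gP W) *ᵥ κ = c • κ) :
    kbr Y (kbr Y W) = 0 := hY.kbr_eq_zero (xRep_kbr_mem hY W c hW)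

end Pool.Agent.MP_d920b6_mp.Cx
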