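import Pool.Agent.MP_d920b6_mp.Cx.KV
import Pool.Agent.MP_d920b6_mp.Cx.Rep
import Pool.Agent.MP_d920b6_mp.Cx.LinA
import Pool.Agent.MP_d920b6_mp.Cx.LinB

/-! Coranks of the forms `PF x`; first-order partners. -/

namespace Pool.Agent.MP_d920b6_mp.Cx

open Matrix Module

variable {k : Type*} [Field k]

theorem cork_le (x : II → k) :
    finrank k (LinearMap.ker (PFL x)) ≤ 46 + 2 * finrank k (kst (vp x)) := by
  let f := (LinearMap.funLeft k k (Sum.inl : IK → II)).domRestrict (LinearMap.ker (PFL x))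
  have h₁ : finrank k (LinearMap.range f) + finrank k (LinearMap.ker f) =
      finrank k (LinearMap.ker (PFL x)) := f.finrank_range_add_finrank_ker
  have h₂ : finrank k (LinearMap.range f) ≤ finrank k (kst (vp x)) := Submodule.finrank_mono (by
    rintro _ ⟨⟨Z, hZ⟩, rfl⟩
    refine (mem_kst _ _).2 (eq_of_dotV fun φ => ?_)
    have := LinearMap.congr_fun hZ (Sum.elim 0 φ)
    simp only [PFL_apply, PF, kp_elim, vp_elim, kbr_zero_right, act_zero_left, dotProduct_zero,
      LinearMap.zero_apply, zero_add, zero_sub, neg_eq_zero] at this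
    rw [dotProduct_comm, zero_dotProduct]
    exact this)
  have h₃ : finrank k (LinearMap.ker f) ≤
      finrank k (LinearMap.ker (actMat (vp x))ᵀ.mulVecLin) := by
    refine LinearMap.finrank_le_finrank_of_injective (f := LinearMap.codRestrict _
      ((LinearMap.funLeft k k (Sum.inr : IV → II)) ∘ₗ (LinearMap.ker (PFL x)).subtype ∘ₗ
        (LinearMap.ker f).subtype) ?_) ?_
    · rintro ⟨⟨Z, hZ⟩, h0⟩
      have h0 : kp Z = 0 := h0
      show (actMat (vp x))ᵀ *ᵥ vp Z = 0
      rw [mulVec_transpose]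
      refine eq_of_dotK fun X => ?_
      have := LinearMap.congr_fun hZ (Sum.elim X 0)
      simp only [PFL_apply, PF, kp_elim, vp_elim, h0, kbr_zero_left, dotProduct_zero,
        zero_dotProduct, LinearMap.zero_apply, zero_add, sub_zero] at this
      rw [zero_dotProduct]
      exact (coad_dot _ _ _).trans this
    · rintro ⟨⟨Z, hZ⟩, h0⟩ ⟨⟨Z', hZ'⟩, h0'⟩ e
      have h0 : kp Z = 0 := h0
      have h0' : kp Z' = 0 := h0'
      exact Subtype.ext (Subtype.ext (extI (h0.trans h0'.symm) (congrArg Subtype.val e)))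
  have h₄ := (actMat (vp x))ᵀ.mulVecLin.finrank_range_add_finrank_ker
  have h₅ := (actMat (vp x)).mulVecLin.finrank_range_add_finrank_ker
  have h₆ : finrank k (LinearMap.range (actMat (vp x))ᵀ.mulVecLin) =
      finrank k (LinearMap.range (actMat (vp x)).mulVecLin) := rank_transpose _
  rw [finrank_fintype_fun_eq_card, card_IV] at h₄
  rw [finrank_fintype_fun_eq_card, card_IK] at h₅
  unfold kst at *
  omega

theorem xcork_det (x : II → k) (hw : (wP (vp x)).det ≠ 0) :
    54 ≤ finrank k (LinearMap.ker (PFL x)) := by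
  obtain ⟨S, h₁, h₂, h₃⟩ := exists_ab (vp x) hw
  let F : (S × (IV → k)) →ₗ[k] (II → k) :=
    (LinearEquiv.sumArrowLequivProdArrow IK IV k k).symm.toLinearMap ∘ₗ
      S.subtype.prodMap LinearMap.id
  have hF : ∀ z, F z = Sum.elim z.1.1 z.2 := fun z => extI rfl rfl
  have inj : Function.Injective F := fun z z' e => by
    rw [hF, hF] at e
    exact Prod.ext (Subtype.ext (congrArg kp e)) (congrArg vp e)
  have := iso_le (PFL x) (PF_self x) (LinearMap.range F) (by
    rintro _ ⟨z, rfl⟩ _ ⟨z', rfl⟩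
    simp only [hF, PFL_apply, PF, kp_elim, vp_elim, h₃ _ z.1.2 _ z'.1.2,
      (mem_kst _ _).1 (h₁ z.1.2), (mem_kst _ _).1 (h₁ z'.1.2), dotProduct_zero, add_zero,
      sub_zero])
  rw [LinearMap.finrank_range_of_inj inj, finrank_prod, finrank_fintype_fun_eq_card,
    finrank_fintype_fun_eq_card, card_IV, card_II] at this
  omega

theorem xcork_fin (w : Mat k) : {t : k | (w + t • (1 : Mat k)).det = 0}.Finite := by
  refine (Polynomial.finite_setOfPred_isRoot (-w).charpoly_monic.ne_zero).subset fun t ht => ?_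
  have e : scalar (Fin 4) t - -w = w + t • (1 : Mat k) := by
    rw [sub_neg_eq_add, add_comm, scalar_apply, smul_one_eq_diagonal]
  show (-w).charpoly.eval t = 0
  rw [eval_charpoly, e]
  exact ht

theorem cork_ge [CharZero k] (x : II → k) : 54 ≤ finrank k (LinearMap.ker (PFL x)) := by
  obtain ⟨t, ht⟩ := ((ker_cofinite (PFL x) (PFL aI)).union (xcork_fin (wP (vp x)))).exists_notMem
  rw [Set.mem_union, not_or] at ht
  have e : PFL x + t • PFL aI = PFL (x + t • aI) := LinearMap.ext₂ fun Z Z' => by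
    simp only [LinearMap.add_apply, LinearMap.smul_apply, PFL_apply, PF_add_pt, PF_smul_pt,
      smul_eq_mul]
  refine (xcork_det (x + t • aI) ?_).trans (e ▸ not_lt.1 ht.1)
  rw [vp_add, vp_smul, vp_aI, wP_add, wP_smul, wP_aV]
  exact ht.2

theorem cork_aI [CharZero k] : finrank k (LinearMap.ker (PFL (aI : II → k))) = 54 := by
  have h₁ := cork_le (aI : II → k)
  have h₂ := finrank_kst_aV (k := k) two_ne_zero
  have h₃ := cork_ge (aI : II → k)
  rw [vp_aI] at h₁
  omega

theorem xcork_coad (v : IV → k) (f : Dual k (IK → k)) (h : ∀ X, act X v = 0 → f X = 0) :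
    ∃ φ, ∀ X, φ ⬝ᵥ act X v = f X := by
  have : f ∈ LinearMap.range (actMat v).mulVecLin.dualMap := by
    rw [LinearMap.range_dualMap_eq_dualAnnihilator_ker, Submodule.mem_dualAnnihilator]
    exact fun X hX => h X ((mem_kst _ _).1 hX)
  obtain ⟨g, rfl⟩ := this
  obtain ⟨φ, rfl⟩ := (dotProductEquiv k IV).surjective g
  exact ⟨φ, fun X => by rw [← actMat_mulVec]; rfl⟩

/-- a covector on `k` vanishing on `k_v` comes from `V*` -/
theorem exists_coad (v : IV → k) (ξ : IK → k) (h : ∀ X, act X v = 0 → ξ ⬝ᵥ X = 0) :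
    ∃ φ, coad φ v = ξ :=
  (xcork_coad v (dotProductEquiv k IK ξ) h).imp fun _ hφ =>
    eq_of_dotK fun X => (coad_dot _ _ _).trans (hφ X)

theorem exists_ker_lift (x : II → k) (ν : IK → k) (hν : act ν (vp x) = 0)
    (h : ∀ X, act X (vp x) = 0 → kbr ν X = 0) : ∃ φ, PFL x (Sum.elim ν φ) = 0 := by
  obtain ⟨φ, hφ⟩ := xcork_coad (vp x) (-(dotProductEquiv k IK (kp x) ∘ₗ kbrL ν)) fun X hX => by
    show -(kp x ⬝ᵥ kbr ν X) = 0
    rw [h X hX, dotProduct_zero, neg_zero]
  refine ⟨φ, LinearMap.ext fun Z => ?_⟩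
  have e : φ ⬝ᵥ act (kp Z) (vp x) = -(kp x ⬝ᵥ kbr ν (kp Z)) := hφ _
  simp only [PFL_apply, PF, kp_elim, vp_elim, hν, e, dotProduct_zero, add_neg_cancel, sub_zero,
    LinearMap.zero_apply]

variable [CharZero k] {v θ : IV → k} {κ y : Vec k} {ν : IK → k}

theorem xcork_inf (v : IV → k) : {t : k | 4 ≤ finrank k (LinearMap.ker
    ((actMat v).mulVecLin + t • (actMat (aV : IV → k)).mulVecLin))}.Infinite := by
  refine (xcork_fin (wP v)).infinite_compl.mono fun t ht => ?_
  obtain ⟨S, h₁, h₂, -⟩ := exists_ab (v + t • aV) (by rw [wP_add, wP_smul, wP_aV]; exact ht)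
  refine h₂.trans (Submodule.finrank_mono fun X hX => ?_)
  have := (mem_kst _ _).1 (h₁ hX)
  rw [act_add_right, act_smul_right, ← actMat_mulVec, ← actMat_mulVec] at this
  exact this

theorem five_le_kst (hθ : coad θ v = 0) (hν : act ν v = 0) (hθν : θ ⬝ᵥ act ν aV ≠ 0) :
    5 ≤ finrank k (kst v) :=
  ker_jump _ _ 4 (xcork_inf v) ((actMat_mulVec ν v).trans hν) (dotProductEquiv k IV θ)
    (fun X => (dotProduct_mulVec θ _ X).trans (by rw [← coad, hθ, zero_dotProduct]))
    (by rwa [← actMat_mulVec] at hθν)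

theorem Good.partner (h : Good ⊤ v κ y) (hθ : coad θ v = 0) (hν : act ν v = 0)
    (hθν : θ ⬝ᵥ act ν aV ≠ 0) {Z : IK → k} (hZ : act Z v = 0) (hθZ : θ ⬝ᵥ act Z aV = 0) :
    ∃ X, act Z aV = act X v := by
  obtain ⟨X, hX⟩ := exists_partner _ _ 4 (xcork_inf v) (h.finrank_kst two_ne_zero)
    ((actMat_mulVec ν v).trans hν) (dotProductEquiv k IV θ)
    (fun X => (dotProduct_mulVec θ _ X).trans (by rw [← coad, hθ, zero_dotProduct]))
    (by rwa [← actMat_mulVec] at hθν) ((actMat_mulVec Z v).trans hZ)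
    (by rwa [← actMat_mulVec] at hθZ)
  exact ⟨X, by rw [← actMat_mulVec, ← actMat_mulVec]; exact hX⟩

end Pool.Agent.MP_d920b6_mp.Cx
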