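import Mathlib

/-! Definitions for the counterexample to the generalised argument shift conjecture.
The Lie algebra is `k ⋉ V*` with `k = IK → R`, `V = V* = IV → R` (pairing: dot product). -/

namespace Pool.Agent.MP_d920b6_mp.Cx

open Matrix

abbrev Mat (R : Type*) := Matrix (Fin 4) (Fin 4) R
abbrev Vec (R : Type*) := Fin 4 → R
/-- coordinates `(g, s, s', u, n)` of `k`; 38 of them -/
abbrev IK := (Fin 4 × Fin 4) ⊕ Unit ⊕ Unit ⊕ (Fin 4 × Fin 4) ⊕ Fin 4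
/-- coordinates of the `σ` part -/
abbrev IS := Fin 2 × Fin 2 × Fin 4 × Fin 4
/-- coordinates `(w, σ, τ)` of `V`; 84 of them -/
abbrev IV := (Fin 4 × Fin 4) ⊕ IS ⊕ Fin 4
/-- all coordinates; 122 of them -/
abbrev II := IK ⊕ IV

section ring
variable {R : Type*}

def gP (X : IK → R) : Mat R := of fun i j => X (.inl (i, j))
def sP (X : IK → R) : R := X (.inr (.inl ()))
def tP (X : IK → R) : R := X (.inr (.inr (.inl ())))
def uP (X : IK → R) : Mat R := of fun i j => X (.inr (.inr (.inr (.inl (i, j)))))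
def nP (X : IK → R) : Vec R := fun i => X (.inr (.inr (.inr (.inr i))))
def mkK (g : Mat R) (s t : R) (u : Mat R) (n : Vec R) : IK → R :=
  Sum.elim (fun p => g p.1 p.2) <| Sum.elim (fun _ => s) <| Sum.elim (fun _ => t) <|
    Sum.elim (fun p => u p.1 p.2) n

def wP (v : IV → R) : Mat R := of fun i j => v (.inl (i, j))
def sgP (v : IV → R) (a b : Fin 2) : Mat R := of fun i j => v (.inr (.inl (a, b, i, j)))
def tauP (v : IV → R) : Vec R := fun i => v (.inr (.inr i))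
def mkV (w : Mat R) (σ : Fin 2 → Fin 2 → Mat R) (τ : Vec R) : IV → R :=
  Sum.elim (fun p => w p.1 p.2) <| Sum.elim (fun p => σ p.1 p.2.1 p.2.2.1 p.2.2.2) τ

def kp (x : II → R) : IK → R := fun i => x (.inl i)
def vp (x : II → R) : IV → R := fun i => x (.inr i)

def lo : Fin 2 → Fin 4 := ![0, 1]
def hi : Fin 2 → Fin 4 := ![2, 3]
/-- the first two coordinates -/
def vlo (y : Vec R) : Fin 2 → R := ![y 0, y 1]
/-- the last two coordinates -/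
def vhi (y : Vec R) : Fin 2 → R := ![y 2, y 3]
/-- drop coordinate `0` -/
def bar (ψ : Vec R) : Fin 3 → R := ![ψ 1, ψ 2, ψ 3]

variable [CommRing R]

/-- projection onto traceless matrices -/
def hat (g : Mat R) : Mat R := g - single 0 0 (trace g)
/-- projection onto skew matrices -/
def sk (σ : Mat R) : Mat R := of fun i j => if i < j then σ i j else if j < i then -σ j i else 0
def wedge (ψ χ : Vec R) : Mat R := vecMulVec ψ χ - vecMulVec χ ψ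
def JJ : Mat R := diagonal ![1, 1, -1, -1]
def MM (w u : Mat R) (a b : Fin 2) : Mat R :=
  wedge (u (lo a)) (w (hi b)) + wedge (u (hi b)) (w (lo a))

/-- the representation `Θ` of `k` on `V` -/
def act (X : IK → R) (v : IV → R) : IV → R :=
  mkV (sP X • (JJ * wP v) - wP v * hat (gP X))
    (fun a b => MM (wP v) (uP X) a b -
      ((hat (gP X))ᵀ * sk (sgP v a b) + sk (sgP v a b) * hat (gP X)))
    (sP X • (JJ *ᵥ tauP v) + tP X • tauP v + wP v *ᵥ nP X)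

/-- the bracket of `k` -/
def kbr (X Y : IK → R) : IK → R :=
  mkK (hat (gP X) * hat (gP Y) - hat (gP Y) * hat (gP X)) 0 0
    (uP X * hat (gP Y) - uP Y * hat (gP X) + sP X • (JJ * uP Y) - sP Y • (JJ * uP X))
    (hat (gP X) *ᵥ nP Y - hat (gP Y) *ᵥ nP X + tP X • nP Y - tP Y • nP X)

/-- the `V` part of the shift vector `a` -/
def aV : IV → R := mkV 1 0 0
/-- the shift vector `a` -/
def aI : II → R := Sum.elim 0 aV

/-- matrix of `X ↦ act X v` -/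
def actMat (v : IV → R) : Matrix IV IK R := of fun j i => act (Pi.single i 1) v j
/-- the covector `X ↦ φ ⬝ᵥ act X v` -/
def coad (φ v : IV → R) : IK → R := φ ᵥ* actMat v
/-- the covector `v ↦ φ ⬝ᵥ act X v` -/
def dact (φ : IV → R) (X : IK → R) : IV → R := fun j => φ ⬝ᵥ act X (Pi.single j 1)
/-- the bracket of `k ⋉ V*` -/
def lbr (Z Z' : II → R) : II → R :=
  Sum.elim (kbr (kp Z) (kp Z')) (dact (vp Z) (kp Z') - dact (vp Z') (kp Z))
/-- the form `x ([Z, Z'])` -/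
def PF (x Z Z' : II → R) : R :=
  kp x ⬝ᵥ kbr (kp Z) (kp Z') + vp Z ⬝ᵥ act (kp Z') (vp x) - vp Z' ⬝ᵥ act (kp Z) (vp x)

/-- the stabiliser `k_v` -/
def kst (v : IV → R) : Submodule R (IK → R) := LinearMap.ker (actMat v).mulVecLin

/-- matrix of `u ↦ MM w u` -/
def MMat (w : Mat R) : Matrix IS (Fin 4 × Fin 4) R :=
  of fun j i => MM w (single i.1 i.2 1) j.1 j.2.1 j.2.2.1 j.2.2.2

/-- the abelian subalgebra attached to `κ` -/
def InA (κ : Vec R) (X : IK → R) : Prop :=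
  (∃ φ : Vec R, hat (gP X) = vecMulVec κ φ ∧ φ ⬝ᵥ κ = 0) ∧ sP X = 0 ∧ tP X = 0 ∧
    uP X *ᵥ κ = 0 ∧ ∃ c : R, nP X = c • κ

def tri (α β γ : Fin 3 → R) : R := α ⬝ᵥ (β ⨯₃ γ)
def rowP (p : Fin 2 → R) (w : Mat R) : Vec R := p 0 • w 0 + p 1 • w 1
def rowM (q : Fin 2 → R) (w : Mat R) : Vec R := q 0 • w 2 + q 1 • w 3
def psi (v : IV → R) (κ : Vec R) (p q : Fin 2 → R) : Vec R :=
  ∑ a, ∑ b, (p a * q b) • (κ ᵥ* sk (sgP v a b))
/-- the biquadratic form whose zero set is the elliptic curve -/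
def cc (v : IV → R) (κ : Vec R) (p q : Fin 2 → R) : R :=
  tri (bar (rowP p (wP v))) (bar (rowM q (wP v))) (bar (psi v κ p q))
def Lam (v : IV → R) (κ y φ : Vec R) : R :=
  tri (bar φ) (bar (rowP (vlo y) (wP v))) (bar (psi v κ (vlo y) (vhi y)))
def pol (Q : (Fin 2 → R) → R) : Fin 3 → R :=
  ![Q ![1, 0], Q ![1, 1] - Q ![1, 0] - Q ![0, 1], Q ![0, 1]]
def cf (v : IV → R) (κ : Vec R) (i j : Fin 3) : R :=
  pol (fun p => pol (fun q => cc v κ p q) j) i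
def mon (p : Fin 2 → R) : Fin 3 → R := ![p 0 ^ 2, p 0 * p 1, p 1 ^ 2]
def bq (c : Fin 3 → Fin 3 → R) (p q : Fin 2 → R) : R :=
  ∑ i, ∑ j, c i j * mon p i * mon q j
/-- coefficient of `q₀ ^ (2 - j) * q₁ ^ j` in `bq c ![1, X] q` -/
noncomputable def PP (c : Fin 3 → Fin 3 → R) (j : Fin 3) : Polynomial R :=
  Polynomial.C (c 0 j) + Polynomial.C (c 1 j) * Polynomial.X +
    Polynomial.C (c 2 j) * Polynomial.X ^ 2
noncomputable def Dsc (c : Fin 3 → Fin 3 → R) : Polynomial R :=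
  PP c 1 ^ 2 - 4 * PP c 2 * PP c 0

/-- `V*` element `v ↦ y ⬝ᵥ (w m)` -/
def th (y m : Vec R) : IV → R := mkV (vecMulVec y m) 0 0
/-- `k*` element `X ↦ y ⬝ᵥ (ĝ m - s J m + n)` -/
def dl (y m : Vec R) : IK → R := mkK 0 0 0 0 y - coad (th y m) aV

/-- gauge element -/
def YY (v : IV → R) (κ y y' : Vec R) (u : Mat R) : IK → R :=
  mkK (vecMulVec κ (y' ᵥ* wP v)) 0 0 u ((y ⬝ᵥ tauP v - y' ⬝ᵥ tauP v) • κ)

/-- the equations for the `V*` part of the gauge transformation -/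
def Sol (ξ Y : IK → R) (v' φ₁ φ₂ : IV → R) : Prop :=
  ∀ X : IK → R, φ₁ ⬝ᵥ act X v' + φ₂ ⬝ᵥ act X aV = ξ ⬝ᵥ kbr Y X ∧
    2 * (φ₂ ⬝ᵥ act X v') = -(ξ ⬝ᵥ kbr Y (kbr Y X))

/-- the moved point -/
def pt (ξ : IK → R) (v' φ₁ : IV → R) : II → R := Sum.elim (ξ + coad φ₁ aV) v'

/-- `ζ` starts a chain of length three for the pencil at `x` -/
def Chain (x ζ : II → R) : Prop :=
  ∃ ζ₂ ζ₃ : II → R, ∀ Z, PF x ζ Z + PF aI ζ₂ Z = 0 ∧ PF x ζ₂ Z + PF aI ζ₃ Z = 0 ∧ PF x ζ₃ Z = 0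

/-- conditions on the `w` part, with witnesses in `S` -/
structure GoodW (S : Subring R) (w : Mat R) (κ y : Vec R) : Prop where
  mw : ∀ i j, w i j ∈ S
  mκ : ∀ i, κ i ∈ S
  my : ∀ i, y i ∈ S
  κ0 : κ 0 = 1
  wκ : w *ᵥ κ = 0
  yw : y ᵥ* w = 0
  yκ : y ⬝ᵥ κ = 1
  inv : ∃ W : Mat R, (∀ i j, W i j ∈ S) ∧ W * (w + vecMulVec κ y) = 1
  ylo : ∃ e₀ ∈ S, ∃ e₁ ∈ S, y 0 * e₀ + y 1 * e₁ = 1
  yhi : ∃ e₂ ∈ S, ∃ e₃ ∈ S, y 2 * e₂ + y 3 * e₃ = 1

/-- conditions on `v`, with witnesses in `S` -/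
structure Good (S : Subring R) (v : IV → R) (κ y : Vec R) : Prop where
  gw : GoodW S (wP v) κ y
  mv : ∀ i, v i ∈ S
  xinv : ∃ x ∈ S, x * (y ⬝ᵥ tauP v) = 1
  lam : ∃ φ : Vec R, (∀ i, φ i ∈ S) ∧ φ ⬝ᵥ κ = 0 ∧ Lam v κ y φ = 1

end ring

/-- the gradient of a complex polynomial at a point with coordinates in `K` -/
noncomputable def grad {K : Type*} [CommRing K] [Algebra ℂ K] (g : MvPolynomial II ℂ)
    (x : II → K) : II → K :=
  fun i => MvPolynomial.aeval x (MvPolynomial.pderiv i g)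

/-- `g` on the line through `x` with direction `d` -/
noncomputable def lineP {K : Type*} [CommRing K] [Algebra ℂ K] (g : MvPolynomial II ℂ)
    (x d : II → K) : Polynomial K :=
  MvPolynomial.aeval (fun i => Polynomial.C (x i) + Polynomial.X * Polynomial.C (d i)) g

/-- a complete family in bi-involution, read over all extension fields -/
structure Fam where
  m : ℕ
  f : Fin m → MvPolynomial II ℂ
  p : MvPolynomial II ℂ
  hm : 176 ≤ 2 * m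
  p0 : p ≠ 0
  inv : ∀ (K : Type) [Field K] [Algebra ℂ K] (x : II → K) (i j : Fin m),
    PF x (grad (f i) x) (grad (f j) x) = 0 ∧ PF aI (grad (f i) x) (grad (f j) x) = 0
  li : ∀ (K : Type) [Field K] [Algebra ℂ K] (x : II → K), MvPolynomial.aeval x p ≠ 0 →
    LinearIndependent K fun i => grad (f i) x

/-- the open conditions on the curve data -/
structure CurveOK (c : Fin 3 → Fin 3 → ℂ) (κ y : Vec ℂ) : Prop where
  κ0 : κ 0 = 1
  yκ : y ⬝ᵥ κ = 1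
  y0 : y 0 ≠ 0
  y2 : y 2 ≠ 0
  yκ' : y 2 * κ 2 + y 3 * κ 3 ≠ 0
  cy : bq c (vlo y) (vhi y) = 0
  cA : bq c (vlo y) ![0, 1] ≠ 0
  cκ : bq c ![-κ 1, 1] ![-κ 3, κ 2] ≠ 0
  deg : (Dsc c).natDegree = 4
  sqf : IsCoprime (Dsc c) (Polynomial.derivative (Dsc c))

/-- the base point -/
structure Base (v : IV → ℂ) (κ y : Vec ℂ) : Prop where
  wκ : wP v *ᵥ κ = 0
  yw : y ᵥ* wP v = 0
  inv : ∃ W : Mat ℂ, W * (wP v + vecMulVec κ y) = 1
  x0 : y ⬝ᵥ tauP v ≠ 0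
  ok : CurveOK (cf v κ) κ y

section curve
variable {K : Type} [Field K] [Algebra ℂ K]

def Sm (y v : Vec K) : K := y 0 * v 1 - y 1 * v 0
def Sp (y v : Vec K) : K := y 3 * v 2 - y 2 * v 3

/-- a valuation ring over which the moving point `y` of the curve is regular -/
structure Chart (O : ValuationSubring K) (y v : Vec K) : Prop where
  hC : ∀ c : ℂ, algebraMap ℂ K c ∈ O
  my : ∀ i, y i ∈ O
  ylo : ∃ e₀ ∈ O, ∃ e₁ ∈ O, y 0 * e₀ + y 1 * e₁ = 1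
  yhi : ∃ e₂ ∈ O, ∃ e₃ ∈ O, y 2 * e₂ + y 3 * e₃ = 1
  mSm : Sm y v ∈ O
  mSp : Sp y v ∈ O
  smooth : ∃ μ₁ ∈ O, ∃ μ₂ ∈ O, μ₁ * Sm y v - μ₂ * Sp y v = -1

/-- the generic point `y'` of the cone over the curve, with two derivations -/
structure EC (c : Fin 3 → Fin 3 → ℂ) (κ y : Vec ℂ) (y' : Vec K)
    (D E : Derivation ℂ K K) : Prop where
  yκ : y' ⬝ᵥ (algebraMap ℂ K ∘ κ) = 1
  cy : bq (fun i j => algebraMap ℂ K (c i j)) (vlo y') (vhi y') = 0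
  y0 : y' 0 ≠ 0
  y1 : y' 1 ≠ 0
  Dy : ∃ d₁ d₂ : K, d₁ ≠ d₂ ∧ D (y' 0) = d₁ * y' 0 ∧ D (y' 1) = d₁ * y' 1 ∧
    D (y' 2) = d₂ * y' 2 ∧ D (y' 3) = d₂ * y' 3
  comm : ∀ i, D (E (y' i)) = E (D (y' i))
  E0 : E (y' 0) = 0
  gradp : ∀ p : Fin 2 → K,
    bq (fun i j => algebraMap ℂ K (c i j)) (vlo y' + p) (vhi y') -
      bq (fun i j => algebraMap ℂ K (c i j)) (vlo y' - p) (vhi y') =
      2 * Sp y' (E ∘ y') * (y' 0 * p 1 - y' 1 * p 0)
  gradq : ∀ q : Fin 2 → K,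
    bq (fun i j => algebraMap ℂ K (c i j)) (vlo y') (vhi y' + q) -
      bq (fun i j => algebraMap ℂ K (c i j)) (vlo y') (vhi y' - q) =
      2 * Sm y' (E ∘ y') * (y' 2 * q 1 - y' 3 * q 0)
  base : ∃ O : ValuationSubring K, Chart O y' (E ∘ y') ∧
    ∀ i, O.valuation (y' i - algebraMap ℂ K (y i)) < 1
  const : ∀ (a : K) (r : ℂ), D a = 0 →
    (∀ O : ValuationSubring K, Chart O y' (E ∘ y') → (y' 0)⁻¹ ∈ O → a ∈ O) →
    (∀ O : ValuationSubring K, Chart O y' (E ∘ y') → (y' 1)⁻¹ ∈ O →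
      a - algebraMap ℂ K r * (E (y' 1) / y' 1) ∈ O) →
    r = 0 ∧ ∃ a₀ : ℂ, a = algebraMap ℂ K a₀

end curve

end Pool.Agent.MP_d920b6_mp.Cx
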