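import Pool.Agent.MP_d920b6_mp.Cx.Tri

/-! Kernel and image of `u ↦ MM w u`. -/

namespace Pool.Agent.MP_d920b6_mp.Cx

open Matrix Module

variable {k : Type*} [Field k] {w : Mat k} {κ y : Vec k}

theorem xKM_inv (h : GoodW ⊤ w κ y) : ∃ W : Mat k, W * (w + vecMulVec κ y) = 1 ∧
    (w + vecMulVec κ y) * W = 1 ∧ W *ᵥ κ = κ ∧ y ᵥ* W = y := by
  obtain ⟨W, -, hW⟩ := h.inv
  have hW' : (w + vecMulVec κ y) * W = 1 := mul_eq_one_comm.1 hW
  have h1 : (w + vecMulVec κ y) *ᵥ κ = κ := by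
    rw [add_mulVec, h.wκ, vecMulVec_mulVec, h.yκ]; simp
  have h2 : y ᵥ* (w + vecMulVec κ y) = y := by
    rw [vecMul_add, h.yw, vecMul_vecMulVec, h.yκ]; simp
  refine ⟨W, hW, hW', ?_, ?_⟩
  · conv_lhs => rw [← h1, mulVec_mulVec, hW, one_mulVec]
  · conv_lhs => rw [← h2, vecMul_vecMul, hW', vecMul_one]

/-- the left kernel of `w` is spanned by `y` -/
theorem GoodW.left_ker (h : GoodW ⊤ w κ y) {z : Vec k} (hz : z ᵥ* w = 0) :
    z = (z ⬝ᵥ κ) • y := by
  obtain ⟨W, -, h2, -, h4⟩ := xKM_inv h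
  have h1 : z ᵥ* (w + vecMulVec κ y) = (z ⬝ᵥ κ) • y := by
    rw [vecMul_add, hz, vecMul_vecMulVec, zero_add]
  calc z = (z ᵥ* (w + vecMulVec κ y)) ᵥ* W := by rw [vecMul_vecMul, h2, vecMul_one]
    _ = (z ⬝ᵥ κ) • y := by rw [h1, smul_vecMul, h4]
/-- the right kernel of `w` is spanned by `κ` -/
theorem GoodW.right_ker (h : GoodW ⊤ w κ y) {m : Vec k} (hm : w *ᵥ m = 0) :
    m = (y ⬝ᵥ m) • κ := by
  obtain ⟨W, h2, -, h4, -⟩ := xKM_inv h
  have h1 : (w + vecMulVec κ y) *ᵥ m = (y ⬝ᵥ m) • κ := by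
    rw [add_mulVec, hm, vecMulVec_mulVec, zero_add]; simp
  calc m = W *ᵥ ((w + vecMulVec κ y) *ᵥ m) := by rw [mulVec_mulVec, h2, one_mulVec]
    _ = (y ⬝ᵥ m) • κ := by rw [h1, mulVec_smul, h4]
theorem GoodW.ne_zero (h : GoodW ⊤ w κ y) : w ≠ 0 := by
  intro h0
  have h1 := h.left_ker (z := Pi.single 0 1) (by rw [h0, vecMul_zero])
  rw [single_one_dotProduct, h.κ0, one_smul] at h1
  obtain ⟨e₂, -, e₃, -, he⟩ := h.yhi
  rw [← h1] at he
  simp at he

/-- block diagonal matrix -/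
def xKM_blk (A B : Matrix (Fin 2) (Fin 2) k) : Mat k :=
  !![A 0 0, A 0 1, 0, 0; A 1 0, A 1 1, 0, 0; 0, 0, B 0 0, B 0 1; 0, 0, B 1 0, B 1 1]

/-- the normal form of `w` -/
def xKM_S : Mat k := !![0, 1, 0, 0; 0, 0, 1, 0; 0, 1, 0, 0; 0, 0, 0, 1]

theorem xKM_blk_mul (A B A' B' : Matrix (Fin 2) (Fin 2) k) :
    xKM_blk A B * xKM_blk A' B' = xKM_blk (A * A') (B * B') := by
  ext i j
  fin_cases i <;> fin_cases j <;> simp [xKM_blk, mul_apply, Fin.sum_univ_four, Fin.sum_univ_two]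

theorem xKM_blk_one : xKM_blk (1 : Matrix (Fin 2) (Fin 2) k) 1 = 1 := by
  ext i j
  fin_cases i <;> fin_cases j <;> simp [xKM_blk]

theorem xKM_blk_lo (A B : Matrix (Fin 2) (Fin 2) k) (u : Mat k) (a : Fin 2) :
    (xKM_blk A B * u) (lo a) = A a 0 • u 0 + A a 1 • u 1 := by
  ext j
  fin_cases a <;> simp [xKM_blk, lo, mul_apply, Fin.sum_univ_four]

theorem xKM_blk_hi (A B : Matrix (Fin 2) (Fin 2) k) (u : Mat k) (b : Fin 2) :
    (xKM_blk A B * u) (hi b) = B b 0 • u 2 + B b 1 • u 3 := by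
  ext j
  fin_cases b <;> simp [xKM_blk, hi, mul_apply, Fin.sum_univ_four]

theorem xKM_MM_left (A B : Matrix (Fin 2) (Fin 2) k) (w u : Mat k) (a b : Fin 2) :
    MM (xKM_blk A B * w) (xKM_blk A B * u) a b =
      ∑ a', ∑ b', (A a a' * B b b') • MM w u a' b' := by
  rw [MM, xKM_blk_lo, xKM_blk_lo, xKM_blk_hi, xKM_blk_hi]
  ext i j
  simp [MM, wedge, vecMulVec_apply, Fin.sum_univ_two, lo, hi]
  ring

theorem xKM_wedge_right (ψ χ : Vec k) (N : Mat k) :
    wedge (ψ ᵥ* N) (χ ᵥ* N) = Nᵀ * wedge ψ χ * N := by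
  simp only [wedge, Matrix.mul_sub, Matrix.sub_mul, mul_vecMulVec, vecMulVec_mul,
    mulVec_transpose]

theorem xKM_MM_right (w u N : Mat k) (a b : Fin 2) :
    MM (w * N) (u * N) a b = Nᵀ * MM w u a b * N := by
  have e : ∀ (M : Mat k) (i : Fin 4), (M * N) i = M i ᵥ* N := fun M i => rfl
  simp only [MM, e, xKM_wedge_right, Matrix.mul_add, Matrix.add_mul]

theorem xKM_std (h : GoodW ⊤ w κ y) : ∃ (A B A' B' : Matrix (Fin 2) (Fin 2) k) (N N' : Mat k),
    A' * A = 1 ∧ B' * B = 1 ∧ A 0 = vlo y ∧ B 0 = -vhi y ∧ N * N' = 1 ∧ N' * N = 1 ∧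
      xKM_blk A B * w = xKM_S * N ∧ N *ᵥ κ = Pi.single 0 1 := by
  obtain ⟨e₀, -, e₁, -, he⟩ := h.ylo
  obtain ⟨e₂, -, e₃, -, he'⟩ := h.yhi
  have hyw : ∀ j, y 0 * w 0 j + y 1 * w 1 j + y 2 * w 2 j + y 3 * w 3 j = 0 := fun j => by
    simpa [vecMul, dotProduct, Fin.sum_univ_four] using congrFun h.yw j
  have hwκ : ∀ i, w i ⬝ᵥ κ = 0 := fun i => congrFun h.wκ i
  let N : Mat k := of ![y, y 0 • w 0 + y 1 • w 1, -e₁ • w 0 + e₀ • w 1, -e₃ • w 2 + e₂ • w 3]
  have hκ : N *ᵥ κ = Pi.single 0 1 := by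
    ext i
    fin_cases i
    · exact h.yκ
    · change (y 0 • w 0 + y 1 • w 1) ⬝ᵥ κ = 0
      simp [hwκ]
    · change (-e₁ • w 0 + e₀ • w 1) ⬝ᵥ κ = 0
      simp [hwκ]
    · change (-e₃ • w 2 + e₂ • w 3) ⬝ᵥ κ = 0
      simp [hwκ]
  have hU : IsUnit N := by
    rw [← vecMul_injective_iff_isUnit]
    refine (injective_iff_map_eq_zero (vecMulLinear N)).2 fun z hz => ?_
    rw [vecMulLinear_apply] at hz
    have z0 : z 0 = 0 := by
      have := congrArg (· ⬝ᵥ κ) hz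
      simpa only [← dotProduct_mulVec, hκ, dotProduct_single_one, zero_dotProduct] using this
    have hc : (![z 1 * y 0 - z 2 * e₁, z 1 * y 1 + z 2 * e₀, -(z 3 * e₃), z 3 * e₂] : Vec k) ᵥ* w
        = 0 := by
      ext j
      have := congrFun hz j
      simp [N, vecMul, dotProduct, Fin.sum_univ_four, z0] at this ⊢
      linear_combination this
    have hl := h.left_ker hc
    generalize _ ⬝ᵥ κ = t at hl
    have c0 := congrFun hl 0
    have c1 := congrFun hl 1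
    have c2 := congrFun hl 2
    have c3 := congrFun hl 3
    simp at c0 c1 c2 c3
    have ht : t = 0 := by linear_combination -t * he' - e₂ * c2 - e₃ * c3
    subst ht
    ext i
    fin_cases i
    · exact z0
    · change z 1 = 0
      linear_combination -z 1 * he + e₀ * c0 + e₁ * c1
    · change z 2 = 0
      linear_combination -z 2 * he - y 1 * c0 + y 0 * c1
    · change z 3 = 0
      linear_combination -z 3 * he' - y 3 * c2 + y 2 * c3
  obtain ⟨N', hN⟩ := hU.exists_right_inv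
  refine ⟨!![y 0, y 1; -e₁, e₀], !![-y 2, -y 3; -e₃, e₂], !![e₀, -y 1; e₁, y 0],
    !![-e₂, -y 3; -e₃, y 2], N, N', ?_, ?_, ?_, ?_, hN, mul_eq_one_comm.1 hN, ?_, hκ⟩
  · ext i j
    fin_cases i <;> fin_cases j <;> simp [mul_apply, Fin.sum_univ_two] <;>
      first | linear_combination he | ring
  · ext i j
    fin_cases i <;> fin_cases j <;> simp [mul_apply, Fin.sum_univ_two] <;>
      first | linear_combination he' | ring
  · ext i; fin_cases i <;> simp [vlo]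
  · ext i; fin_cases i <;> simp [vhi]
  · ext i j
    fin_cases i <;> simp [xKM_blk, xKM_S, N, mul_apply, Fin.sum_univ_four]
    linear_combination -hyw j

theorem xKM_cancel {N N' T : Mat k} (hN : N * N' = 1) (h : Nᵀ * T * N = 0) : T = 0 := by
  have : T = N'ᵀ * (Nᵀ * T * N) * N' := by
    rw [Matrix.mul_assoc, Matrix.mul_assoc, Matrix.mul_assoc, hN, Matrix.mul_one,
      ← Matrix.mul_assoc, ← transpose_mul, hN, transpose_one, Matrix.one_mul]
  rw [this, h, Matrix.mul_zero, Matrix.zero_mul]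

theorem xKM_ker_S {u : Mat k} (hu : ∀ a b, MM xKM_S u a b = 0) : u = u 0 1 • xKM_S := by
  have e := fun a b i j => congrFun (congrFun (hu a b) i) j
  have a1 := e 0 1 0 3
  have a2 := e 0 1 2 3
  have a3 := e 0 1 0 1
  have a4 := e 0 1 2 1
  have a5 := e 0 1 1 3
  have b1 := e 1 0 0 1
  have b2 := e 1 0 3 1
  have b3 := e 1 0 0 2
  have b4 := e 1 0 3 2
  have b5 := e 1 0 2 1
  have c1 := e 1 1 1 3
  have c2 := e 1 1 1 2
  have c3 := e 1 1 2 3
  have d1 := e 0 0 2 1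
  have d2 := e 0 0 3 1
  simp [MM, wedge, vecMulVec_apply, lo, hi, xKM_S] at a1 a2 a3 a4 a5 b1 b2 b3 b4 b5 c1 c2 c3 d1 d2
  ext i j
  fin_cases i <;> fin_cases j <;> simp [xKM_S] <;>
    first
    | assumption
    | linear_combination d1 - a2
    | linear_combination d2 - b4
    | linear_combination -a5
    | linear_combination c3 - a5
    | linear_combination c3 - a5 - b5

theorem GoodW.ker_MM (h : GoodW ⊤ w κ y) {u : Mat k} (hu : ∀ a b, MM w u a b = 0) :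
    ∃ c : k, u = c • w := by
  obtain ⟨A, B, A', B', N, N', hA, hB, -, -, hN, hN', hS, -⟩ := xKM_std h
  have hG : xKM_blk A' B' * xKM_blk A B = 1 := by rw [xKM_blk_mul, hA, hB, xKM_blk_one]
  have e : xKM_blk A B * u = xKM_blk A B * u * N' * N := by
    rw [Matrix.mul_assoc _ N', hN', Matrix.mul_one]
  have h1 : ∀ a b, MM xKM_S (xKM_blk A B * u * N') a b = 0 := fun a b => by
    refine xKM_cancel hN ?_
    rw [← xKM_MM_right, ← hS, ← e, xKM_MM_left]
    simp [hu]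
  have h2 := xKM_ker_S h1
  generalize (xKM_blk A B * u * N') 0 1 = c at h2
  refine ⟨c, ?_⟩
  rw [h2, Matrix.smul_mul, ← hS] at e
  calc u = xKM_blk A' B' * (xKM_blk A B * u) := by rw [← Matrix.mul_assoc, hG, Matrix.one_mul]
    _ = c • w := by rw [e, Matrix.mul_smul, ← Matrix.mul_assoc, hG, Matrix.one_mul]

theorem ker_MM_one {u : Mat k} (hu : ∀ a b, MM 1 u a b = 0) : ∃ c : k, u = c • (1 : Mat k) := by
  have e := fun a b i j => congrFun (congrFun (hu a b) i) j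
  have a1 := e 0 0 1 2
  have a2 := e 0 0 3 2
  have a3 := e 0 0 1 0
  have a4 := e 0 0 3 0
  have a5 := e 0 0 0 2
  have b1 := e 0 1 2 3
  have b2 := e 0 1 1 0
  have b3 := e 0 1 2 0
  have b4 := e 0 1 0 3
  have c1 := e 1 0 0 2
  have c2 := e 1 0 3 2
  have c3 := e 1 0 0 1
  have c4 := e 1 0 1 2
  have d1 := e 1 1 2 3
  have d2 := e 1 1 0 1
  simp [MM, wedge, vecMulVec_apply, lo, hi, one_apply] at a1 a2 a3 a4 a5 b1 b2 b3 b4 c1 c2 c3 c4 d1 d2
  refine ⟨u 0 0, ?_⟩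
  ext i j
  fin_cases i <;> fin_cases j <;> simp <;>
    first
    | assumption
    | linear_combination -a5
    | linear_combination -b4
    | linear_combination c4 - a5

theorem GoodW.mulVec_of_MM (h : GoodW ⊤ w κ y) {u : Mat k}
    (hu : ∀ a b, MM w u a b *ᵥ κ = 0) : u *ᵥ κ = 0 := by
  obtain ⟨A, B, A', B', N, N', hA, hB, -, -, hN, hN', hS, hκ⟩ := xKM_std h
  have hG : xKM_blk A' B' * xKM_blk A B = 1 := by rw [xKM_blk_mul, hA, hB, xKM_blk_one]
  have e : xKM_blk A B * u = xKM_blk A B * u * N' * N := by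
    rw [Matrix.mul_assoc _ N', hN', Matrix.mul_one]
  have h1 : ∀ a b, MM xKM_S (xKM_blk A B * u * N') a b *ᵥ Pi.single 0 1 = 0 := fun a b => by
    have h2 : (Nᵀ * MM xKM_S (xKM_blk A B * u * N') a b * N) *ᵥ κ = 0 := by
      rw [← xKM_MM_right, ← hS, ← e, xKM_MM_left]
      simp [Fin.sum_univ_two, add_mulVec, smul_mulVec, hu]
    rw [← mulVec_mulVec, hκ, ← mulVec_mulVec] at h2
    have h3 := congrArg (N'ᵀ *ᵥ ·) h2
    simpa only [mulVec_mulVec, ← Matrix.mul_assoc, ← transpose_mul, hN, transpose_one,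
      Matrix.one_mul, mulVec_zero] using h3
  have h4 : (xKM_blk A B * u * N') *ᵥ Pi.single 0 1 = 0 := by
    generalize xKM_blk A B * u * N' = u' at h1
    have a1 := congrFun (h1 0 1) 3
    have a2 := congrFun (h1 0 1) 1
    have a3 := congrFun (h1 1 0) 1
    have a4 := congrFun (h1 1 0) 2
    simp [MM, wedge, vecMulVec_apply, lo, hi, xKM_S] at a1 a2 a3 a4
    ext i
    fin_cases i <;> simp <;> assumption
  calc u *ᵥ κ = xKM_blk A' B' *ᵥ ((xKM_blk A B * u) *ᵥ κ) := by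
        rw [mulVec_mulVec, ← Matrix.mul_assoc, hG, Matrix.one_mul]
    _ = 0 := by rw [e, ← mulVec_mulVec, hκ, h4, mulVec_zero]

theorem GoodW.rank_MMat (h : GoodW ⊤ w κ y) : (MMat w).rank = 15 := by
  have hk : LinearMap.ker (MMat w).mulVecLin = k ∙ fun i : Fin 4 × Fin 4 => w i.1 i.2 := by
    ext x
    rw [LinearMap.mem_ker, mulVecLin_apply, Submodule.mem_span_singleton]
    constructor
    · intro hx
      obtain ⟨c, hc⟩ := h.ker_MM (u := of fun i j => x (i, j)) fun a b => by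
        ext i j
        have := MMat_mulVec w (of fun i j => x (i, j)) (a, b, i, j)
        rw [← this]
        exact congrFun hx (a, b, i, j)
      exact ⟨c, funext fun i => (congrFun (congrFun hc i.1) i.2).symm⟩
    · rintro ⟨c, rfl⟩
      rw [mulVec_smul]
      ext j
      rw [Pi.smul_apply, MMat_mulVec, MM_self]
      simp
  have h0 : (fun i : Fin 4 × Fin 4 => w i.1 i.2) ≠ 0 := fun h0 =>
    h.ne_zero (by ext i j; exact congrFun h0 (i, j))
  have := LinearMap.finrank_range_add_finrank_ker (MMat w).mulVecLin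
  rw [hk, finrank_span_singleton h0] at this
  simp only [finrank_fintype_fun_eq_card, Fintype.card_prod, Fintype.card_fin] at this
  rw [rank]
  omega

theorem xKM_exists_S (φ : Vec k) (hφ : φ 0 = 0) (ψ : Fin 2 → Fin 2 → Vec k)
    (hψ : ∀ a b, ψ a b 0 = 0) (hc : φ 2 * ψ 0 0 3 - φ 3 * ψ 0 0 2 = 0) :
    ∃ u : Mat k, u *ᵥ Pi.single 0 1 = 0 ∧ ∀ a b, MM xKM_S u a b = wedge φ (ψ a b) := by
  let T : Fin 2 → Fin 2 → Mat k := fun a b => wedge φ (ψ a b)
  refine ⟨!![0, T 0 1 1 3, T 0 1 2 3, T 1 0 2 3 - T 0 0 1 3;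
    0, T 1 1 1 3, T 1 1 2 3, -T 1 0 1 3;
    0, T 1 0 1 2 + T 1 1 2 3, -T 0 0 1 2 - T 0 1 2 3, -T 1 0 2 3;
    0, T 1 1 1 2, -T 0 1 1 2, 0], ?_, fun a b => ?_⟩
  · ext i
    fin_cases i <;> simp
  · ext i j
    fin_cases a <;> fin_cases b <;> fin_cases i <;> fin_cases j <;>
      simp [T, MM, wedge, vecMulVec_apply, lo, hi, xKM_S, hφ, hψ] <;>
      first | ring1 | linear_combination hc | linear_combination -hc

theorem xKM_tri_ne {N N' : Mat k} (hN : N * N' = 1) (hκ : N *ᵥ κ = Pi.single 0 1) (h0 : κ 0 = 1) :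
    tri (bar (N 1)) (bar (N 2)) (bar (N 3)) ≠ 0 := by
  intro ht
  rw [tri, triple_product_eq_det] at ht
  obtain ⟨z, hz0, hz⟩ := exists_vecMul_eq_zero_iff.2 ht
  have r1 := congrFun hκ 1
  have r2 := congrFun hκ 2
  have r3 := congrFun hκ 3
  have c0 := congrFun hz 0
  have c1 := congrFun hz 1
  have c2 := congrFun hz 2
  simp [mulVec, vecMul, dotProduct, Fin.sum_univ_four, Fin.sum_univ_three, bar, h0]
    at r1 r2 r3 c0 c1 c2
  have h1 : (![0, z 0, z 1, z 2] : Vec k) ᵥ* N = 0 := by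
    ext j
    fin_cases j <;> simp [vecMul, dotProduct, Fin.sum_univ_four]
    · linear_combination z 0 * r1 + z 1 * r2 + z 2 * r3 - κ 1 * c0 - κ 2 * c1 - κ 3 * c2
    · exact c0
    · exact c1
    · exact c2
  have h2 := congrArg (· ᵥ* N') h1
  simp only [vecMul_vecMul, hN, vecMul_one, zero_vecMul] at h2
  apply hz0
  ext i
  fin_cases i
  · exact congrFun h2 1
  · exact congrFun h2 2
  · exact congrFun h2 3

/-- solvability of the `σ` equation -/
theorem GoodW.exists_u (h : GoodW ⊤ w κ y) (φ : Vec k) (hφ : φ ⬝ᵥ κ = 0)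
    (ψ : Fin 2 → Fin 2 → Vec k) (hψ : ∀ a b, ψ a b ⬝ᵥ κ = 0)
    (hc : tri (bar φ) (bar (rowP (vlo y) w))
      (bar (∑ a, ∑ b, (vlo y a * vhi y b) • ψ a b)) = 0) :
    ∃ u : Mat k, u *ᵥ κ = 0 ∧ ∀ a b, MM w u a b = wedge φ (ψ a b) := by
  obtain ⟨A, B, A', B', N, N', hA, hB, hA0, hB0, hN, hN', hS, hκ⟩ := xKM_std h
  have hG : xKM_blk A' B' * xKM_blk A B = 1 := by rw [xKM_blk_mul, hA, hB, xKM_blk_one]
  have back : ∀ z : Vec k, (z ᵥ* N') ᵥ* N = z := fun z => by rw [vecMul_vecMul, hN', vecMul_one]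
  have zero : ∀ z : Vec k, z ⬝ᵥ κ = 0 → (z ᵥ* N') 0 = 0 := fun z hz => by
    rw [← back z, ← dotProduct_mulVec, hκ, dotProduct_single_one] at hz
    exact hz
  let ψ' : Fin 2 → Fin 2 → Vec k := fun a b => ∑ a', ∑ b', (A a a' * B b b') • ψ a' b'
  have hψ' : ∀ a b, ψ' a b ⬝ᵥ κ = 0 := fun a b => by
    simp [ψ', Fin.sum_univ_two, hψ]
  have h00 : ∑ a, ∑ b, (vlo y a * vhi y b) • ψ a b = -ψ' 0 0 := by
    simp only [ψ', hA0, hB0, Fin.sum_univ_two, Pi.neg_apply, mul_neg, neg_smul]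
    abel
  have hrow : rowP (vlo y) w = N 1 := by
    have h1 := xKM_blk_lo A B w 0
    rw [hS, hA0] at h1
    rw [rowP, ← h1]
    ext j
    simp [xKM_S, lo, mul_apply, Fin.sum_univ_four]
  have hcond : (φ ᵥ* N') 2 * (ψ' 0 0 ᵥ* N') 3 - (φ ᵥ* N') 3 * (ψ' 0 0 ᵥ* N') 2 = 0 := by
    have hφ0 := zero φ hφ
    have hψ0 := zero _ (hψ' 0 0)
    rw [h00, hrow, ← back φ, ← back (ψ' 0 0)] at hc
    generalize φ ᵥ* N' = p at hc hφ0
    generalize ψ' 0 0 ᵥ* N' = q at hc hψ0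
    refine (mul_eq_zero.1 ?_).resolve_right (xKM_tri_ne hN hκ h.κ0)
    rw [← hc]
    simp [-mul_eq_zero, tri, bar, cross_apply, vecMul, dotProduct, Fin.sum_univ_four,
      Fin.sum_univ_three, hφ0, hψ0]
    ring
  obtain ⟨u', hu1, hu2⟩ := xKM_exists_S (φ ᵥ* N') (zero φ hφ) (fun a b => ψ' a b ᵥ* N')
    (fun a b => zero _ (hψ' a b)) hcond
  refine ⟨xKM_blk A' B' * (u' * N), ?_, fun a b => ?_⟩
  · rw [← mulVec_mulVec, ← mulVec_mulVec, hκ, hu1, mulVec_zero]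
  · have hw : w = xKM_blk A' B' * (xKM_S * N) := by
      rw [← hS, ← Matrix.mul_assoc, hG, Matrix.one_mul]
    have h1 : ∀ a b, MM (xKM_S * N) (u' * N) a b = wedge φ (ψ' a b) := fun a b => by
      rw [xKM_MM_right, hu2, ← xKM_wedge_right, back, back]
    conv_lhs => rw [hw, xKM_MM_left]
    simp only [h1]
    have hψe : ψ a b = ∑ a', ∑ b', (A' a a' * B' b b') • ψ' a' b' := by
      have : ψ a b = ∑ a', ∑ b', ((A' * A) a a' * (B' * B) b b') • ψ a' b' := by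
        rw [hA, hB]
        simp [one_apply]
      rw [this]
      ext i
      simp [ψ', Fin.sum_univ_two, mul_apply]
      ring
    rw [hψe]
    ext i j
    simp [wedge, vecMulVec_apply, Fin.sum_univ_two]
    ring

end Pool.Agent.MP_d920b6_mp.Cx
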