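import Pool.Agent.MP_d920b6_mp.Cx.Nat
import Pool.Agent.MP_d920b6_mp.Cx.Rep
import Pool.Agent.MP_d920b6_mp.Cx.KM

/-! Explicit computations for the gauge step, the fibre direction `th` and the twist `dl`. -/

namespace Pool.Agent.MP_d920b6_mp.Cx

open Matrix

section ring
variable {R : Type*} [CommRing R] {v : IV → R} {κ y y' : Vec R} {u : Mat R}

theorem xdelta_vm (a b c : Vec R) : vecMulVec a b *ᵥ c = (b ⬝ᵥ c) • a := by
  ext i
  simp only [mulVec, dotProduct, vecMulVec_apply, Pi.smul_apply, smul_eq_mul, Finset.sum_mul]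
  exact Finset.sum_congr rfl fun j _ => by ring

theorem xdelta_phi (hw : wP v *ᵥ κ = 0) (z : Vec R) : (z ᵥ* wP v) ⬝ᵥ κ = 0 := by
  rw [← dotProduct_mulVec, hw, dotProduct_zero]

theorem xdelta_hatY (hw : wP v *ᵥ κ = 0) :
    hat (gP (YY v κ y y' u)) = vecMulVec κ (y' ᵥ* wP v) :=
  hat_vecMulVec _ _ (xdelta_phi hw y')

theorem xdelta_sY : sP (YY v κ y y' u) = 0 := rfl
theorem xdelta_tY : tP (YY v κ y y' u) = 0 := rfl
theorem xdelta_uY : uP (YY v κ y y' u) = u := rfl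
theorem xdelta_nY : nP (YY v κ y y' u) = (y ⬝ᵥ tauP v - y' ⬝ᵥ tauP v) • κ := rfl

theorem xdelta_wedge_mul (G : Mat R) (ψ χ : Vec R) :
    Gᵀ * wedge ψ χ + wedge ψ χ * G = wedge (ψ ᵥ* G) χ + wedge ψ (χ ᵥ* G) := by
  simp only [wedge, Matrix.mul_sub, Matrix.sub_mul, mul_vecMulVec, vecMulVec_mul,
    mulVec_transpose]
  abel

theorem xdelta_MM_mul (G w u : Mat R) (a b : Fin 2) :
    Gᵀ * MM w u a b + MM w u a b * G = MM w (u * G) a b + MM (w * G) u a b := by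
  have h1 := xdelta_wedge_mul G (u (lo a)) (w (hi b))
  have h2 := xdelta_wedge_mul G (u (hi b)) (w (lo a))
  have e : ∀ (A : Mat R) (i : Fin 4), (A * G) i = A i ᵥ* G := fun A i => rfl
  simp only [MM, Matrix.mul_add, Matrix.add_mul, e]
  rw [add_add_add_comm, h1, h2]
  abel

theorem xdelta_mkV_dot (z : Vec R) (x : IV → R) : mkV 0 0 z ⬝ᵥ x = z ⬝ᵥ tauP x := by
  rw [dotV]
  simp only [wP_mkV, sgP_mkV, tauP_mkV, Pi.zero_apply, Matrix.zero_apply, zero_mul,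
    Finset.sum_const_zero, zero_add]

theorem xdelta_J (a b : Vec R) :
    a ⬝ᵥ (JJ *ᵥ b) = a 0 * b 0 + a 1 * b 1 - a 2 * b 2 - a 3 * b 3 := by
  simp only [JJ, dotProduct, mulVec_diagonal, Fin.sum_univ_four, cons_val_zero, cons_val_one,
    cons_val]
  ring

theorem xdelta_dot (a b : Vec R) :
    a ⬝ᵥ b = a 0 * b 0 + a 1 * b 1 + a 2 * b 2 + a 3 * b 3 := by
  simp only [dotProduct, Fin.sum_univ_four]

/-- pairing of `dl y m` with a bracket whose left entry has the gauge shape -/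
theorem xdelta_dl_kbr {Y : IK → R} {φ : Vec R} {t : R} (m : Vec R) (hy : y ⬝ᵥ κ = 1)
    (hg : hat (gP Y) = vecMulVec κ φ) (ht : tP Y = 0) (hn : nP Y = t • κ) (X : IK → R) :
    dl y m ⬝ᵥ kbr Y X = φ ⬝ᵥ (hat (gP X) *ᵥ m) - (φ ⬝ᵥ m + t) * (y ⬝ᵥ (hat (gP X) *ᵥ κ)) -
      tP X * t + φ ⬝ᵥ nP X := by
  rw [dl_dot, hat_gP_kbr, sP_kbr, nP_kbr, hg, ht, hn]
  simp only [sub_mulVec, ← mulVec_mulVec, xdelta_vm, mulVec_smul, zero_smul, sub_zero, add_zero,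
    dotProduct_add, dotProduct_sub, dotProduct_smul, smul_eq_mul, hy]
  ring

theorem wP_move (hw : wP v *ᵥ κ = 0) :
    wP (v + act (YY v κ y y' u) aV) = wP v - vecMulVec κ (y' ᵥ* wP v) := by
  rw [wP_add, act_aV, wP_mkV, xdelta_hatY hw, xdelta_sY, zero_smul, zero_sub, sub_eq_add_neg]
theorem sgP_move (a b : Fin 2) :
    sk (sgP (v + act (YY v κ y y' u) aV) a b) = sk (sgP v a b) + MM 1 u a b := by
  rw [sgP_add, act_aV, sgP_mkV, sk_add, sk_MM, xdelta_uY]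
theorem tauP_move : tauP (v + act (YY v κ y y' u) aV) =
    tauP v + (y ⬝ᵥ tauP v - y' ⬝ᵥ tauP v) • κ := by
  rw [tauP_add, act_aV, tauP_mkV, xdelta_nY]
theorem inA_YY (hw : wP v *ᵥ κ = 0) (hu : u *ᵥ κ = 0) : InA κ (YY v κ y y' u) :=
  ⟨⟨_, xdelta_hatY hw, xdelta_phi hw y'⟩, rfl, rfl, hu, _, rfl⟩
theorem step_eq (hw : wP v *ᵥ κ = 0) (hu : u *ᵥ κ = 0)
    (h : ∀ a b, MM (wP v - vecMulVec κ (y' ᵥ* wP v)) u a b =
      wedge (y' ᵥ* wP v) (κ ᵥ* sk (sgP v a b))) :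
    (2 : R) • act (YY v κ y y' u) v + act (YY v κ y y' u) (act (YY v κ y y' u) aV) = 0 := by
  have hφ := xdelta_phi hw y'
  refine extV ?_ (fun a b => ?_) ?_
  · rw [wP_add, wP_smul, wP_act, wP_act (v := act _ aV), act_aV, wP_mkV, xdelta_hatY hw,
      xdelta_sY, wP_zero]
    simp only [zero_smul, zero_sub, neg_mulVec, mul_vecMulVec, hw, xdelta_vm, hφ,
      zero_vecMulVec, neg_zero, smul_zero, add_zero]
  · rw [sgP_add, sgP_smul, sgP_act, sgP_act (v := act _ aV), act_aV, wP_mkV, sgP_mkV,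
      xdelta_hatY hw, xdelta_sY, xdelta_uY, sgP_zero, sk_MM, xdelta_MM_mul, zero_smul,
      MM_sub_left, MM_zero_left, mul_vecMulVec u, hu, zero_vecMulVec, MM_zero_right,
      Matrix.one_mul]
    have h1 := h a b
    rw [MM_sub_left] at h1
    have h2 : (vecMulVec κ (y' ᵥ* wP v))ᵀ * sk (sgP v a b) +
        sk (sgP v a b) * vecMulVec κ (y' ᵥ* wP v) =
        wedge (y' ᵥ* wP v) (κ ᵥ* sk (sgP v a b)) := by
      have h3 : sk (sgP v a b) *ᵥ κ = -(κ ᵥ* sk (sgP v a b)) := by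
        rw [← vecMul_transpose, sk_transpose, vecMul_neg]
      rw [transpose_vecMulVec, vecMulVec_mul, mul_vecMulVec, h3, neg_vecMulVec, wedge,
        sub_eq_add_neg]
    rw [h2, ← h1, two_smul]
    abel
  · rw [tauP_add, tauP_smul, tauP_act, tauP_act (v := act _ aV), act_aV, wP_mkV,
      xdelta_hatY hw, xdelta_sY, xdelta_tY, xdelta_nY, tauP_zero]
    simp only [zero_smul, zero_sub, zero_add, mulVec_smul, hw, neg_mulVec, xdelta_vm, hφ,
      neg_zero, smul_zero]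

/-- the explicit solution for the twist direction -/
theorem sol_dl (hw : wP v *ᵥ κ = 0) (hyw : y ᵥ* wP v = 0) (hy : y ⬝ᵥ κ = 1) (hy' : y' ⬝ᵥ κ = 1)
    {v' : IV → R} (hv' : v' = v + act (YY v κ y y' u) aV) {m m' e e' : Vec R}
    (hm : wP v *ᵥ m = tauP v - e) (hm' : wP v' *ᵥ m' = tauP v' - e')
    (he : y ⬝ᵥ (JJ *ᵥ e) = y' ⬝ᵥ (JJ *ᵥ e')) :
    ∃ ψ₁ ψ₂, Sol (dl y m) (YY v κ y y' u) v' ψ₁ ψ₂ ∧ dl y m + coad ψ₁ aV = dl y' m' := by
  have hφ := xdelta_phi hw y'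
  have hw' : wP v' = wP v - vecMulVec κ (y' ᵥ* wP v) := by rw [hv', wP_move hw]
  have hτ' : tauP v' = tauP v + (y ⬝ᵥ tauP v - y' ⬝ᵥ tauP v) • κ := by rw [hv', tauP_move]
  have a1 : ∀ x : Vec R, y ⬝ᵥ (wP v' *ᵥ x) = -((y' ᵥ* wP v) ⬝ᵥ x) := fun x => by
    rw [hw', sub_mulVec, xdelta_vm, dotProduct_sub, dotProduct_mulVec, hyw, zero_dotProduct,
      dotProduct_smul, hy, smul_eq_mul]
    ring
  have a2 : ∀ x : Vec R, y' ⬝ᵥ (wP v' *ᵥ x) = 0 := fun x => by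
    rw [hw', sub_mulVec, xdelta_vm, dotProduct_sub, dotProduct_mulVec,
      dotProduct_smul, hy', smul_eq_mul]
    ring
  have a3 : wP v' *ᵥ κ = 0 := by
    rw [hw', sub_mulVec, xdelta_vm, hw, hφ, zero_smul, sub_zero]
  have a4 : wP v' *ᵥ m = tauP v - e - ((y' ᵥ* wP v) ⬝ᵥ m) • κ := by
    rw [hw', sub_mulVec, xdelta_vm, hm]
  refine ⟨th y m - th y' m' + mkV 0 0 (y' - y),
    ((y' ᵥ* wP v) ⬝ᵥ m + (y ⬝ᵥ tauP v - y' ⬝ᵥ tauP v)) • th y κ, fun X => ⟨?_, ?_⟩, ?_⟩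
  · rw [xdelta_dl_kbr m hy (xdelta_hatY hw) xdelta_tY xdelta_nY, add_dotProduct, sub_dotProduct,
      smul_dotProduct, th_dot, th_dot, th_dot, xdelta_mkV_dot, act_aV, wP_mkV, wP_act, tauP_act]
    simp only [sub_mulVec, smul_mulVec, ← mulVec_mulVec, a4, hm', dotProduct_add,
      dotProduct_sub, sub_dotProduct, dotProduct_smul, smul_eq_mul, a1, a2, mulVec_sub,
      mulVec_smul]
    have b1 : y ⬝ᵥ (JJ *ᵥ tauP v') = y ⬝ᵥ (JJ *ᵥ tauP v) +
        (y ⬝ᵥ tauP v - y' ⬝ᵥ tauP v) * (y ⬝ᵥ (JJ *ᵥ κ)) := by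
      rw [hτ', mulVec_add, mulVec_smul, dotProduct_add, dotProduct_smul, smul_eq_mul]
    have b2 : y ⬝ᵥ tauP v' = y ⬝ᵥ tauP v + (y ⬝ᵥ tauP v - y' ⬝ᵥ tauP v) := by
      rw [hτ', dotProduct_add, dotProduct_smul, hy, smul_eq_mul, mul_one]
    have b3 : y' ⬝ᵥ tauP v' = y ⬝ᵥ tauP v := by
      rw [hτ', dotProduct_add, dotProduct_smul, hy', smul_eq_mul]
      ring
    rw [b1, b2, b3, he]
    ring
  · rw [xdelta_dl_kbr m hy (xdelta_hatY hw) xdelta_tY xdelta_nY, smul_dotProduct, th_dot, wP_act,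
      hat_gP_kbr, tP_kbr, nP_kbr, xdelta_hatY hw, xdelta_tY, xdelta_nY]
    simp only [sub_mulVec, smul_mulVec, ← mulVec_mulVec, a3, xdelta_vm, hφ, hy, dotProduct_add,
      dotProduct_sub, dotProduct_smul, smul_eq_mul, a1, mulVec_smul, mulVec_zero,
      dotProduct_zero, zero_smul]
    ring
  · refine eq_of_dotK fun X => ?_
    rw [add_dotProduct, coad_dot, add_dotProduct, sub_dotProduct, th_dot, th_dot, xdelta_mkV_dot,
      dl_dot, dl_dot, act_aV, wP_mkV, tauP_mkV]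
    simp only [sub_mulVec, smul_mulVec, dotProduct_add, dotProduct_sub, sub_dotProduct]
    ring

theorem coad_th {v' : IV → R} {m : Vec R} (hy : y' ᵥ* wP v' = 0)
    (h₁ : y' 0 * (wP v' *ᵥ m) 0 + y' 1 * (wP v' *ᵥ m) 1 = 0) : coad (th y' m) v' = 0 := by
  refine eq_of_dotK fun X => ?_
  have h0 : ∀ x : Vec R, y' ⬝ᵥ (wP v' *ᵥ x) = 0 := fun x => by
    rw [dotProduct_mulVec, hy, zero_dotProduct]
  have h2 := h0 m
  rw [xdelta_dot] at h2
  rw [coad_dot, th_dot, wP_act, zero_dotProduct, sub_mulVec, smul_mulVec, ← mulVec_mulVec,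
    ← mulVec_mulVec, dotProduct_sub, dotProduct_smul, h0, xdelta_J, smul_eq_mul]
  linear_combination sP X * (2 * h₁ - h2)

theorem th_act {ν : IK → R} {m z : Vec R} (hy' : y' ⬝ᵥ κ = 1) (hs : sP ν = 0)
    (hg : hat (gP ν) = vecMulVec κ z) : th y' m ⬝ᵥ act ν aV = -(z ⬝ᵥ m) := by
  rw [th_dot, act_aV, wP_mkV, hs, hg, zero_smul, zero_sub, neg_mulVec, xdelta_vm, dotProduct_neg,
    dotProduct_smul, hy', smul_eq_mul, mul_one]

theorem dl_nu {v' : IV → R} {ν : IK → R} {m' e' z : Vec R} (hy' : y' ⬝ᵥ κ = 1) (hs : sP ν = 0)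
    (hg : hat (gP ν) = vecMulVec κ (z ᵥ* wP v')) (hn : nP ν = -(z ⬝ᵥ tauP v') • κ)
    (hm' : wP v' *ᵥ m' = tauP v' - e') : dl y' m' ⬝ᵥ ν = -(z ⬝ᵥ e') := by
  rw [dl_dot, hs, hg, hn, zero_smul, sub_zero, xdelta_vm, ← dotProduct_mulVec, hm',
    dotProduct_add, dotProduct_smul, dotProduct_smul, hy', dotProduct_sub, smul_eq_mul,
    smul_eq_mul]
  ring
end ring

section der
variable {K : Type} [Field K] [Algebra ℂ K] (D : Derivation ℂ K K) {v v' : IV → K}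
  {κ y y' : Vec K} {u : Mat K}

theorem xdelta_hat_der (g : Mat K) : hat (g.map D) = (hat g).map D := by
  ext i j
  simp only [hat, Matrix.sub_apply, map_apply, map_sub, single_apply, trace, diag_apply]
  split_ifs
  · rw [map_sum]
  · rw [map_zero]

theorem xdelta_der_vv (hκ : D ∘ κ = 0) (φ : Vec K) :
    (vecMulVec κ φ).map D = vecMulVec κ (D ∘ φ) := by
  ext i j
  have h : D (κ i) = 0 := congrFun hκ i
  simp only [map_apply, vecMulVec_apply, Derivation.leibniz, h, smul_eq_mul, mul_zero, add_zero,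
    Function.comp_apply]

theorem xdelta_der_sm (hκ : D ∘ κ = 0) (t : K) : D ∘ (t • κ) = D t • κ := by
  ext i
  have h : D (κ i) = 0 := congrFun hκ i
  simp only [Function.comp_apply, Pi.smul_apply, smul_eq_mul, Derivation.leibniz, h, mul_zero,
    zero_add, mul_comm]

theorem xdelta_der_y (hκ : D ∘ κ = 0) (hy' : y' ⬝ᵥ κ = 1) : (D ∘ y') ⬝ᵥ κ = 0 := by
  have h := der_dot D y' κ
  rw [hy', hκ, dotProduct_zero, add_zero, Derivation.map_one_eq_zero] at h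
  exact h.symm

/-- the shape of the derivative of the gauge element -/
theorem der_YY (hv : D ∘ v = 0) (hκ : D ∘ κ = 0) (hy : D ∘ y = 0) (hw : wP v *ᵥ κ = 0)
    (hy' : y' ⬝ᵥ κ = 1) (hv' : v' = v + act (YY v κ y y' u) aV) :
    hat (gP (D ∘ YY v κ y y' u)) = vecMulVec κ ((D ∘ y') ᵥ* wP v') ∧
      sP (D ∘ YY v κ y y' u) = 0 ∧ tP (D ∘ YY v κ y y' u) = 0 ∧
      nP (D ∘ YY v κ y y' u) = -((D ∘ y') ⬝ᵥ tauP v') • κ := by
  have hz := xdelta_der_y D hκ hy'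
  have hDw : (wP v).map D = 0 := by rw [← wP_comp, hv, wP_zero]
  have hDτ : D ∘ tauP v = 0 := by rw [← tauP_comp, hv, tauP_zero]
  refine ⟨?_, ?_, ?_, ?_⟩
  · rw [gP_comp, xdelta_hat_der, xdelta_hatY hw, xdelta_der_vv D hκ, der_vecMul, hDw, vecMul_zero,
      add_zero, hv', wP_move hw, vecMul_sub, vecMul_vecMulVec, hz, zero_smul, sub_zero]
  · rw [sP_comp, xdelta_sY, map_zero]
  · rw [tP_comp, xdelta_tY, map_zero]
  · rw [nP_comp, xdelta_nY, xdelta_der_sm D hκ, map_sub, der_dot, der_dot, hy, hDτ, hv', tauP_move,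
      dotProduct_add, dotProduct_smul, hz]
    simp only [zero_dotProduct, dotProduct_zero, add_zero, zero_sub, smul_zero]

/-- the twist direction does not contribute to the drift -/
theorem dl_drift (hκ : D ∘ κ = 0) (hy' : y' ⬝ᵥ κ = 1) {X ν : IK → K} {m' z : Vec K} {c : K}
    (hX : act X v' = D ∘ v') (hs : sP ν = 0) (ht : tP ν = 0)
    (hg : hat (gP ν) = vecMulVec κ (z ᵥ* wP v')) (hn : nP ν = -(z ⬝ᵥ tauP v') • κ)
    (hm' : wP v' *ᵥ m' = tauP v' - Pi.single 0 c) (hz : z 0 = 0) :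
    dl y' m' ⬝ᵥ (kbr X ν - D ∘ ν) = 0 := by
  have hDw : (wP v').map D = sP X • (JJ * wP v') - wP v' * hat (gP X) := by
    rw [← wP_comp, ← hX, wP_act]
  have hDτ : D ∘ tauP v' = sP X • (JJ *ᵥ tauP v') + tP X • tauP v' + wP v' *ᵥ nP X := by
    rw [← tauP_comp, ← hX, tauP_act]
  have e1 : z ⬝ᵥ Pi.single 0 c = 0 := by rw [dotProduct_single, hz, zero_mul]
  have e2 : (D ∘ z) ⬝ᵥ Pi.single 0 c = 0 := by
    rw [dotProduct_single, Function.comp_apply, hz, map_zero, zero_mul]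
  have e3 : z ⬝ᵥ (JJ *ᵥ Pi.single 0 c) = 0 := by
    rw [xdelta_J, hz]
    simp
  rw [dotProduct_sub, kbr_skew, dotProduct_neg, xdelta_dl_kbr m' hy' hg ht hn, dl_dot, gP_comp,
    xdelta_hat_der, hg, xdelta_der_vv D hκ, sP_comp, hs, map_zero, nP_comp, hn,
    xdelta_der_sm D hκ, map_neg, der_dot, der_vecMul, hDw, hDτ, xdelta_vm]
  simp only [zero_smul, sub_zero, add_dotProduct, dotProduct_add, dotProduct_sub,
    dotProduct_smul, smul_eq_mul, hy', ← dotProduct_mulVec, sub_mulVec, smul_mulVec,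
    ← mulVec_mulVec, hm', mulVec_sub, e1, e2, e3]
  ring

/-- the fibre direction does not contribute to the drift -/
theorem th_drift (hκ : D ∘ κ = 0) (hG : GoodW ⊤ (wP v') κ y') {X ν : IK → K} {m z ω : Vec K}
    {d₁ d₂ e₁ e₂ : K} (hX : act X v' = D ∘ v') (hDw : (wP v').map D = vecMulVec κ ω)
    (hs : sP ν = 0) (hg : hat (gP ν) = vecMulVec κ (z ᵥ* wP v'))
    (h₀ : D (y' 0) = d₁ * y' 0) (h₁ : D (y' 1) = d₁ * y' 1) (h₂ : D (y' 2) = d₂ * y' 2)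
    (h₃ : D (y' 3) = d₂ * y' 3) (z₀ : D (z 0) = d₁ * z 0 + e₁ * y' 0)
    (z₁ : D (z 1) = d₁ * z 1 + e₁ * y' 1) (z₂ : D (z 2) = d₂ * z 2 + e₂ * y' 2)
    (z₃ : D (z 3) = d₂ * z 3 + e₂ * y' 3)
    (hm : y' 0 * (wP v' *ᵥ m) 0 + y' 1 * (wP v' *ᵥ m) 1 = 0) (hz : z ⬝ᵥ (wP v' *ᵥ m) = -1) :
    coad (th y' m) aV ⬝ᵥ (kbr X ν - D ∘ ν) = 0 := by
  have hw : (wP v').map D = sP X • (JJ * wP v') - wP v' * hat (gP X) := by
    rw [← wP_comp, ← hX, wP_act]
  have hyw : ∀ x : Vec K, y' ⬝ᵥ (wP v' *ᵥ x) = 0 := fun x => by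
    rw [dotProduct_mulVec, hG.yw, zero_dotProduct]
  have hω : ω ⬝ᵥ κ = 0 := by
    have h := der_mulVec D (wP v') κ
    rw [hG.wκ, hκ, mulVec_zero, add_zero, hDw, xdelta_vm] at h
    have h' := congrFun h 0
    simp only [Function.comp_apply, Pi.zero_apply, map_zero, Pi.smul_apply, hG.κ0, smul_eq_mul,
      mul_one] at h'
    exact h'.symm
  have hgc : y' ⬝ᵥ (hat (gP X) *ᵥ κ) = sP X * (y' ⬝ᵥ (JJ *ᵥ κ)) := by
    obtain ⟨W, -, hW⟩ := hG.inv
    have hW' : (wP v' + vecMulVec κ y') * W = 1 := mul_eq_one_comm.1 hW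
    have k1 : W *ᵥ κ = κ := by
      have h := congrArg (· *ᵥ κ) hW
      simp only [← mulVec_mulVec, add_mulVec, hG.wκ, xdelta_vm, hG.yκ, one_smul, zero_add,
        one_mulVec] at h
      exact h
    have k2 : y' ᵥ* W = y' := by
      have h := congrArg (y' ᵥ* ·) hW'
      simp only [← vecMul_vecMul, vecMul_add, hG.yw, vecMul_vecMulVec, hG.yκ, one_smul, zero_add,
        vecMul_one] at h
      exact h
    have k3 : W * wP v' = 1 - vecMulVec κ y' := by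
      rw [← hW, Matrix.mul_add, mul_vecMulVec, k1, add_sub_cancel_right]
    have k4 : wP v' * W = 1 - vecMulVec κ y' := by
      rw [← hW', Matrix.add_mul, vecMulVec_mul, k2, add_sub_cancel_right]
    have k5 : trace (W * (wP v').map D) = 0 := by
      rw [hDw, mul_vecMulVec, k1, trace_vecMulVec, dotProduct_comm, hω]
    rw [hw, Matrix.mul_sub, Matrix.mul_smul, trace_sub, trace_smul, trace_mul_comm,
      Matrix.mul_assoc, k4, ← Matrix.mul_assoc, k3, Matrix.mul_sub, Matrix.sub_mul,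
      Matrix.mul_one, Matrix.one_mul, trace_sub, trace_sub, trace_JJ, trace_hat, mul_vecMulVec,
      vecMulVec_mul, trace_vecMulVec, trace_vecMulVec, dotProduct_comm _ y', dotProduct_comm κ,
      ← dotProduct_mulVec, smul_eq_mul] at k5
    linear_combination k5
  have hr : (D ∘ y' + sP X • (y' ᵥ* JJ)) ᵥ* wP v' = 0 := by
    have h := der_vecMul D (wP v') y'
    rw [hG.yw, hw, vecMul_sub, vecMul_smul, ← vecMul_vecMul, ← vecMul_vecMul, hG.yw, zero_vecMul,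
      sub_zero] at h
    rw [add_vecMul, smul_vecMul, ← h]
    ext i
    simp
  have hl := hG.left_ker hr
  rw [add_dotProduct, xdelta_der_y D hκ hG.yκ, smul_dotProduct, ← dotProduct_mulVec, zero_add,
    smul_eq_mul, ← hgc] at hl
  have l0 := congrFun hl 0
  have l1 := congrFun hl 1
  have l2 := congrFun hl 2
  have l3 := congrFun hl 3
  simp only [JJ, Pi.add_apply, Pi.smul_apply, Function.comp_apply, vecMul_diagonal, smul_eq_mul,
    cons_val_zero, cons_val_one, cons_val, h₀, h₁, h₂, h₃] at l0 l1 l2 l3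
  obtain ⟨a₀, -, a₁, -, ha⟩ := hG.ylo
  obtain ⟨a₂, -, a₃, -, hb⟩ := hG.yhi
  have c1 : d₁ + sP X = y' ⬝ᵥ (hat (gP X) *ᵥ κ) := by
    linear_combination a₀ * l0 + a₁ * l1 - (d₁ + sP X - y' ⬝ᵥ (hat (gP X) *ᵥ κ)) * ha
  have c2 : d₂ - sP X = y' ⬝ᵥ (hat (gP X) *ᵥ κ) := by
    linear_combination a₂ * l2 + a₃ * l3 - (d₂ - sP X - y' ⬝ᵥ (hat (gP X) *ᵥ κ)) * hb
  have hy0 := hyw m
  have hz' := hz
  rw [xdelta_dot] at hy0 hz'
  rw [coad_dot, th_dot, act_aV, wP_mkV, sP_sub, sP_kbr, sP_comp, hs, map_zero, sub_zero, zero_smul,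
    zero_sub, gP_sub, hat_sub, hat_gP_kbr, gP_comp, xdelta_hat_der, hg, xdelta_der_vv D hκ,
    der_vecMul, hw]
  simp only [neg_mulVec, sub_mulVec, ← mulVec_mulVec, xdelta_vm, mulVec_smul, dotProduct_neg,
    dotProduct_sub, dotProduct_smul, smul_eq_mul, hG.yκ, add_dotProduct, ← dotProduct_mulVec,
    smul_mulVec, hz]
  rw [xdelta_dot (D ∘ z), xdelta_J z]
  simp only [Function.comp_apply, z₀, z₁, z₂, z₃]
  linear_combination (z 0 * (wP v' *ᵥ m) 0 + z 1 * (wP v' *ᵥ m) 1) * c1 +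
    (z 2 * (wP v' *ᵥ m) 2 + z 3 * (wP v' *ᵥ m) 3) * c2 + (y' ⬝ᵥ (hat (gP X) *ᵥ κ)) * hz' +
    (e₁ - e₂) * hm + e₂ * hy0
end der

end Pool.Agent.MP_d920b6_mp.Cx
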