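import Pool.Agent.MP_d920b6_mp.Cx.Tri

/-! An explicit base point. -/

namespace Pool.Agent.MP_d920b6_mp.Cx

open Matrix Polynomial

/-- the explicit point -/
def xDensB_v : IV → ℂ :=
  mkV !![-1, 0, 1, 0; 0, 1, 0, 0; -2, 0, 2, 0; 0, 0, 0, 1]
    ![![single 0 3 1, single 0 1 1], ![single 0 2 1, single 0 2 1]] ![1, 0, 0, 0]

/-- the coefficients of the curve -/
def xDensB_c : Fin 3 → Fin 3 → ℂ := ![![0, 0, 1], ![2, 0, 0], ![0, -1, -1]]

theorem xDensB_sk (j : Fin 4) (hj : j ≠ 0) :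
    (![1, 0, 1, 0] : Vec ℂ) ᵥ* sk (single 0 j 1) =
      Pi.single j 1 - if j = 2 then Pi.single 0 1 else 0 := by
  funext i
  fin_cases j <;> fin_cases i <;>
    simp [sk, vecMul, dotProduct, Fin.sum_univ_four, single_apply] at hj ⊢

theorem xDensB_cc (p q : Fin 2 → ℂ) : cc xDensB_v ![1, 0, 1, 0] p q =
    p 0 ^ 2 * q 1 ^ 2 + 2 * p 0 * p 1 * q 0 ^ 2 - p 1 ^ 2 * q 0 * q 1 - p 1 ^ 2 * q 1 ^ 2 := by
  simp only [cc, psi, xDensB_v, wP_mkV, sgP_mkV, Fin.sum_univ_two, cons_val_zero, cons_val_one,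
    xDensB_sk 3 (by decide), xDensB_sk 1 (by decide), xDensB_sk 2 (by decide)]
  simp [tri, bar, rowP, rowM, cross_apply, dotProduct, Fin.sum_univ_three]
  ring

theorem xDensB_cf : cf xDensB_v ![1, 0, 1, 0] = xDensB_c := by
  funext i j
  simp only [cf, xDensB_cc]
  fin_cases i <;> fin_cases j <;> simp [pol, xDensB_c] <;> norm_num

theorem xDensB_Dsc : Dsc xDensB_c = X ^ 4 + 8 * X ^ 3 - 8 * X := by
  simp [Dsc, PP, xDensB_c, map_ofNat]
  ring

theorem base_example : ∃ (v : IV → ℂ) (κ y : Vec ℂ), Base v κ y := by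
  refine ⟨xDensB_v, ![1, 0, 1, 0], ![2, 0, -1, 0], ?_, ?_, ⟨1, ?_⟩, ?_, ?_⟩
  · funext i
    fin_cases i <;> simp [xDensB_v, mulVec, dotProduct, Fin.sum_univ_four]
  · funext i
    fin_cases i <;> simp [xDensB_v, vecMul, dotProduct, Fin.sum_univ_four]
  · rw [one_mul]
    ext i j
    fin_cases i <;> fin_cases j <;> simp [xDensB_v, vecMulVec_apply] <;> norm_num
  · simp [xDensB_v, dotProduct, Fin.sum_univ_four]
  rw [xDensB_cf]
  refine ⟨rfl, ?_, by simp, by simp, by simp, ?_, ?_, ?_, ?_, ?_⟩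
  · simp [dotProduct, Fin.sum_univ_four]
    norm_num
  · simp [bq, mon, vlo, vhi, xDensB_c, Fin.sum_univ_three]
  · simp [bq, mon, vlo, xDensB_c, Fin.sum_univ_three]
  · simp [bq, mon, xDensB_c, Fin.sum_univ_three]
  · rw [xDensB_Dsc]
    compute_degree!
  · have e : derivative (X ^ 4 + 8 * X ^ 3 - 8 * X : ℂ[X]) = 4 * X ^ 3 + 24 * X ^ 2 - 8 := by
      simp [map_ofNat]
      ring
    rw [xDensB_Dsc, e]
    refine ⟨C (3664⁻¹) * (16 - 2064 * X - 348 * X ^ 2),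
      C (3664⁻¹) * (-458 - 16 * X + 690 * X ^ 2 + 87 * X ^ 3), ?_⟩
    have h : C (3664⁻¹ : ℂ) * 3664 = 1 := by
      rw [← map_ofNat C 3664, ← map_mul, inv_mul_cancel₀ (by norm_num), map_one]
    linear_combination h

end Pool.Agent.MP_d920b6_mp.Cx
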