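import Pool.Agent.MP_d920b6_mp.Cx.DensA
import Pool.Agent.MP_d920b6_mp.Cx.DensB

/-! A base point at which a given nonzero polynomial does not vanish. -/

namespace Pool.Agent.MP_d920b6_mp.Cx

open Matrix

/-- the parameters -/
abbrev xDens_J := II ⊕ Fin 3 ⊕ Fin 3 ⊕ Unit

section
variable {R R' : Type*} [CommRing R] [CommRing R']

/-- the product of the open conditions on a base point -/
noncomputable def xDens_bs (v : IV → R) (κ y : Vec R) : R :=
  det (wP v + vecMulVec κ y) * (y ⬝ᵥ tauP v) * y 0 * y 2 * (y 2 * κ 2 + y 3 * κ 3) *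
    bq (cf v κ) (vlo y) ![0, 1] * bq (cf v κ) ![-κ 1, 1] ![-κ 3, κ 2] * (Dsc (cf v κ)).coeff 4 *
    Polynomial.resultant (Dsc (cf v κ)) (Polynomial.derivative (Dsc (cf v κ))) 4 3

theorem xDens_map_bs (f : R →+* R') (v : IV → R) (κ y : Vec R) :
    f (xDens_bs v κ y) = xDens_bs (f ∘ v) (f ∘ κ) (f ∘ y) := by
  have e₀ : (fun i j => f (cf v κ i j)) = cf (f ∘ v) (f ∘ κ) := by
    funext i j
    exact map_cf f v κ i j
  have e₁ : f.mapMatrix (wP v + vecMulVec κ y) = wP (f ∘ v) + vecMulVec (f ∘ κ) (f ∘ y) := by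
    ext i j
    simp [wP, vecMulVec_apply]
  have e₂ : f ∘ vlo y = vlo (f ∘ y) := by
    funext i
    fin_cases i <;> rfl
  have e₃ : f ∘ ![0, 1] = ![0, 1] := by
    funext i
    fin_cases i <;> simp
  have e₄ : f ∘ ![-κ 1, 1] = ![-(f ∘ κ) 1, 1] := by
    funext i
    fin_cases i <;> simp
  have e₅ : f ∘ ![-κ 3, κ 2] = ![-(f ∘ κ) 3, (f ∘ κ) 2] := by
    funext i
    fin_cases i <;> simp
  simp only [xDens_bs, map_mul, map_add, f.map_det, e₁, map_bq, e₀, e₂, e₃, e₄, e₅,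
    f.map_dotProduct, ← Polynomial.coeff_map, ← Polynomial.resultant_map_map, map_Dsc]
  rw [← Polynomial.derivative_map, map_Dsc, e₀]
  rfl

/-- the kernel vector -/
def xDens_k (P : xDens_J → R) : Vec R :=
  ![1, P (.inr (.inl 0)), P (.inr (.inl 1)), P (.inr (.inl 2))]

/-- the kernel covector -/
def xDens_y (P : xDens_J → R) : Vec R :=
  ![1 - (P (.inr (.inr (.inl 0))) * P (.inr (.inl 0)) +
      P (.inr (.inr (.inl 1))) * P (.inr (.inl 1)) + P (.inr (.inr (.inl 2))) * P (.inr (.inl 2))),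
    P (.inr (.inr (.inl 0))), P (.inr (.inr (.inl 1))), P (.inr (.inr (.inl 2)))]

/-- the point of `V` -/
def xDens_v (P : xDens_J → R) : IV → R :=
  mkV ((1 - vecMulVec (xDens_k P) (xDens_y P)) * wP (vp fun i => P (.inl i)) *
      (1 - vecMulVec (xDens_k P) (xDens_y P)))
    (sgP (vp fun i => P (.inl i))) (tauP (vp fun i => P (.inl i)))

/-- the shifted point -/
def xDens_x (P : xDens_J → R) : II → R :=
  Sum.elim (kp fun i => P (.inl i)) (xDens_v P) + P (.inr (.inr (.inr ()))) • aI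

variable (f : R →+* R') (P : xDens_J → R)

theorem xDens_map_k : f ∘ xDens_k P = xDens_k (f ∘ P) := by
  funext i
  fin_cases i <;> simp [xDens_k]

theorem xDens_map_y : f ∘ xDens_y P = xDens_y (f ∘ P) := by
  funext i
  fin_cases i <;> simp [xDens_y]

theorem xDens_map_v : f ∘ xDens_v P = xDens_v (f ∘ P) := by
  have e : f.mapMatrix (1 - vecMulVec (xDens_k P) (xDens_y P)) =
      1 - vecMulVec (xDens_k (f ∘ P)) (xDens_y (f ∘ P)) := by
    rw [map_sub, map_one, ← xDens_map_k, ← xDens_map_y]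
    congr 1
    ext i j
    simp [vecMulVec_apply]
  refine extV ?_ (fun _ _ => rfl) rfl
  rw [wP_comp, xDens_v, xDens_v, wP_mkV, wP_mkV, ← e, ← RingHom.mapMatrix_apply, map_mul, map_mul]
  rfl

theorem xDens_map_x : f ∘ xDens_x P = xDens_x (f ∘ P) := by
  rw [xDens_x, xDens_x, ← xDens_map_v, ← comp_aI f]
  funext i
  rcases i with i | i <;> simp [kp]

theorem xDens_dot : xDens_y P ⬝ᵥ xDens_k P = 1 := by
  simp [xDens_y, xDens_k, dotProduct, Fin.sum_univ_four]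
  ring

theorem xDens_wk : wP (xDens_v P) *ᵥ xDens_k P = 0 := by
  rw [xDens_v, wP_mkV, ← mulVec_mulVec, sub_mulVec, one_mulVec, vecMulVec_mulVec, xDens_dot]
  simp

theorem xDens_yw : xDens_y P ᵥ* wP (xDens_v P) = 0 := by
  rw [xDens_v, wP_mkV, Matrix.mul_assoc, ← vecMul_vecMul, vecMul_sub, vecMul_one, vecMul_vecMulVec,
    xDens_dot]
  simp

theorem xDens_surj (ξ : IK → R) (v : IV → R) (κ y : Vec R) (t : R) (h₀ : κ 0 = 1)
    (h₁ : y ⬝ᵥ κ = 1) (h₂ : wP v *ᵥ κ = 0) (h₃ : y ᵥ* wP v = 0) :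
    ∃ P : xDens_J → R, xDens_k P = κ ∧ xDens_y P = y ∧ xDens_v P = v ∧
      xDens_x P = Sum.elim ξ v + t • aI := by
  let P : xDens_J → R := Sum.elim (Sum.elim ξ v) (Sum.elim (bar κ) (Sum.elim (bar y) fun _ => t))
  have e₁ : xDens_k P = κ := by
    funext i
    fin_cases i <;> simp [xDens_k, P, bar, h₀]
  have e₂ : xDens_y P = y := by
    simp only [dotProduct, Fin.sum_univ_four, h₀] at h₁
    funext i
    fin_cases i <;> simp [xDens_y, P, bar]
    linear_combination -h₁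
  have e₃ : xDens_v P = v := by
    refine extV ?_ (fun _ _ => rfl) rfl
    rw [xDens_v, wP_mkV, e₁, e₂]
    change _ * wP v * _ = _
    rw [Matrix.sub_mul, Matrix.one_mul, vecMulVec_mul, h₃, vecMulVec_zero, sub_zero,
      Matrix.mul_sub, Matrix.mul_one, mul_vecMulVec, h₂, zero_vecMulVec, sub_zero]
  exact ⟨P, e₁, e₂, e₃, by rw [xDens_x, e₃]; rfl⟩

theorem xDens_deg (c : Fin 3 → Fin 3 → R) : (Dsc c).natDegree ≤ 4 := by
  unfold Dsc PP
  compute_degree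

end

theorem xDens_of_base {v : IV → ℂ} {κ y : Vec ℂ} (h : Base v κ y) : xDens_bs v κ y ≠ 0 := by
  obtain ⟨W, hW⟩ := h.inv
  have d := h.ok.deg
  have h₁ : (Dsc (cf v κ)).coeff 4 ≠ 0 := by
    rw [← d]
    exact Polynomial.leadingCoeff_ne_zero.2 fun c => by simp [c] at d
  have h₂ := Polynomial.resultant_ne_zero _ _ h.ok.sqf
  rw [Polynomial.natDegree_derivative, d] at h₂
  exact mul_ne_zero (mul_ne_zero (mul_ne_zero (mul_ne_zero (mul_ne_zero (mul_ne_zero (mul_ne_zero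
    (mul_ne_zero (det_ne_zero_of_left_inverse hW) h.x0) h.ok.y0) h.ok.y2) h.ok.yκ') h.ok.cA)
    h.ok.cκ) h₁) h₂

theorem xDens_base {v : IV → ℂ} {κ y : Vec ℂ} (h₀ : κ 0 = 1) (h₁ : y ⬝ᵥ κ = 1)
    (h₂ : wP v *ᵥ κ = 0) (h₃ : y ᵥ* wP v = 0) (h : xDens_bs v κ y ≠ 0) : Base v κ y := by
  simp only [xDens_bs, mul_ne_zero_iff] at h
  obtain ⟨⟨⟨⟨⟨⟨⟨⟨a₁, a₂⟩, a₃⟩, a₄⟩, a₅⟩, a₆⟩, a₇⟩, a₈⟩, a₉⟩ := h
  have d := xDens_deg (cf v κ)
  refine ⟨h₂, h₃, ⟨_, nonsing_inv_mul _ (Ne.isUnit a₁)⟩, a₂, h₀, h₁, a₃, a₄, a₅,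
    by rw [← cc_eq_bq, cc_self v κ y h₃], a₆, a₇,
    Polynomial.natDegree_eq_of_le_of_coeff_ne_zero d a₈, ?_⟩
  obtain ⟨p, q, -, -, e⟩ := Polynomial.exists_mul_add_mul_eq_C_resultant (m := 4) (n := 3) _ _ d
    ((Polynomial.natDegree_derivative_le _).trans (Nat.sub_le_sub_right d 1)) (Or.inl (by decide))
  generalize Polynomial.resultant (Dsc (cf v κ)) _ 4 3 = r at a₉ e
  refine ⟨Polynomial.C r⁻¹ * p, Polynomial.C r⁻¹ * q, ?_⟩
  rw [mul_assoc, mul_assoc, ← mul_add, mul_comm p, mul_comm q, e, ← map_mul, inv_mul_cancel₀ a₉,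
    map_one]

theorem exists_base (p : MvPolynomial II ℂ) (hp : p ≠ 0) :
    ∃ (ξ : IK → ℂ) (v : IV → ℂ) (κ y : Vec ℂ) (t : ℂ), Base v κ y ∧
      MvPolynomial.aeval (Sum.elim ξ v + t • aI) p ≠ 0 := by
  let Z : xDens_J → MvPolynomial xDens_J ℂ := MvPolynomial.X
  have hZ : ∀ P : xDens_J → ℂ, MvPolynomial.eval P ∘ Z = P := fun P =>
    funext fun i => MvPolynomial.eval_X i
  let Q₁ := xDens_bs (xDens_v Z) (xDens_k Z) (xDens_y Z)
  let Q₂ := MvPolynomial.aeval (xDens_x Z) p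
  have h₁ : ∀ P, MvPolynomial.eval P Q₁ = xDens_bs (xDens_v P) (xDens_k P) (xDens_y P) :=
    fun P => by rw [xDens_map_bs, xDens_map_v, xDens_map_k, xDens_map_y, hZ]
  have h₂ : ∀ P, MvPolynomial.eval P Q₂ = MvPolynomial.aeval (xDens_x P) p := fun P => by
    have e := xDens_map_x (MvPolynomial.eval P) Z
    rw [hZ] at e
    rw [← e]
    exact MvPolynomial.comp_aeval_apply _ (MvPolynomial.aeval P) p
  have n₁ : Q₁ ≠ 0 := fun c => by
    obtain ⟨v, κ, y, h⟩ := base_example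
    obtain ⟨P, e₁, e₂, e₃, -⟩ := xDens_surj 0 v κ y 0 h.ok.κ0 h.ok.yκ h.wκ h.yw
    have e := h₁ P
    rw [c, map_zero, e₁, e₂, e₃] at e
    exact xDens_of_base h e.symm
  have n₂ : Q₂ ≠ 0 := fun c => by
    obtain ⟨ξ, v, κ, y, t, a₁, a₂, a₃, a₄, a₅⟩ := exists_eig p hp
    obtain ⟨P, -, -, -, e₄⟩ := xDens_surj ξ v κ y t a₁ a₂ a₃ a₄
    have e := h₂ P
    rw [c, map_zero, e₄] at e
    exact a₅ e.symm
  obtain ⟨P, hP⟩ : ∃ P : xDens_J → ℂ, MvPolynomial.eval P (Q₁ * Q₂) ≠ 0 := by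
    by_contra c
    push Not at c
    exact mul_ne_zero n₁ n₂ (MvPolynomial.funext fun x => by rw [c x, map_zero])
  rw [map_mul, h₁, h₂] at hP
  exact ⟨_, xDens_v P, xDens_k P, xDens_y P, _,
    xDens_base rfl (xDens_dot P) (xDens_wk P) (xDens_yw P) (left_ne_zero_of_mul hP),
    right_ne_zero_of_mul hP⟩

end Pool.Agent.MP_d920b6_mp.Cx
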