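import Pool.Agent.MP_d920b6_mp.Cx.Nat

/-! Points with a good eigenvalue are dense. -/

namespace Pool.Agent.MP_d920b6_mp.Cx

open Matrix Polynomial

section
variable {R R' : Type*} [CommRing R] [CommRing R']

/-- the test value attached to a matrix and a candidate eigenvalue -/
def xDensA_h (w : Mat R) (t : R) : R :=
  adjugate (w - t • 1) 0 0 * (adjugate (w - t • 1) * adjugate (w - t • 1) : Mat R) 0 0

theorem xDensA_map_h (f : R →+* R') (w : Mat R) (t : R) :
    f (xDensA_h w t) = xDensA_h (w.map f) (f t) := by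
  have e : w.map f - f t • (1 : Mat R') = f.mapMatrix (w - t • 1) := by
    ext i j
    by_cases h : i = j <;> simp [h]
  rw [xDensA_h, xDensA_h, e, ← f.map_adjugate, ← map_mul f.mapMatrix, map_mul f]
  rfl

/-- the test polynomial -/
noncomputable def xDensA_H (w : Mat R) : R[X] := xDensA_h (w.map C) X

theorem xDensA_eval (w : Mat R) (t : R) : (xDensA_H w).eval t = xDensA_h w t := by
  have e := xDensA_map_h (evalRingHom t) (w.map C) X
  rw [Matrix.map_map] at e
  rw [xDensA_H]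
  simpa [Function.comp_def] using e

theorem xDensA_map_H (f : R →+* R') (w : Mat R) : (xDensA_H w).map f = xDensA_H (w.map f) := by
  have e := xDensA_map_h (mapRingHom f) (w.map C) X
  rw [Matrix.map_map] at e
  rw [xDensA_H, xDensA_H, Matrix.map_map]
  simpa [Function.comp_def] using e

/-- the eliminant -/
noncomputable def xDensA_q (w : Mat R) : R := det (aeval w (xDensA_H w))

theorem xDensA_map_q (f : R →+* R') (w : Mat R) : f (xDensA_q w) = xDensA_q (w.map f) := by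
  have e := Polynomial.map_aeval_eq_aeval_map (φ := f)
    (ψ := (f.mapMatrix : Mat R →+* Mat R')) (by
      ext r i j
      by_cases h : i = j <;> simp [h, algebraMap_matrix_apply]) (xDensA_H w) w
  rw [xDensA_q, xDensA_q, f.map_det, ← xDensA_map_H, e]
  rfl

theorem xDensA_aeval (w : Mat R) (t : R) (m : Vec R) (h : w *ᵥ m = t • m) (g : R[X]) :
    aeval w g *ᵥ m = g.eval t • m := by
  induction g using Polynomial.induction_on with
  | C a => simp [Algebra.algebraMap_eq_smul_one, smul_mulVec]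
  | add p q hp hq => rw [map_add, add_mulVec, hp, hq, eval_add, add_smul]
  | monomial n a ih =>
    rw [pow_succ, ← mul_assoc, map_mul, aeval_X, ← mulVec_mulVec, h, mulVec_smul, ih,
      eval_mul (q := X), eval_X, smul_smul, mul_comm]

/-- the cyclic permutation matrix -/
def xDensA_P (R : Type*) [CommRing R] : Mat R := !![0, 1, 0, 0; 0, 0, 1, 0; 0, 0, 0, 1; 1, 0, 0, 0]

theorem xDensA_hP (t : R) : xDensA_h (xDensA_P R) t = -t ^ 9 - 3 * t ^ 5 := by
  have e : xDensA_P R - t • 1 = !![-t, 1, 0, 0; 0, -t, 1, 0; 0, 0, -t, 1; 1, 0, 0, -t] := by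
    ext i j
    fin_cases i <;> fin_cases j <;> simp [xDensA_P]
  rw [xDensA_h, e, Matrix.mul_apply, Fin.sum_univ_four]
  simp only [adjugate_fin_succ_eq_det_submatrix, det_fin_three]
  simp [Fin.succAbove, Fin.lt_def]
  ring

end

theorem xDensA_qP : xDensA_q (xDensA_P ℂ) ≠ 0 := by
  have e₀ : (xDensA_P ℂ).map C = xDensA_P ℂ[X] := by
    ext1 i j
    fin_cases i <;> fin_cases j <;> simp [xDensA_P]
  have e₁ : xDensA_P ℂ ^ 4 = 1 := by
    rw [pow_succ, pow_three']
    ext i j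
    fin_cases i <;> fin_cases j <;> simp [xDensA_P, Matrix.mul_apply, Fin.sum_univ_four]
  rw [xDensA_q, xDensA_H, e₀, xDensA_hP]
  refine det_ne_zero_of_right_inverse (B := (-1 / 4 : ℂ) • xDensA_P ℂ ^ 3) ?_
  have e₂ : aeval (xDensA_P ℂ) (-X ^ 9 - 3 * X ^ 5 : ℂ[X]) = (-4 : ℂ) • xDensA_P ℂ := by
    rw [map_sub, map_neg, map_mul, map_pow, map_pow, aeval_X, map_ofNat,
      show (9 : ℕ) = 4 + 4 + 1 from rfl, show (5 : ℕ) = 4 + 1 from rfl, pow_succ, pow_succ _ 4,
      pow_add, e₁, one_mul, one_mul, show (3 : Mat ℂ) = ((3 : ℕ) : Mat ℂ) from rfl,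
      ← nsmul_eq_mul]
    module
  rw [e₂, smul_mul_smul_comm, ← pow_succ', e₁]
  norm_num

theorem exists_eig (p : MvPolynomial II ℂ) (hp : p ≠ 0) :
    ∃ (ξ : IK → ℂ) (v : IV → ℂ) (κ y : Vec ℂ) (t : ℂ), κ 0 = 1 ∧ y ⬝ᵥ κ = 1 ∧
      wP v *ᵥ κ = 0 ∧ y ᵥ* wP v = 0 ∧ MvPolynomial.aeval (Sum.elim ξ v + t • aI) p ≠ 0 := by
  let Q : MvPolynomial II ℂ := xDensA_q (wP (vp MvPolynomial.X))
  have hQ : ∀ x : II → ℂ, MvPolynomial.eval x Q = xDensA_q (wP (vp x)) := fun x => by
    rw [xDensA_map_q, ← wP_comp, ← vp_comp]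
    congr 3
    funext i
    exact MvPolynomial.eval_X i
  have hQ0 : Q ≠ 0 := fun h => xDensA_qP (by
    have e := hQ (Sum.elim 0 (mkV (xDensA_P ℂ) 0 0))
    rwa [h, map_zero, vp_elim, wP_mkV, eq_comm] at e)
  obtain ⟨x, hx⟩ : ∃ x : II → ℂ, MvPolynomial.eval x (p * Q) ≠ 0 := by
    by_contra c
    push Not at c
    exact mul_ne_zero hp hQ0 (MvPolynomial.funext fun x => by rw [c x, map_zero])
  rw [map_mul, hQ] at hx
  set w := wP (vp x) with hw
  obtain ⟨t, ht⟩ := IsAlgClosed.exists_root w.charpoly (by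
    rw [charpoly_degree_eq_dim]; simp)
  have hd : (w - t • 1).det = 0 := by
    rw [IsRoot.def, eval_charpoly] at ht
    rw [← neg_sub, det_neg, smul_one_eq_diagonal, ← scalar_apply, ht, mul_zero]
  obtain ⟨m, hm0, hm⟩ := exists_mulVec_eq_zero_iff.2 hd
  rw [sub_mulVec, sub_eq_zero, smul_mulVec, one_mulVec] at hm
  have hh : xDensA_h w t ≠ 0 := fun h => right_ne_zero_of_mul hx
    (exists_mulVec_eq_zero_iff.1 ⟨m, hm0, by rw [xDensA_aeval w t m hm, xDensA_eval, h, zero_smul]⟩)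
  have h₁ := left_ne_zero_of_mul hh
  have h₂ := right_ne_zero_of_mul hh
  have e₁ := mul_adjugate (w - t • 1)
  have e₂ := adjugate_mul (w - t • 1)
  rw [hd, zero_smul] at e₁ e₂
  generalize adjugate (w - t • 1) = N at h₁ h₂ e₁ e₂
  have hv : wP (vp x - t • aV) = w - t • 1 := rfl
  refine ⟨kp x, vp x - t • aV, (N 0 0)⁻¹ • fun i => N i 0, (N 0 0 / (N * N) 0 0) • N 0, t,
    inv_mul_cancel₀ h₁, ?_, ?_, ?_, ?_⟩
  · rw [smul_dotProduct, dotProduct_smul]
    change _ * (_ * (N * N) 0 0) = 1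
    field_simp
  · rw [hv, mulVec_smul]
    exact smul_eq_zero_of_right _ (funext fun i => congrFun (congrFun e₁ i) 0)
  · rw [hv, smul_vecMul]
    exact smul_eq_zero_of_right _ (funext fun i => congrFun (congrFun e₂ 0) i)
  · have e : Sum.elim (kp x) (vp x - t • aV) + t • aI = x := extI (by simp) (by simp)
    rw [e]
    exact left_ne_zero_of_mul hx

end Pool.Agent.MP_d920b6_mp.Cx
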