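import Mathlib

/-! Extension of derivations along formally etale maps. -/

namespace Pool.Agent.MP_d920b6_mp.Cx

theorem xf0a_extend {R S T : Type} [CommRing R] [CommRing S] [CommRing T] [Algebra R S]
    [Algebra R T] [Algebra S T] [IsScalarTower R S T] [Algebra.FormallyEtale S T]
    (d : Derivation R S T) : ∃ D : Derivation R T T, ∀ s, D (algebraMap S T s) = d s := by
  have h := KaehlerDifferential.isBaseChange_of_formallyEtale R S T
  refine ⟨(h.lift d.liftKaehlerDifferential).compDer (KaehlerDifferential.D R T), fun s => ?_⟩
  change h.lift d.liftKaehlerDifferential (KaehlerDifferential.D R T (algebraMap S T s)) = _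
  rw [← KaehlerDifferential.map_D R R S T, h.lift_eq, Derivation.liftKaehlerDifferential_comp_D]

end Pool.Agent.MP_d920b6_mp.Cx
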