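import Mathlib
import Pool.Agent.MP_d920b6_mp.Cx.F0a

/-! Adjoining a transcendental element: derivations and places. -/

namespace Pool.Agent.MP_d920b6_mp.Cx

variable {K₀ : Type} [Field K₀]

open Polynomial in
theorem xf1_const [CharZero K₀] {p q : K₀[X]} (h : IsCoprime p q) (hq : q ≠ 0)
    (e : derivative p * q = p * derivative q) : ∃ a c, p = C a ∧ q = C c := by
  have h1 : q ∣ derivative q := h.symm.dvd_of_dvd_mul_left ⟨derivative p, by rw [← e, mul_comm]⟩
  have h2 := eq_zero_of_dvd_of_degree_lt h1 (degree_derivative_lt hq)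
  rw [h2, mul_zero] at e
  exact ⟨_, _, eq_C_of_derivative_eq_zero ((mul_eq_zero.1 e).resolve_right hq),
    eq_C_of_derivative_eq_zero h2⟩

open Polynomial in
theorem ratFunc_der [Algebra ℂ K₀] (E₀ : Derivation ℂ K₀ K₀) :
    ∃ D E : Derivation ℂ (RatFunc K₀) (RatFunc K₀),
      (∀ a : K₀, D (algebraMap K₀ _ a) = 0) ∧ D RatFunc.X = 1 ∧
      (∀ a : K₀, E (algebraMap K₀ _ a) = algebraMap K₀ _ (E₀ a)) ∧ E RatFunc.X = 0 ∧
      ∀ b, D b = 0 → ∃ a : K₀, b = algebraMap K₀ _ a := by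
  have : CharZero K₀ := charZero_of_injective_algebraMap (algebraMap ℂ K₀).injective
  have := Algebra.FormallyEtale.of_isLocalization (Rₘ := RatFunc K₀) (nonZeroDivisors K₀[X])
  have hC : ∀ a : K₀, algebraMap K₀ (RatFunc K₀) a = algebraMap K₀[X] _ (C a) := fun a =>
    IsScalarTower.algebraMap_apply K₀ K₀[X] _ a
  obtain ⟨D, hD⟩ := xf0a_extend ((Algebra.linearMap K₀[X] (RatFunc K₀)).compDer
    (derivative'.restrictScalars ℂ))
  obtain ⟨E, hE⟩ := xf0a_extend ((Algebra.linearMap K₀[X] (RatFunc K₀)).compDer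
    (PolynomialModule.equivPolynomialSelf.compDer E₀.mapCoeffs))
  have hD' : ∀ p : K₀[X], D (algebraMap _ _ p) = algebraMap _ _ (derivative p) := hD
  have hE' : ∀ p : K₀[X], E (algebraMap _ _ p) =
    algebraMap K₀[X] _ (PolynomialModule.equivPolynomialSelf (E₀.mapCoeffs p)) := hE
  refine ⟨D, E, fun a => ?_, ?_, fun a => ?_, ?_, fun b hb => ?_⟩
  · rw [hC, hD', derivative_C, map_zero]
  · rw [← RatFunc.algebraMap_X, hD', derivative_X, map_one]
  · rw [hC, hC, hE', Derivation.mapCoeffs_C]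
    congr 1
  · rw [← RatFunc.algebraMap_X, hE', Derivation.mapCoeffs_X, map_zero, map_zero]
  · have h0 := RatFunc.algebraMap_ne_zero b.denom_ne_zero
    have e : algebraMap K₀[X] _ b.num = b * algebraMap K₀[X] _ b.denom :=
      (div_eq_iff h0).1 b.num_div_denom
    have e2 := congrArg D e
    rw [D.leibniz, hb, smul_zero, add_zero, hD', hD', smul_eq_mul] at e2
    obtain ⟨a, c, ha, hc⟩ := xf1_const b.isCoprime_num_denom b.denom_ne_zero
      (IsFractionRing.injective K₀[X] (RatFunc K₀) (by rw [map_mul, map_mul, e2, e]; ring))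
    refine ⟨a / c, ?_⟩
    rw [map_div₀, hC, hC, ← ha, ← hc, b.num_div_denom]

open Polynomial in
theorem ratFunc_place (O₀ : ValuationSubring K₀) (z₀ : K₀) :
    ∃ O : ValuationSubring (RatFunc K₀), (∀ a : K₀, algebraMap K₀ _ a ∈ O ↔ a ∈ O₀) ∧
      ∀ a : K₀, O.valuation (algebraMap K₀ _ a * (RatFunc.X - algebraMap K₀ _ z₀)) < 1 := by
  have hC : ∀ a : K₀, algebraMap K₀ (RatFunc K₀) a = algebraMap K₀[X] _ (C a) := fun a =>
    IsScalarTower.algebraMap_apply K₀ K₀[X] _ a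
  let A : Subring K₀[X] := O₀.toSubring.comap (evalRingHom z₀)
  let e := A.equivMapOfInjective (algebraMap K₀[X] (RatFunc K₀)) (IsFractionRing.injective _ _)
  let φ : A →+* O₀ := (evalRingHom z₀).restrict A O₀ fun _ h => h
  obtain ⟨O, h1, h2⟩ := Ideal.image_subset_nonunits_valuationSubring
    ((IsLocalRing.maximalIdeal O₀).comap (φ.comp e.symm.toRingHom))
    (Ideal.comap_ne_top _ (IsLocalRing.maximalIdeal.isMaximal O₀).ne_top)
  have key : ∀ p : K₀[X], p.eval z₀ ∈ O₀.nonunits → algebraMap K₀[X] _ p ∈ O.nonunits := by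
    intro p hp
    refine h2 ⟨e ⟨p, O₀.nonunits_subset hp⟩, ?_, rfl⟩
    change φ (e.symm (e _)) ∈ IsLocalRing.maximalIdeal O₀
    rw [e.symm_apply_apply, ← O₀.coe_mem_nonunits_iff]
    exact hp
  refine ⟨O, fun a => ⟨fun h => ?_, fun h => ?_⟩, fun a => ?_⟩
  · by_contra ha
    have h3 := key (C a⁻¹) (by rw [eval_C]; exact O₀.inv_mem_nonunits_iff.2 (Or.inr ha))
    rw [← hC, map_inv₀, O.inv_mem_nonunits_iff, map_eq_zero] at h3
    rcases h3 with rfl | h3
    · exact ha O₀.zero_mem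
    · exact h3 h
  · exact h1 ⟨C a, by simpa [A] using h, (hC a).symm⟩
  · have h3 := key (C a * (X - C z₀)) (by simp)
    rwa [map_mul, map_sub, ← hC, ← hC, RatFunc.algebraMap_X] at h3

end Pool.Agent.MP_d920b6_mp.Cx
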