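import Pool.Agent.MP_d920b6_mp.Cx.Defs

/-! Smoothness of the curve at every place and the choice of a representative. -/

namespace Pool.Agent.MP_d920b6_mp.Cx

open Polynomial

variable {K : Type} [Field K] [Algebra ℂ K] {c : Fin 3 → Fin 3 → ℂ} {u s t : K}
  {O : ValuationSubring K}

/-- the derivative in `u` of the affine equation of the curve -/
noncomputable def cu (c : Fin 3 → Fin 3 → ℂ) (u t : K) : K :=
  aeval u (derivative (PP c 2)) * t ^ 2 + aeval u (derivative (PP c 1)) * t +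
    aeval u (derivative (PP c 0))

theorem bq_affine (c : Fin 3 → Fin 3 → ℂ) (u t : K) :
    bq (fun i j => algebraMap ℂ K (c i j)) ![1, u] ![1, t] =
      aeval u (PP c 2) * t ^ 2 + aeval u (PP c 1) * t + aeval u (PP c 0) := by
  simp [bq, mon, PP, Fin.sum_univ_three]
  ring

omit [Algebra ℂ K] in
theorem xpc_mul {x y : K} (hx : x ∈ O) (hy : O.valuation y < 1) : O.valuation (x * y) < 1 := by
  rw [map_mul]
  exact (mul_le_of_le_one_left' ((O.valuation_le_one_iff x).2 hx)).trans_lt hy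

omit [Algebra ℂ K] in
theorem xpc_inv {x : K} (hx : ¬ O.valuation x < 1) : x ≠ 0 ∧ x⁻¹ ∈ O := by
  rw [← O.mem_nonunits_iff, O.mem_nonunits_iff_or, not_or, not_not] at hx
  exact hx

omit [Algebra ℂ K] in
theorem xpc_prim {x y e f : K} (he : e ∈ O) (hf : f ∈ O) (h : x * e + y * f = 1)
    (hx : O.valuation x < 1) (hy : O.valuation y < 1) : False := by
  have := O.valuation.map_add_lt (xpc_mul he hx) (xpc_mul hf hy)
  rw [mul_comm e, mul_comm f, h, map_one] at this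
  exact lt_irrefl _ this

omit [Algebra ℂ K] in
theorem xpc_sq {x : K} (h : O.valuation (x ^ 2) < 1) : O.valuation x < 1 := by
  rw [map_pow] at h
  exact (pow_lt_one_iff two_ne_zero).1 h

theorem xpc_aeval (hC : ∀ a : ℂ, algebraMap ℂ K a ∈ O) (hu : u ∈ O) (p : ℂ[X]) :
    aeval u p ∈ O := by
  rw [aeval_eq_sum_range]
  exact sum_mem fun i _ => by rw [Algebra.smul_def]; exact mul_mem (hC _) (pow_mem hu _)

theorem xpc_PP (c : Fin 3 → Fin 3 → ℂ) (u : K) (j : Fin 3) : aeval u (PP c j) =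
    algebraMap ℂ K (c 0 j) + algebraMap ℂ K (c 1 j) * u + algebraMap ℂ K (c 2 j) * u ^ 2 := by
  simp [PP]

theorem xpc_dPP (c : Fin 3 → Fin 3 → ℂ) (u : K) (j : Fin 3) : aeval u (derivative (PP c j)) =
    algebraMap ℂ K (c 1 j) + 2 * algebraMap ℂ K (c 2 j) * u := by
  simp [PP]
  ring

omit [Algebra ℂ K] in
theorem xpc_quad {a b e x y : K} (ha : a ∈ O) (hb : b ∈ O) (he : e ∈ O) (hx : x ∈ O)
    (hy : y ∈ O) : a * x ^ 2 + b * (x * y) + e * y ^ 2 ∈ O :=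
  add_mem (add_mem (mul_mem ha (pow_mem hx 2)) (mul_mem hb (mul_mem hx hy)))
    (mul_mem he (pow_mem hy 2))

theorem xpc_alg {k : Type*} [Field k] (c : Fin 3 → Fin 3 → k) {κ₁ κ₂ κ₃ p₀ p₁ q₀ q₁ : k}
    (h : bq c ![p₀, p₁] ![q₀, q₁] = 0) (ha : p₀ + p₁ * κ₁ = 0) (hb : q₀ * κ₂ + q₁ * κ₃ = 0)
    (hp : p₀ ≠ 0 ∨ p₁ ≠ 0) (hq : q₀ ≠ 0 ∨ q₁ ≠ 0) : bq c ![-κ₁, 1] ![-κ₃, κ₂] = 0 := by
  have hom : ∀ (l m x₀ x₁ y₀ y₁ : k), bq c ![l * x₀, l * x₁] ![m * y₀, m * y₁] =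
      l ^ 2 * m ^ 2 * bq c ![x₀, x₁] ![y₀, y₁] := by
    intro l m x₀ x₁ y₀ y₁
    simp [bq, mon, Fin.sum_univ_three]
    ring
  have hp₁ : p₁ ≠ 0 := by
    rintro rfl
    rw [zero_mul, add_zero] at ha
    simp [ha] at hp
  have e0 : -κ₁ = p₁⁻¹ * p₀ := by field_simp; linear_combination -ha
  have e1 : (1 : k) = p₁⁻¹ * p₁ := (inv_mul_cancel₀ hp₁).symm
  rcases hq with hq | hq
  · have e2 : -κ₃ = -κ₃ / q₀ * q₀ := by field_simp
    have e3 : κ₂ = -κ₃ / q₀ * q₁ := by field_simp; linear_combination hb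
    rw [e0, e1, e2, e3, hom, h, mul_zero]
  · have e2 : -κ₃ = κ₂ / q₁ * q₀ := by field_simp; linear_combination -hb
    have e3 : κ₂ = κ₂ / q₁ * q₁ := by field_simp
    have := hom p₁⁻¹ (κ₂ / q₁) p₀ p₁ q₀ q₁
    rw [← e0, ← e1, ← e2, ← e3, h, mul_zero] at this
    exact this

theorem xpc_map {R S : Type*} [CommRing R] [CommRing S] (f : R →+* S) (c : Fin 3 → Fin 3 → R)
    (p₀ p₁ q₀ q₁ : R) :
    f (bq c ![p₀, p₁] ![q₀, q₁]) = bq (fun i j => f (c i j)) ![f p₀, f p₁] ![f q₀, f q₁] := by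
  simp [bq, mon, Fin.sum_univ_three]

/-- the two linear forms do not both vanish at the centre of the valuation -/
theorem xpc_both {κ : Vec ℂ} (hκ : bq c ![-κ 1, 1] ![-κ 3, κ 2] ≠ 0)
    (hC : ∀ a : ℂ, algebraMap ℂ K a ∈ O) {p₀ p₁ q₀ q₁ : K} (m₀ : p₀ ∈ O) (m₁ : p₁ ∈ O)
    (m₂ : q₀ ∈ O) (m₃ : q₁ ∈ O) (hp : p₀ = 1 ∨ p₁ = 1) (hq : q₀ = 1 ∨ q₁ = 1)
    (h : bq (fun i j => algebraMap ℂ K (c i j)) ![p₀, p₁] ![q₀, q₁] = 0)
    (ha : O.valuation (p₀ + p₁ * algebraMap ℂ K (κ 1)) < 1)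
    (hb : O.valuation (q₀ * algebraMap ℂ K (κ 2) + q₁ * algebraMap ℂ K (κ 3)) < 1) : False := by
  let γ : ℂ →+* O := (algebraMap ℂ K).codRestrict O hC
  let ρ := IsLocalRing.residue O
  lift p₀ to O using m₀
  lift p₁ to O using m₁
  lift q₀ to O using m₂
  lift q₁ to O using m₃
  have h1 : bq (fun i j => γ (c i j)) ![p₀, p₁] ![q₀, q₁] = 0 := by
    apply O.subtype_injective
    rw [xpc_map, map_zero]
    exact h
  have h2 := congrArg ρ h1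
  rw [xpc_map, map_zero] at h2
  have h3 : ρ p₀ + ρ p₁ * ρ (γ (κ 1)) = 0 := by
    rw [← map_mul, ← map_add, IsLocalRing.residue_eq_zero_iff, O.valuation_lt_one_iff]
    exact ha
  have h4 : ρ q₀ * ρ (γ (κ 2)) + ρ q₁ * ρ (γ (κ 3)) = 0 := by
    rw [← map_mul, ← map_mul, ← map_add, IsLocalRing.residue_eq_zero_iff, O.valuation_lt_one_iff]
    exact hb
  have h5 : ∀ x : O, (x : K) = 1 → ρ x ≠ 0 := fun x hx => by
    rw [show x = 1 from Subtype.ext hx, map_one]; exact one_ne_zero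
  have h6 := xpc_alg _ h2 h3 h4 (hp.imp (h5 _) (h5 _)) (hq.imp (h5 _) (h5 _))
  apply hκ
  apply (ρ.comp γ).injective
  rw [xpc_map, map_zero]
  simpa using h6

omit [Algebra ℂ K] in
/-- a primitive multiple of `(1, u)` -/
theorem xpc_scale (O : ValuationSubring K) (u : K) : ∃ z : K, z ≠ 0 ∧ z ∈ O ∧ z * u ∈ O ∧
    (u ∈ O → z = 1) ∧ (u ∉ O → z * u = 1) := by
  by_cases hu : u ∈ O
  · exact ⟨1, one_ne_zero, one_mem _, by rwa [one_mul], fun _ => rfl, fun h => (h hu).elim⟩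
  · have h0 : u ≠ 0 := by rintro rfl; exact hu (zero_mem _)
    refine ⟨u⁻¹, inv_ne_zero h0, (O.mem_or_inv_mem u).resolve_left hu, ?_, fun h => (hu h).elim,
      fun _ => inv_mul_cancel₀ h0⟩
    rw [inv_mul_cancel₀ h0]; exact one_mem _

omit [Algebra ℂ K] in
/-- a unit combination -/
theorem xpc_comb {a b : K} (ha : a ∈ O) (hb : b ∈ O) (t2 : (2 : K) ≠ 0 ∧ (2 : K)⁻¹ ∈ O)
    (h : O.valuation a < 1 → O.valuation b < 1 → False) :
    ∃ x y : K, x * a + y * b = 1 ∧ x ∈ O ∧ y ∈ O ∧ x ≠ 0 ∧ x⁻¹ ∈ O ∧ y ≠ 0 ∧ y⁻¹ ∈ O := by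
  have key : ∀ {a b : K}, a ∈ O → b ∈ O → ¬ O.valuation b < 1 → ∀ x : K, x ∈ O →
      ¬ O.valuation (1 - x * a) < 1 → ∃ y : K, x * a + y * b = 1 ∧ y ∈ O ∧ y ≠ 0 ∧ y⁻¹ ∈ O := by
    intro a b ha hb h1 x hx h2
    obtain ⟨h3, h4⟩ := xpc_inv h1
    obtain ⟨h5, h6⟩ := xpc_inv h2
    refine ⟨(1 - x * a) * b⁻¹, by field_simp; ring,
      mul_mem (sub_mem (one_mem _) (mul_mem hx ha)) h4, mul_ne_zero h5 (inv_ne_zero h3), ?_⟩
    rw [mul_inv, inv_inv]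
    exact mul_mem h6 hb
  have one : ∀ {a : K}, O.valuation a < 1 → ¬ O.valuation (1 - 1 * a) < 1 := by
    intro a h1 h2
    have := O.valuation.map_add_lt h1 h2
    rw [one_mul, add_sub_cancel, map_one] at this
    exact lt_irrefl _ this
  by_cases h1 : O.valuation b < 1
  · obtain ⟨y, h2, h3, h4, h5⟩ := key hb ha (fun h' => h h' h1) 1 (one_mem _) (one h1)
    exact ⟨y, 1, by rw [add_comm, h2], h3, one_mem _, h4, h5, one_ne_zero,
      by rw [inv_one]; exact one_mem _⟩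
  by_cases h2 : O.valuation (1 - 1 * a) < 1
  · have m2 : (2 : K) ∈ O := ofNat_mem O 2
    obtain ⟨y, h3, h4, h5, h6⟩ := key ha hb h1 2 m2 fun h' => by
      have := O.valuation.map_sub_lt (xpc_mul m2 h2) h'
      rw [show 2 * (1 - 1 * a) - (1 - 2 * a) = 1 by ring, map_one] at this
      exact lt_irrefl _ this
    exact ⟨2, y, h3, m2, h4, t2.1, t2.2, h5, h6⟩
  · obtain ⟨y, h3, h4, h5, h6⟩ := key ha hb h1 1 (one_mem _) h2
    exact ⟨1, y, h3, one_mem _, h4, one_ne_zero, by rw [inv_one]; exact one_mem _, h5, h6⟩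

theorem chart_of (hd : (Dsc c).natDegree = 4) (hs : IsCoprime (Dsc c) (derivative (Dsc c)))
    (hC : ∀ a : ℂ, algebraMap ℂ K a ∈ O)
    (ht : aeval u (PP c 2) * t ^ 2 + aeval u (PP c 1) * t + aeval u (PP c 0) = 0)
    (hst : s = 2 * aeval u (PP c 2) * t + aeval u (PP c 1)) {z β : K}
    (m₀ : z ∈ O) (m₁ : z * u ∈ O) (m₂ : β ∈ O) (m₃ : β * t ∈ O)
    (hz : ∃ e₀ ∈ O, ∃ e₁ ∈ O, z * e₀ + z * u * e₁ = 1)
    (hβ : ∃ e₂ ∈ O, ∃ e₃ ∈ O, β * e₂ + β * t * e₃ = 1) :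
    z ^ 2 * s ∈ O ∧ β ^ 2 * cu c u t ∈ O ∧
      ∃ μ₁ ∈ O, ∃ μ₂ ∈ O, μ₁ * (z ^ 2 * s) - μ₂ * (β ^ 2 * cu c u t) = -1 := by
  have m2 : (2 : K) ∈ O := ofNat_mem O 2
  have m4 : (4 : K) ∈ O := ofNat_mem O 4
  obtain ⟨e₀, he₀, e₁, he₁, hz⟩ := hz
  obtain ⟨e₂, he₂, e₃, he₃, hβ⟩ := hβ
  have hP : ∀ j, z ^ 2 * aeval u (PP c j) ∈ O := fun j => by
    convert xpc_quad (hC (c 0 j)) (hC (c 1 j)) (hC (c 2 j)) m₀ m₁ using 1
    rw [xpc_PP]; ring
  have hR : ∀ i, algebraMap ℂ K (c i 0) * β ^ 2 + algebraMap ℂ K (c i 1) * (β * (β * t)) +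
      algebraMap ℂ K (c i 2) * (β * t) ^ 2 ∈ O := fun i =>
    xpc_quad (hC (c i 0)) (hC (c i 1)) (hC (c i 2)) m₂ m₃
  have hS : z ^ 2 * s ∈ O := by
    convert sub_mem
      (mul_mem he₂ (add_mem (mul_mem m2 (mul_mem (hP 2) m₃)) (mul_mem (hP 1) m₂)))
      (mul_mem he₃ (add_mem (mul_mem (hP 1) m₃) (mul_mem m2 (mul_mem (hP 0) m₂)))) using 1
    rw [hst]
    linear_combination (-(z ^ 2 * (2 * aeval u (PP c 2) * t + aeval u (PP c 1)))) * hβ +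
      (2 * z ^ 2 * β * e₃) * ht
  have hT : β ^ 2 * cu c u t ∈ O := by
    convert sub_mem
      (mul_mem he₀ (add_mem (mul_mem (hR 1) m₀) (mul_mem m2 (mul_mem (hR 2) m₁))))
      (mul_mem he₁ (add_mem (mul_mem (hR 1) m₁) (mul_mem m2 (mul_mem (hR 0) m₀)))) using 1
    simp only [xpc_PP] at ht
    simp only [cu, xpc_dPP]
    linear_combination (-(β ^ 2 * ((algebraMap ℂ K (c 1 2) + 2 * algebraMap ℂ K (c 2 2) * u) *
      t ^ 2 + (algebraMap ℂ K (c 1 1) + 2 * algebraMap ℂ K (c 2 1) * u) * t +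
      (algebraMap ℂ K (c 1 0) + 2 * algebraMap ℂ K (c 2 0) * u)))) * hz +
      (2 * β ^ 2 * z * e₁) * ht
  refine ⟨hS, hT, ?_⟩
  by_cases h1 : O.valuation (z ^ 2 * s) < 1
  swap
  · obtain ⟨h2, h3⟩ := xpc_inv h1
    exact ⟨-(z ^ 2 * s)⁻¹, neg_mem h3, 0, zero_mem _, by
      rw [zero_mul, sub_zero, neg_mul, inv_mul_cancel₀ h2]⟩
  by_cases h2 : O.valuation (β ^ 2 * cu c u t) < 1
  swap
  · obtain ⟨h3, h4⟩ := xpc_inv h2
    exact ⟨0, zero_mem _, (β ^ 2 * cu c u t)⁻¹, h4, by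
      rw [zero_mul, zero_sub, inv_mul_cancel₀ h3]⟩
  exfalso
  have hD : aeval u (Dsc c) = s ^ 2 := by
    rw [hst, Dsc]
    simp only [map_sub, map_mul, map_pow, map_ofNat]
    linear_combination (-4 * aeval u (PP c 2)) * ht
  by_cases h3 : O.valuation z < 1
  · have h0 : (Dsc c).coeff 4 ≠ 0 := by
      rw [← hd]
      refine leadingCoeff_ne_zero.2 fun h0 => ?_
      rw [h0] at hd; simp at hd
    have h4 : algebraMap ℂ K ((Dsc c).coeff 4)⁻¹ * algebraMap ℂ K ((Dsc c).coeff 4) = 1 := by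
      rw [← map_mul, inv_mul_cancel₀ h0, map_one]
    rw [aeval_eq_sum_range, hd] at hD
    simp only [Finset.sum_range_succ, Finset.sum_range_zero, Algebra.smul_def] at hD
    have h5 : (z * u) ^ 4 = algebraMap ℂ K ((Dsc c).coeff 4)⁻¹ * ((z ^ 2 * s) * (z ^ 2 * s) -
        (algebraMap ℂ K ((Dsc c).coeff 0) * z ^ 3 + algebraMap ℂ K ((Dsc c).coeff 1) * z ^ 2 *
          (z * u) + algebraMap ℂ K ((Dsc c).coeff 2) * z * (z * u) ^ 2 +
          algebraMap ℂ K ((Dsc c).coeff 3) * (z * u) ^ 3) * z) := by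
      linear_combination (algebraMap ℂ K ((Dsc c).coeff 4)⁻¹ * z ^ 4) * hD - (z * u) ^ 4 * h4
    have h6 : O.valuation ((z * u) ^ 4) < 1 := by
      rw [h5]
      refine xpc_mul (hC _) (O.valuation.map_sub_lt (xpc_mul hS h1) (xpc_mul ?_ h3))
      exact add_mem (add_mem (add_mem (mul_mem (hC _) (pow_mem m₀ _))
        (mul_mem (mul_mem (hC _) (pow_mem m₀ _)) m₁))
        (mul_mem (mul_mem (hC _) m₀) (pow_mem m₁ _))) (mul_mem (hC _) (pow_mem m₁ _))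
    rw [map_pow] at h6
    exact xpc_prim he₀ he₁ hz h3 ((pow_lt_one_iff four_ne_zero).1 h6)
  obtain ⟨h4, h5⟩ := xpc_inv h3
  have hu : u ∈ O := by
    convert mul_mem h5 m₁ using 1
    field_simp
  have hA := xpc_aeval hC hu
  have hs1 : O.valuation s < 1 := by
    convert xpc_mul (pow_mem h5 2) h1 using 2
    field_simp
  have hs0 : s ∈ O := (O.valuation_le_one_iff s).1 hs1.le
  obtain ⟨e, f, hef⟩ := hs
  have h6 := congrArg (aeval u) hef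
  rw [map_add, map_mul, map_mul, map_one, hD] at h6
  have h7 : aeval u (derivative (Dsc c)) =
      2 * aeval u (PP c 1) * aeval u (derivative (PP c 1)) -
      4 * aeval u (derivative (PP c 2)) * aeval u (PP c 0) -
      4 * aeval u (PP c 2) * aeval u (derivative (PP c 0)) := by
    simp only [Dsc, derivative_mul, derivative_sq, derivative_ofNat, map_sub,
      map_add, map_mul, map_ofNat, map_zero]
    ring
  have h8 : ∀ x : K, x ∈ O → O.valuation (x ^ 2 * aeval u (derivative (Dsc c))) < 1 →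
      O.valuation x < 1 := by
    intro x hx h
    refine xpc_sq ?_
    have := O.valuation.map_add_lt (xpc_mul (mul_mem (mul_mem (pow_mem hx 2) (hA e)) hs0) hs1)
      (xpc_mul (hA f) h)
    convert this using 2
    linear_combination (-x ^ 2) * h6
  refine xpc_prim he₂ he₃ hβ (h8 _ m₂ ?_) (h8 _ m₃ ?_)
  · have := O.valuation.map_sub_lt
      (xpc_mul (mul_mem (mul_mem m2 m₂) (add_mem (mul_mem (hA (derivative (PP c 1))) m₂)
        (mul_mem m2 (mul_mem (hA (derivative (PP c 2))) m₃)))) hs1)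
      (xpc_mul (mul_mem m4 (hA (PP c 2))) h2)
    convert this using 2
    rw [h7, hst, cu]
    linear_combination (-4 * β ^ 2 * aeval u (derivative (PP c 2))) * ht
  · have := O.valuation.map_sub_lt
      (xpc_mul (neg_mem (mul_mem (mul_mem m2 m₃) (add_mem
        (mul_mem (hA (derivative (PP c 1))) m₃)
        (mul_mem m2 (mul_mem (hA (derivative (PP c 0))) m₂))))) hs1)
      (xpc_mul (mul_mem m4 (hA (PP c 0))) h2)
    convert this using 2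
    rw [h7, hst, cu]
    linear_combination (4 * β ^ 2 * (aeval u (derivative (PP c 1)) * t +
      aeval u (derivative (PP c 0)))) * ht

theorem exists_rep {κ : Vec ℂ} (hκ : bq c ![-κ 1, 1] ![-κ 3, κ 2] ≠ 0)
    (hC : ∀ a : ℂ, algebraMap ℂ K a ∈ O)
    (ht : aeval u (PP c 2) * t ^ 2 + aeval u (PP c 1) * t + aeval u (PP c 0) = 0)
    (hb : algebraMap ℂ K (κ 2) + t * algebraMap ℂ K (κ 3) ≠ 0) :
    ∃ z β : K, z * (1 + u * algebraMap ℂ K (κ 1)) +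
        β * (algebraMap ℂ K (κ 2) + t * algebraMap ℂ K (κ 3)) = 1 ∧
      z ∈ O ∧ z * u ∈ O ∧ β ∈ O ∧ β * t ∈ O ∧ z ≠ 0 ∧ (u ∈ O → z⁻¹ ∈ O) ∧
      (u ∉ O → (z * u)⁻¹ ∈ O) ∧ ∃ e₂ ∈ O, ∃ e₃ ∈ O, β * e₂ + β * t * e₃ = 1 := by
  obtain ⟨z₀, hz0, hz1, hz2, hz3, hz4⟩ := xpc_scale O u
  obtain ⟨β₀, -, hβ1, hβ2, hβ3, hβ4⟩ := xpc_scale O t
  have hq : β₀ = 1 ∨ β₀ * t = 1 := (em (t ∈ O)).imp hβ3 hβ4
  have t2 : (2 : K) ≠ 0 ∧ (2 : K)⁻¹ ∈ O := by
    have e : algebraMap ℂ K 2 = 2 := map_ofNat _ 2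
    exact ⟨e ▸ (_root_.map_ne_zero _).2 two_ne_zero, by rw [← e, ← map_inv₀]; exact hC _⟩
  obtain ⟨x, y, h1, h2, h3, h4, h5, h6, h7⟩ := xpc_comb
    (add_mem hz1 (mul_mem hz2 (hC (κ 1))))
    (add_mem (mul_mem hβ1 (hC (κ 2))) (mul_mem hβ2 (hC (κ 3)))) t2
    (xpc_both hκ hC hz1 hz2 hβ1 hβ2 ((em (u ∈ O)).imp hz3 hz4) hq (by
      rw [← bq_affine] at ht
      simp only [bq, mon, Fin.sum_univ_three, Matrix.cons_val_zero, Matrix.cons_val_one,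
        Matrix.cons_val] at ht ⊢
      linear_combination (z₀ ^ 2 * β₀ ^ 2) * ht))
  refine ⟨x * z₀, y * β₀, by linear_combination h1, mul_mem h2 hz1,
    by rw [mul_assoc]; exact mul_mem h2 hz2, mul_mem h3 hβ1,
    by rw [mul_assoc]; exact mul_mem h3 hβ2, mul_ne_zero h4 hz0,
    fun h => by rwa [hz3 h, mul_one], fun h => by rwa [mul_assoc, hz4 h, mul_one], ?_⟩
  rcases hq with hq | hq
  · exact ⟨y⁻¹, h7, 0, zero_mem _, by rw [hq, mul_one, mul_zero, add_zero, mul_inv_cancel₀ h6]⟩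
  · exact ⟨0, zero_mem _, y⁻¹, h7, by
      rw [mul_zero, zero_add, mul_assoc y, hq, mul_one, mul_inv_cancel₀ h6]⟩

end Pool.Agent.MP_d920b6_mp.Cx
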