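import Pool.Agent.MP_d920b6_mp.Cx.F0v
import Pool.Agent.MP_d920b6_mp.Cx.F1
import Pool.Agent.MP_d920b6_mp.Cx.PC

/-! The generic point of the cone over the curve. -/

namespace Pool.Agent.MP_d920b6_mp.Cx

open Polynomial Matrix

section small
variable {K : Type} [Field K] {O : ValuationSubring K}

theorem xECx_mem {x : K} (h : O.valuation x < 1) : x ∈ O :=
  (O.valuation_le_one_iff x).1 h.le

theorem xECx_add {x y : K} (hx : O.valuation x < 1) (hy : O.valuation y < 1) :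
    O.valuation (x + y) < 1 := Valuation.map_add_lt _ hx hy

theorem xECx_sub {x y : K} (hx : O.valuation x < 1) (hy : O.valuation y < 1) :
    O.valuation (x - y) < 1 := Valuation.map_sub_lt _ hx hy

theorem xECx_mul {x y : K} (hx : x ∈ O) (hy : O.valuation y < 1) :
    O.valuation (x * y) < 1 := by
  rw [map_mul]
  calc O.valuation x * O.valuation y ≤ 1 * O.valuation y := by
        gcongr; exact (O.valuation_le_one_iff x).2 hx
    _ < 1 := by rwa [one_mul]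

theorem xECx_unit {x : K} (h : O.valuation (x - 1) < 1) : x ≠ 0 ∧ x⁻¹ ∈ O := by
  have h1 : O.valuation x = 1 := by
    have := Valuation.map_one_add_of_lt O.valuation h
    simpa using this
  refine ⟨fun h0 => by simp [h0] at h1, ?_⟩
  rw [← O.valuation_le_one_iff, map_inv₀, h1, inv_one]

theorem xECx_unit' {x e : K} (he : e ≠ 0) (he' : e⁻¹ ∈ O) (h : O.valuation (x - e) < 1) :
    x ≠ 0 ∧ x⁻¹ ∈ O := by
  have h1 : O.valuation (e⁻¹ * x - 1) < 1 := by
    have : e⁻¹ * x - 1 = e⁻¹ * (x - e) := by field_simp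
    rw [this]; exact xECx_mul he' h
  obtain ⟨h2, h3⟩ := xECx_unit h1
  have hx : x ≠ 0 := fun h0 => h2 (by rw [h0, mul_zero])
  refine ⟨hx, ?_⟩
  have : x⁻¹ = (e⁻¹ * x)⁻¹ * e⁻¹ := by field_simp
  rw [this]; exact O.mul_mem _ _ h3 he'

theorem xECx_small_iff {x : K} : O.valuation x < 1 ↔ x = 0 ∨ x⁻¹ ∉ O := by
  rw [← ValuationSubring.mem_nonunits_iff, ValuationSubring.mem_nonunits_iff_or]

end small

section alg
variable {K : Type} [Field K] [Algebra ℂ K]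

theorem xECx_PP (c : Fin 3 → Fin 3 → ℂ) (j : Fin 3) (u : K) :
    aeval u (PP c j) = algebraMap ℂ K (c 0 j) + algebraMap ℂ K (c 1 j) * u +
      algebraMap ℂ K (c 2 j) * u ^ 2 := by
  simp [PP]

theorem xECx_dPP (c : Fin 3 → Fin 3 → ℂ) (j : Fin 3) (u : K) :
    aeval u (derivative (PP c j)) = algebraMap ℂ K (c 1 j) +
      2 * algebraMap ℂ K (c 2 j) * u := by
  simp only [PP, derivative_C, derivative_mul, derivative_X, derivative_X_pow,
    zero_mul, zero_add, mul_one, map_add, map_mul, aeval_C, aeval_X, map_pow, map_natCast]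
  push_cast
  ring

theorem xECx_aeval_small {O : ValuationSubring K} (hC : ∀ a : ℂ, algebraMap ℂ K a ∈ O)
    (c : Fin 3 → Fin 3 → ℂ) (j : Fin 3) {u : K} {u₀ : ℂ}
    (h : O.valuation (u - algebraMap ℂ K u₀) < 1) :
    O.valuation (aeval u (PP c j) - algebraMap ℂ K (aeval u₀ (PP c j))) < 1 := by
  have hu : u ∈ O := by
    have := O.add_mem _ _ (xECx_mem h) (hC u₀)
    simpa using this
  have : aeval u (PP c j) - algebraMap ℂ K (aeval u₀ (PP c j)) =
      (algebraMap ℂ K (c 1 j) + algebraMap ℂ K (c 2 j) * (u + algebraMap ℂ K u₀)) *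
        (u - algebraMap ℂ K u₀) := by
    rw [xECx_PP, xECx_PP]
    simp only [Algebra.algebraMap_self, RingHom.id_apply, map_add, map_mul, map_pow]
    ring
  rw [this]
  exact xECx_mul (O.add_mem _ _ (hC _) (O.mul_mem _ _ (hC _) (O.add_mem _ _ hu (hC _)))) h

/-- the moving point -/
noncomputable def xECx_y (κ : Vec ℂ) (z u t : K) : Vec K :=
  ![z, z * u,
    (1 - z * (1 + u * algebraMap ℂ K (κ 1))) / (algebraMap ℂ K (κ 2) + t * algebraMap ℂ K (κ 3)),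
    (1 - z * (1 + u * algebraMap ℂ K (κ 1))) / (algebraMap ℂ K (κ 2) + t * algebraMap ℂ K (κ 3))
      * t]

theorem xECx_Sm (κ : Vec ℂ) {z u t s : K} (E : Derivation ℂ K K) (hz : E z = 0) (hu : E u = s) :
    Sm (xECx_y κ z u t) (E ∘ xECx_y κ z u t) = z ^ 2 * s := by
  simp only [Sm, xECx_y, Function.comp, cons_val_zero, cons_val_one, Derivation.leibniz, hz, hu,
    smul_eq_mul]
  ring

theorem xECx_Sp (κ : Vec ℂ) {z u t w : K} (E : Derivation ℂ K K) (ht : E t = -w) :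
    Sp (xECx_y κ z u t) (E ∘ xECx_y κ z u t) = (xECx_y κ z u t 2) ^ 2 * w := by
  have h3 : xECx_y κ z u t 3 = xECx_y κ z u t 2 * t := rfl
  simp only [Sp, Function.comp, h3, Derivation.leibniz, ht, smul_eq_mul]
  ring

end alg

section tower
variable {K₀ K : Type} [Field K₀] [Algebra ℂ K₀] [Field K] [Algebra ℂ K] [Algebra K₀ K]
  [IsScalarTower ℂ K₀ K] {c : Fin 3 → Fin 3 → ℂ} {κ : Vec ℂ} {u s t : K₀} {z : K}

theorem xECx_map_aeval (p : ℂ[X]) (u : K₀) :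
    aeval (algebraMap K₀ K u) p = algebraMap K₀ K (aeval u p) :=
  aeval_algebraMap_apply K u p

theorem xECx_map_C (a : ℂ) : algebraMap ℂ K a = algebraMap K₀ K (algebraMap ℂ K₀ a) :=
  IsScalarTower.algebraMap_apply ℂ K₀ K a

theorem xECx_map_cu (c : Fin 3 → Fin 3 → ℂ) (u t : K₀) :
    cu c (algebraMap K₀ K u) (algebraMap K₀ K t) = algebraMap K₀ K (cu c u t) := by
  simp only [cu, xECx_map_aeval, map_add, map_mul, map_pow]

theorem xECx_beta (hb : algebraMap ℂ K₀ (κ 2) + t * algebraMap ℂ K₀ (κ 3) ≠ 0) {z₀ β₀ : K₀}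
    (h : z₀ * (1 + u * algebraMap ℂ K₀ (κ 1)) +
      β₀ * (algebraMap ℂ K₀ (κ 2) + t * algebraMap ℂ K₀ (κ 3)) = 1) :
    xECx_y κ z (algebraMap K₀ K u) (algebraMap K₀ K t) 2 = algebraMap K₀ K β₀ +
      algebraMap K₀ K (-((1 + u * algebraMap ℂ K₀ (κ 1)) /
        (algebraMap ℂ K₀ (κ 2) + t * algebraMap ℂ K₀ (κ 3)))) * (z - algebraMap K₀ K z₀) := by
  have hb' : algebraMap ℂ K (κ 2) + algebraMap K₀ K t * algebraMap ℂ K (κ 3) ≠ 0 := by
    have := (_root_.map_ne_zero (algebraMap K₀ K)).2 hb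
    simpa only [map_add, map_mul, ← xECx_map_C] using this
  have h' := congrArg (algebraMap K₀ K) h
  simp only [map_add, map_mul, map_one, ← xECx_map_C] at h'
  change (1 - z * (1 + _ * _)) / _ = _
  simp only [map_add, map_mul, map_one, map_neg, map_div₀, ← xECx_map_C]
  field_simp
  linear_combination -h'

theorem xECx_chart (hd : (Dsc c).natDegree = 4) (hs : IsCoprime (Dsc c) (derivative (Dsc c)))
    (ht : aeval u (PP c 2) * t ^ 2 + aeval u (PP c 1) * t + aeval u (PP c 0) = 0)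
    (hst : s = 2 * aeval u (PP c 2) * t + aeval u (PP c 1))
    (hb : algebraMap ℂ K₀ (κ 2) + t * algebraMap ℂ K₀ (κ 3) ≠ 0)
    (E : Derivation ℂ K K) (Ez : E z = 0) (Eu : E (algebraMap K₀ K u) = algebraMap K₀ K s)
    (Et : E (algebraMap K₀ K t) = -cu c (algebraMap K₀ K u) (algebraMap K₀ K t))
    {O₀ : ValuationSubring K₀} (hC : ∀ a : ℂ, algebraMap ℂ K₀ a ∈ O₀) {z₀ β₀ : K₀}
    (h : z₀ * (1 + u * algebraMap ℂ K₀ (κ 1)) +
      β₀ * (algebraMap ℂ K₀ (κ 2) + t * algebraMap ℂ K₀ (κ 3)) = 1)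
    (m₀ : z₀ ∈ O₀) (m₁ : z₀ * u ∈ O₀) (m₂ : β₀ ∈ O₀) (m₃ : β₀ * t ∈ O₀)
    (hz : ∃ e₀ ∈ O₀, ∃ e₁ ∈ O₀, z₀ * e₀ + z₀ * u * e₁ = 1)
    (hβ : ∃ e₂ ∈ O₀, ∃ e₃ ∈ O₀, β₀ * e₂ + β₀ * t * e₃ = 1)
    {O : ValuationSubring K} (hO : ∀ a : K₀, algebraMap K₀ K a ∈ O ↔ a ∈ O₀)
    (hsm : ∀ a : K₀, O.valuation (algebraMap K₀ K a * (z - algebraMap K₀ K z₀)) < 1) :
    Chart O (xECx_y κ z (algebraMap K₀ K u) (algebraMap K₀ K t))
      (E ∘ xECx_y κ z (algebraMap K₀ K u) (algebraMap K₀ K t)) := by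
  have hC' : ∀ a : ℂ, algebraMap ℂ K a ∈ O := fun a => by
    rw [xECx_map_C (K₀ := K₀)]; exact (hO _).2 (hC a)
  have hβe := xECx_beta (K := K) (z := z) hb h
  set β := xECx_y κ z (algebraMap K₀ K u) (algebraMap K₀ K t) 2 with hβdef
  set r := -((1 + u * algebraMap ℂ K₀ (κ 1)) /
    (algebraMap ℂ K₀ (κ 2) + t * algebraMap ℂ K₀ (κ 3))) with hr
  have n₀ : z ∈ O := by
    have := O.add_mem _ _ ((hO _).2 m₀) (xECx_mem (hsm 1))
    simpa using this
  have n₁ : z * algebraMap K₀ K u ∈ O := by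
    have := O.add_mem _ _ ((hO _).2 m₁) (xECx_mem (hsm u))
    convert this using 1
    rw [map_mul]; ring
  have n₂ : β ∈ O := by
    rw [hβe]; exact O.add_mem _ _ ((hO _).2 m₂) (xECx_mem (hsm r))
  have n₃ : β * algebraMap K₀ K t ∈ O := by
    have := O.add_mem _ _ ((hO _).2 m₃) (xECx_mem (hsm (r * t)))
    convert this using 1
    rw [hβe, map_mul, map_mul]; ring
  have nz : ∃ e₀ ∈ O, ∃ e₁ ∈ O, z * e₀ + z * algebraMap K₀ K u * e₁ = 1 := by
    obtain ⟨e₀, he₀, e₁, he₁, he⟩ := hz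
    have he' := congrArg (algebraMap K₀ K) he
    simp only [map_add, map_mul, map_one] at he'
    have hw : O.valuation (z * algebraMap K₀ K e₀ +
        z * algebraMap K₀ K u * algebraMap K₀ K e₁ - 1) < 1 := by
      convert hsm (e₀ + u * e₁) using 2
      rw [map_add, map_mul]; linear_combination he'
    obtain ⟨w0, w1⟩ := xECx_unit hw
    refine ⟨_, O.mul_mem _ _ ((hO _).2 he₀) w1, _, O.mul_mem _ _ ((hO _).2 he₁) w1, ?_⟩
    rw [← mul_assoc, ← mul_assoc, ← add_mul, mul_inv_cancel₀ w0]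
  have nβ : ∃ e₂ ∈ O, ∃ e₃ ∈ O, β * e₂ + β * algebraMap K₀ K t * e₃ = 1 := by
    obtain ⟨e₀, he₀, e₁, he₁, he⟩ := hβ
    have he' := congrArg (algebraMap K₀ K) he
    simp only [map_add, map_mul, map_one] at he'
    have hw : O.valuation (β * algebraMap K₀ K e₀ +
        β * algebraMap K₀ K t * algebraMap K₀ K e₁ - 1) < 1 := by
      convert hsm (r * (e₀ + t * e₁)) using 2
      rw [hβe, map_mul, map_add, map_mul]; linear_combination he'
    obtain ⟨w0, w1⟩ := xECx_unit hw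
    refine ⟨_, O.mul_mem _ _ ((hO _).2 he₀) w1, _, O.mul_mem _ _ ((hO _).2 he₁) w1, ?_⟩
    rw [← mul_assoc, ← mul_assoc, ← add_mul, mul_inv_cancel₀ w0]
  have ht' : aeval (algebraMap K₀ K u) (PP c 2) * (algebraMap K₀ K t) ^ 2 +
      aeval (algebraMap K₀ K u) (PP c 1) * algebraMap K₀ K t +
      aeval (algebraMap K₀ K u) (PP c 0) = 0 := by
    have := congrArg (algebraMap K₀ K) ht
    simpa only [xECx_map_aeval, map_add, map_mul, map_pow, map_zero] using this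
  have hst' : algebraMap K₀ K s = 2 * aeval (algebraMap K₀ K u) (PP c 2) * algebraMap K₀ K t +
      aeval (algebraMap K₀ K u) (PP c 1) := by
    have := congrArg (algebraMap K₀ K) hst
    simpa only [xECx_map_aeval, map_add, map_mul, map_ofNat] using this
  obtain ⟨c1, c2, c3⟩ := chart_of hd hs hC' ht' hst' n₀ n₁ n₂ n₃ nz nβ
  have e1 := xECx_Sm κ (t := algebraMap K₀ K t) E Ez Eu
  have e2 := xECx_Sp κ (z := z) (u := algebraMap K₀ K u) E Et
  refine ⟨hC', fun i => ?_, nz, nβ, e1 ▸ c1, e2 ▸ c2, ?_⟩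
  · fin_cases i
    exacts [n₀, n₁, n₂, n₃]
  · rw [e1, e2]; exact c3

omit [IsScalarTower ℂ K₀ K] in
theorem xECx_lin (D E : Derivation ℂ K K) (E₀ : Derivation ℂ K₀ K₀)
    (hD : ∀ a : K₀, D (algebraMap K₀ K a) = 0) (Dz : D z = 1)
    (hE : ∀ a : K₀, E (algebraMap K₀ K a) = algebraMap K₀ K (E₀ a)) (Ez : E z = 0) {x : K}
    (p q : K₀) (hx : x = algebraMap K₀ K p + algebraMap K₀ K q * z) :
    D x = algebraMap K₀ K q ∧ D (E x) = E (D x) := by
  have h1 : D x = algebraMap K₀ K q := by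
    rw [hx]; simp [Derivation.leibniz, hD, Dz]
  refine ⟨h1, ?_⟩
  rw [h1, hx]
  simp [Derivation.leibniz, hD, Dz, hE, Ez]

theorem xECx_main {y : Vec ℂ} (h : CurveOK c κ y) (hF : IsFF (Dsc c) u s) (E₀ : Derivation ℂ K₀ K₀)
    (ht : aeval u (PP c 2) * t ^ 2 + aeval u (PP c 1) * t + aeval u (PP c 0) = 0)
    (hst : s = 2 * aeval u (PP c 2) * t + aeval u (PP c 1))
    (hb : algebraMap ℂ K₀ (κ 2) + t * algebraMap ℂ K₀ (κ 3) ≠ 0)
    (E0u : E₀ u = s) (E0t : E₀ t = -cu c u t)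
    {O₀ : ValuationSubring K₀} (hC : ∀ a : ℂ, algebraMap ℂ K₀ a ∈ O₀) {β₀ : K₀}
    (hβ₀ : algebraMap ℂ K₀ (y 0) * (1 + u * algebraMap ℂ K₀ (κ 1)) +
      β₀ * (algebraMap ℂ K₀ (κ 2) + t * algebraMap ℂ K₀ (κ 3)) = 1)
    (s₁ : O₀.valuation (algebraMap ℂ K₀ (y 0) * u - algebraMap ℂ K₀ (y 1)) < 1)
    (s₂ : O₀.valuation (β₀ - algebraMap ℂ K₀ (y 2)) < 1)
    (s₃ : O₀.valuation (β₀ * t - algebraMap ℂ K₀ (y 3)) < 1)
    (D E : Derivation ℂ K K) (hD : ∀ a : K₀, D (algebraMap K₀ K a) = 0) (Dz : D z = 1)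
    (hE : ∀ a : K₀, E (algebraMap K₀ K a) = algebraMap K₀ K (E₀ a)) (Ez : E z = 0)
    (hker : ∀ b, D b = 0 → ∃ a : K₀, b = algebraMap K₀ K a)
    (hpl : ∀ (O₀ : ValuationSubring K₀) (z₀ : K₀), ∃ O : ValuationSubring K,
      (∀ a : K₀, algebraMap K₀ K a ∈ O ↔ a ∈ O₀) ∧
      ∀ a : K₀, O.valuation (algebraMap K₀ K a * (z - algebraMap K₀ K z₀)) < 1) :
    EC c κ y (xECx_y κ z (algebraMap K₀ K u) (algebraMap K₀ K t)) D E := by
  have hu0 : u ≠ 0 := fun h0 => X_ne_zero (hF.indep X 0 (by simp [h0])).1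
  have hz0 : z ≠ 0 := fun h0 => by simp [h0] at Dz
  have Eu : E (algebraMap K₀ K u) = algebraMap K₀ K s := by rw [hE, E0u]
  have Et : E (algebraMap K₀ K t) = -cu c (algebraMap K₀ K u) (algebraMap K₀ K t) := by
    rw [hE, E0t, xECx_map_cu, map_neg]
  have hβe := xECx_beta (K := K) (z := z) hb hβ₀
  have hchart := fun {O₀ : ValuationSubring K₀} hC {z₀ β₀ : K₀} =>
    xECx_chart (K := K) (z := z) (κ := κ) h.deg h.sqf ht hst hb E Ez Eu Et (O₀ := O₀) hC
      (z₀ := z₀) (β₀ := β₀)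
  have e1 := xECx_Sm κ (t := algebraMap K₀ K t) E Ez Eu
  have e2 := xECx_Sp κ (z := z) (u := algebraMap K₀ K u) E Et
  have ht' : aeval (algebraMap K₀ K u) (PP c 2) * (algebraMap K₀ K t) ^ 2 +
      aeval (algebraMap K₀ K u) (PP c 1) * algebraMap K₀ K t +
      aeval (algebraMap K₀ K u) (PP c 0) = 0 := by
    have := congrArg (algebraMap K₀ K) ht
    simpa only [xECx_map_aeval, map_add, map_mul, map_pow, map_zero] using this
  have hst' : algebraMap K₀ K s = 2 * aeval (algebraMap K₀ K u) (PP c 2) * algebraMap K₀ K t +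
      aeval (algebraMap K₀ K u) (PP c 1) := by
    have := congrArg (algebraMap K₀ K) hst
    simpa only [xECx_map_aeval, map_add, map_mul, map_ofNat] using this
  have hb' : algebraMap ℂ K (κ 2) + algebraMap K₀ K t * algebraMap ℂ K (κ 3) ≠ 0 := by
    have := (_root_.map_ne_zero (algebraMap K₀ K)).2 hb
    simpa only [map_add, map_mul, ← xECx_map_C] using this
  set U := algebraMap K₀ K u with hU
  set T := algebraMap K₀ K t with hT
  set y' := xECx_y κ z U T with hy'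
  have q0 : y' 0 = z := rfl
  have q1 : y' 1 = z * U := rfl
  have q3 : y' 3 = y' 2 * T := rfl
  have hsum : z * (1 + U * algebraMap ℂ K (κ 1)) +
      y' 2 * (algebraMap ℂ K (κ 2) + T * algebraMap ℂ K (κ 3)) = 1 := by
    change _ + (1 - _) / _ * _ = 1
    rw [div_mul_cancel₀ _ hb']; ring
  set r := -((1 + u * algebraMap ℂ K₀ (κ 1)) /
    (algebraMap ℂ K₀ (κ 2) + t * algebraMap ℂ K₀ (κ 3))) with hr
  have hrb : algebraMap K₀ K r * (algebraMap ℂ K (κ 2) + T * algebraMap ℂ K (κ 3)) =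
      -(1 + U * algebraMap ℂ K (κ 1)) := by
    simp only [hr, map_neg, map_div₀, map_add, map_mul, map_one, ← xECx_map_C, ← hU, ← hT]
    field_simp
  have l0 := xECx_lin D E E₀ hD Dz hE Ez (x := y' 0) 0 1 (by simp [q0])
  have l1 := xECx_lin D E E₀ hD Dz hE Ez (x := y' 1) 0 u (by rw [q1, map_zero]; ring)
  have l2 := xECx_lin D E E₀ hD Dz hE Ez (x := y' 2) (β₀ - r * algebraMap ℂ K₀ (y 0)) r
    (by rw [hβe, map_sub, map_mul]; ring)
  have l3 := xECx_lin D E E₀ hD Dz hE Ez (x := y' 3) ((β₀ - r * algebraMap ℂ K₀ (y 0)) * t)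
    (r * t) (by rw [q3, hβe, map_mul, map_sub, map_mul, map_mul]; ring)
  have hβ0 : y' 2 ≠ 0 := fun h0 => by
    have h1 : algebraMap K₀ K r = 0 := by rw [← l2.1, h0, map_zero]
    rw [h1, zero_mul, eq_comm, neg_eq_zero] at hrb
    rw [h0, hrb] at hsum
    simp at hsum
  rw [xECx_PP, xECx_PP, xECx_PP] at ht'
  rw [xECx_PP, xECx_PP] at hst'
  refine ⟨?_, ?_, hz0, mul_ne_zero hz0 ((_root_.map_ne_zero _).2 hu0), ?_, fun i => ?_, Ez, fun p => ?_,
    fun q => ?_, ?_, fun a ρ ha h₀ h₁ => ?_⟩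
  · simp only [dotProduct, Fin.sum_univ_four, Function.comp, h.κ0, map_one, q0, q1, q3]
    linear_combination hsum
  · simp only [bq, Fin.sum_univ_three, mon, vlo, vhi, q0, q1, q3, cons_val_zero, cons_val_one,
      cons_val]
    linear_combination (z ^ 2 * y' 2 ^ 2) * ht'
  · refine ⟨z⁻¹, algebraMap K₀ K r / y' 2, fun hd => ?_, ?_, ?_, ?_, ?_⟩
    · have h1 : y' 2 = algebraMap K₀ K r * z := by
        field_simp at hd; linear_combination hd
      rw [h1] at hsum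
      have : (0 : K) = 1 := by linear_combination hsum - z * hrb
      exact zero_ne_one this
    · rw [l0.1, q0, map_one, inv_mul_cancel₀ hz0]
    · rw [l1.1, q1, ← mul_assoc, inv_mul_cancel₀ hz0, one_mul]
    · rw [l2.1, div_mul_cancel₀ _ hβ0]
    · rw [l3.1, q3, ← mul_assoc, div_mul_cancel₀ _ hβ0, map_mul]
  · fin_cases i
    exacts [l0.2, l1.2, l2.2, l3.2]
  · rw [e2]
    simp only [bq, Fin.sum_univ_three, mon, vlo, vhi, q0, q1, q3, cons_val_zero, cons_val_one,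
      cons_val, Pi.add_apply, Pi.sub_apply, cu, xECx_dPP]
    linear_combination (4 * z * p 0 * y' 2 ^ 2) * ht'
  · rw [e1, hst']
    simp only [bq, Fin.sum_univ_three, mon, vlo, vhi, q0, q1, q3, cons_val_zero, cons_val_one,
      cons_val, Pi.add_apply, Pi.sub_apply]
    linear_combination (4 * y' 2 * q 0 * z ^ 2) * ht'
  · obtain ⟨O, hO, hsm⟩ := hpl O₀ (algebraMap ℂ K₀ (y 0))
    have mem : ∀ {x : K₀} {a : ℂ}, O₀.valuation (x - algebraMap ℂ K₀ a) < 1 → x ∈ O₀ :=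
      fun {x a} hx => by simpa using O₀.add_mem _ _ (xECx_mem hx) (hC a)
    have tr : ∀ {x : K₀}, O₀.valuation x < 1 → O.valuation (algebraMap K₀ K x) < 1 :=
      fun {x} hx => by
        rw [xECx_small_iff] at hx ⊢
        rw [← map_inv₀, hO, map_eq_zero]; exact hx
    have y2' : algebraMap ℂ K₀ (y 2) ≠ 0 := (_root_.map_ne_zero _).2 h.y2
    obtain ⟨b0, b1⟩ := xECx_unit' y2' (by rw [← map_inv₀]; exact hC _) s₂
    refine ⟨O, hchart hC hβ₀ (hC _) (mem s₁) (mem s₂) (mem s₃)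
      ⟨_, hC (y 0)⁻¹, 0, O₀.zero_mem, ?_⟩ ⟨_, b1, 0, O₀.zero_mem, ?_⟩ hO hsm, fun i => ?_⟩
    · rw [← map_mul, mul_inv_cancel₀ h.y0, map_one, mul_zero, add_zero]
    · rw [mul_inv_cancel₀ b0, mul_zero, add_zero]
    · rw [xECx_map_C (K₀ := K₀)]
      fin_cases i
      · simpa [q0] using hsm 1
      · convert xECx_add (hsm u) (tr s₁) using 2
        change z * U - algebraMap K₀ K (algebraMap ℂ K₀ (y 1)) = _
        rw [map_sub, map_mul]; ring
      · convert xECx_add (hsm r) (tr s₂) using 2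
        change y' 2 - algebraMap K₀ K (algebraMap ℂ K₀ (y 2)) = _
        rw [hβe, map_sub]; ring
      · convert xECx_add (hsm (r * t)) (tr s₃) using 2
        change y' 2 * T - algebraMap K₀ K (algebraMap ℂ K₀ (y 3)) = _
        rw [hβe, map_sub, map_mul, map_mul]; ring
  · obtain ⟨a₀, rfl⟩ := hker a ha
    have key : ∀ (O₀ : ValuationSubring K₀) (z₀ w : K₀) (O : ValuationSubring K), z₀ ≠ 0 →
        (z₀ * w)⁻¹ ∈ O₀ → (∀ a : K₀, algebraMap K₀ K a ∈ O ↔ a ∈ O₀) →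
        (∀ a : K₀, O.valuation (algebraMap K₀ K a * (z - algebraMap K₀ K z₀)) < 1) →
        (z * algebraMap K₀ K w)⁻¹ ∈ O := fun O₀ z₀ w O hz₀ hw hO hsm => by
      have hz₀' : algebraMap K₀ K z₀ ≠ 0 := (_root_.map_ne_zero _).2 hz₀
      have h2 : O.valuation ((algebraMap K₀ K z₀)⁻¹ * z - 1) < 1 := by
        convert hsm z₀⁻¹ using 2
        rw [map_inv₀]; field_simp
      have h3 := O.mul_mem _ _ (xECx_unit h2).2 ((hO _).2 hw)
      convert h3 using 1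
      rw [map_inv₀, map_mul, ← mul_inv]
      congr 1
      field_simp
    have := hF.const h.deg h.sqf a₀ ρ (fun O₀ hC hu => ?_) (fun O₀ hC hu => ?_)
    · obtain ⟨h2, a₁, h3⟩ := this
      exact ⟨h2, a₁, by rw [h3, ← xECx_map_C]⟩
    · obtain ⟨z₀, β₁, g0, g1, g2, g3, g4, g5, g6, -, g8⟩ := exists_rep h.cκ hC ht hb
      obtain ⟨O, hO, hsm⟩ := hpl O₀ z₀
      refine (hO _).1 (h₀ O (hchart hC g0 g1 g2 g3 g4 ⟨_, g6 hu, 0, O₀.zero_mem, ?_⟩ g8 hO hsm) ?_)
      · rw [mul_inv_cancel₀ g5, mul_zero, add_zero]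
      · have := key O₀ z₀ 1 O g5 (by rw [mul_one]; exact g6 hu) hO hsm
        rwa [map_one, mul_one] at this
    · obtain ⟨z₀, β₁, g0, g1, g2, g3, g4, g5, -, g7, g8⟩ := exists_rep h.cκ hC ht hb
      obtain ⟨O, hO, hsm⟩ := hpl O₀ z₀
      have h2 := h₁ O (hchart hC g0 g1 g2 g3 g4 ⟨0, O₀.zero_mem, _, g7 hu, ?_⟩ g8 hO hsm)
        (key O₀ z₀ u O g5 (g7 hu) hO hsm)
      · rw [← hO]
        convert h2 using 1
        have hU0 : U ≠ 0 := (_root_.map_ne_zero _).2 hu0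
        rw [q1, Derivation.leibniz, Ez, Eu, map_sub, map_mul, map_div₀, ← xECx_map_C, ← hU]
        simp only [smul_eq_mul]
        field_simp
        ring
      · rw [mul_inv_cancel₀ (mul_ne_zero g5 hu0), mul_zero, zero_add]

end tower

theorem exists_EC {c : Fin 3 → Fin 3 → ℂ} {κ y : Vec ℂ} (h : CurveOK c κ y) :
    ∃ (K : Type) (_ : Field K) (_ : Algebra ℂ K) (y' : Vec K) (D E : Derivation ℂ K K),
      EC c κ y y' D E := by
  obtain ⟨K₀, _, _, u, s, E₀, hF, E0u⟩ := exists_FF (Dsc c) h.deg h.sqf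
  obtain ⟨D, E, hD, Dz, hE, Ez, hker⟩ := ratFunc_der E₀
  have y0 := h.y0
  have y2 := h.y2
  set u₀ := y 1 / y 0 with hu₀
  set t₀ := y 3 / y 2 with ht₀
  have hA₀ : aeval u₀ (PP c 2) ≠ 0 := fun h0 => h.cA (by
    rw [xECx_PP, hu₀] at h0
    simp only [Algebra.algebraMap_self, RingHom.id_apply] at h0
    simp only [bq, Fin.sum_univ_three, mon, vlo, cons_val_zero, cons_val_one, cons_val]
    field_simp at h0
    linear_combination h0)
  have hcy : aeval u₀ (PP c 2) * t₀ ^ 2 + aeval u₀ (PP c 1) * t₀ + aeval u₀ (PP c 0) = 0 := by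
    have h0 := h.cy
    simp only [bq, Fin.sum_univ_three, mon, vlo, vhi, cons_val_zero, cons_val_one, cons_val] at h0
    rw [xECx_PP, xECx_PP, xECx_PP, hu₀, ht₀]
    simp only [Algebra.algebraMap_self, RingHom.id_apply]
    field_simp
    linear_combination h0
  have hA : aeval u (PP c 2) ≠ 0 := fun h0 =>
    hA₀ (by rw [(hF.indep (PP c 2) 0 (by simp [h0])).1, map_zero])
  have hs0 : s ≠ 0 := fun h0 => one_ne_zero (hF.indep 0 1 (by simp [h0])).2
  have h2 : (2 : K₀) ≠ 0 := by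
    have := (_root_.map_ne_zero (algebraMap ℂ K₀)).2 (two_ne_zero (α := ℂ))
    rwa [map_ofNat] at this
  obtain ⟨t, htdef⟩ : ∃ t : K₀, t = (s - aeval u (PP c 1)) / (2 * aeval u (PP c 2)) := ⟨_, rfl⟩
  have hst : s = 2 * aeval u (PP c 2) * t + aeval u (PP c 1) := by
    rw [htdef]; field_simp; ring
  have ht : aeval u (PP c 2) * t ^ 2 + aeval u (PP c 1) * t + aeval u (PP c 0) = 0 := by
    have h1 := hF.sq
    simp only [Dsc, map_sub, map_mul, map_pow, map_ofNat] at h1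
    apply mul_left_cancel₀ (mul_ne_zero (mul_ne_zero h2 h2) hA)
    rw [hst] at h1
    linear_combination h1
  have E0t : E₀ t = -cu c u t := by
    have h1 := congrArg E₀ ht
    simp only [map_add, Derivation.leibniz, Derivation.leibniz_pow, Derivation.map_aeval, E0u,
      smul_eq_mul, map_zero, nsmul_eq_mul] at h1
    apply mul_left_cancel₀ hs0
    rw [cu]
    push_cast at h1
    linear_combination h1 + E₀ t * hst
  obtain ⟨O₀, hC, su, ss⟩ := hF.point u₀ (2 * aeval u₀ (PP c 2) * t₀ + aeval u₀ (PP c 1)) (by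
    rw [← coe_aeval_eq_eval]
    simp only [Dsc, map_sub, map_mul, map_pow, map_ofNat]
    linear_combination 4 * aeval u₀ (PP c 2) * hcy)
  have sA := xECx_aeval_small hC c 2 su
  have sB := xECx_aeval_small hC c 1 su
  have hCi : ∀ a : ℂ, (algebraMap ℂ K₀ a)⁻¹ ∈ O₀ := fun a => by rw [← map_inv₀]; exact hC _
  have h2O : (2 : K₀) ∈ O₀ := by simpa only [map_ofNat] using hC 2
  have h2O' : (2 : K₀)⁻¹ ∈ O₀ := by simpa only [map_ofNat] using hCi 2
  have hAi := (xECx_unit' ((_root_.map_ne_zero _).2 hA₀) (hCi _) sA).2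
  have st : O₀.valuation (t - algebraMap ℂ K₀ t₀) < 1 := by
    convert xECx_mul (O₀.mul_mem _ _ h2O' hAi)
      (xECx_sub (xECx_sub ss sB) (xECx_mul (O₀.mul_mem _ _ h2O (hC t₀)) sA)) using 2
    rw [hst]
    simp only [map_add, map_mul, map_ofNat]
    field_simp
    ring
  have sb : O₀.valuation (algebraMap ℂ K₀ (κ 2) + t * algebraMap ℂ K₀ (κ 3) -
      algebraMap ℂ K₀ ((y 2 * κ 2 + y 3 * κ 3) / y 2)) < 1 := by
    convert xECx_mul (hC (κ 3)) st using 2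
    have : (y 2 * κ 2 + y 3 * κ 3) / y 2 = κ 2 + t₀ * κ 3 := by rw [ht₀]; field_simp
    rw [this, map_add, map_mul]; ring
  obtain ⟨hb, hbi⟩ := xECx_unit' ((_root_.map_ne_zero _).2 (div_ne_zero h.yκ' y2)) (hCi _) sb
  have e1 : algebraMap ℂ K₀ (y 1) = algebraMap ℂ K₀ (y 0) * algebraMap ℂ K₀ u₀ := by
    rw [← map_mul, hu₀, mul_div_cancel₀ _ y0]
  have e3 : algebraMap ℂ K₀ (y 3) = algebraMap ℂ K₀ (y 2) * algebraMap ℂ K₀ t₀ := by
    rw [← map_mul, ht₀, mul_div_cancel₀ _ y2]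
  have e4 := congrArg (algebraMap ℂ K₀) h.yκ
  simp only [dotProduct, Fin.sum_univ_four, h.κ0, map_add, map_mul, map_one, e1, e3] at e4
  obtain ⟨β₀, hβdef⟩ : ∃ β₀ : K₀, β₀ = (1 - algebraMap ℂ K₀ (y 0) *
    (1 + u * algebraMap ℂ K₀ (κ 1))) / (algebraMap ℂ K₀ (κ 2) + t * algebraMap ℂ K₀ (κ 3)) :=
    ⟨_, rfl⟩
  have hβ₀ : algebraMap ℂ K₀ (y 0) * (1 + u * algebraMap ℂ K₀ (κ 1)) +
      β₀ * (algebraMap ℂ K₀ (κ 2) + t * algebraMap ℂ K₀ (κ 3)) = 1 := by
    rw [hβdef, div_mul_cancel₀ _ hb]; ring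
  have s₂ : O₀.valuation (β₀ - algebraMap ℂ K₀ (y 2)) < 1 := by
    convert xECx_mul hbi (xECx_add
      (xECx_mul (O₀.neg_mem _ (O₀.mul_mem _ _ (hC (y 0)) (hC (κ 1)))) su)
      (xECx_mul (O₀.neg_mem _ (O₀.mul_mem _ _ (hC (y 2)) (hC (κ 3)))) st)) using 2
    rw [eq_inv_mul_iff_mul_eq₀ hb]
    linear_combination hβ₀ - e4
  have ht_mem : t ∈ O₀ := by simpa using O₀.add_mem _ _ (xECx_mem st) (hC t₀)
  refine ⟨RatFunc K₀, inferInstance, inferInstance, _, D, E,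
    xECx_main h hF E₀ ht hst hb E0u E0t hC hβ₀ ?_ s₂ ?_ D E hD Dz hE Ez hker ratFunc_place⟩
  · convert xECx_mul (hC (y 0)) su using 2
    rw [e1]; ring
  · convert xECx_add (xECx_mul ht_mem s₂) (xECx_mul (hC (y 2)) st) using 2
    rw [e3]; ring

end Pool.Agent.MP_d920b6_mp.Cx
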