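import Pool.Agent.MP_d920b6_mp.Cx.Defs

/-! Polynomials with coefficients regular on the complete curve. -/

namespace Pool.Agent.MP_d920b6_mp.Cx

open Polynomial

variable {K : Type} [Field K] [Algebra ℂ K] {c : Fin 3 → Fin 3 → ℂ} {κ y : Vec ℂ} {y' : Vec K}
  {D E : Derivation ℂ K K}

theorem EC.lead (hE : EC c κ y y' D E) (P : K[X]) (b : K)
    (hD : ∀ n, D (P.coeff n) = b * ((n + 1) * P.coeff (n + 1)))
    (h : ∀ O : ValuationSubring K, Chart O y' (E ∘ y') → (y' 0)⁻¹ ∈ O ∨ (y' 1)⁻¹ ∈ O →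
      ∃ T, ∀ n, (taylor T P).coeff n ∈ O) :
    ∃ a : ℂ, P.leadingCoeff = algebraMap ℂ K a := by
  have key : ∀ O : ValuationSubring K, Chart O y' (E ∘ y') → (y' 0)⁻¹ ∈ O ∨ (y' 1)⁻¹ ∈ O →
      P.leadingCoeff ∈ O := fun O hO h' => by
    obtain ⟨T, hT⟩ := h O hO h'
    rw [← coeff_taylor_natDegree T]
    exact hT _
  refine (hE.const P.leadingCoeff 0 ?_ (fun O hO h' => key O hO (Or.inl h'))
    fun O hO h' => ?_).2
  · rw [leadingCoeff, hD, coeff_eq_zero_of_natDegree_lt (Nat.lt_succ_self _), mul_zero, mul_zero]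
  · rw [map_zero, zero_mul, sub_zero]
    exact key O hO (Or.inr h')

omit [Algebra ℂ K] in
theorem xendg_coeff (P : K[X]) {m : ℕ} (hm : P.natDegree = m + 1) (T : K) :
    (taylor T P).coeff m = P.coeff m + (m + 1) * P.leadingCoeff * T := by
  have h : (hasseDeriv m P).natDegree < 2 := by
    have := natDegree_hasseDeriv_le P m
    omega
  rw [taylor_coeff, eval_eq_sum_range' h, Finset.sum_range_succ, Finset.sum_range_one,
    hasseDeriv_coeff, hasseDeriv_coeff, leadingCoeff, hm, add_comm 1 m]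
  simp

theorem xendg_norm (P : K[X]) (b : K)
    (hP : ∀ n, D (P.coeff n) = b * ((n + 1) * P.coeff (n + 1))) (dP : P.natDegree ≠ 0)
    (ha : ∃ a : ℂ, P.leadingCoeff = algebraMap ℂ K a) :
    ∃ t : K, D t = b ∧ ∀ O : ValuationSubring K, (∀ c : ℂ, algebraMap ℂ K c ∈ O) → ∀ T,
      (∀ n, (taylor T P).coeff n ∈ O) → t + T ∈ O := by
  obtain ⟨m, hm⟩ := Nat.exists_eq_succ_of_ne_zero dP
  obtain ⟨a, ha⟩ := ha
  have h0 : a ≠ 0 := by
    rintro rfl
    rw [map_zero, leadingCoeff_eq_zero] at ha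
    exact dP (by rw [ha, natDegree_zero])
  have h1 : algebraMap ℂ K (((m + 1) * a)⁻¹) * ((m + 1) * P.leadingCoeff) = 1 := by
    have h2 : ((m : ℂ) + 1) * a ≠ 0 := mul_ne_zero (Nat.cast_add_one_ne_zero m) h0
    have h3 := congrArg (algebraMap ℂ K) (inv_mul_cancel₀ h2)
    rwa [map_mul, map_mul, map_add, map_natCast, map_one, ← ha] at h3
  refine ⟨algebraMap ℂ K (((m + 1) * a)⁻¹) * P.coeff m, ?_, fun O hC T hT => ?_⟩
  · rw [← Algebra.smul_def, D.map_smul, Algebra.smul_def, hP, ← Nat.succ_eq_add_one, ← hm,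
      coeff_natDegree, mul_left_comm, h1, mul_one]
  · have h2 := O.mul_mem _ _ (hC (((m + 1) * a)⁻¹)) (hT m)
    rwa [xendg_coeff P hm, mul_add, ← mul_assoc _ _ T, h1, one_mul] at h2

theorem EC.two (hE : EC c κ y y' D E) (P Q : K[X]) (b : K) (r : ℂ)
    (hP : ∀ n, D (P.coeff n) = b * ((n + 1) * P.coeff (n + 1)))
    (hQ : ∀ n, D (Q.coeff n) = b * ((n + 1) * Q.coeff (n + 1)))
    (dP : P.natDegree ≠ 0) (dQ : Q.natDegree ≠ 0)
    (h₀ : ∀ O : ValuationSubring K, Chart O y' (E ∘ y') → (y' 0)⁻¹ ∈ O →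
      ∃ T, (∀ n, (taylor T P).coeff n ∈ O) ∧ ∀ n, (taylor T Q).coeff n ∈ O)
    (h₁ : ∀ O : ValuationSubring K, Chart O y' (E ∘ y') → (y' 1)⁻¹ ∈ O →
      ∃ T, (∀ n, (taylor T P).coeff n ∈ O) ∧
        ∀ n, (taylor (T - algebraMap ℂ K r * (E (y' 1) / y' 1)) Q).coeff n ∈ O) :
    r = 0 := by
  obtain ⟨s, hs, hs'⟩ := xendg_norm P b hP dP (hE.lead P b hP fun O hO h => h.elim
    (fun h => (h₀ O hO h).imp fun _ hT => hT.1) fun h => (h₁ O hO h).imp fun _ hT => hT.1)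
  obtain ⟨t, ht, ht'⟩ := xendg_norm Q b hQ dQ (hE.lead Q b hQ fun O hO h => h.elim
    (fun h => (h₀ O hO h).imp fun _ hT => hT.2) fun h => (h₁ O hO h).elim fun _ hT => ⟨_, hT.2⟩)
  refine (hE.const (t - s) r (by rw [map_sub, hs, ht, sub_self]) (fun O hO h => ?_)
    fun O hO h => ?_).1
  · obtain ⟨T, a1, a2⟩ := h₀ O hO h
    have := sub_mem (ht' O hO.hC _ a2) (hs' O hO.hC _ a1)
    rwa [add_sub_add_right_eq_sub] at this
  · obtain ⟨T, a1, a2⟩ := h₁ O hO h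
    have := sub_mem (ht' O hO.hC _ a2) (hs' O hO.hC _ a1)
    convert this using 1
    ring

end Pool.Agent.MP_d920b6_mp.Cx
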