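import Pool.Agent.MP_d920b6_mp.Cx.Nat
import Pool.Agent.MP_d920b6_mp.Cx.Cork

/-! Integral solutions over a valuation ring. -/

namespace Pool.Agent.MP_d920b6_mp.Cx

open Matrix Module

variable {K : Type*} [Field K] {O : ValuationSubring K}

theorem xExist_ginv {m n : Type*} [Fintype m] [Fintype n] [DecidableEq m] [DecidableEq n]
    (M₀ : Matrix m n O) (M : Matrix m n K) (hM : M₀.map O.subtype = M)
    (h : M.rank ≤ (M₀.map (IsLocalRing.residue O)).rank) :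
    ∃ N : Matrix n m K, (∀ i j, N i j ∈ O) ∧ M * N * M = M := by
  subst hM
  obtain ⟨N, hN⟩ := exists_ginv O.subtype Subtype.val_injective M₀ h
  refine ⟨N.map O.subtype, fun i j => (N i j).2, ?_⟩
  rw [← Matrix.map_mul, ← Matrix.map_mul, hN]

theorem xExist_mul_val {a b : K} (ha : O.valuation a < 1) (hb : b ∈ O) :
    O.valuation (a * b) < 1 := by
  rw [map_mul]
  calc O.valuation a * O.valuation b ≤ O.valuation a * 1 :=
        mul_le_mul_right ((O.valuation_le_one_iff b).2 hb) _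
    _ < 1 := by rwa [mul_one]

theorem xExist_sub_val {a b : K} (ha : O.valuation a < 1) (hb : O.valuation b < 1) :
    O.valuation (a - b) < 1 := O.valuation.map_sub_lt ha hb

theorem xExist_dot_mem {ι : Type*} [Fintype ι] {a b : ι → K} (ha : ∀ i, a i ∈ O)
    (hb : ∀ i, b i ∈ O) : a ⬝ᵥ b ∈ O := dot_mem (S := O.toSubring) ha hb

theorem GoodW.exists_int {w : Mat K} {κ y : Vec K} (h : GoodW O.toSubring w κ y) (u : Mat K)
    (hu : ∀ a b i j, MM w u a b i j ∈ O) :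
    ∃ c : K, (∀ i j, (u - c • w) i j ∈ O) ∧
      ((∀ a b i j, O.valuation (MM w u a b i j) < 1) →
        ∀ i j, O.valuation ((u - c • w) i j) < 1) := by
  let w₀ : Mat O := of fun i j => ⟨w i j, h.mw i j⟩
  have e1 : (MMat w₀).map O.subtype = MMat w := by rw [MMat_map]; rfl
  have r1 : (MMat w).rank = 15 := h.top.rank_MMat
  have r2 : ((MMat w₀).map (IsLocalRing.residue O)).rank = 15 := by
    rw [MMat_map]
    exact (h.res (IsLocalRing.residue O)).rank_MMat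
  obtain ⟨N, hN, hM⟩ := xExist_ginv (MMat w₀) (MMat w) e1 (by rw [r1, r2])
  let U : Fin 4 × Fin 4 → K := fun i => u i.1 i.2
  let r : Mat K := of fun i j => (U - N *ᵥ (MMat w *ᵥ U)) (i, j)
  have hr : MMat w *ᵥ (fun i : Fin 4 × Fin 4 => r i.1 i.2) = 0 := by
    have : (fun i : Fin 4 × Fin 4 => r i.1 i.2) = U - N *ᵥ (MMat w *ᵥ U) := rfl
    rw [this, mulVec_sub, mulVec_mulVec, mulVec_mulVec, hM, sub_self]
  obtain ⟨c, hc⟩ := h.top.ker_MM (u := r) fun a b => by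
    ext i j
    have := MMat_mulVec w r (a, b, i, j)
    rw [hr] at this
    exact this.symm
  have key : ∀ i j, (u - c • w) i j = (MMat w *ᵥ U) ⬝ᵥ N (i, j) := by
    intro i j
    rw [← hc, dotProduct_comm]
    change u i j - (u i j - (N *ᵥ (MMat w *ᵥ U)) (i, j)) = _
    rw [sub_sub_cancel]
    rfl
  have hU : ∀ j, (MMat w *ᵥ U) j = MM w u j.1 j.2.1 j.2.2.1 j.2.2.2 := MMat_mulVec w u
  refine ⟨c, fun i j => ?_, fun hs i j => ?_⟩
  · rw [key]
    exact xExist_dot_mem (fun l => by rw [hU]; exact hu _ _ _ _) (hN _)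
  · rw [key]
    exact dot_val (fun l => by rw [hU]; exact hs _ _ _ _) (hN _)

/-- the covector `X ↦ ξ ⬝ᵥ [Y, X]` -/
def xExist_co (ξ Y : IK → K) : IK → K := fun i => ξ ⬝ᵥ kbr Y (Pi.single i 1)

theorem xExist_co_dot (ξ Y X : IK → K) : xExist_co ξ Y ⬝ᵥ X = ξ ⬝ᵥ kbr Y X := by
  have : X = ∑ i, X i • (Pi.single i 1 : IK → K) := by
    ext j; simp [Finset.sum_apply, Pi.single_apply]
  conv_rhs => rw [this, ← kbrL_apply, map_sum, dotProduct_sum]
  simp only [map_smul, kbrL_apply, dotProduct_smul, smul_eq_mul]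
  simp only [dotProduct, xExist_co, mul_comm]

theorem xExist_single_mem (i j : IK) : (Pi.single i 1 : IK → K) j ∈ O := by
  rw [Pi.single_apply]
  split_ifs
  · exact O.one_mem
  · exact O.zero_mem

theorem xExist_co_mem {ξ Y : IK → K} (mξ : ∀ i, ξ i ∈ O) (mY : ∀ i, Y i ∈ O) (i : IK) :
    xExist_co ξ Y i ∈ O :=
  xExist_dot_mem mξ (kbr_mem (S := O.toSubring) mY (xExist_single_mem i))

theorem xExist_co_val {ξ Y : IK → K} (mξ : ∀ i, ξ i ∈ O) (sY : ∀ i, O.valuation (Y i) < 1)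
    (i : IK) : O.valuation (xExist_co ξ Y i) < 1 := by
  rw [xExist_co, dotProduct_comm]
  exact dot_val (kbr_val sY (xExist_single_mem i)) mξ

theorem xExist_rank {k : Type*} [Field k] (v : IV → k) :
    (actMat v).rank + finrank k (kst v) = 38 := by
  have := LinearMap.finrank_range_add_finrank_ker (actMat v).mulVecLin
  rw [finrank_fintype_fun_eq_card, card_IK] at this
  exact this

theorem xExist_two [CharZero K] (h2 : (2 : K)⁻¹ ∈ O) : (2 : IsLocalRing.ResidueField O) ≠ 0 := by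
  have e : (2 : O) * ⟨2⁻¹, h2⟩ = 1 := by
    apply Subtype.ext
    change (2 : K) * 2⁻¹ = 1
    exact mul_inv_cancel₀ two_ne_zero
  have e' := congrArg (IsLocalRing.residue O) e
  rw [map_mul, map_one, map_ofNat] at e'
  exact left_ne_zero_of_mul_eq_one e'

theorem xExist_N [CharZero K] (h2 : (2 : K)⁻¹ ∈ O) {v' : IV → K} {κ y : Vec K}
    (hG : Good O.toSubring v' κ y) (h5 : 5 ≤ finrank K (kst v')) :
    ∃ N : Matrix IK IV K, (∀ i j, N i j ∈ O) ∧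
      ∀ b : IK → K, (∀ X, act X v' = 0 → b ⬝ᵥ X = 0) → coad (b ᵥ* N) v' = b := by
  let v₀ : IV → O := fun i => ⟨v' i, hG.mv i⟩
  have e1 : (actMat v₀).map O.subtype = actMat v' := by rw [actMat_map]; rfl
  have r1 := xExist_rank v'
  have r2 := xExist_rank (IsLocalRing.residue O ∘ v₀)
  have r3 : finrank (IsLocalRing.ResidueField O) (kst (IsLocalRing.residue O ∘ v₀)) ≤ 5 :=
    (hG.res (IsLocalRing.residue O)).finrank_kst (xExist_two h2)
  obtain ⟨N, hN, hM⟩ := xExist_ginv (actMat v₀) (actMat v') e1 (by rw [actMat_map]; omega)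
  refine ⟨N, hN, fun b hb => ?_⟩
  obtain ⟨φ, rfl⟩ := exists_coad v' b hb
  rw [coad, coad, vecMul_vecMul, vecMul_vecMul, ← Matrix.mul_assoc, hM]

theorem xExist_kbr2 [CharZero K] {v' : IV → K} {κ y : Vec K} {Y Z X : IK → K}
    (hG : Good ⊤ v' κ y) (hY : InA κ Y) (hZ : act Z v' = 0) (hX : act Z aV = act X v') :
    kbr Y (kbr Y X) = 0 := by
  obtain ⟨⟨φ, hφ, hφκ⟩, hs, -⟩ := hG.inA two_ne_zero hZ
  have e := congrArg (fun v => wP v *ᵥ κ) hX
  simp only [wP_act, wP_aV, hs, zero_smul, zero_sub, Matrix.one_mul, hφ, sub_mulVec, neg_mulVec,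
    smul_mulVec, ← mulVec_mulVec, hG.gw.wκ, mulVec_zero, smul_zero, vecMulVec_mulVec, hφκ,
    MulOpposite.op_zero, neg_zero] at e
  exact hY.kbr₂ X _ (hG.gw.right_ker (neg_eq_zero.1 e.symm))

theorem Good.exists_sol [CharZero K] (h2 : (2 : K)⁻¹ ∈ O) {v' θ : IV → K} {κ y : Vec K}
    {ξ Y ν : IK → K} (hG : Good O.toSubring v' κ y) (mξ : ∀ i, ξ i ∈ O) (mY : ∀ i, Y i ∈ O)
    (mθ : ∀ i, θ i ∈ O) (mν : ∀ i, ν i ∈ O) (hY : InA κ Y) (hθ : coad θ v' = 0)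
    (hν : act ν v' = 0) (hθν : θ ⬝ᵥ act ν aV = 1) :
    ∃ φ₁ φ₂, Sol ξ Y v' φ₁ φ₂ ∧ (∀ i, φ₁ i ∈ O) ∧
      ((∀ i, O.valuation (Y i) < 1) → ∀ i, O.valuation (φ₁ i) < 1) := by
  have hθν' : θ ⬝ᵥ act ν aV ≠ 0 := by rw [hθν]; exact one_ne_zero
  obtain ⟨N, hN, hM⟩ := xExist_N h2 hG (five_le_kst hθ hν hθν')
  have hk : ∀ X, act X v' = 0 → kbr Y X = 0 := fun X hX =>
    hY.kbr_eq_zero (hG.top.inA two_ne_zero hX)
  have ma : ∀ i, (aV : IV → K) i ∈ O := aV_mem (S := O.toSubring)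
  have mνa : ∀ i, act ν aV i ∈ O := act_mem (S := O.toSubring) mν ma
  obtain ⟨b₃, hb₃⟩ : ∃ b₃ : IK → K, b₃ = (-(2 : K)⁻¹) • xExist_co (xExist_co ξ Y) Y := ⟨_, rfl⟩
  have d₃ : ∀ X, b₃ ⬝ᵥ X = -(2 : K)⁻¹ * (ξ ⬝ᵥ kbr Y (kbr Y X)) := fun X => by
    rw [hb₃, smul_dotProduct, xExist_co_dot, xExist_co_dot, smul_eq_mul]
  obtain ⟨φ₂, hφ₂⟩ : ∃ φ₂ : IV → K, φ₂ = b₃ ᵥ* N - ((b₃ ᵥ* N) ⬝ᵥ act ν aV) • θ := ⟨_, rfl⟩
  have c₂ : coad φ₂ v' = b₃ := by
    rw [hφ₂, coad_sub_left, coad_smul_left, hθ, smul_zero, sub_zero]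
    exact hM _ fun X hX => by rw [d₃, hk X hX, kbr_zero_right, dotProduct_zero, mul_zero]
  have n₂ : φ₂ ⬝ᵥ act ν aV = 0 := by
    rw [hφ₂, sub_dotProduct, smul_dotProduct, hθν, smul_eq_mul, mul_one, sub_self]
  obtain ⟨b₂, hb₂⟩ : ∃ b₂ : IK → K, b₂ = xExist_co ξ Y - coad φ₂ aV := ⟨_, rfl⟩
  have d₂ : ∀ X, b₂ ⬝ᵥ X = ξ ⬝ᵥ kbr Y X - φ₂ ⬝ᵥ act X aV := fun X => by
    rw [hb₂, sub_dotProduct, xExist_co_dot, coad_dot]
  have c₁ : coad (b₂ ᵥ* N) v' = b₂ := hM _ fun Z hZ => by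
    have z1 : act (Z - (θ ⬝ᵥ act Z aV) • ν) v' = 0 := by
      rw [act_sub_left, act_smul_left, hZ, hν, smul_zero, sub_zero]
    have z2 : θ ⬝ᵥ act (Z - (θ ⬝ᵥ act Z aV) • ν) aV = 0 := by
      rw [act_sub_left, act_smul_left, dotProduct_sub, dotProduct_smul, hθν, smul_eq_mul, mul_one,
        sub_self]
    obtain ⟨X, hX⟩ := hG.top.partner hθ hν hθν' z1 z2
    have z3 : φ₂ ⬝ᵥ act (Z - (θ ⬝ᵥ act Z aV) • ν) aV = 0 := by
      rw [hX, ← coad_dot, c₂, d₃, xExist_kbr2 hG.top hY z1 hX, dotProduct_zero, mul_zero]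
    rw [act_sub_left, act_smul_left, dotProduct_sub, dotProduct_smul, n₂, smul_zero,
      sub_zero] at z3
    rw [d₂, hk Z hZ, z3, dotProduct_zero, sub_zero]
  have m2 : -(2 : K)⁻¹ ∈ O := O.neg_mem _ h2
  refine ⟨b₂ ᵥ* N, φ₂, fun X => ⟨?_, ?_⟩, fun i => ?_, fun sY i => ?_⟩
  · rw [← coad_dot, c₁, d₂, sub_add_cancel]
  · rw [← coad_dot, c₂, d₃, ← mul_assoc, mul_neg, mul_inv_cancel₀ two_ne_zero, neg_one_mul]
  · have m₃ : ∀ i, b₃ i ∈ O := fun i => by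
      rw [hb₃]
      exact O.mul_mem _ _ m2 (xExist_co_mem (xExist_co_mem mξ mY) mY i)
    have m₃' : ∀ i, (b₃ ᵥ* N) i ∈ O := fun i => xExist_dot_mem m₃ fun j => hN j i
    have mφ : ∀ i, φ₂ i ∈ O := fun i => by
      rw [hφ₂]
      exact O.toSubring.sub_mem (m₃' i) (O.mul_mem _ _ (xExist_dot_mem m₃' mνa) (mθ i))
    have m₂ : ∀ i, b₂ i ∈ O := fun i => by
      rw [hb₂]
      exact O.toSubring.sub_mem (xExist_co_mem mξ mY i) (coad_mem (S := O.toSubring) mφ ma i)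
    exact xExist_dot_mem m₂ fun j => hN j i
  · have m₃ : ∀ i, O.valuation (b₃ i) < 1 := fun i => by
      rw [hb₃, Pi.smul_apply, smul_eq_mul, mul_comm]
      exact xExist_mul_val (xExist_co_val (xExist_co_mem mξ mY) sY i) m2
    have m₃' : ∀ i, O.valuation ((b₃ ᵥ* N) i) < 1 := fun i => dot_val m₃ fun j => hN j i
    have mφ : ∀ i, O.valuation (φ₂ i) < 1 := fun i => by
      rw [hφ₂]
      exact xExist_sub_val (m₃' i) (xExist_mul_val (dot_val m₃' mνa) (mθ i))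
    have m₂ : ∀ i, O.valuation (b₂ i) < 1 := fun i => by
      rw [hb₂]
      exact xExist_sub_val (xExist_co_val mξ sY i) (coad_val mφ ma i)
    exact dot_val m₂ fun j => hN j i

end Pool.Agent.MP_d920b6_mp.Cx
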