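import Mathlib
import Pool.Agent.MP_d920b6_mp.Cx.F0a

/-! The function field of the curve `s ^ 2 = Δ u`. -/

namespace Pool.Agent.MP_d920b6_mp.Cx

open Polynomial

/-- `K` is the function field of `s ^ 2 = Δ u` -/
structure IsFF (Δ : ℂ[X]) {K : Type} [Field K] [Algebra ℂ K] (u s : K) : Prop where
  sq : s ^ 2 = aeval u Δ
  gen : ∀ a : K, ∃ p q d : ℂ[X], d ≠ 0 ∧ a * aeval u d = aeval u p + aeval u q * s
  indep : ∀ p q : ℂ[X], aeval u p + aeval u q * s = 0 → p = 0 ∧ q = 0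

theorem xf0_not_sq (Δ : ℂ[X]) (hd : Δ.natDegree = 4) (hs : IsCoprime Δ (derivative Δ))
    (b : RatFunc ℂ) : b ^ 2 ≠ algebraMap ℂ[X] (RatFunc ℂ) Δ := by
  intro h
  obtain ⟨q, rfl⟩ := IsIntegrallyClosed.exists_algebraMap_eq_of_isIntegral_pow (R := ℂ[X])
    (x := b) two_pos (h ▸ isIntegral_algebraMap)
  rw [← map_pow] at h
  have h1 : q ^ 2 = Δ := IsFractionRing.injective ℂ[X] (RatFunc ℂ) h
  have h2 : IsUnit q := hs.isUnit_of_dvd' ⟨q, by rw [← h1, sq]⟩
    ⟨2 * derivative q, by rw [← h1, sq, derivative_mul]; ring⟩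
  have h3 := natDegree_eq_zero_of_isUnit (h2.pow 2)
  rw [h1, hd] at h3
  exact absurd h3 (by norm_num)

theorem xf0_main (Δ : ℂ[X]) (hd : Δ.natDegree = 4) (hs : IsCoprime Δ (derivative Δ))
    {K : Type} [Field K] [Algebra ℂ K] [Algebra ℂ[X] K] [Algebra (RatFunc ℂ) K]
    [IsScalarTower ℂ ℂ[X] K] [IsScalarTower ℂ[X] (RatFunc ℂ) K]
    [Algebra.IsSeparable (RatFunc ℂ) K] (s : K) (h1 : s ^ 2 = algebraMap ℂ[X] K Δ)
    (h2 : ∀ a : K, ∃ α β : RatFunc ℂ, a = algebraMap _ K α + algebraMap _ K β * s) :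
    ∃ (u : K) (E : Derivation ℂ K K), IsFF Δ u s ∧ E u = s := by
  have := Algebra.FormallyEtale.of_isLocalization (Rₘ := RatFunc ℂ) (nonZeroDivisors ℂ[X])
  have := Algebra.FormallyEtale.of_isSeparable (RatFunc ℂ) K
  have := Algebra.FormallyEtale.comp ℂ[X] (RatFunc ℂ) K
  obtain ⟨E, hE⟩ := xf0a_extend (mkDerivation ℂ s)
  have hev : ∀ p : ℂ[X], aeval (algebraMap ℂ[X] K X) p =
      algebraMap (RatFunc ℂ) K (algebraMap ℂ[X] (RatFunc ℂ) p) := fun p => by
    rw [aeval_algebraMap_apply, aeval_X_left_apply, ← IsScalarTower.algebraMap_apply]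
  refine ⟨algebraMap ℂ[X] K X, E, ⟨?_, fun a => ?_, fun p q h => ?_⟩, by rw [hE, mkDerivation_X]⟩
  · rw [hev, h1, ← IsScalarTower.algebraMap_apply]
  · obtain ⟨α, β, rfl⟩ := h2 a
    refine ⟨α.num * β.denom, β.num * α.denom, α.denom * β.denom,
      mul_ne_zero α.denom_ne_zero β.denom_ne_zero, ?_⟩
    have e : ∀ γ : RatFunc ℂ, algebraMap ℂ[X] _ γ.num = γ * algebraMap ℂ[X] _ γ.denom :=
      fun γ => (div_eq_iff (RatFunc.algebraMap_ne_zero γ.denom_ne_zero)).1 γ.num_div_denom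
    simp only [hev, map_mul, e]
    ring
  · rw [hev, hev] at h
    have hq : q = 0 := by
      by_contra hq
      have hq' := RatFunc.algebraMap_ne_zero hq
      refine xf0_not_sq Δ hd hs (algebraMap ℂ[X] _ p / algebraMap ℂ[X] _ q) ?_
      rw [div_pow, div_eq_iff (pow_ne_zero 2 hq')]
      apply (algebraMap (RatFunc ℂ) K).injective
      rw [map_mul, map_pow, map_pow, ← IsScalarTower.algebraMap_apply ℂ[X] (RatFunc ℂ) K Δ, ← h1,
        eq_neg_of_add_eq_zero_left h]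
      ring
    subst hq
    rw [map_zero, map_zero, zero_mul, add_zero, map_eq_zero] at h
    exact ⟨IsFractionRing.injective ℂ[X] (RatFunc ℂ) (h.trans (map_zero _).symm), rfl⟩

theorem exists_FF (Δ : ℂ[X]) (hd : Δ.natDegree = 4) (hs : IsCoprime Δ (derivative Δ)) :
    ∃ (K : Type) (_ : Field K) (_ : Algebra ℂ K) (u s : K) (E : Derivation ℂ K K),
      IsFF Δ u s ∧ E u = s := by
  set f : (RatFunc ℂ)[X] := X ^ 2 - C (algebraMap ℂ[X] (RatFunc ℂ) Δ) with hf
  have : Fact (Irreducible f) :=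
    ⟨X_pow_sub_C_irreducible_of_prime Nat.prime_two (xf0_not_sq Δ hd hs)⟩
  have hm : f.Monic := monic_X_pow_sub_C _ two_ne_zero
  have : Module.Finite (RatFunc ℂ) (AdjoinRoot f) := (AdjoinRoot.powerBasis hm.ne_zero).finite
  obtain ⟨u, E, h⟩ := xf0_main Δ hd hs (K := AdjoinRoot f) (AdjoinRoot.root f) (by
    have h0 := AdjoinRoot.eval₂_root f
    rw [hf, eval₂_sub, eval₂_X_pow, eval₂_C, sub_eq_zero] at h0
    exact h0) (fun a => by
    obtain ⟨g, rfl⟩ := AdjoinRoot.mk_surjective a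
    have h1 : (g %ₘ f).natDegree ≤ 1 := by
      have h2 := natDegree_modByMonic_lt g hm (fun h => by
        have := congrArg natDegree h
        rw [hf, natDegree_X_pow_sub_C, natDegree_one] at this
        exact absurd this (by norm_num))
      rw [hf, natDegree_X_pow_sub_C] at h2
      exact Nat.lt_succ_iff.1 h2
    obtain ⟨β, α, h3⟩ := exists_eq_X_add_C_of_natDegree_le_one h1
    refine ⟨α, β, ?_⟩
    rw [← modByMonic_add_div g f, map_add, map_mul, AdjoinRoot.mk_self, zero_mul, add_zero, h3,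
      map_add, map_mul, AdjoinRoot.mk_C, AdjoinRoot.mk_C, AdjoinRoot.mk_X, add_comm]
    rfl)
  exact ⟨AdjoinRoot f, inferInstance, inferInstance, u, _, E, h⟩

end Pool.Agent.MP_d920b6_mp.Cx
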