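import Pool.Agent.MP_d920b6_mp.Cx.Step

/-! The restriction of a member of the family to the solutions is a polynomial in one variable. -/

namespace Pool.Agent.MP_d920b6_mp.Cx

open Matrix Module Polynomial

variable {K : Type} [Field K] [Algebra ℂ K]

theorem xFF_lineP_C (c : ℂ) (x d : II → K) :
    lineP (MvPolynomial.C c) x d = C (algebraMap ℂ K c) := by
  simp [lineP]

theorem xFF_lineP_add (g g' : MvPolynomial II ℂ) (x d : II → K) :
    lineP (g + g') x d = lineP g x d + lineP g' x d := by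
  simp [lineP]

theorem xFF_lineP_mul (g : MvPolynomial II ℂ) (i : II) (x d : II → K) :
    lineP (g * MvPolynomial.X i) x d = lineP g x d * (C (x i) + X * C (d i)) := by
  simp [lineP]

theorem xFF_grad_C (c : ℂ) (z : II → K) : grad (MvPolynomial.C c) z = 0 := by
  funext j; simp [grad]

theorem xFF_grad_add (g g' : MvPolynomial II ℂ) (z : II → K) :
    grad (g + g') z = grad g z + grad g' z := by
  funext j; simp [grad]

theorem xFF_grad_mul (g : MvPolynomial II ℂ) (i : II) (z : II → K) :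
    grad (g * MvPolynomial.X i) z =
      z i • grad g z + MvPolynomial.aeval z g • (Pi.single i 1 : II → K) := by
  funext j
  simp only [grad, Derivation.leibniz, MvPolynomial.pderiv_X, smul_eq_mul, map_add, map_mul,
    MvPolynomial.aeval_X, Pi.add_apply, Pi.smul_apply]
  by_cases hij : i = j
  · subst hij; simp [add_comm]
  · simp [hij, Ne.symm hij]

theorem xFF_inf : Infinite K := Infinite.of_injective _ (algebraMap ℂ K).injective

theorem xFF_char : CharZero K := charZero_of_injective_algebraMap (algebraMap ℂ K).injective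

theorem eval_lineP (g : MvPolynomial II ℂ) (x d : II → K) (s : K) :
    (lineP g x d).eval s = MvPolynomial.aeval (x + s • d) g := by
  induction g using MvPolynomial.induction_on with
  | C c => simp [xFF_lineP_C]
  | add g g' h h' => rw [xFF_lineP_add, eval_add, h, h', map_add]
  | mul_X g i h => rw [xFF_lineP_mul, eval_mul, h, map_mul]; simp [mul_comm s]

theorem eval_derivative_lineP (g : MvPolynomial II ℂ) (x d : II → K) (s : K) :
    (derivative (lineP g x d)).eval s = d ⬝ᵥ grad g (x + s • d) := by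
  induction g using MvPolynomial.induction_on with
  | C c => simp [xFF_lineP_C, xFF_grad_C]
  | add g g' h h' =>
    rw [xFF_lineP_add, derivative_add, eval_add, h, h', xFF_grad_add, dotProduct_add]
  | mul_X g i h =>
    rw [xFF_lineP_mul, derivative_mul, eval_add, eval_mul, eval_mul, h, eval_lineP, xFF_grad_mul,
      dotProduct_add, dotProduct_smul, dotProduct_smul, dotProduct_single]
    simp only [derivative_add, derivative_C, derivative_mul, derivative_X, eval_add, eval_mul,
      eval_C, eval_X, eval_zero, eval_one, Pi.add_apply, Pi.smul_apply, smul_eq_mul]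
    ring

theorem coeff_lineP_mem {S : Subring K} (hC : ∀ c : ℂ, algebraMap ℂ K c ∈ S)
    (g : MvPolynomial II ℂ) {x d : II → K} (hx : ∀ i, x i ∈ S) (hd : ∀ i, d i ∈ S) (n : ℕ) :
    (lineP g x d).coeff n ∈ S := by
  induction g using MvPolynomial.induction_on generalizing n with
  | C c =>
    rw [xFF_lineP_C, coeff_C]
    split_ifs
    · exact hC c
    · exact S.zero_mem
  | add g g' h h' => rw [xFF_lineP_add, coeff_add]; exact S.add_mem (h n) (h' n)
  | mul_X g i h =>
    rw [xFF_lineP_mul, mul_add, coeff_add, coeff_mul_C, ← mul_assoc, coeff_mul_C]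
    refine S.add_mem (S.mul_mem (h n) (hx i)) (S.mul_mem ?_ (hd i))
    cases n with
    | zero => rw [mul_coeff_zero, coeff_X_zero, mul_zero]; exact S.zero_mem
    | succ n => rw [coeff_mul_X]; exact h n

theorem der_aeval (D : Derivation ℂ K K) (g : MvPolynomial II ℂ) (x : II → K) :
    D (MvPolynomial.aeval x g) = (D ∘ x) ⬝ᵥ grad g x := by
  induction g using MvPolynomial.induction_on with
  | C c => simp [xFF_grad_C]
  | add g g' h h' => rw [map_add, map_add, h, h', xFF_grad_add, dotProduct_add]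
  | mul_X g i h =>
    rw [map_mul, Derivation.leibniz, h, xFF_grad_mul, dotProduct_add, dotProduct_smul,
      dotProduct_smul, dotProduct_single]
    simp [add_comm]

theorem line_finite (g : MvPolynomial II ℂ) (x d : II → K) (h : MvPolynomial.aeval x g ≠ 0) :
    {s : K | MvPolynomial.aeval (x + s • d) g = 0}.Finite := by
  have h0 : lineP g x d ≠ 0 := by
    intro h0
    have := eval_lineP g x d 0
    rw [h0, zero_smul, add_zero, eval_zero] at this
    exact h this.symm
  refine (finite_setOfPred_isRoot h0).subset fun s hs => ?_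
  simp only [Set.mem_ofPred_eq, IsRoot.def, eval_lineP] at hs ⊢
  exact hs

/-- a polynomial vanishing off a finite set is zero -/
theorem xFF_zero_of_cof (Q : K[X]) {B : Set K} (hB : B.Finite) (h : ∀ s ∉ B, Q.eval s = 0) :
    Q = 0 := by
  have := xFF_inf (K := K)
  exact eq_zero_of_infinite_isRoot Q (hB.infinite_compl.mono fun s hs => h s hs)

/-- the coefficientwise derivative -/
theorem xFF_exists_cw (D : Derivation ℂ K K) (P : K[X]) :
    ∃ Q : K[X], (∀ n, Q.coeff n = D (P.coeff n)) ∧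
      ∀ z, D (P.eval z) = Q.eval z + (derivative P).eval z * D z := by
  induction P using Polynomial.induction_on' with
  | add P P' h h' =>
    obtain ⟨Q, h1, h2⟩ := h
    obtain ⟨Q', h1', h2'⟩ := h'
    refine ⟨Q + Q', fun n => by rw [coeff_add, coeff_add, map_add, h1, h1'], fun z => ?_⟩
    rw [eval_add, map_add, h2, h2', derivative_add, eval_add, eval_add]; ring
  | monomial n a =>
    refine ⟨monomial n (D a), fun m => ?_, fun z => ?_⟩
    · rw [coeff_monomial, coeff_monomial]
      split_ifs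
      · rfl
      · rw [map_zero]
    · rw [eval_monomial, eval_monomial, derivative_monomial, eval_monomial, Derivation.leibniz,
        Derivation.leibniz_pow]
      simp only [smul_eq_mul, nsmul_eq_mul]
      ring

variable {ξ Y ν : IK → K} {v v' φ₁ φ₂ θ : IV → K} {κ y : Vec K}

omit [Algebra ℂ K] in
theorem xFF_pt_add (s τ : K) :
    pt ξ v' (φ₁ + s • θ) + τ • aI =
      (pt ξ v' φ₁ + τ • aI) + s • (Sum.elim (coad θ aV) 0 : II → K) := by
  refine extI ?_ ?_
  · simp only [kp_add, kp_pt, kp_smul, kp_elim, coad_add_left, coad_smul_left]; abel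
  · simp only [vp_add, vp_pt, vp_smul, vp_elim, smul_zero, add_zero]

omit [Algebra ℂ K] in
theorem xFF_val_add (hθν : θ ⬝ᵥ act ν aV = 1) (s : K) :
    (ξ + coad (φ₁ + s • θ) aV) ⬝ᵥ ν = (ξ + coad φ₁ aV) ⬝ᵥ ν + s := by
  rw [coad_add_left, coad_smul_left, ← add_assoc, add_dotProduct _ (s • _), smul_dotProduct,
    coad_dot ν aV θ, hθν, smul_eq_mul, mul_one]

/-- two solutions with the same value give the same value of a member of the family -/
theorem xFF_same (F : Fam) (hG : Good ⊤ v' κ y) (hθ : coad θ v' = 0) (hν : act ν v' = 0)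
    (hθν : θ ⬝ᵥ act ν aV = 1) (h : Sol ξ Y v' φ₁ φ₂) {ψ₁ ψ₂ : IV → K} (h' : Sol ξ Y v' ψ₁ ψ₂)
    (hT : (ξ + coad ψ₁ aV) ⬝ᵥ ν = (ξ + coad φ₁ aV) ⬝ᵥ ν) (τ : K)
    (hp : MvPolynomial.aeval (pt ξ v' φ₁ + τ • aI) F.p ≠ 0) (i : Fin F.m) :
    MvPolynomial.aeval (pt ξ v' ψ₁ + τ • aI) (F.f i) =
      MvPolynomial.aeval (pt ξ v' φ₁ + τ • aI) (F.f i) := by
  have := xFF_char (K := K)
  set d : II → K := Sum.elim (coad (ψ₁ - φ₁) aV) 0 with hd
  have hdν : kp d ⬝ᵥ ν = 0 := by
    rw [add_dotProduct, add_dotProduct, add_right_inj] at hT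
    rw [hd, kp_elim, coad_sub_left, sub_dotProduct, hT, sub_self]
  have hder : derivative (lineP (F.f i) (pt ξ v' φ₁ + τ • aI) d) = 0 := by
    refine xFF_zero_of_cof _ (line_finite F.p _ d hp) fun u hu => ?_
    have e : pt ξ v' φ₁ + τ • aI + u • d = (pt ξ v' φ₁ + u • d) + τ • aI := by abel
    have hvp : vp (pt ξ v' φ₁ + u • d) = v' := by
      rw [vp_add, vp_smul, hd, vp_elim, vp_pt, smul_zero, add_zero]
    simp only [Set.mem_ofPred_eq] at hu
    rw [eval_derivative_lineP]
    rw [e] at hu ⊢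
    have key := F.inv_chain (κ := κ) (y := y) (θ := θ) (pt ξ v' φ₁ + u • d) (by rwa [hvp])
      (ν := ν) (by rwa [hvp]) (by rwa [hvp]) hθν τ hu (h.chain_sub h' _ hvp) (d := d)
      (fun Z => by
        rw [PF_aI, dotI, hd]
        simp only [kp_elim, vp_elim, act_zero_left, dotProduct_zero, sub_zero, zero_dotProduct,
          add_zero, coad_dot])
      (by rw [hd, vp_elim, dotProduct_zero]) (X := 0) (by rw [act_zero_left, hd, vp_elim]) i
    rw [key, hdν, kbr_zero_left, dotProduct_zero, add_zero, zero_mul]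
  have hC := eq_C_of_derivative_eq_zero hder
  have e1 := eval_lineP (F.f i) (pt ξ v' φ₁ + τ • aI) d 1
  have e0 := eval_lineP (F.f i) (pt ξ v' φ₁ + τ • aI) d 0
  rw [hC, eval_C] at e1 e0
  rw [zero_smul, add_zero] at e0
  have e : pt ξ v' φ₁ + τ • aI + (1 : K) • d = pt ξ v' ψ₁ + τ • aI := by
    refine extI ?_ ?_
    · simp only [hd, kp_add, kp_pt, kp_smul, kp_elim, coad_sub_left, one_smul]; abel
    · simp only [hd, vp_add, vp_pt, vp_smul, vp_elim, smul_zero, add_zero]
  rw [e] at e1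
  rw [← e1, ← e0]

theorem Fam.exists_poly (F : Fam) (D : Derivation ℂ K K) (hξ : D ∘ ξ = 0) (hv : D ∘ v = 0)
    (hκ : D ∘ κ = 0) (hY : InA κ Y) (hS : (2 : K) • act Y v + act Y (act Y aV) = 0)
    (hv' : v' = v + act Y aV) (hG : Good ⊤ v' κ y) (hθ : coad θ v' = 0) (hν : act ν v' = 0)
    (hθν : θ ⬝ᵥ act ν aV = 1) {X : IK → K} (hX : act X v' = D ∘ v')
    (he : coad θ aV ⬝ᵥ (kbr X ν - D ∘ ν) = 0) (h : Sol ξ Y v' φ₁ φ₂) (t : ℂ)
    (hp : MvPolynomial.aeval (pt ξ v' φ₁ + algebraMap ℂ K t • aI) F.p ≠ 0) (i : Fin F.m) :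
    ∃ P : K[X],
      (∀ ψ₁ ψ₂, Sol ξ Y v' ψ₁ ψ₂ →
        MvPolynomial.aeval (pt ξ v' ψ₁ + algebraMap ℂ K t • aI) (F.f i) =
          P.eval ((ξ + coad ψ₁ aV) ⬝ᵥ ν)) ∧
      (∀ n, D (P.coeff n) =
        ((ξ + coad φ₁ aV) ⬝ᵥ (kbr X ν - D ∘ ν)) * ((n + 1) * P.coeff (n + 1))) ∧
      Sum.elim (coad θ aV) 0 ⬝ᵥ grad (F.f i) (pt ξ v' φ₁ + algebraMap ℂ K t • aI) =
        (derivative P).eval ((ξ + coad φ₁ aV) ⬝ᵥ ν) := by
  set τ : K := algebraMap ℂ K t with hτ
  set th0 : II → K := Sum.elim (coad θ aV) 0 with hth0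
  set T0 : K := (ξ + coad φ₁ aV) ⬝ᵥ ν with hT0
  set L : K[X] := lineP (F.f i) (pt ξ v' φ₁ + τ • aI) th0 with hL
  set P : K[X] := L.comp (Polynomial.X - C T0) with hP
  have hPe : ∀ s, P.eval (T0 + s) = L.eval s := fun s => by
    rw [hP, eval_comp]; simp
  have hPd : ∀ s, (derivative P).eval (T0 + s) = (derivative L).eval s := fun s => by
    rw [hP, derivative_comp]; simp [eval_comp]
  have hfin := line_finite F.p (pt ξ v' φ₁ + τ • aI) th0 hp
  refine ⟨P, fun ψ₁ ψ₂ h' => ?_, fun n => ?_, ?_⟩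
  · set T : K := (ξ + coad ψ₁ aV) ⬝ᵥ ν with hT
    have hz : lineP (F.f i) (pt ξ v' ψ₁ + τ • aI) th0 - P.comp (Polynomial.X + C T) = 0 := by
      refine xFF_zero_of_cof _ (hfin.preimage (f := fun r => T + r - T0)
        (fun a _ b _ hab => by simpa using hab)) fun r hr => ?_
      simp only [Set.mem_preimage, Set.mem_ofPred_eq] at hr
      rw [hth0, ← xFF_pt_add] at hr
      have key := xFF_same F hG hθ hν hθν (h.add_theta hθ (T + r - T0)) (h'.add_theta hθ r)
        (by rw [xFF_val_add hθν, xFF_val_add hθν, ← hT, ← hT0]; ring) τ hr i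
      rw [xFF_pt_add, xFF_pt_add, ← hth0, ← eval_lineP, ← eval_lineP, ← hL, ← hPe] at key
      rw [eval_sub, key, eval_comp (p := P), eval_add, eval_X, eval_C,
        show T0 + (T + r - T0) = r + T by ring, sub_self]
    have := congrArg (eval 0) hz
    rw [eval_sub, eval_lineP, zero_smul, add_zero, eval_comp, eval_zero, sub_eq_zero] at this
    rw [this]; simp
  · obtain ⟨Q, hQ1, hQ2⟩ := xFF_exists_cw D P
    set b : K := (ξ + coad φ₁ aV) ⬝ᵥ (kbr X ν - D ∘ ν) with hb
    have hz : Q - C b * derivative P = 0 := by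
      apply eq_zero_of_infinite_isRoot
      have hfin' : {c : ℂ | MvPolynomial.aeval
          (pt ξ v' φ₁ + τ • aI + algebraMap ℂ K c • th0) F.p = 0}.Finite :=
        hfin.preimage (f := algebraMap ℂ K) (algebraMap ℂ K).injective.injOn
      refine (hfin'.infinite_compl.image (f := fun c => T0 + algebraMap ℂ K c)
        (fun a _ b _ hab => (algebraMap ℂ K).injective (by simpa using hab))).mono ?_
      rintro _ ⟨c, hc, rfl⟩
      simp only [Set.mem_compl_iff, Set.mem_ofPred_eq] at hc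
      set s : K := algebraMap ℂ K c with hs
      have hDs : D s = 0 := by rw [hs, Derivation.map_algebraMap]
      rw [hth0, ← xFF_pt_add] at hc
      have h' := h.add_theta hθ s
      obtain ⟨hch, hPF⟩ := step D hξ hv hκ hY hS hv' h'
      have key := F.inv_chain (κ := κ) (y := y) (θ := θ) (pt ξ v' (φ₁ + s • θ)) hG (ν := ν) hθ hν
        hθν τ hc hch hPF (by
          show θ ⬝ᵥ (D ∘ v') = 0
          rw [← hX, ← coad_dot, hθ, zero_dotProduct]) (X := X) hX i
      have hDx : D ∘ (pt ξ v' (φ₁ + s • θ) + τ • aI) = D ∘ pt ξ v' (φ₁ + s • θ) := by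
        funext j
        have := congrFun (der_aI (R := K) D) j
        simp only [Function.comp_apply, Pi.zero_apply] at this
        simp only [Function.comp_apply, Pi.add_apply, Pi.smul_apply, smul_eq_mul, map_add,
          Derivation.leibniz, this, hτ, Derivation.map_algebraMap, mul_zero, add_zero]
      have hcoef : kp (D ∘ pt ξ v' (φ₁ + s • θ)) ⬝ᵥ ν + kp (pt ξ v' (φ₁ + s • θ)) ⬝ᵥ kbr X ν =
          D T0 + b := by
        have e1 := der_dot D (ξ + coad (φ₁ + s • θ) aV) ν
        rw [xFF_val_add hθν, ← hT0, map_add, hDs, add_zero] at e1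
        have e2 : (ξ + coad (φ₁ + s • θ) aV) ⬝ᵥ (kbr X ν - D ∘ ν) = b := by
          rw [coad_add_left, coad_smul_left, ← add_assoc, add_dotProduct _ (s • _),
            smul_dotProduct, he, smul_zero, add_zero]
        rw [dotProduct_sub] at e2
        change (D ∘ (ξ + coad (φ₁ + s • θ) aV)) ⬝ᵥ ν + (ξ + coad (φ₁ + s • θ) aV) ⬝ᵥ kbr X ν = _
        rw [e1, ← e2]; ring
      rw [hcoef, ← hDx, ← der_aeval, xFF_pt_add, ← hth0, ← eval_derivative_lineP, ← eval_lineP,
        ← hL, ← hPe, ← hPd, hQ2, map_add, hDs, add_zero] at key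
      simp only [Set.mem_ofPred_eq, IsRoot.def, eval_sub, eval_mul, eval_C]
      linear_combination key
    have := congrArg (fun R => R.coeff n) hz
    simp only [coeff_sub, coeff_C_mul, coeff_derivative, coeff_zero, hQ1] at this
    linear_combination this
  · have := hPd 0
    rw [add_zero, hL, eval_derivative_lineP, zero_smul, add_zero] at this
    exact this.symm

theorem taylor_mem {S : Subring K} (hC : ∀ c : ℂ, algebraMap ℂ K c ∈ S) (g : MvPolynomial II ℂ)
    (t : ℂ) (P : K[X])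
    (hP : ∀ ψ₁ ψ₂, Sol ξ Y v' ψ₁ ψ₂ →
      MvPolynomial.aeval (pt ξ v' ψ₁ + algebraMap ℂ K t • aI) g = P.eval ((ξ + coad ψ₁ aV) ⬝ᵥ ν))
    (h : Sol ξ Y v' φ₁ φ₂) (hθ : coad θ v' = 0) (hθν : θ ⬝ᵥ act ν aV = 1)
    (m₁ : ∀ i, (ξ + coad φ₁ aV) i ∈ S) (m₂ : ∀ i, v' i ∈ S) (m₃ : ∀ i, θ i ∈ S) (n : ℕ) :
    (taylor ((ξ + coad φ₁ aV) ⬝ᵥ ν) P).coeff n ∈ S := by
  have := xFF_inf (K := K)
  have e : taylor ((ξ + coad φ₁ aV) ⬝ᵥ ν) P =
      lineP g (pt ξ v' φ₁ + algebraMap ℂ K t • aI) (Sum.elim (coad θ aV) 0) := by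
    refine Polynomial.funext fun r => ?_
    rw [taylor_eval, eval_lineP, ← xFF_pt_add, hP _ _ (h.add_theta hθ r), xFF_val_add hθν,
      add_comm]
  rw [e]
  refine coeff_lineP_mem hC g (fun i => ?_) (fun i => ?_) n
  · refine S.add_mem ?_ (S.mul_mem (hC t) (aI_mem i))
    rcases i with i | i
    · exact m₁ i
    · exact m₂ i
  · rcases i with i | i
    · exact coad_mem m₃ aV_mem i
    · exact S.zero_mem

end Pool.Agent.MP_d920b6_mp.Cx
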