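import Pool.Agent.MP_d920b6_mp.Cx.KM

/-! The stabilisers `k_v`. -/

namespace Pool.Agent.MP_d920b6_mp.Cx

open Matrix Module

variable {k : Type*} [Field k] {v : IV → k} {κ y : Vec k}

theorem xkv_skew (σ : Mat k) (κ : Vec k) : (κ ᵥ* sk σ) ⬝ᵥ κ = 0 := by
  simp [sk, vecMul, dotProduct, Fin.sum_univ_four]
  ring

theorem xkv_eqs {X : IK → k} (hX : act X v = 0) :
    sP X • (JJ * wP v) - wP v * hat (gP X) = 0 ∧
    (∀ a b, MM (wP v) (uP X) a b =
      (hat (gP X))ᵀ * sk (sgP v a b) + sk (sgP v a b) * hat (gP X)) ∧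
    sP X • (JJ *ᵥ tauP v) + tP X • tauP v + wP v *ᵥ nP X = 0 :=
  ⟨congrArg wP hX, fun a b => sub_eq_zero.1 (congrArg (fun z => sgP z a b) hX),
    congrArg tauP hX⟩

theorem Good.inA (h2 : (2 : k) ≠ 0) (h : Good ⊤ v κ y) {X : IK → k} (hX : act X v = 0) :
    InA κ X := by
  obtain ⟨e1, e2, e3⟩ := xkv_eqs hX
  have hs : sP X = 0 := by
    have a1 : (sP X • (y ᵥ* JJ)) ᵥ* wP v = 0 := by
      have := congrArg (y ᵥ* ·) e1
      simpa only [vecMul_sub, vecMul_smul, ← vecMul_vecMul, h.gw.yw, zero_vecMul, sub_zero,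
        vecMul_zero, ← smul_vecMul] using this
    have a2 := h.gw.left_ker a1
    generalize (sP X • (y ᵥ* JJ)) ⬝ᵥ κ = c at a2
    have b0 := congrFun a2 0
    have b1 := congrFun a2 1
    have b2 := congrFun a2 2
    have b3 := congrFun a2 3
    simp only [JJ, Pi.smul_apply, vecMul_diagonal, smul_eq_mul, cons_val_zero, cons_val_one,
      cons_val_two, cons_val_three, head_cons, tail_cons] at b0 b1 b2 b3
    obtain ⟨c0, -, c1, -, hc⟩ := h.gw.ylo
    obtain ⟨c2, -, c3, -, hc'⟩ := h.gw.yhi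
    refine (mul_eq_zero.1 ?_).resolve_left h2
    linear_combination c0 * b0 + c1 * b1 - c2 * b2 - c3 * b3 - (sP X - c) * hc - (sP X + c) * hc'
  rw [hs, zero_smul, zero_sub, neg_eq_zero] at e1
  rw [hs, zero_smul, zero_add] at e3
  have hg : hat (gP X) = vecMulVec κ (y ᵥ* hat (gP X)) := by
    ext i j
    have a1 : wP v *ᵥ (fun l => hat (gP X) l j) = 0 := funext fun l => congrFun (congrFun e1 l) j
    rw [vecMulVec_apply, mul_comm]
    exact congrFun (h.gw.right_ker a1) i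
  have hφ : (y ᵥ* hat (gP X)) ⬝ᵥ κ = 0 := by
    rw [dotProduct_comm, ← trace_vecMulVec, ← hg, trace_hat]
  have ht : tP X = 0 := by
    have a1 := congrArg (y ⬝ᵥ ·) e3
    simp only [dotProduct_add, dotProduct_smul, dotProduct_mulVec, h.gw.yw, zero_dotProduct,
      add_zero, dotProduct_zero, smul_eq_mul] at a1
    obtain ⟨x, -, hx⟩ := h.xinv
    linear_combination x * a1 - tP X * hx
  rw [ht, zero_smul, zero_add] at e3
  refine ⟨⟨_, hg, hφ⟩, hs, ht, h.gw.mulVec_of_MM fun a b => ?_, _, h.gw.right_ker e3⟩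
  rw [e2, hg, sk_vecMulVec, wedge, sub_mulVec, vecMulVec_mulVec, vecMulVec_mulVec, xkv_skew, hφ]
  simp

theorem Good.finrank_kst (h2 : (2 : k) ≠ 0) (h : Good ⊤ v κ y) : finrank k (kst v) ≤ 5 := by
  obtain ⟨φ₀, -, hφ₀, hL⟩ := h.lam
  obtain ⟨i, j, hij⟩ : ∃ i j, wP v i j ≠ 0 := by
    by_contra hn
    push Not at hn
    exact h.gw.ne_zero (Matrix.ext hn)
  let F : (kst v × k × k) →ₗ[k] (k × k × Vec k × k) :=
    { toFun := fun z => (trace (gP z.1.1), y ⬝ᵥ nP z.1.1,
        y ᵥ* hat (gP z.1.1) + z.2.1 • y + z.2.2 • φ₀, uP z.1.1 i j)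
      map_add' := fun z z' => by
        simp only [Prod.fst_add, Prod.snd_add, Submodule.coe_add, gP_add, nP_add, uP_add,
          trace_add, dotProduct_add, hat_add, vecMul_add, Matrix.add_apply, Prod.mk_add_mk,
          add_smul]
        congr 3
        abel
      map_smul' := fun c z => by
        simp only [Prod.smul_fst, Prod.smul_snd, Submodule.coe_smul, gP_smul, nP_smul, uP_smul,
          trace_smul, dotProduct_smul, hat_smul, vecMul_smul, Matrix.smul_apply, Prod.smul_mk,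
          smul_add, smul_assoc, RingHom.id_apply] }
  have hF : Function.Injective F := by
    refine (injective_iff_map_eq_zero F).2 ?_
    rintro ⟨⟨X, hX⟩, a, b⟩ hz
    have hX' := (mem_kst _ _).1 hX
    obtain ⟨⟨φ, hg, hφ⟩, hs, ht, -, c, hn⟩ := h.inA h2 hX'
    have e2 := (xkv_eqs hX').2.1
    simp only [F, LinearMap.coe_mk, AddHom.coe_mk, Prod.mk_eq_zero] at hz
    obtain ⟨z1, z2, z3, z4⟩ := hz
    rw [hg, vecMul_vecMulVec, h.gw.yκ, one_smul] at z3
    have ha : a = 0 := by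
      have := congrArg (· ⬝ᵥ κ) z3
      simpa [add_dotProduct, hφ, hφ₀, h.gw.yκ] using this
    have hl : Lam v κ y φ = 0 :=
      Lam_eq_zero v κ y φ (uP X) h.gw.yw fun a b => by rw [e2, hg, sk_vecMulVec]
    rw [ha, zero_smul, add_zero] at z3
    have hb : b = 0 := by
      have a1 := congrArg (Lam v κ y) z3
      have a2 := Lam_smul v κ y 0 0
      rw [zero_smul, zero_mul] at a2
      rwa [Lam_add, Lam_smul, hl, hL, a2, zero_add, mul_one] at a1
    rw [hb, zero_smul, add_zero] at z3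
    rw [z3, vecMulVec_zero] at hg
    obtain ⟨d, hd⟩ := h.gw.ker_MM (u := uP X) fun a b => by simp [e2, hg]
    rw [hd, Matrix.smul_apply, smul_eq_mul, mul_eq_zero, or_iff_left hij] at z4
    rw [hn, dotProduct_smul, h.gw.yκ, smul_eq_mul, mul_one] at z2
    rw [hat_of_trace _ z1] at hg
    have : X = 0 := extK hg hs ht (by simp [hd, z4]) (by simp [hn, z2])
    simp [this, ha, hb]
  have := LinearMap.finrank_le_finrank_of_injective hF
  simp only [finrank_prod, finrank_self, finrank_fin_fun] at this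
  omega

theorem finrank_kst_aV (h2 : (2 : k) ≠ 0) : finrank k (kst (aV : IV → k)) ≤ 4 := by
  let F : kst (aV : IV → k) →ₗ[k] (k × k × k × k) :=
    { toFun := fun z => (trace (gP z.1), sP z.1, tP z.1, uP z.1 0 0)
      map_add' := fun z z' => by simp
      map_smul' := fun c z => by simp }
  have hF : Function.Injective F := by
    refine (injective_iff_map_eq_zero F).2 ?_
    rintro ⟨X, hX⟩ hz
    obtain ⟨e1, e2, e3⟩ := xkv_eqs ((mem_kst _ _).1 hX)
    simp only [F, LinearMap.coe_mk, AddHom.coe_mk, Prod.mk_eq_zero] at hz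
    obtain ⟨z1, z2, z3, z4⟩ := hz
    obtain ⟨d, hd⟩ := ker_MM_one (u := uP X) fun a b => by simpa using e2 a b
    rw [hat_of_trace _ z1] at e1
    refine Subtype.ext (extK (by simpa [z2] using e1) z2 z3 ?_ (by simpa using e3))
    have : d = 0 := by simpa [hd] using z4
    simp [hd, this]
  simpa using LinearMap.finrank_le_finrank_of_injective hF

theorem xkv_MM_mul (w u : Mat k) (a b : Fin 2) : MM w (u * w) a b = wᵀ * MM 1 u a b * w := by
  have e : ∀ x z : Vec k, wᵀ * wedge x z * w = wedge (x ᵥ* w) (z ᵥ* w) := fun x z => by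
    simp only [wedge, Matrix.mul_sub, Matrix.sub_mul, mul_vecMulVec, vecMulVec_mul,
      mulVec_transpose]
  have e1 : ∀ i, (1 : Mat k) i ᵥ* w = w i := fun i => congrFun (Matrix.one_mul w) i
  simp only [MM, Matrix.mul_add, Matrix.add_mul, e, e1]
  rfl

theorem xkv_ut (S : Fin 2 → Fin 2 → Mat k) (hS : ∀ a b, (S a b)ᵀ = -S a b)
    (hd : ∀ a b i, S a b i i = 0) : ∃ u : Mat k, ∀ a b, MM 1 u a b = JJ * S a b + S a b * JJ := by
  refine ⟨!![0, 0, -2 * S 0 1 2 3, 2 * S 0 0 2 3; 0, 0, -2 * S 1 1 2 3, 2 * S 1 0 2 3;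
    2 * S 1 0 0 1, -2 * S 0 0 0 1, 0, 0; 2 * S 1 1 0 1, -2 * S 0 1 0 1, 0, 0], fun a b => ?_⟩
  have h1 : ∀ a b, S a b 1 0 = -S a b 0 1 := fun a b => congrFun (congrFun (hS a b) 0) 1
  have h3 : ∀ a b, S a b 3 2 = -S a b 2 3 := fun a b => congrFun (congrFun (hS a b) 2) 3
  ext i j
  simp only [JJ, Matrix.add_apply, diagonal_mul, mul_diagonal, MM, xtri_wedge_apply]
  fin_cases a <;> fin_cases b <;> fin_cases i <;> fin_cases j <;>
    simp [lo, hi, one_apply, hd, h1, h3] <;> ring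

theorem xkv_conj (W σ : Mat k) : (Wᵀ * sk σ * W)ᵀ = -(Wᵀ * sk σ * W) ∧
    ∀ i, (Wᵀ * sk σ * W) i i = 0 := by
  refine ⟨by simp [transpose_mul, sk_transpose, Matrix.mul_assoc], fun i => ?_⟩
  exact xkv_skew σ (Wᵀ i)

theorem xkv_ab (v : IV → k) (hw : wP v ≠ 0) (g U : Mat k) (n : Vec k) (h0 : trace g = 0)
    (h1 : wP v * g = JJ * wP v)
    (h2 : ∀ a b, MM (wP v) U a b = gᵀ * sk (sgP v a b) + sk (sgP v a b) * g)
    (h3 : wP v *ᵥ n = -tauP v) :
    ∃ S : Submodule k (IK → k), S ≤ kst v ∧ 4 ≤ finrank k S ∧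
      ∀ X ∈ S, ∀ Y ∈ S, kbr X Y = 0 := by
  let G : (k × k × k × k) →ₗ[k] (IK → k) :=
    { toFun := fun z => mkK (z.1 • single 0 0 1 + z.2.2.2 • g) z.2.2.2 z.2.2.1
        (z.2.1 • wP v + z.2.2.2 • U) (z.2.2.1 • n + z.2.2.2 • g *ᵥ n)
      map_add' := fun z z' => by
        refine extK ?_ rfl rfl ?_ ?_ <;>
          simp only [gP_mkK, uP_mkK, nP_mkK, gP_add, uP_add, nP_add, Prod.fst_add,
            Prod.snd_add] <;> module
      map_smul' := fun c z => by
        refine extK ?_ rfl rfl ?_ ?_ <;>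
          simp only [gP_mkK, uP_mkK, nP_mkK, gP_smul, uP_smul, nP_smul, Prod.smul_fst,
            Prod.smul_snd, RingHom.id_apply, smul_eq_mul] <;> module }
  have hG : ∀ a b c d, G (a, b, c, d) = mkK (a • single 0 0 1 + d • g) d c
    (b • wP v + d • U) (c • n + d • g *ᵥ n) := fun _ _ _ _ => rfl
  have hh : ∀ a d : k, hat (a • single 0 0 1 + d • g) = d • g := fun a d => by
    rw [hat_add, hat_smul, hat_smul, hat_of_trace g h0]
    simp [hat]
  refine ⟨G.range, ?_, ?_, ?_⟩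
  · rintro _ ⟨⟨a, b, c, d⟩, rfl⟩
    rw [mem_kst, hG]
    refine extV ?_ (fun a b => ?_) ?_
    · rw [wP_act, gP_mkK, hh]
      simp [h1]
    · rw [sgP_act, gP_mkK, hh]
      simp [MM_add_right, MM_smul_right, MM_self, h2]
    · simp only [tauP_act, sP_mkK, tP_mkK, nP_mkK, mulVec_add, mulVec_smul, mulVec_mulVec, h1,
        tauP_zero]
      rw [← mulVec_mulVec, h3, mulVec_neg]
      module
  · rw [LinearMap.finrank_range_of_inj]
    · simp
    · refine (injective_iff_map_eq_zero G).2 ?_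
      rintro ⟨a, b, c, d⟩ hz
      rw [hG] at hz
      obtain rfl : d = 0 := congrArg sP hz
      obtain rfl : c = 0 := congrArg tP hz
      have a1 := congrFun (congrFun (congrArg gP hz) 0) 0
      have a2 := congrArg uP hz
      simp [hw] at a1 a2
      simp [a1, a2]
  · rintro _ ⟨⟨a, b, c, d⟩, rfl⟩ _ ⟨⟨a', b', c', d'⟩, rfl⟩
    rw [hG, hG]
    refine extK ?_ rfl rfl ?_ ?_
    · simp only [gP_kbr, gP_mkK, hh, Matrix.mul_smul, Matrix.smul_mul, gP_zero]
      module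
    · simp only [uP_kbr, gP_mkK, uP_mkK, sP_mkK, hh, Matrix.mul_smul, Matrix.smul_mul,
        Matrix.add_mul, Matrix.mul_add, h1, uP_zero]
      module
    · simp only [nP_kbr, gP_mkK, nP_mkK, tP_mkK, hh, mulVec_add, mulVec_smul, smul_mulVec, nP_zero]
      module

/-- at invertible `w` the stabiliser contains a four-dimensional abelian subalgebra -/
theorem exists_ab (v : IV → k) (hw : (wP v).det ≠ 0) :
    ∃ S : Submodule k (IK → k), S ≤ kst v ∧ 4 ≤ finrank k S ∧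
      ∀ X ∈ S, ∀ Y ∈ S, kbr X Y = 0 := by
  have i1 := mul_nonsing_inv _ hw.isUnit
  have i2 := nonsing_inv_mul _ hw.isUnit
  generalize (wP v)⁻¹ = W at i1 i2
  obtain ⟨u, hu⟩ := xkv_ut (fun a b => Wᵀ * sk (sgP v a b) * W) (fun a b => (xkv_conj _ _).1)
    fun a b => (xkv_conj _ _).2
  refine xkv_ab v (fun h => hw (by rw [h]; simp)) (W * JJ * wP v) (u * wP v) (-(W *ᵥ tauP v))
    ?_ ?_ (fun a b => ?_) ?_
  · rw [trace_mul_comm, ← Matrix.mul_assoc, i1, Matrix.one_mul, trace_JJ]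
  · rw [← Matrix.mul_assoc, ← Matrix.mul_assoc, i1, Matrix.one_mul]
  · have i3 : (wP v)ᵀ * Wᵀ = 1 := by rw [← transpose_mul, i2, transpose_one]
    rw [xkv_MM_mul, hu]
    simp only [transpose_mul, JJ_transpose, Matrix.mul_add, Matrix.add_mul, Matrix.mul_assoc, i2,
      Matrix.mul_one]
    rw [← Matrix.mul_assoc (wP v)ᵀ Wᵀ, i3, Matrix.one_mul]
  · rw [mulVec_neg, mulVec_mulVec, i1, one_mulVec]

end Pool.Agent.MP_d920b6_mp.Cx
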