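import Pool.Agent.MP_d920b6_mp.Cx.Rep

/-! The Lie algebra `k ⋉ V*`. -/

namespace Pool.Agent.MP_d920b6_mp.Cx

open Matrix Module

/-- the underlying space of the Lie algebra -/
def LL (K : Type) : Type := II → K

variable {K : Type} [Field K]

instance : AddCommGroup (LL K) := inferInstanceAs (AddCommGroup (II → K))
instance : Module K (LL K) := inferInstanceAs (Module K (II → K))

instance : LieRing (LL K) where
  bracket := lbr
  add_lie := lbr_add_left
  lie_add := lbr_add_right
  lie_self := lbr_self
  leibniz_lie := lbr_leibniz

instance : LieAlgebra K (LL K) where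
  lie_smul := lbr_smul_right

/-- the standard basis -/
noncomputable def bLL (K : Type) [Field K] : Basis II K (LL K) := Pi.basisFun K II

/-- the covector with given coordinates -/
noncomputable def cov (x : II → K) : Dual K (LL K) := (bLL K).constr K x

theorem cov_basis (x : II → K) (i : II) : cov x (bLL K i) = x i := by simp [cov]

theorem sum_bLL (c : II → K) : (∑ i, c i • bLL K i : LL K) = c := by
  have := (bLL K).equivFun_symm_apply c
  rw [← this]
  exact (Pi.basisFun K II).equivFun.symm_apply_eq.2 (by simp)

theorem dual_apply (x : Dual K (LL K)) (Z : II → K) :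
    x (show LL K from Z) = (fun j => x (bLL K j)) ⬝ᵥ Z := by
  conv_lhs => rw [← sum_bLL Z, map_sum]
  simp [dotProduct, mul_comm]

theorem dual_lie (x : Dual K (LL K)) (Z Z' : LL K) :
    x ⁅Z, Z'⁆ = PF (fun j => x (bLL K j)) Z Z' := by
  rw [PF_eq_lbr]
  exact dual_apply x (lbr Z Z')

theorem finrank_LL : finrank K (LL K) = 122 := by
  rw [finrank_eq_card_basis (bLL K), card_II]

end Pool.Agent.MP_d920b6_mp.Cx
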