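import Pool.Agent.MP_d920b6_mp.Cx.MainA
import Pool.Agent.MP_d920b6_mp.Cx.Endg
import Pool.Agent.MP_d920b6_mp.Cx.ECx
import Pool.Agent.MP_d920b6_mp.Cx.Dens

/-! No complete family in bi-involution exists. -/

namespace Pool.Agent.MP_d920b6_mp.Cx

open Matrix Polynomial

theorem no_fam (F : Fam) : False := by
  obtain ⟨ξ, v, κ, y, t, hB, hp⟩ := exists_base F.p F.p0
  obtain ⟨K, _, _, y', D, E, hE⟩ := exists_EC hB.ok
  have : CharZero K := charZero_of_injective_algebraMap (algebraMap ℂ K).injective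
  obtain ⟨u, hu⟩ := hB.exists_u hE
  obtain ⟨O₀, hO₀, hs⟩ := hE.base
  obtain ⟨m₀, hm₀', hm₀⟩ := hB.exists_m
  have hG := (hB.good hE hu hO₀).top
  obtain ⟨m, φ₁, φ₂, -, hm1, hm2, hsol, -, sφ⟩ := hB.chart_sol hE hu ξ hO₀
  obtain ⟨W, m', ψ₁, ψ₂, mW, hW, em', -, hm', hδ, hδ'⟩ := hB.twist hE hu hm₀ hO₀ 0 (.inl rfl)
    hE.y0 (inv_mem_of_val hO₀.hC hB.ok.y0 (hs 0))
  have hY : InA (cst K κ) (YK v κ y y' u) := inA_YY hB.wκK hu.uκ
  have hS := step_eq (y := cst K y) hB.wκK hu.uκ hu.eq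
  obtain ⟨s1, s2, s3, s4⟩ := der_YY (u := u) E (der_cst E v) (der_cst E κ) (der_cst E y) hB.wκK
    hE.yκ rfl
  obtain ⟨d1, d2, -, -⟩ := der_YY (u := u) D (der_cst D v) (der_cst D κ) (der_cst D y) hB.wκK
    hE.yκ rfl
  obtain ⟨hν, hEv⟩ := step_act E (der_cst E v) (der_cst E κ) hY hS rfl
  obtain ⟨hDY, hDv⟩ := step_act D (der_cst D v) (der_cst D κ) hY hS rfl
  set v' := vK v κ y y' u with hv'
  set Y := YK v κ y y' u with hYdef
  have hθ : coad (th y' m) v' = 0 := coad_th hG.gw.yw hm1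
  have hθν : th y' m ⬝ᵥ act (E ∘ Y) aV = 1 := by
    rw [th_act hE.yκ s2 s1, ← dotProduct_mulVec, hm2, neg_neg]
  obtain ⟨d₁, d₂, -, a0, a1, a2, a3⟩ := hE.Dy
  have hm3 : y' 2 * (wP v' *ᵥ m) 2 + y' 3 * (wP v' *ᵥ m) 3 = 0 := by
    have : y' ⬝ᵥ (wP v' *ᵥ m) = 0 := by rw [dotProduct_mulVec, hG.gw.yw, zero_dotProduct]
    rw [dotProduct, Fin.sum_univ_four] at this
    linear_combination this - hm1
  obtain ⟨X, hX⟩ := hG.partner hθ hν (by rw [hθν]; exact one_ne_zero) hDY (by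
    rw [th_act hE.yκ d2 d1, ← dotProduct_mulVec, dotProduct, Fin.sum_univ_four]
    simp only [Function.comp_apply, a0, a1, a2, a3]
    linear_combination -d₁ * hm1 - d₂ * hm3)
  have hX' : act X v' = D ∘ v' := hX.symm.trans hDv.symm
  have he : coad (th y' m) aV ⬝ᵥ (kbr X (E ∘ Y) - D ∘ E ∘ Y) = 0 := by
    refine th_drift D (der_cst D κ) hG.gw (ω := -((D ∘ y') ᵥ* wP v')) (e₁ := E d₁) (e₂ := E d₂)
      hX' ?_ s2 s1 a0 a1 a2 a3 ?_ ?_ ?_ ?_ hm1 hm2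
    · rw [← wP_comp, hDv, act_aV, wP_mkV, d2, d1, zero_smul, zero_sub, vecMulVec_neg]
    all_goals
      simp only [Function.comp_apply, hE.comm, a0, a1, a2, a3, Derivation.leibniz, smul_eq_mul]
      ring
  have hb : dl y' m' ⬝ᵥ (kbr X (E ∘ Y) - D ∘ E ∘ Y) = 0 :=
    dl_drift D (der_cst D κ) hE.yκ hX' s2 s3 s1 s4 hm' hE.E0
  -- the twisted solutions
  have hξ : ∀ (Δ : Derivation ℂ K K) (r : ℂ),
      Δ ∘ (cst K ξ + algebraMap ℂ K r • cst K (dl y m₀)) = 0 := fun Δ r => by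
    funext i; simp
  have hpK : ∀ r : ℂ,
      MvPolynomial.aeval (Sum.elim ξ v + t • aI + r • Sum.elim (dl y m₀) 0) F.p ≠ 0 →
      MvPolynomial.aeval (pt (cst K ξ + algebraMap ℂ K r • cst K (dl y m₀)) v'
        (φ₁ + algebraMap ℂ K r • ψ₁) + algebraMap ℂ K t • aI) F.p ≠ 0 := fun r hr => by
    refine aeval_ne_zero_of_val hO₀.hC (fun i => ?_) hr
    have ea : ∀ i, algebraMap ℂ K (aI i) = aI i := fun i => congrFun (comp_aI (algebraMap ℂ K)) i
    rw [pt, pt_twist hδ']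
    rcases i with i | i
    · have h1 := coad_val (sφ hs) (aV_mem (S := O₀.toSubring)) i
      have h2 := val_mul_lt (hB.twist_small hu hm₀' hO₀ hs mW hW i) (hO₀.hC r)
      rw [← em'] at h2
      convert O₀.valuation.map_add_lt h1 h2 using 2
      simp only [Pi.add_apply, Pi.smul_apply, Pi.sub_apply, Sum.elim_inl, smul_eq_mul, map_add,
        map_mul, ea, cst, Function.comp_apply]
      ring
    · convert act_val (hB.YK_small hu hO₀ hs) (aV_mem (S := O₀.toSubring)) i using 2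
      simp only [Pi.add_apply, Pi.smul_apply, Sum.elim_inr, smul_eq_mul, map_add,
        map_mul, ea, cst, Function.comp_apply, Pi.zero_apply, map_zero, hv', vK]
      ring
  have hP := fun (r : ℂ) hr i => F.exists_poly D (hξ D r) (der_cst D v) (der_cst D κ) hY hS rfl hG
    hθ hν hθν hX' he (hsol.add_smul hδ (algebraMap ℂ K r)) t (hpK r hr) i
  choose! P hP1 hP2 hP3 using hP
  have hP2' : ∀ r : ℂ,
      MvPolynomial.aeval (Sum.elim ξ v + t • aI + r • Sum.elim (dl y m₀) 0) F.p ≠ 0 → ∀ i n,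
      D ((P r i).coeff n) = ((cst K ξ + coad φ₁ aV) ⬝ᵥ (kbr X (E ∘ Y) - D ∘ E ∘ Y)) *
        ((n + 1) * (P r i).coeff (n + 1)) := fun r hr i n => by
    rw [hP2 r hr i n, pt_twist hδ', add_dotProduct, smul_dotProduct, hb, smul_zero, add_zero]
  have hA := fun O hO hi => hB.chart_taylor hE hu hm₀ ξ t (O := O) hO 0 (.inl rfl) hE.y0 hi
  have hC := fun O hO hi => hB.chart_taylor hE hu hm₀ ξ t (O := O) hO 1 (.inr rfl) hE.y1 hi
  -- a twist at which all restrictions are constant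
  obtain ⟨r, hr, hdeg⟩ : ∃ r : ℂ,
      MvPolynomial.aeval (Sum.elim ξ v + t • aI + r • Sum.elim (dl y m₀) 0) F.p ≠ 0 ∧
      ∀ i, (P r i).natDegree = 0 := by
    by_contra hcon
    push Not at hcon
    obtain ⟨r₁, hr₁, r₂, hr₂, hne⟩ :=
      (line_finite F.p _ (Sum.elim (dl y m₀) 0) hp).infinite_compl.nontrivial
    obtain ⟨i₁, h₁⟩ := hcon r₁ hr₁
    obtain ⟨i₂, h₂⟩ := hcon r₂ hr₂
    have := hE.two (P r₁ i₁) (P r₂ i₂) _ ((r₂ - r₁) * (y ⬝ᵥ tauP v)) (hP2' r₁ hr₁ i₁)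
      (hP2' r₂ hr₂ i₂) h₁ h₂ (fun O hO hi => ?_) fun O hO hi => ?_
    · exact hne (sub_eq_zero.1 ((mul_eq_zero.1 this).resolve_right hB.x0)).symm
    · obtain ⟨T, hT⟩ := hA O hO hi
      have e1 := hT r₁ _ _ (hP1 r₁ hr₁ i₁)
      have e2 := hT r₂ _ _ (hP1 r₂ hr₂ i₂)
      rw [hE.E0, zero_div, mul_zero, sub_zero] at e1 e2
      exact ⟨T, e1, e2⟩
    · obtain ⟨T, hT⟩ := hC O hO hi
      refine ⟨_, hT r₁ _ _ (hP1 r₁ hr₁ i₁), ?_⟩
      have e2 := hT r₂ _ _ (hP1 r₂ hr₂ i₂)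
      have e : T - algebraMap ℂ K (r₁ * (y ⬝ᵥ tauP v)) * (E (y' 1) / y' 1) -
          algebraMap ℂ K ((r₂ - r₁) * (y ⬝ᵥ tauP v)) * (E (y' 1) / y' 1) =
          T - algebraMap ℂ K (r₂ * (y ⬝ᵥ tauP v)) * (E (y' 1) / y' 1) := by
        simp only [map_mul, map_sub]; ring
      rw [e]
      exact e2
  have hconst : ∀ i, ∃ a : ℂ, P r i = C (algebraMap ℂ K a) := fun i => by
    obtain ⟨a, ha⟩ := hE.lead (P r i) _ (hP2' r hr i) fun O hO hi => by
      rcases hi with hi | hi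
      · obtain ⟨T, hT⟩ := hA O hO hi
        exact ⟨_, hT r _ _ (hP1 r hr i)⟩
      · obtain ⟨T, hT⟩ := hC O hO hi
        exact ⟨_, hT r _ _ (hP1 r hr i)⟩
    refine ⟨a, ?_⟩
    rw [← ha, leadingCoeff, hdeg i]
    exact eq_C_of_natDegree_eq_zero (hdeg i)
  obtain ⟨-, hζ⟩ := step E (hξ E r) (der_cst E v) (der_cst E κ) hY hS rfl
    (hsol.add_smul hδ (algebraMap ℂ K r))
  have := F.orth _ (hpK r hr) (ζ' := Sum.elim 0 (th y' m)) (fun i => by
    obtain ⟨a, ha⟩ := hconst i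
    have e1 := der_aeval E (F.f i) (pt (cst K ξ + algebraMap ℂ K r • cst K (dl y m₀))
        (cst K v + act Y aV) (φ₁ + algebraMap ℂ K r • ψ₁) + algebraMap ℂ K t • aI)
    rw [hP1 r hr i _ _ (hsol.add_smul hδ (algebraMap ℂ K r)), ha, eval_C,
      Derivation.map_algebraMap] at e1
    rw [hζ, e1]
    congr 1
    funext j
    have := congrFun (der_aI E) j
    simp only [Function.comp_apply, Pi.zero_apply] at this
    simp [this]) fun i => by
      obtain ⟨a, ha⟩ := hconst i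
      have e1 := hP3 r hr i
      rw [ha, derivative_C, eval_zero, dotI, kp_elim, vp_elim, zero_dotProduct, add_zero,
        coad_dot] at e1
      rw [PF_aI, kp_elim, vp_elim, act_zero_left, dotProduct_zero, sub_zero, e1]
  rw [hζ, dotI, kp_elim, vp_elim, dotProduct_zero, zero_add, vp_comp, vp_pt, hEv,
    dotProduct_comm, hθν] at this
  exact one_ne_zero this

end Pool.Agent.MP_d920b6_mp.Cx
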