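import Pool.Agent.MP_d920b6_mp.Cx.Move
import Pool.Agent.MP_d920b6_mp.Cx.FF

/-! The twist direction in every chart. -/

namespace Pool.Agent.MP_d920b6_mp.Cx

open Matrix Polynomial

variable {K : Type} [Field K] [Algebra ℂ K] {v : IV → ℂ} {κ y : Vec ℂ} {y' : Vec K}
  {D E : Derivation ℂ K K} {u : Mat K}

theorem der_cst (D : Derivation ℂ K K) {ι : Type} (a : ι → ℂ) : D ∘ cst K a = 0 := by
  funext i; simp

theorem cst_dot {ι : Type} [Fintype ι] (a b : ι → ℂ) :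
    cst K a ⬝ᵥ cst K b = algebraMap ℂ K (a ⬝ᵥ b) := by
  simp [dotProduct]

theorem cst_mulVec (w : Mat ℂ) (m : Vec ℂ) :
    w.map (algebraMap ℂ K) *ᵥ cst K m = cst K (w *ᵥ m) := by
  funext i; simp [mulVec, dotProduct]

theorem cst_vecMul (w : Mat ℂ) (m : Vec ℂ) :
    cst K m ᵥ* w.map (algebraMap ℂ K) = cst K (m ᵥ* w) := by
  funext i; simp [vecMul, dotProduct]

theorem Base.wκK (hB : Base v κ y) : wP (cst K v) *ᵥ cst K κ = 0 := by
  rw [wP_comp, cst_mulVec, hB.wκ]; funext i; simp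

theorem Base.ywK (hB : Base v κ y) : cst K y ᵥ* wP (cst K v) = 0 := by
  rw [wP_comp, cst_vecMul, hB.yw]; funext i; simp

theorem Base.yκK (hB : Base v κ y) : cst K y ⬝ᵥ cst K κ = 1 := by
  rw [cst_dot, hB.ok.yκ, map_one]

theorem solve_w {R : Type*} [CommRing R] {w W : Mat R} {κ y b : Vec R}
    (hW : W * (w + vecMulVec κ y) = 1) (hy : y ᵥ* w = 0) (hκ : y ⬝ᵥ κ = 1) (hb : y ⬝ᵥ b = 0) :
    w *ᵥ (W *ᵥ b) = b := by
  have h1 : (w + vecMulVec κ y) *ᵥ (W *ᵥ b) = b := by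
    rw [mulVec_mulVec, mul_eq_one_comm.1 hW, one_mulVec]
  rw [add_mulVec, vecMulVec_mulVec] at h1
  have h2 := congrArg (y ⬝ᵥ ·) h1
  simp only [dotProduct_add, dotProduct_mulVec y w, hy, zero_dotProduct, zero_add, hb,
    op_smul_eq_smul, dotProduct_smul, hκ, smul_eq_mul, mul_one] at h2
  rw [h2] at h1
  simpa using h1

/-- the twist data at the base point -/
theorem Base.exists_m (hB : Base v κ y) :
    ∃ m : Vec ℂ, (wP v + vecMulVec κ y) *ᵥ m = tauP v - Pi.single 0 (y ⬝ᵥ tauP v / y 0) ∧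
      wP v *ᵥ m = tauP v - Pi.single 0 (y ⬝ᵥ tauP v / y 0) := by
  obtain ⟨W, hW⟩ := hB.inv
  refine ⟨W *ᵥ (tauP v - Pi.single 0 (y ⬝ᵥ tauP v / y 0)), ?_, solve_w hW hB.yw hB.ok.yκ ?_⟩
  · rw [mulVec_mulVec, mul_eq_one_comm.1 hW, one_mulVec]
  · rw [dotProduct_sub, dotProduct_single, mul_div_cancel₀ _ hB.ok.y0, sub_self]

theorem y_tau (hy : y' ⬝ᵥ cst K κ = 1) :
    y' ⬝ᵥ tauP (vK v κ y y' u) = algebraMap ℂ K (y ⬝ᵥ tauP v) := by
  rw [tauP_move, dotProduct_add, dotProduct_smul, hy, tauP_comp, ← cst_dot]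
  simp

theorem Base.twist (hB : Base v κ y) (hE : EC (cf v κ) κ y y' D E)
    (hu : UOK v κ y y' (E ∘ y') u) {m₀ : Vec ℂ}
    (hm₀ : wP v *ᵥ m₀ = tauP v - Pi.single 0 (y ⬝ᵥ tauP v / y 0))
    {O : ValuationSubring K} (hO : Chart O y' (E ∘ y')) (j : Fin 4) (hj : j = 0 ∨ j = 1)
    (h0 : y' j ≠ 0) (hi : (y' j)⁻¹ ∈ O) :
    ∃ (W : Mat K) (m' : Vec K) (ψ₁ ψ₂ : IV → K), (∀ i j, W i j ∈ O) ∧
      W * (wP (vK v κ y y' u) + vecMulVec (cst K κ) y') = 1 ∧
      m' = W *ᵥ (tauP (vK v κ y y' u) - Pi.single j (algebraMap ℂ K (y ⬝ᵥ tauP v) / y' j)) ∧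
      (∀ i, m' i ∈ O) ∧
      wP (vK v κ y y' u) *ᵥ m' =
        tauP (vK v κ y y' u) - Pi.single j (algebraMap ℂ K (y ⬝ᵥ tauP v) / y' j) ∧
      Sol (cst K (dl y m₀)) (YK v κ y y' u) (vK v κ y y' u) ψ₁ ψ₂ ∧
      cst K (dl y m₀) + coad ψ₁ aV = dl y' m' := by
  have hG := hB.good hE hu hO
  obtain ⟨W, mW, hW⟩ := hG.gw.inv
  have hm' := solve_w hW hG.gw.yw hG.gw.yκ
    (b := tauP (vK v κ y y' u) - Pi.single j (algebraMap ℂ K (y ⬝ᵥ tauP v) / y' j)) (by
      rw [dotProduct_sub, dotProduct_single, mul_div_cancel₀ _ h0, y_tau hE.yκ, sub_self])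
  have hm : wP (cst K v) *ᵥ cst K m₀ =
      tauP (cst K v) - cst K (Pi.single 0 (y ⬝ᵥ tauP v / y 0)) := by
    rw [wP_comp, cst_mulVec, hm₀, tauP_comp]; funext i; simp
  obtain ⟨ψ₁, ψ₂, h1, h2⟩ := sol_dl (u := u) hB.wκK hB.ywK hB.yκK hE.yκ rfl hm hm' (by
    have e1 : cst K y ⬝ᵥ (JJ *ᵥ cst K (Pi.single 0 (y ⬝ᵥ tauP v / y 0))) =
        algebraMap ℂ K (y ⬝ᵥ tauP v) := by
      rw [← JJ_map (algebraMap ℂ K), cst_mulVec, cst_dot]
      congr 1
      rw [mulVec_single, op_smul_eq_smul, dotProduct_smul, smul_eq_mul]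
      have : y ⬝ᵥ (JJ : Mat ℂ).col 0 = y 0 := by simp [JJ, dotProduct, Fin.sum_univ_four]
      rw [this, div_mul_cancel₀ _ hB.ok.y0]
    rw [e1, mulVec_single, op_smul_eq_smul, dotProduct_smul, smul_eq_mul]
    have : y' ⬝ᵥ (JJ : Mat K).col j = y' j := by
      rcases hj with rfl | rfl <;> simp [JJ, dotProduct, Fin.sum_univ_four]
    rw [this, div_mul_cancel₀ _ h0])
  rw [← comp_dl] at h1 h2
  refine ⟨W, _, ψ₁, ψ₂, mW, hW, rfl, fun i => ?_, hm', h1, h2⟩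
  refine mulVec_mem (S := O.toSubring) mW (fun l => ?_) i
  refine sub_mem (hG.mv _) ?_
  rw [Pi.single_apply]
  split_ifs
  · rw [div_eq_mul_inv]; exact mul_mem (hO.hC _) hi
  · exact zero_mem _

omit [Algebra ℂ K] in
theorem pt_twist {ξ δ δ' : IK → K} {φ₁ ψ₁ : IV → K} (h : δ + coad ψ₁ aV = δ') (r : K) :
    ξ + r • δ + coad (φ₁ + r • ψ₁) aV = ξ + coad φ₁ aV + r • δ' := by
  rw [coad_add_left, coad_smul_left, ← h, smul_add]; abel

/-- integrality of the restricted polynomials in a chart -/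
theorem Base.chart_taylor (hB : Base v κ y) (hE : EC (cf v κ) κ y y' D E)
    (hu : UOK v κ y y' (E ∘ y') u) {m₀ : Vec ℂ}
    (hm₀ : wP v *ᵥ m₀ = tauP v - Pi.single 0 (y ⬝ᵥ tauP v / y 0)) (ξ : IK → ℂ) (t : ℂ)
    {O : ValuationSubring K} (hO : Chart O y' (E ∘ y')) (j : Fin 4) (hj : j = 0 ∨ j = 1)
    (h0 : y' j ≠ 0) (hi : (y' j)⁻¹ ∈ O) :
    ∃ T : K, ∀ (r : ℂ) (g : MvPolynomial II ℂ) (P : K[X]),
      (∀ ψ₁ ψ₂, Sol (cst K ξ + algebraMap ℂ K r • cst K (dl y m₀)) (YK v κ y y' u)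
          (vK v κ y y' u) ψ₁ ψ₂ →
        MvPolynomial.aeval (pt (cst K ξ + algebraMap ℂ K r • cst K (dl y m₀)) (vK v κ y y' u) ψ₁ +
          algebraMap ℂ K t • aI) g =
        P.eval ((cst K ξ + algebraMap ℂ K r • cst K (dl y m₀) + coad ψ₁ aV) ⬝ᵥ
          (E ∘ YK v κ y y' u))) →
      ∀ n, (taylor (T - algebraMap ℂ K (r * (y ⬝ᵥ tauP v)) * (E (y' j) / y' j)) P).coeff n ∈ O := by
  have hG := hB.good hE hu hO
  obtain ⟨m, φ₁, φ₂, mm, hm1, hm2, hsol, mφ, -⟩ := hB.chart_sol hE hu ξ hO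
  obtain ⟨W, m', ψ₁, ψ₂, -, -, -, mm', hm', hδ, hδ'⟩ := hB.twist hE hu hm₀ hO j hj h0 hi
  obtain ⟨s1, s2, s3, s4⟩ := der_YY (u := u) E (der_cst E v) (der_cst E κ) (der_cst E y) hB.wκK
    hE.yκ rfl
  refine ⟨(cst K ξ + coad φ₁ aV) ⬝ᵥ (E ∘ YK v κ y y' u), fun r g P hP n => ?_⟩
  have key := taylor_mem (S := O.toSubring) hO.hC g t P hP
    (hsol.add_smul hδ (algebraMap ℂ K r)) (θ := th y' m) (coad_th hG.gw.yw hm1)
    (by rw [th_act hE.yκ s2 s1, ← dotProduct_mulVec, hm2, neg_neg])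
    (fun i => by
      rw [pt_twist hδ']
      exact add_mem (add_mem (hO.hC _) (coad_mem mφ aV_mem i))
        (mul_mem (hO.hC _) (dl_mem hO.my mm' i)))
    hG.mv (th_mem hO.my mm) n
  rw [pt_twist hδ', add_dotProduct, smul_dotProduct, dl_nu hE.yκ s2 s1 s4 hm',
    dotProduct_single] at key
  have e : ∀ T : K, T - algebraMap ℂ K (r * (y ⬝ᵥ tauP v)) * (E (y' j) / y' j) =
      T + algebraMap ℂ K r • -((E ∘ y') j * (algebraMap ℂ K (y ⬝ᵥ tauP v) / y' j)) := fun T => by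
    simp only [map_mul, smul_eq_mul, Function.comp_apply]
    ring
  rw [e]
  exact key

omit [Algebra ℂ K] in
theorem val_mul_lt {O : ValuationSubring K} {a b : K} (ha : O.valuation a < 1) (hb : b ∈ O) :
    O.valuation (a * b) < 1 := by
  rw [map_mul]
  exact lt_of_le_of_lt (mul_le_of_le_one_right' ((O.valuation_le_one_iff b).2 hb)) ha

theorem inv_mem_of_val {O : ValuationSubring K} (hC : ∀ c : ℂ, algebraMap ℂ K c ∈ O) {a : K}
    {c : ℂ} (hc : c ≠ 0) (h : O.valuation (a - algebraMap ℂ K c) < 1) : a⁻¹ ∈ O := by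
  have h1 : O.valuation (algebraMap ℂ K c) = 1 := by
    have e1 := (O.valuation_le_one_iff _).2 (hC c)
    have e2 := (O.valuation_le_one_iff _).2 (hC c⁻¹)
    have e3 : O.valuation (algebraMap ℂ K c) * O.valuation (algebraMap ℂ K c⁻¹) = 1 := by
      rw [← map_mul, ← map_mul, mul_inv_cancel₀ hc, map_one, map_one]
    refine le_antisymm e1 ?_
    rw [← e3]
    exact mul_le_of_le_one_right' e2
  have h2 : O.valuation a = 1 := by
    have := O.valuation.map_add_eq_of_lt_right (x := a - algebraMap ℂ K c)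
      (y := algebraMap ℂ K c) (by rw [h1]; exact h)
    rw [sub_add_cancel, h1] at this
    exact this
  rw [← O.valuation_le_one_iff, map_inv₀, h2, inv_one]

/-- the twisted solutions specialise to the twisted base points -/
theorem Base.twist_small (hB : Base v κ y) (hu : UOK v κ y y' (E ∘ y') u) {m₀ : Vec ℂ}
    (hm₀ : (wP v + vecMulVec κ y) *ᵥ m₀ = tauP v - Pi.single 0 (y ⬝ᵥ tauP v / y 0))
    {O : ValuationSubring K} (hO : Chart O y' (E ∘ y'))
    (hs : ∀ i, O.valuation (y' i - cst K y i) < 1) {W : Mat K} (mW : ∀ i j, W i j ∈ O)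
    (hW : W * (wP (vK v κ y y' u) + vecMulVec (cst K κ) y') = 1) (i : IK) :
    O.valuation ((dl y' (W *ᵥ (tauP (vK v κ y y' u) -
      Pi.single 0 (algebraMap ℂ K (y ⬝ᵥ tauP v) / y' 0))) - cst K (dl y m₀)) i) < 1 := by
  have hy0 : (y' 0)⁻¹ ∈ O := inv_mem_of_val hO.hC hB.ok.y0 (hs 0)
  have hne : y' 0 ≠ 0 := by
    intro h0
    have h1 := hs 0
    rw [h0, zero_sub, Valuation.map_neg] at h1
    have h2 := val_mul_lt h1 (hO.hC (y 0)⁻¹)
    rw [cst, Function.comp_apply, ← map_mul, mul_inv_cancel₀ hB.ok.y0, map_one, map_one] at h2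
    exact lt_irrefl _ h2
  have hA : ∀ j, O.valuation (act (YK v κ y y' u) aV j) < 1 :=
    act_val (hB.YK_small hu hO hs) (aV_mem (S := O.toSubring))
  set m' := W *ᵥ (tauP (vK v κ y y' u) - Pi.single 0 (algebraMap ℂ K (y ⬝ᵥ tauP v) / y' 0))
    with hm'
  have hm0 : (wP (cst K v) + vecMulVec (cst K κ) (cst K y)) *ᵥ cst K m₀ =
      tauP (cst K v) - Pi.single 0 (algebraMap ℂ K (y ⬝ᵥ tauP v / y 0)) := by
    have : wP (cst K v) + vecMulVec (cst K κ) (cst K y) =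
        (wP v + vecMulVec κ y).map (algebraMap ℂ K) := by
      ext i j; simp [wP_comp, vecMulVec_apply]
    rw [this, cst_mulVec, hm₀, tauP_comp]
    funext i
    simp only [cst, Function.comp_apply, Pi.sub_apply, map_sub, Pi.single_apply]
    split_ifs <;> simp
  have hd : m' - cst K m₀ = W *ᵥ (tauP (act (YK v κ y y' u) aV) -
      (wP (act (YK v κ y y' u) aV) + vecMulVec (cst K κ) (y' - cst K y)) *ᵥ cst K m₀ -
      Pi.single 0 (algebraMap ℂ K (y ⬝ᵥ tauP v) / y' 0 - algebraMap ℂ K (y ⬝ᵥ tauP v / y 0))) := by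
    have e1 : cst K m₀ = W *ᵥ ((wP (vK v κ y y' u) + vecMulVec (cst K κ) y') *ᵥ cst K m₀) := by
      rw [mulVec_mulVec, hW, one_mulVec]
    have e2 : wP (vK v κ y y' u) + vecMulVec (cst K κ) y' =
        (wP (cst K v) + vecMulVec (cst K κ) (cst K y)) +
          (wP (act (YK v κ y y' u) aV) + vecMulVec (cst K κ) (y' - cst K y)) := by
      rw [wP_add, vecMulVec_sub]; abel
    conv_lhs => rw [e1, hm', ← mulVec_sub, e2, add_mulVec, hm0, tauP_add]
    congr 1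
    rw [Pi.single_sub]; abel
  have hsm : ∀ l, O.valuation ((m' - cst K m₀) l) < 1 := fun l => by
    rw [hd, mulVec, dotProduct_comm]
    refine dot_val (fun j => ?_) (mW l)
    refine O.valuation.map_sub_lt (O.valuation.map_sub_lt (hA _) ?_) ?_
    · refine dot_val (fun l => O.valuation.map_add_lt (hA (.inl (j, l))) ?_) fun l => hO.hC _
      rw [vecMulVec_apply, mul_comm]
      exact val_mul_lt (hs l) (hO.hC _)
    · rw [Pi.single_apply]
      split_ifs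
      · have : algebraMap ℂ K (y ⬝ᵥ tauP v) / y' 0 - algebraMap ℂ K (y ⬝ᵥ tauP v / y 0) =
            (y' 0 - cst K y 0) * (algebraMap ℂ K (-(y ⬝ᵥ tauP v / y 0)) * (y' 0)⁻¹) := by
          have : algebraMap ℂ K (y 0) ≠ 0 := (_root_.map_ne_zero _).2 hB.ok.y0
          simp only [cst, Function.comp_apply, map_div₀, map_neg]
          field_simp
          ring
        rw [this]
        exact val_mul_lt (hs 0) (mul_mem (hO.hC _) hy0)
      · simp
  have mm' : ∀ l, m' l ∈ O := fun l => by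
    have := add_mem ((O.valuation_le_one_iff _).1 (hsm l).le) (hO.hC (m₀ l))
    simpa using this
  have e : dl y' m' - cst K (dl y m₀) =
      mkK 0 0 0 0 (y' - cst K y) - coad (th y' m' - th (cst K y) (cst K m₀)) aV := by
    rw [show cst K (dl y m₀) = dl (cst K y) (cst K m₀) from comp_dl _ _ _, dl, dl, coad_sub_left]
    have : (mkK 0 0 0 0 (y' - cst K y) : IK → K) = mkK 0 0 0 0 y' - mkK 0 0 0 0 (cst K y) :=
      extK (by simp) (by simp) (by simp) (by simp) (by simp)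
    rw [this]; abel
  rw [e]
  refine O.valuation.map_sub_lt ?_ (coad_val (fun j => ?_) (aV_mem (S := O.toSubring)) i)
  · rcases i with i | i | i | i | i
    · simp [mkK]
    · simp [mkK]
    · simp [mkK]
    · simp [mkK]
    · exact hs i
  · rcases j with j | j | j
    · have : (th y' m' - th (cst K y) (cst K m₀)) (.inl j) =
          (y' j.1 - cst K y j.1) * m' j.2 + (m' - cst K m₀) j.2 * cst K y j.1 := by
        simp only [th, mkV, Pi.sub_apply, Sum.elim_inl, vecMulVec_apply]; ring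
      rw [this]
      exact O.valuation.map_add_lt (val_mul_lt (hs _) (mm' _)) (val_mul_lt (hsm _) (hO.hC _))
    · simp [th, mkV]
    · simp [th, mkV]

end Pool.Agent.MP_d920b6_mp.Cx
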