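import Pool.Agent.MP_d920b6_mp.Cx.Nat
import Pool.Agent.MP_d920b6_mp.Cx.Cork

/-! Chains produced by derivations and by differences of solutions; invariance of a family. -/

namespace Pool.Agent.MP_d920b6_mp.Cx

open Matrix Module

variable {K : Type} [Field K] [Algebra ℂ K] {ξ δ Y : IK → K} {v v' φ₁ φ₂ ψ₁ ψ₂ θ : IV → K}
  {κ y : Vec K}

theorem xstep_two (K : Type) [Field K] [Algebra ℂ K] : (2 : K) ≠ 0 :=
  have : CharZero K := Algebra.charZero_of_charZero ℂ K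
  two_ne_zero

omit [Algebra ℂ K] in
theorem xstep_PF_zero (x Z : II → K) (φ : IV → K) :
    PF x (Sum.elim 0 φ) Z = φ ⬝ᵥ act (kp Z) (vp x) := by
  simp [PF]

theorem xstep_add {ι : Type} (D : Derivation ℂ K K) (a b : ι → K) :
    D ∘ (a + b) = D ∘ a + D ∘ b := funext fun i => map_add D (a i) (b i)

theorem xstep_act (D : Derivation ℂ K K) (hv : D ∘ v = 0) (hκ : D ∘ κ = 0)
    (hY : InA κ Y) (hS : (2 : K) • act Y v + act Y (act Y aV) = 0) (hv' : v' = v + act Y aV) :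
    act (D ∘ Y) v' = 0 ∧ D ∘ v' = act (D ∘ Y) aV := by
  have e0 : D ∘ act Y aV = act (D ∘ Y) aV := by rw [der_act, der_aV, act_zero_right, add_zero]
  have e1 := congrArg (D ∘ ·) hS
  have e2 := act_kbr Y (D ∘ Y) aV
  rw [hY.kbr_eq_zero (hY.der D hκ), act_zero_left, eq_comm, sub_eq_zero] at e2
  have e3 : D ∘ (0 : IV → K) = 0 := funext fun _ => map_zero D
  simp only [two_smul, xstep_add, e3, hv, der_aV, der_act, act_zero_right,
    add_zero, e2] at e1
  refine ⟨smul_right_injective _ (xstep_two K) ?_, by rw [hv', xstep_add, hv, zero_add, e0]⟩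
  simp only [hv', act_add_right, two_smul, add_zero]
  rw [← e1]
  abel

omit [Algebra ℂ K] in
theorem xstep_orth {W ι : Type} [AddCommGroup W] [Module K W] {B : LinearMap.BilinForm K W}
    {g : ι → W} {ζ : W} (h : ∀ i, B ζ (g i) = 0) :
    ∀ z ∈ Submodule.span K (Set.range g), B ζ z = 0 :=
  fun _ hz => (Submodule.span_le.2 (Set.range_subset_iff.2 h) : _ ≤ LinearMap.ker (B ζ)) hz

omit [Algebra ℂ K] in
theorem xstep_iso {W ι : Type} [AddCommGroup W] [Module K W] {B : LinearMap.BilinForm K W}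
    {g : ι → W} (h : ∀ i j, B (g i) (g j) = 0) :
    ∀ x ∈ Submodule.span K (Set.range g), ∀ z ∈ Submodule.span K (Set.range g), B x z = 0 :=
  fun x hx => xstep_orth fun j => xstep_orth (B := B.flip) (fun i => h i j) x hx

theorem xstep_dim (F : Fam) (x : II → K) (hp : MvPolynomial.aeval x F.p ≠ 0) :
    finrank K (II → K) + finrank K (LinearMap.ker (PFL (aI : II → K))) ≤
      2 * finrank K (Submodule.span K (Set.range fun i => grad (F.f i) x)) := by
  have : CharZero K := Algebra.charZero_of_charZero ℂ K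
  rw [cork_aI, finrank_span_eq_card (F.li K x hp), Fintype.card_fin,
    finrank_fintype_fun_eq_card, card_II]
  exact F.hm

omit [Algebra ℂ K] in
theorem Sol.add_smul (h : Sol ξ Y v' φ₁ φ₂) (h' : Sol δ Y v' ψ₁ ψ₂) (r : K) :
    Sol (ξ + r • δ) Y v' (φ₁ + r • ψ₁) (φ₂ + r • ψ₂) := fun X => by
  have a := h X
  have b := h' X
  simp only [add_dotProduct, smul_dotProduct, smul_eq_mul]
  exact ⟨by linear_combination a.1 + r * b.1, by linear_combination a.2 + r * b.2⟩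

omit [Algebra ℂ K] in
theorem Sol.add_theta (h : Sol ξ Y v' φ₁ φ₂) (hθ : coad θ v' = 0) (r : K) :
    Sol ξ Y v' (φ₁ + r • θ) φ₂ := fun X => by
  have a := h X
  have b : θ ⬝ᵥ act X v' = 0 := by rw [← coad_dot, hθ, zero_dotProduct]
  simp only [add_dotProduct, smul_dotProduct, smul_eq_mul, b, mul_zero, add_zero]
  exact a

theorem Sol.chain_sub (h : Sol ξ Y v' φ₁ φ₂) (h' : Sol ξ Y v' ψ₁ ψ₂) (x : II → K)
    (hx : vp x = v') : Chain x (Sum.elim 0 (ψ₁ - φ₁)) := by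
  refine ⟨Sum.elim 0 (ψ₂ - φ₂), 0, fun Z => ?_⟩
  have a := h (kp Z)
  have b := h' (kp Z)
  simp only [xstep_PF_zero, hx, vp_aI, sub_dotProduct, PF_zero_left, add_zero, and_true]
  refine ⟨by linear_combination b.1 - a.1, mul_left_cancel₀ (xstep_two K) ?_⟩
  linear_combination b.2 - a.2

theorem step (D : Derivation ℂ K K) (hξ : D ∘ ξ = 0) (hv : D ∘ v = 0) (hκ : D ∘ κ = 0)
    (hY : InA κ Y) (hS : (2 : K) • act Y v + act Y (act Y aV) = 0) (hv' : v' = v + act Y aV)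
    (h : Sol ξ Y v' φ₁ φ₂) :
    Chain (pt ξ v' φ₁) (Sum.elim (-(D ∘ Y)) (D ∘ φ₁)) ∧
      ∀ Z, PF aI (Sum.elim (-(D ∘ Y)) (D ∘ φ₁)) Z = (D ∘ pt ξ v' φ₁) ⬝ᵥ Z := by
  obtain ⟨a1, a2⟩ := xstep_act D hv hκ hY hS hv'
  have hD := hY.der D hκ
  have c0 : kbr (D ∘ Y) Y = 0 := hD.kbr_eq_zero hY
  refine ⟨⟨Sum.elim 0 (D ∘ φ₂ + dact φ₁ (D ∘ Y)), Sum.elim 0 (dact φ₂ (D ∘ Y)), fun Z => ?_⟩,
    fun Z => ?_⟩
  · have s0 := h (D ∘ kp Z)
    have s1 := congrArg D (h (kp Z)).1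
    have s2 := congrArg D (h (kp Z)).2
    have s3 := h (kbr (D ∘ Y) (kp Z))
    rw [two_mul] at s2
    simp only [map_add, map_neg, der_dot, der_act, der_kbr, der_aV, hξ, a2, zero_dotProduct,
      act_zero_right, add_zero, zero_add, dotProduct_add, kbr_add_right] at s1 s2
    rw [kbr_leibniz (D ∘ Y) Y, c0, kbr_zero_left, zero_add] at s2
    rw [hY.kbr₃ hY hD, act_kbr, act_kbr, a1, act_zero_right, sub_zero, dotProduct_sub,
      dotProduct_zero, neg_zero] at s3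
    simp only [xstep_PF_zero, vp_aI, vp_pt, add_dotProduct, dact_dot]
    refine ⟨?_, mul_left_cancel₀ (xstep_two K) ?_, mul_left_cancel₀ (xstep_two K) ?_⟩
    · simp only [PF, kp_elim, vp_elim, kp_pt, vp_pt, kbr_neg_left, act_neg_left, a1, neg_zero,
        dotProduct_zero, dotProduct_neg, add_dotProduct, coad_dot, act_kbr, dotProduct_sub]
      linear_combination s1 - s0.1
    · linear_combination s2 - s0.2 + 2 * s3.1
    · linear_combination s3.2
  · have e : D ∘ (ξ + coad φ₁ aV) = coad (D ∘ φ₁) aV := by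
      rw [xstep_add, hξ, zero_add, der_coad, der_aV]
      exact eq_of_dotK fun X => by
        rw [add_dotProduct, coad_dot (φ := φ₁), act_zero_right, dotProduct_zero, add_zero]
    rw [PF_aI, dotI, kp_comp, vp_comp, kp_pt, vp_pt, e, a2, coad_dot, kp_elim, vp_elim,
      act_neg_left, dotProduct_neg, sub_neg_eq_add, dotProduct_comm (vp Z)]

theorem step_act (D : Derivation ℂ K K) (hv : D ∘ v = 0) (hκ : D ∘ κ = 0)
    (hY : InA κ Y) (hS : (2 : K) • act Y v + act Y (act Y aV) = 0) (hv' : v' = v + act Y aV) :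
    act (D ∘ Y) v' = 0 ∧ D ∘ v' = act (D ∘ Y) aV := xstep_act D hv hκ hY hS hv'

/-- the derivative of a member of the family along a chain velocity -/
theorem Fam.inv_chain (F : Fam) (x : II → K) (hG : Good ⊤ (vp x) κ y) {ν : IK → K}
    (hθ : coad θ (vp x) = 0) (hν : act ν (vp x) = 0) (hθν : θ ⬝ᵥ act ν aV = 1) (t : K)
    (hp : MvPolynomial.aeval (x + t • aI) F.p ≠ 0) {ζ d : II → K} (hc : Chain x ζ)
    (hd : ∀ Z, PF aI ζ Z = d ⬝ᵥ Z) (hdθ : θ ⬝ᵥ vp d = 0) {X : IK → K}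
    (hX : act X (vp x) = vp d) (i : Fin F.m) :
    d ⬝ᵥ grad (F.f i) (x + t • aI) = (kp d ⬝ᵥ ν + kp x ⬝ᵥ kbr X ν) *
      (Sum.elim (coad θ aV) 0 ⬝ᵥ grad (F.f i) (x + t • aI)) := by
  have : CharZero K := Algebra.charZero_of_charZero ℂ K
  have h2 := xstep_two K
  obtain ⟨φ, hn⟩ := exists_ker_lift x ν hν fun X hX =>
    (hG.inA h2 hν).kbr_eq_zero (hG.inA h2 hX)
  obtain ⟨ζ₂, ζ₃, hc⟩ := hc
  have hB : ∀ i j, PFL aI (grad (F.f i) (x + t • aI)) (grad (F.f j) (x + t • aI)) = 0 :=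
    fun i j => (F.inv K _ i j).2
  have hA : ∀ i j, PFL x (grad (F.f i) (x + t • aI)) (grad (F.f j) (x + t • aI)) = 0 :=
    fun i j => by
      have e := (F.inv K (x + t • aI) i j).1
      rwa [PF_add_pt, PF_smul_pt, (F.inv K _ i j).2, mul_zero, add_zero] at e
  have t0 : ∀ Z, PF x (Sum.elim 0 θ) Z = 0 := fun Z => by
    rw [xstep_PF_zero, ← coad_dot, hθ, zero_dotProduct]
  have t1 : PF aI (Sum.elim 0 θ) (Sum.elim ν φ) = 1 := by rw [xstep_PF_zero]; exact hθν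
  have t2 : vp d ⬝ᵥ φ = kp x ⬝ᵥ kbr X ν := by
    have e : PF x (Sum.elim ν φ) (Sum.elim X 0) = 0 := LinearMap.congr_fun hn _
    simp only [PF, kp_elim, vp_elim, zero_dotProduct, sub_zero, hX] at e
    rw [kbr_skew, dotProduct_neg, dotProduct_comm φ] at e
    linear_combination e
  have k1 := cork_le x
  have k2 := hG.finrank_kst h2
  have hm := chain_mem (PFL x) (PFL aI) (PF_self x) (PF_self aI) _ (xstep_iso hA) (xstep_iso hB)
    (xstep_dim F _ hp) (by rw [cork_aI]; omega) (θ := Sum.elim 0 θ) (LinearMap.ext t0) hn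
    (by rw [PFL_apply, t1]; exact one_ne_zero)
    (ζ₁ := ζ - (kp d ⬝ᵥ ν + kp x ⬝ᵥ kbr X ν) • (Sum.elim 0 θ : II → K)) (ζ₂ := ζ₂) (ζ₃ := ζ₃)
    (LinearMap.ext fun Z => by
      rw [LinearMap.add_apply, PFL_apply, PFL_apply, PF_sub_left, PF_smul_left, t0, mul_zero,
        sub_zero]
      exact (hc Z).1)
    (LinearMap.ext fun Z => (hc Z).2.1) (LinearMap.ext fun Z => (hc Z).2.2)
    (by rw [PFL_apply, PF_sub_left, PF_smul_left, PF_self, hd, dotI, kp_elim, vp_elim,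
      dotProduct_zero, dotProduct_comm, hdθ, mul_zero, add_zero, sub_zero])
    (by rw [PFL_apply, PF_sub_left, PF_smul_left, t1, hd, dotI, kp_elim, vp_elim, t2, mul_one,
      sub_self])
  have e := xstep_iso hB _ hm _ (Submodule.subset_span ⟨i, rfl⟩)
  rw [PFL_apply, PF_sub_left, PF_smul_left, hd, xstep_PF_zero, vp_aI, ← coad_dot,
    sub_eq_zero] at e
  rw [e, dotI, kp_elim, vp_elim, zero_dotProduct, add_zero]

theorem Fam.orth (F : Fam) (x : II → K) (hp : MvPolynomial.aeval x F.p ≠ 0) {ζ ζ' : II → K}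
    (h : ∀ i, PF aI ζ (grad (F.f i) x) = 0) (h' : ∀ i, PF aI ζ' (grad (F.f i) x) = 0) :
    PF aI ζ ζ' = 0 := by
  have hB : ∀ i j, PFL aI (grad (F.f i) x) (grad (F.f j) x) = 0 := fun i j => (F.inv K x i j).2
  have k : ∀ i, PFL aI ζ (grad (F.f i) x) = 0 := h
  have k' : ∀ i, PFL aI ζ' (grad (F.f i) x) = 0 := h'
  have hm := mem_of_orth (PFL (aI : II → K)) (PF_self aI) _ (xstep_iso hB) (xstep_dim F x hp)
    (xstep_orth k)
  rw [PF_skew, neg_eq_zero]
  exact xstep_orth k' _ hm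

end Pool.Agent.MP_d920b6_mp.Cx
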