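import Pool.Agent.MP_d920b6_mp.Cx.Delta
import Pool.Agent.MP_d920b6_mp.Cx.Exist
import Pool.Agent.MP_d920b6_mp.Cx.Step

/-! The moved point over the function field and its regularity in every chart. -/

namespace Pool.Agent.MP_d920b6_mp.Cx

open Matrix

section aux
variable {R : Type*} [CommRing R]

theorem xmove_inv {w W : Mat R} {κ y y' : Vec R} (hw : w *ᵥ κ = 0) (hy : y ⬝ᵥ κ = 1)
    (hy' : y' ⬝ᵥ κ = 1) (hW : W * (w + vecMulVec κ y) = 1) :
    (W * (1 + vecMulVec κ (y' - y' ᵥ* W))) *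
      (w - vecMulVec κ (y' ᵥ* w) + vecMulVec κ y') = 1 := by
  have hA : (w + vecMulVec κ y) *ᵥ κ = κ := by
    rw [add_mulVec, hw, vecMulVec_mulVec, hy]; simp
  have hWκ : W *ᵥ κ = κ := by
    conv_lhs => rw [← hA]
    rw [mulVec_mulVec, hW, one_mulVec]
  have hχ : (y' - y' ᵥ* W) ⬝ᵥ κ = 0 := by
    rw [sub_dotProduct, ← dotProduct_mulVec, hWκ, sub_self]
  have h1 : (y' - y' ᵥ* W) ᵥ* (w + vecMulVec κ y) = y' ᵥ* w + y - y' := by
    rw [sub_vecMul, vecMul_vecMul, hW, vecMul_one, vecMul_add, vecMul_vecMulVec, hy', one_smul]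
  have h2 : (y' - y' ᵥ* W) ᵥ* w = y' ᵥ* w + y - y' := by
    rw [← h1, vecMul_add, vecMul_vecMulVec, hχ, zero_smul, add_zero]
  have h3 : (y' - y' ᵥ* W) ᵥ* (w - vecMulVec κ (y' ᵥ* w) + vecMulVec κ y') =
      y' ᵥ* w + y - y' := by
    rw [vecMul_add, vecMul_sub, vecMul_vecMulVec, vecMul_vecMulVec, hχ, zero_smul, zero_smul,
      sub_zero, add_zero, h2]
  rw [Matrix.mul_assoc, Matrix.add_mul, Matrix.one_mul, vecMulVec_mul, h3, ← hW]
  congr 1
  ext i j
  simp only [Matrix.add_apply, Matrix.sub_apply, vecMulVec_apply, Pi.add_apply, Pi.sub_apply]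
  ring

theorem xmove_sk_dot (σ : Mat R) (κ : Vec R) : (κ ᵥ* sk σ) ⬝ᵥ κ = 0 := by
  simp [sk, vecMul, dotProduct, Fin.sum_univ_four]
  ring

theorem xmove_tri (w : Mat R) (κ y Ψ : Vec R) :
    tri (bar (y ᵥ* w)) (bar (rowP (vlo y) (w - vecMulVec κ (y ᵥ* w)))) (bar Ψ) =
      -tri (bar (rowP (vlo y) w)) (bar (rowM (vhi y) w)) (bar Ψ) := by
  simp [tri, bar, rowP, rowM, vlo, vhi, cross_apply, vecMul, dotProduct, Fin.sum_univ_four,
    Fin.sum_univ_three, vecMulVec_apply]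
  ring

variable {S : Subring R}

theorem xmove_sk_mem {σ : Mat R} (h : ∀ i j, σ i j ∈ S) (i j : Fin 4) : sk σ i j ∈ S := by
  simp only [sk, of_apply]
  split_ifs
  · exact h i j
  · exact S.neg_mem (h j i)
  · exact S.zero_mem

theorem xmove_vmv_mem {a b : Vec R} (ha : ∀ i, a i ∈ S) (hb : ∀ i, b i ∈ S) (i j : Fin 4) :
    vecMulVec a b i j ∈ S := S.mul_mem (ha i) (hb j)

theorem xmove_wedge_mem {a b : Vec R} (ha : ∀ i, a i ∈ S) (hb : ∀ i, b i ∈ S) (i j : Fin 4) :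
    wedge a b i j ∈ S := S.sub_mem (xmove_vmv_mem ha hb i j) (xmove_vmv_mem hb ha i j)

theorem xmove_mul_mem {A B : Mat R} (hA : ∀ i j, A i j ∈ S) (hB : ∀ i j, B i j ∈ S)
    (i j : Fin 4) : (A * B) i j ∈ S := by
  rw [Matrix.mul_apply]
  exact S.sum_mem fun k _ => S.mul_mem (hA i k) (hB k j)

end aux

section val
variable {K : Type*} [Field K] {O : ValuationSubring K}

theorem xmove_val_mul {a b : K} (ha : O.valuation a < 1) (hb : b ∈ O) :
    O.valuation (a * b) < 1 := by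
  rw [map_mul]
  exact mul_lt_one_of_lt_of_le ha ((O.valuation_le_one_iff b).2 hb)

theorem xmove_val_mul' {a b : K} (ha : a ∈ O) (hb : O.valuation b < 1) :
    O.valuation (a * b) < 1 := by
  rw [mul_comm]; exact xmove_val_mul hb ha

theorem xmove_val_sub {a b : K} (ha : O.valuation a < 1) (hb : O.valuation b < 1) :
    O.valuation (a - b) < 1 := O.valuation.map_sub_lt ha hb

theorem xmove_val_add {a b : K} (ha : O.valuation a < 1) (hb : O.valuation b < 1) :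
    O.valuation (a + b) < 1 := O.valuation.map_add_lt ha hb

theorem xmove_wedge_val {a b : Vec K} (ha : ∀ i, O.valuation (a i) < 1) (hb : ∀ i, b i ∈ O)
    (i j : Fin 4) : O.valuation (wedge a b i j) < 1 :=
  xmove_val_sub (xmove_val_mul (ha i) (hb j)) (xmove_val_mul' (hb i) (ha j))

end val

variable {K : Type} [Field K] [Algebra ℂ K] {v : IV → ℂ} {κ y : Vec ℂ} {y' : Vec K}
  {D E : Derivation ℂ K K}

/-- constants -/
abbrev cst (K : Type) [Field K] [Algebra ℂ K] {ι : Type} (a : ι → ℂ) : ι → K := algebraMap ℂ K ∘ a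

/-- the gauge element over `K` -/
abbrev YK (v : IV → ℂ) (κ y : Vec ℂ) (y' : Vec K) (u : Mat K) : IK → K :=
  YY (cst K v) (cst K κ) (cst K y) y' u

/-- the moved point of `V` -/
abbrev vK (v : IV → ℂ) (κ y : Vec ℂ) (y' : Vec K) (u : Mat K) : IV → K :=
  cst K v + act (YK v κ y y' u) aV

/-- the properties of the `u` part of the gauge element -/
structure UOK (v : IV → ℂ) (κ y : Vec ℂ) (y' z : Vec K) (u : Mat K) : Prop where
  uκ : u *ᵥ cst K κ = 0
  eq : ∀ a b, MM (wP (cst K v) - vecMulVec (cst K κ) (y' ᵥ* wP (cst K v))) u a b =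
    wedge (y' ᵥ* wP (cst K v)) (cst K κ ᵥ* sk (sgP (cst K v) a b))
  mem : ∀ O : ValuationSubring K, Chart O y' z → ∀ i j, u i j ∈ O
  small : ∀ O : ValuationSubring K, Chart O y' z →
    (∀ i, O.valuation (y' i - cst K y i) < 1) → ∀ i j, O.valuation (u i j) < 1

theorem xmove_wκ (hB : Base v κ y) : wP (cst K v) *ᵥ cst K κ = 0 := by
  ext i
  have := RingHom.map_mulVec (algebraMap ℂ K) (wP v) κ i
  rw [hB.wκ, Pi.zero_apply, map_zero] at this
  exact this.symm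

theorem xmove_yw (hB : Base v κ y) : cst K y ᵥ* wP (cst K v) = 0 := by
  ext i
  have := RingHom.map_vecMul (algebraMap ℂ K) (wP v) y i
  rw [hB.yw, Pi.zero_apply, map_zero] at this
  exact this.symm

theorem xmove_dot (a b : Vec ℂ) : cst K a ⬝ᵥ cst K b = algebraMap ℂ K (a ⬝ᵥ b) :=
  (RingHom.map_dotProduct (algebraMap ℂ K) a b).symm

theorem xmove_yκ (hB : Base v κ y) : cst K y ⬝ᵥ cst K κ = 1 := by
  rw [xmove_dot, hB.ok.yκ, map_one]

theorem xmove_κ0 (hB : Base v κ y) : cst K κ 0 = 1 := by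
  simp [cst, hB.ok.κ0]

theorem xmove_W (hB : Base v κ y) : ∃ W : Mat ℂ, W.map (algebraMap ℂ K) *
    (wP (cst K v) + vecMulVec (cst K κ) (cst K y)) = 1 := by
  obtain ⟨W, hW⟩ := hB.inv
  refine ⟨W, ?_⟩
  have h := congrArg (fun M : Mat ℂ => M.map (algebraMap ℂ K)) hW
  simp only [Matrix.map_mul] at h
  rw [Matrix.map_one _ (map_zero _) (map_one _)] at h
  rw [← h]
  congr 1
  ext i j
  simp [wP, vecMulVec_apply]

theorem xmove_φκ (hB : Base v κ y) (z : Vec K) : (z ᵥ* wP (cst K v)) ⬝ᵥ cst K κ = 0 := by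
  rw [← dotProduct_mulVec, xmove_wκ hB, dotProduct_zero]

theorem xmove_φ_val (hB : Base v κ y) {z : Vec K} {O : ValuationSubring K} (hO : Chart O y' z)
    (h : ∀ i, O.valuation (y' i - cst K y i) < 1) (j : Fin 4) :
    O.valuation ((y' ᵥ* wP (cst K v)) j) < 1 := by
  have e : y' ᵥ* wP (cst K v) = (y' - cst K y) ᵥ* wP (cst K v) := by
    rw [sub_vecMul, xmove_yw hB, sub_zero]
  rw [e]
  exact dot_val (a := y' - cst K y) h fun i => hO.hC _

theorem Base.goodW (hB : Base v κ y) (hy : y' ⬝ᵥ cst K κ = 1) {z : Vec K} {O : ValuationSubring K}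
    (hO : Chart O y' z) :
    GoodW O.toSubring (wP (cst K v) - vecMulVec (cst K κ) (y' ᵥ* wP (cst K v))) (cst K κ) y' := by
  have mκ : ∀ i, cst K κ i ∈ O.toSubring := fun i => hO.hC _
  have mw : ∀ i j, wP (cst K v) i j ∈ O.toSubring := fun i j => hO.hC _
  have my : ∀ i, y' i ∈ O.toSubring := hO.my
  obtain ⟨W, hW⟩ := xmove_W (K := K) hB
  have mW : ∀ i j, W.map (algebraMap ℂ K) i j ∈ O.toSubring := fun i j => hO.hC _
  refine ⟨fun i j => ?_, mκ, my, xmove_κ0 hB, ?_, ?_, hy, ⟨_, ?_, xmove_inv (xmove_wκ hB)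
    (xmove_yκ hB) hy hW⟩, hO.ylo, hO.yhi⟩
  · exact O.toSubring.sub_mem (mw i j) (xmove_vmv_mem mκ (vecMul_mem mw my) i j)
  · rw [sub_mulVec, xmove_wκ hB, vecMulVec_mulVec, xmove_φκ hB]; simp
  · rw [vecMul_sub, vecMul_vecMulVec, hy, one_smul, sub_self]
  · refine xmove_mul_mem mW fun i j => O.toSubring.add_mem ?_ (xmove_vmv_mem mκ
      (fun k => O.toSubring.sub_mem (my k) (vecMul_mem mW my k)) i j)
    rw [Matrix.one_apply]
    split_ifs
    · exact O.toSubring.one_mem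
    · exact O.toSubring.zero_mem

theorem xmove_cc (p q : Fin 2 → K) :
    cc (cst K v) (cst K κ) p q = bq (fun i j => algebraMap ℂ K (cf v κ i j)) p q := by
  rw [cc_eq_bq]
  congr 1
  funext i j
  exact (map_cf (algebraMap ℂ K) v κ i j).symm

theorem Base.exists_u (hB : Base v κ y) (hE : EC (cf v κ) κ y y' D E) :
    ∃ u, UOK v κ y y' (E ∘ y') u := by
  obtain ⟨O₀, hO₀, -⟩ := hE.base
  have hy : y' ⬝ᵥ cst K κ = 1 := hE.yκ
  obtain ⟨u₀, hu₀, he₀⟩ := (hB.goodW hy hO₀).top.exists_u (y' ᵥ* wP (cst K v)) (xmove_φκ hB y')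
    (fun a b => cst K κ ᵥ* sk (sgP (cst K v) a b)) (fun a b => xmove_sk_dot _ _) (by
      rw [xmove_tri, neg_eq_zero]
      have := xmove_cc (K := K) (v := v) (κ := κ) (vlo y') (vhi y')
      rw [hE.cy] at this
      exact this)
  obtain ⟨W, hW⟩ := xmove_W (K := K) hB
  set w' := wP (cst K v) - vecMulVec (cst K κ) (y' ᵥ* wP (cst K v)) with hw'
  have hW' := mul_eq_one_comm.1 hW
  let f : Vec K := fun j => algebraMap ℂ K (W j 1)
  let l : Mat K → K := fun u => u 1 ⬝ᵥ f - cst K κ 1 * (u 0 ⬝ᵥ f)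
  have hl : ∀ (u : Mat K) (c : K), l (u - c • w') = l u - c := by
    intro u c
    have h1 := congrFun (congrFun hW' 1) 1
    have h0 := congrFun (congrFun hW' 0) 1
    have hκ0 := xmove_κ0 (K := K) hB
    simp only [Matrix.mul_apply, Matrix.add_apply, vecMulVec_apply, Matrix.map_apply,
      Fin.sum_univ_four, hκ0, Matrix.one_apply] at h1 h0
    simp only [l, f, hw', dotProduct, Matrix.sub_apply, Matrix.smul_apply, vecMulVec_apply,
      Fin.sum_univ_four, hκ0, smul_eq_mul]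
    simp only [if_true, show ((0 : Fin 4) = 1) = False from by decide, if_false] at h1 h0
    linear_combination (-c) * h1 + c * cst K κ 1 * h0
  have hwκ := (hB.goodW hy hO₀).wκ
  have he : ∀ a b, MM w' (u₀ - l u₀ • w') a b =
      wedge (y' ᵥ* wP (cst K v)) (cst K κ ᵥ* sk (sgP (cst K v) a b)) := by
    intro a b
    rw [MM_sub_right, MM_smul_right, MM_self, smul_zero, sub_zero, he₀]
  have hl0 : l (u₀ - l u₀ • w') = 0 := by rw [hl, sub_self]
  have key : ∀ O : ValuationSubring K, Chart O y' (E ∘ y') →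
      (∀ i j, (u₀ - l u₀ • w') i j ∈ O) ∧ ((∀ i, O.valuation (y' i - cst K y i) < 1) →
        ∀ i j, O.valuation ((u₀ - l u₀ • w') i j) < 1) := by
    intro O hO
    have hG := hB.goodW hy hO
    have mψ : ∀ a b i, (cst K κ ᵥ* sk (sgP (cst K v) a b)) i ∈ O.toSubring := fun a b =>
      vecMul_mem (xmove_sk_mem fun i j => hO.hC _) hG.mκ
    have mφ : ∀ i, (y' ᵥ* wP (cst K v)) i ∈ O.toSubring :=
      vecMul_mem (fun i j => hO.hC _) hG.my
    have mf : ∀ i, f i ∈ O.toSubring := fun i => hO.hC _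
    obtain ⟨c, hc, hc'⟩ := hG.exists_int (u₀ - l u₀ • w') fun a b i j => by
      rw [he]; exact xmove_wedge_mem mφ (mψ a b) i j
    have hlc : l (u₀ - l u₀ • w' - c • w') = -c := by rw [hl, hl0, zero_sub]
    have e : ∀ i j, (u₀ - l u₀ • w') i j = (u₀ - l u₀ • w' - c • w') i j - (-c) * w' i j := by
      intro i j
      simp only [Matrix.sub_apply, Matrix.smul_apply, smul_eq_mul]; ring
    constructor
    · intro i j
      have : -c ∈ O.toSubring := by
        rw [← hlc]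
        exact O.toSubring.sub_mem (dot_mem (hc 1) mf)
          (O.toSubring.mul_mem (hG.mκ 1) (dot_mem (hc 0) mf))
      rw [e]
      exact O.toSubring.sub_mem (hc i j) (O.toSubring.mul_mem this (hG.mw i j))
    · intro h i j
      have hs := hc' fun a b i j => by
        rw [he]; exact xmove_wedge_val (xmove_φ_val hB hO h) (mψ a b) i j
      have : O.valuation (-c) < 1 := by
        rw [← hlc]
        exact xmove_val_sub (dot_val (hs 1) mf) (xmove_val_mul' (hG.mκ 1) (dot_val (hs 0) mf))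
      rw [e]
      exact xmove_val_sub (hs i j) (xmove_val_mul this (hG.mw i j))
  refine ⟨u₀ - l u₀ • w', ?_, he, fun O hO => (key O hO).1, fun O hO => (key O hO).2⟩
  rw [sub_mulVec, smul_mulVec, hu₀, hwκ, smul_zero, sub_zero]

variable {u : Mat K}

theorem xmove_YK_mem (hu : UOK v κ y y' (E ∘ y') u) {O : ValuationSubring K}
    (hO : Chart O y' (E ∘ y')) (i : IK) : YK v κ y y' u i ∈ O.toSubring := by
  have mκ : ∀ i, cst K κ i ∈ O.toSubring := fun i => hO.hC _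
  have mτ : ∀ i, tauP (cst K v) i ∈ O.toSubring := fun i => hO.hC _
  refine mkK_mem (xmove_vmv_mem mκ (vecMul_mem (fun i j => hO.hC _) hO.my)) O.toSubring.zero_mem
    O.toSubring.zero_mem (hu.mem O hO) (fun k => ?_) i
  exact O.toSubring.mul_mem (O.toSubring.sub_mem (dot_mem (fun i => hO.hC _) mτ)
    (dot_mem hO.my mτ)) (mκ k)

theorem Base.good (hB : Base v κ y) (hE : EC (cf v κ) κ y y' D E) (hu : UOK v κ y y' (E ∘ y') u)
    {O : ValuationSubring K} (hO : Chart O y' (E ∘ y')) :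
    Good O.toSubring (vK v κ y y' u) (cst K κ) y' := by
  have hy : y' ⬝ᵥ cst K κ = 1 := hE.yκ
  have hw : wP (vK v κ y y' u) = wP (cst K v) - vecMulVec (cst K κ) (y' ᵥ* wP (cst K v)) :=
    wP_move (xmove_wκ hB)
  have hG : GoodW O.toSubring (wP (vK v κ y y' u)) (cst K κ) y' := by
    rw [hw]; exact hB.goodW hy hO
  refine ⟨hG, fun i => O.toSubring.add_mem (hO.hC _) (act_mem (xmove_YK_mem hu hO) aV_mem i),
    ⟨algebraMap ℂ K (y ⬝ᵥ tauP v)⁻¹, hO.hC _, ?_⟩, ?_⟩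
  · have e : y' ⬝ᵥ tauP (vK v κ y y' u) = algebraMap ℂ K (y ⬝ᵥ tauP v) := by
      rw [tauP_move, dotProduct_add, dotProduct_smul, hy, ← xmove_dot, smul_eq_mul, mul_one,
        add_sub_cancel]
      rfl
    rw [e, ← map_mul, inv_mul_cancel₀ hB.x0, map_one]
  · obtain ⟨e₀, me₀, e₁, me₁, hlo⟩ := hO.ylo
    obtain ⟨e₂, me₂, e₃, me₃, hhi⟩ := hO.yhi
    obtain ⟨μ₁, m₁, μ₂, m₂, hμ⟩ := hO.smooth
    let z : Vec K := ![μ₂ * e₁, -(μ₂ * e₀), -(μ₁ * e₃), μ₁ * e₂]
    have mz : ∀ i, z i ∈ O.toSubring := by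
      intro i
      fin_cases i
      · exact O.mul_mem _ _ m₂ me₁
      · exact O.neg_mem _ (O.mul_mem _ _ m₂ me₀)
      · exact O.neg_mem _ (O.mul_mem _ _ m₁ me₃)
      · exact O.mul_mem _ _ m₁ me₂
    refine ⟨z ᵥ* wP (vK v κ y y' u), vecMul_mem hG.mw mz, ?_, ?_⟩
    · rw [← dotProduct_mulVec, hG.wκ, dotProduct_zero]
    · have hcc : ∀ p q, cc (vK v κ y y' u) (cst K κ) p q =
          bq (fun i j => algebraMap ℂ K (cf v κ i j)) p q := fun p q => by
        rw [← xmove_cc]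
        exact cc_move (cst K v) _ _ _ u hu.uκ hw sgP_move (by rw [hw]; exact hu.eq) p q
      have h2 := two_Lam (vK v κ y y' u) (cst K κ) y' z hG.yw
      simp only [hcc] at h2
      rw [hE.gradp, hE.gradq] at h2
      have : CharZero K := charZero_of_injective_algebraMap (algebraMap ℂ K).injective
      have : (2 : K) ≠ 0 := two_ne_zero
      apply mul_left_cancel₀ this
      rw [h2]
      simp only [z, vlo, vhi, Matrix.cons_val_zero, Matrix.cons_val_one, Matrix.cons_val]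
      linear_combination (2 * μ₂ * Sp y' (E ∘ y')) * hlo - (2 * μ₁ * Sm y' (E ∘ y')) * hhi -
        2 * hμ

theorem Base.YK_mem (hu : UOK v κ y y' (E ∘ y') u) {O : ValuationSubring K}
    (hO : Chart O y' (E ∘ y')) (i : IK) : YK v κ y y' u i ∈ O := xmove_YK_mem hu hO i

theorem Base.YK_small (hB : Base v κ y) (hu : UOK v κ y y' (E ∘ y') u) {O : ValuationSubring K}
    (hO : Chart O y' (E ∘ y')) (h : ∀ i, O.valuation (y' i - cst K y i) < 1) (i : IK) :
    O.valuation (YK v κ y y' u i) < 1 := by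
  rcases i with ⟨i, j⟩ | i | i | ⟨i, j⟩ | i
  · exact xmove_val_mul' (hO.hC _) (xmove_φ_val hB hO h j)
  · change O.valuation 0 < 1
    simp
  · change O.valuation 0 < 1
    simp
  · exact hu.small O hO h i j
  · change O.valuation ((cst K y ⬝ᵥ tauP (cst K v) - y' ⬝ᵥ tauP (cst K v)) * cst K κ i) < 1
    refine xmove_val_mul ?_ (hO.hC _)
    rw [← neg_sub, Valuation.map_neg, ← sub_dotProduct]
    exact dot_val (a := y' - cst K y) h fun i => hO.hC _

theorem xmove_der_cst (D : Derivation ℂ K K) {ι : Type} (a : ι → ℂ) : D ∘ cst K a = 0 := by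
  ext i
  exact D.map_algebraMap (a i)

/-- an integral element of the stabiliser in the direction of `E y'` -/
theorem xmove_nu (hB : Base v κ y) (hE : EC (cf v κ) κ y y' D E)
    (hu : UOK v κ y y' (E ∘ y') u) {O : ValuationSubring K} (hO : Chart O y' (E ∘ y')) :
    ∃ (ν : IK → K) (z : Vec K) (c₁ c₂ : K), (∀ i, ν i ∈ O) ∧ act ν (vK v κ y y' u) = 0 ∧
      sP ν = 0 ∧ hat (gP ν) = vecMulVec (cst K κ) (z ᵥ* wP (vK v κ y y' u)) ∧
      z = E ∘ y' - ![c₁ * y' 0, c₁ * y' 1, c₂ * y' 2, c₂ * y' 3] := by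
  have hy : y' ⬝ᵥ cst K κ = 1 := hE.yκ
  have hG := hB.good hE hu hO
  obtain ⟨e₀, me₀, e₁, me₁, hlo⟩ := hO.ylo
  obtain ⟨e₂, me₂, e₃, me₃, hhi⟩ := hO.yhi
  obtain ⟨d₁, d₂, hd, h₀, h₁, h₂, h₃⟩ := hE.Dy
  have hd' : d₁ - d₂ ≠ 0 := sub_ne_zero.2 hd
  obtain ⟨c₁, hc₁⟩ : ∃ c, c = E (y' 0) * e₀ + E (y' 1) * e₁ := ⟨_, rfl⟩
  obtain ⟨c₂, hc₂⟩ : ∃ c, c = E (y' 2) * e₂ + E (y' 3) * e₃ := ⟨_, rfl⟩
  obtain ⟨cD, hcD⟩ : ∃ c, c * (d₁ - d₂) = c₂ - c₁ := ⟨(c₂ - c₁) / (d₁ - d₂), by field_simp⟩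
  obtain ⟨z, hz⟩ : ∃ z : Vec K, z = E ∘ y' - ![c₁ * y' 0, c₁ * y' 1, c₂ * y' 2, c₂ * y' 3] :=
    ⟨_, rfl⟩
  have mz : ∀ i, z i ∈ O.toSubring := by
    intro i
    have mS := hO.mSm
    have mS' := hO.mSp
    fin_cases i
    · have : z 0 = -(Sm y' (E ∘ y') * e₁) := by
        simp only [hz, Sm, hc₁, Pi.sub_apply, Function.comp_apply, Matrix.cons_val_zero]
        linear_combination (-E (y' 0)) * hlo
      change z 0 ∈ O
      rw [this]; exact O.neg_mem _ (O.mul_mem _ _ mS me₁)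
    · have : z 1 = Sm y' (E ∘ y') * e₀ := by
        simp only [hz, Sm, hc₁, Pi.sub_apply, Function.comp_apply, Matrix.cons_val_one,
          Matrix.cons_val_zero]
        linear_combination (-E (y' 1)) * hlo
      change z 1 ∈ O
      rw [this]; exact O.mul_mem _ _ mS me₀
    · have : z 2 = Sp y' (E ∘ y') * e₃ := by
        simp only [hz, Sp, hc₂, Pi.sub_apply, Function.comp_apply, Matrix.cons_val]
        linear_combination (-E (y' 2)) * hhi
      change z 2 ∈ O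
      rw [this]; exact O.mul_mem _ _ mS' me₃
    · have : z 3 = -(Sp y' (E ∘ y') * e₂) := by
        simp only [hz, Sp, hc₂, Pi.sub_apply, Function.comp_apply, Matrix.cons_val]
        linear_combination (-E (y' 3)) * hhi
      change z 3 ∈ O
      rw [this]; exact O.neg_mem _ (O.mul_mem _ _ mS' me₂)
  have hzc : E ∘ y' + cD • (D ∘ y') = z + (c₁ + cD * d₁) • y' := by
    ext i
    fin_cases i
    · simp [hz, h₀, vecHead]; ring
    · simp [hz, h₁, vecHead, vecTail]; ring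
    · simp [hz, h₂, vecHead, vecTail]; linear_combination (-y' 2) * hcD
    · simp [hz, h₃, vecHead, vecTail]; linear_combination (-y' 3) * hcD
  have hA := inA_YY (y := cst K y) (y' := y') (xmove_wκ hB) hu.uκ
  have hS := step_eq (y := cst K y) (xmove_wκ hB) hu.uκ hu.eq
  have aE := (step_act E (xmove_der_cst E v) (xmove_der_cst E κ) hA hS rfl).1
  have aD := (step_act D (xmove_der_cst D v) (xmove_der_cst D κ) hA hS rfl).1
  obtain ⟨gE, -⟩ := der_YY E (u := u) (xmove_der_cst E v) (xmove_der_cst E κ)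
    (xmove_der_cst E y) (xmove_wκ hB) hy rfl
  obtain ⟨gD, -⟩ := der_YY D (u := u) (xmove_der_cst D v) (xmove_der_cst D κ)
    (xmove_der_cst D y) (xmove_wκ hB) hy rfl
  obtain ⟨Z, hZ⟩ : ∃ Z, Z = E ∘ YK v κ y y' u + cD • (D ∘ YK v κ y y' u) := ⟨_, rfl⟩
  have aZ : act Z (vK v κ y y' u) = 0 := by
    rw [hZ, act_add_left, act_smul_left, aE, aD, smul_zero, add_zero]
  have gZ : hat (gP Z) = vecMulVec (cst K κ) (z ᵥ* wP (vK v κ y y' u)) := by
    have e : z ᵥ* wP (vK v κ y y' u) = (E ∘ y') ᵥ* wP (vK v κ y y' u) +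
        cD • ((D ∘ y') ᵥ* wP (vK v κ y y' u)) := by
      rw [← smul_vecMul, ← add_vecMul, hzc, add_vecMul, smul_vecMul, hG.gw.yw, smul_zero, add_zero]
    rw [hZ, gP_add, gP_smul, hat_add, hat_smul, gE, gD, e, vecMulVec_add, vecMulVec_smul]
  have hσ : ∀ a b, MM (wP (vK v κ y y' u)) (uP Z) a b =
      wedge (z ᵥ* wP (vK v κ y y' u)) (cst K κ ᵥ* sk (sgP (vK v κ y y' u) a b)) := by
    intro a b
    have := sgP_act Z (vK v κ y y' u) a b
    rw [aZ, gZ, sk_vecMulVec] at this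
    exact sub_eq_zero.1 this.symm
  have mzw : ∀ i, (z ᵥ* wP (vK v κ y y' u)) i ∈ O.toSubring := vecMul_mem hG.gw.mw mz
  obtain ⟨c, hc, -⟩ := hG.gw.exists_int (uP Z) fun a b i j => by
    rw [hσ]
    exact xmove_wedge_mem mzw (vecMul_mem (xmove_sk_mem fun i j => hG.mv _) hG.gw.mκ) i j
  have hh : hat (vecMulVec (cst K κ) (z ᵥ* wP (vK v κ y y' u))) =
      vecMulVec (cst K κ) (z ᵥ* wP (vK v κ y y' u)) :=
    hat_vecMulVec _ _ (by rw [← dotProduct_mulVec, hG.gw.wκ, dotProduct_zero])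
  refine ⟨mkK (vecMulVec (cst K κ) (z ᵥ* wP (vK v κ y y' u))) 0 0
    (uP Z - c • wP (vK v κ y y' u)) 0, z, c₁, c₂,
    mkK_mem (S := O.toSubring) (xmove_vmv_mem hG.gw.mκ mzw) O.zero_mem O.zero_mem hc
      (fun _ => O.zero_mem), ?_, rfl, hh, hz⟩
  refine extV ?_ (fun a b => ?_) ?_
  · rw [wP_act, gP_mkK, sP_mkK, hh, mul_vecMulVec, hG.gw.wκ]; simp
  · rw [sgP_act, gP_mkK, uP_mkK, hh, sk_vecMulVec, MM_sub_right, MM_smul_right, MM_self, hσ]
    simp
  · rw [tauP_act]; simp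

/-- an integral fibre direction and an integral solution in every chart -/
theorem Base.chart_sol (hB : Base v κ y) (hE : EC (cf v κ) κ y y' D E)
    (hu : UOK v κ y y' (E ∘ y') u) (ξ : IK → ℂ) {O : ValuationSubring K}
    (hO : Chart O y' (E ∘ y')) :
    ∃ (m : Vec K) (φ₁ φ₂ : IV → K), (∀ i, m i ∈ O) ∧
      y' 0 * (wP (vK v κ y y' u) *ᵥ m) 0 + y' 1 * (wP (vK v κ y y' u) *ᵥ m) 1 = 0 ∧
      (E ∘ y') ⬝ᵥ (wP (vK v κ y y' u) *ᵥ m) = -1 ∧
      Sol (cst K ξ) (YK v κ y y' u) (vK v κ y y' u) φ₁ φ₂ ∧ (∀ i, φ₁ i ∈ O) ∧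
      ((∀ i, O.valuation (y' i - cst K y i) < 1) → ∀ i, O.valuation (φ₁ i) < 1) := by
  have hy : y' ⬝ᵥ cst K κ = 1 := hE.yκ
  have hG := hB.good hE hu hO
  obtain ⟨ν, z, c₁, c₂, mν, aν, sν, gν, hz⟩ := xmove_nu hB hE hu hO
  obtain ⟨μ₁, m₁, μ₂, m₂, hμ⟩ := hO.smooth
  obtain ⟨W, mW, hW⟩ := hG.gw.inv
  obtain ⟨ω, hω⟩ : ∃ ω : Vec K,
      ω = ![-(μ₁ * y' 1), μ₁ * y' 0, -(μ₂ * y' 3), μ₂ * y' 2] := ⟨_, rfl⟩
  have mω : ∀ i, ω i ∈ O.toSubring := by
    intro i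
    rw [hω]
    fin_cases i
    · exact O.neg_mem _ (O.mul_mem _ _ m₁ (hO.my 1))
    · exact O.mul_mem _ _ m₁ (hO.my 0)
    · exact O.neg_mem _ (O.mul_mem _ _ m₂ (hO.my 3))
    · exact O.mul_mem _ _ m₂ (hO.my 2)
  have yω : y' ⬝ᵥ ω = 0 := by
    simp [hω, dotProduct, Fin.sum_univ_four]; ring
  have hm : wP (vK v κ y y' u) *ᵥ (W *ᵥ ω) = ω := by
    have h1 : (wP (vK v κ y y' u) + vecMulVec (cst K κ) y') *ᵥ (W *ᵥ ω) = ω := by
      rw [mulVec_mulVec, mul_eq_one_comm.1 hW, one_mulVec]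
    have h2 : y' ⬝ᵥ (W *ᵥ ω) = 0 := by
      have := congrArg (y' ⬝ᵥ ·) h1
      simp only [dotProduct_mulVec y' (wP (vK v κ y y' u) + _)] at this
      rwa [vecMul_add, hG.gw.yw, vecMul_vecMulVec, hy, one_smul, zero_add, yω] at this
    rw [add_mulVec, vecMulVec_mulVec, h2] at h1
    simpa using h1
  have hlo : y' 0 * (wP (vK v κ y y' u) *ᵥ (W *ᵥ ω)) 0 +
      y' 1 * (wP (vK v κ y y' u) *ᵥ (W *ᵥ ω)) 1 = 0 := by
    rw [hm]; simp [hω]; ring
  have hE1 : (E ∘ y') ⬝ᵥ ω = -1 := by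
    simp only [Sm, Sp] at hμ
    simp only [hω, dotProduct, Fin.sum_univ_four, Matrix.cons_val_zero, Matrix.cons_val_one,
      Matrix.cons_val]
    linear_combination hμ
  have hθν : th y' (W *ᵥ ω) ⬝ᵥ act ν aV = 1 := by
    rw [th_act hy sν gν, ← dotProduct_mulVec, hm, hz, sub_dotProduct, hE1]
    simp [hω, dotProduct, Fin.sum_univ_four]; ring
  have : CharZero K := charZero_of_injective_algebraMap (algebraMap ℂ K).injective
  have h2 : (2 : K)⁻¹ ∈ O := by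
    have := hO.hC 2⁻¹
    rwa [map_inv₀, map_ofNat] at this
  obtain ⟨φ₁, φ₂, hs, mφ, hφ⟩ := hG.exists_sol h2 (ξ := cst K ξ) (fun i => hO.hC _)
    (Base.YK_mem hu hO) (th_mem (S := O.toSubring) hO.my (mulVec_mem mW mω)) mν
    (inA_YY (xmove_wκ hB) hu.uκ) (coad_th hG.gw.yw hlo) aν hθν
  exact ⟨W *ᵥ ω, φ₁, φ₂, mulVec_mem (S := O.toSubring) mW mω, hlo, by rw [hm, hE1], hs, mφ,
    fun h => hφ (hB.YK_small hu hO h)⟩

end Pool.Agent.MP_d920b6_mp.Cx
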