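import Pool.Agent.MP_d920b6_mp.Cx.Basic

/-! Naturality: ring homomorphisms, derivations, subrings, valuation rings. -/

namespace Pool.Agent.MP_d920b6_mp.Cx

open Matrix

section add
variable {R R' F : Type*} [CommRing R] [CommRing R'] [FunLike F R R'] [AddMonoidHomClass F R R']
  (f : F)

theorem xNat_hat (g : Mat R) : (hat g).map f = hat (g.map f) := by
  ext i j
  simp only [hat, map_apply, Matrix.sub_apply, map_sub, single_apply, trace, diag_apply]
  split_ifs <;> simp [map_sum]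
theorem xNat_sk (g : Mat R) : (sk g).map f = sk (g.map f) := by
  ext i j
  simp only [sk, map_apply, of_apply]
  split_ifs <;> simp
theorem xNat_add (g g' : Mat R) : (g + g').map f = g.map f + g'.map f := by
  ext i j; simp
theorem xNat_sub (g g' : Mat R) : (g - g').map f = g.map f - g'.map f := by
  ext i j; simp
theorem xNat_zero : (0 : Mat R).map f = 0 := by
  ext i j; simp
theorem xNat_cadd {ι : Type*} (a b : ι → R) : f ∘ (a + b) = f ∘ a + f ∘ b := by
  ext i; simp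
theorem xNat_csub {ι : Type*} (a b : ι → R) : f ∘ (a - b) = f ∘ a - f ∘ b := by
  ext i; simp
theorem xNat_czero {ι : Type*} : f ∘ (0 : ι → R) = 0 := by
  ext i; simp
end add

section hom
variable {R R' : Type*} [CommRing R] [CommRing R'] (f : R →+* R')

theorem xNat_smul (c : R) (g : Mat R) : (c • g).map f = f c • g.map f := by
  ext i j; simp
theorem xNat_csmul {ι : Type*} (c : R) (a : ι → R) : f ∘ (c • a) = f c • (f ∘ a) := by
  ext i; simp
theorem xNat_mulVec (M : Mat R) (m : Vec R) : f ∘ (M *ᵥ m) = M.map f *ᵥ (f ∘ m) := by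
  ext i; exact RingHom.map_mulVec f M m i
theorem xNat_vecMul {ι κ : Type*} [Fintype ι] (M : Matrix ι κ R) (m : ι → R) :
    f ∘ (m ᵥ* M) = (f ∘ m) ᵥ* M.map f := by
  ext i; exact RingHom.map_vecMul f M m i
theorem xNat_vmv (a b : Vec R) : (vecMulVec a b).map f = vecMulVec (f ∘ a) (f ∘ b) := by
  ext i j; simp [vecMulVec_apply]
theorem xNat_single {ι : Type*} [DecidableEq ι] (i : ι) :
    f ∘ (Pi.single i 1 : ι → R) = Pi.single i 1 := by
  ext j; simp [Pi.single_apply, apply_ite f]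

theorem hat_map (g : Mat R) : (hat g).map f = hat (g.map f) := xNat_hat f g
theorem sk_map (g : Mat R) : (sk g).map f = sk (g.map f) := xNat_sk f g
theorem JJ_map : (JJ : Mat R).map f = JJ := by
  ext i j; fin_cases i <;> fin_cases j <;> simp [JJ]
theorem MM_map (w u : Mat R) (a b : Fin 2) :
    (MM w u a b).map f = MM (w.map f) (u.map f) a b := by
  ext i j; simp [MM, wedge, vecMulVec_apply]
theorem comp_act (X : IK → R) (v : IV → R) : f ∘ act X v = act (f ∘ X) (f ∘ v) := by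
  refine extV ?_ (fun a b => ?_) ?_
  · simp only [wP_comp, wP_act, sP_comp, gP_comp, xNat_sub, xNat_smul, Matrix.map_mul, JJ_map,
      hat_map]
  · simp only [sgP_comp, sgP_act, wP_comp, uP_comp, gP_comp, xNat_sub, xNat_add, Matrix.map_mul,
      MM_map, sk_map, transpose_map, hat_map]
  · simp only [tauP_comp, tauP_act, wP_comp, sP_comp, tP_comp, nP_comp, xNat_cadd, xNat_csmul,
      xNat_mulVec, JJ_map]
theorem comp_kbr (X Y : IK → R) : f ∘ kbr X Y = kbr (f ∘ X) (f ∘ Y) := by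
  refine extK ?_ (by simp [sP_comp]) (by simp [tP_comp]) ?_ ?_
  · simp only [gP_comp, gP_kbr, xNat_sub, Matrix.map_mul, hat_map]
  · simp only [uP_comp, uP_kbr, gP_comp, sP_comp, xNat_sub, xNat_add, xNat_smul, Matrix.map_mul,
      hat_map, JJ_map]
  · simp only [nP_comp, nP_kbr, gP_comp, tP_comp, xNat_csub, xNat_cadd, xNat_csmul, xNat_mulVec,
      hat_map]
theorem comp_aV : f ∘ (aV : IV → R) = aV := by
  refine extV ?_ (fun a b => ?_) ?_
  · rw [wP_comp, wP_aV, wP_aV, Matrix.map_one _ f.map_zero f.map_one]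
  · rw [sgP_comp, sgP_aV, sgP_aV, xNat_zero]
  · rw [tauP_comp, tauP_aV, tauP_aV, xNat_czero]
theorem comp_aI : f ∘ (aI : II → R) = aI := by
  rw [aI, comp_elim, comp_aV, xNat_czero, aI]
theorem actMat_map (v : IV → R) : (actMat v).map f = actMat (f ∘ v) := by
  ext j i
  have := congrFun (comp_act f (Pi.single i 1) v) j
  rw [xNat_single] at this
  exact this
theorem MMat_map (w : Mat R) : (MMat w).map f = MMat (w.map f) := by
  ext j i
  have := congrFun (congrFun (MM_map f w (single i.1 i.2 1) j.1 j.2.1) j.2.2.1) j.2.2.2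
  rw [Matrix.map_single, f.map_one] at this
  exact this
theorem comp_coad (φ v : IV → R) : f ∘ coad φ v = coad (f ∘ φ) (f ∘ v) := by
  rw [coad, xNat_vecMul, actMat_map, coad]
theorem map_PF (x Z Z' : II → R) : f (PF x Z Z') = PF (f ∘ x) (f ∘ Z) (f ∘ Z') := by
  simp only [PF, map_sub, map_add, RingHom.map_dotProduct, comp_act, comp_kbr, kp_comp, vp_comp]
theorem xNat_tri (a b c : Vec R) :
    f (tri (bar a) (bar b) (bar c)) = tri (bar (f ∘ a)) (bar (f ∘ b)) (bar (f ∘ c)) := by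
  simp [tri, bar, dotProduct, Fin.sum_univ_three, cross_apply]
theorem xNat_rowP (p : Fin 2 → R) (w : Mat R) : f ∘ rowP p w = rowP (f ∘ p) (w.map f) := by
  ext i; simp [rowP]
theorem xNat_rowM (p : Fin 2 → R) (w : Mat R) : f ∘ rowM p w = rowM (f ∘ p) (w.map f) := by
  ext i; simp [rowM]
theorem xNat_psi (v : IV → R) (κ : Vec R) (p q : Fin 2 → R) :
    f ∘ psi v κ p q = psi (f ∘ v) (f ∘ κ) (f ∘ p) (f ∘ q) := by
  simp only [psi, Fin.sum_univ_two, xNat_cadd, xNat_csmul, xNat_vecMul, sk_map, sgP_comp, map_mul,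
    Function.comp_apply]
theorem xNat_vec2 (a b : R) : f ∘ ![a, b] = ![f a, f b] := by
  ext i; fin_cases i <;> rfl
theorem map_cc (v : IV → R) (κ : Vec R) (p q : Fin 2 → R) :
    f (cc v κ p q) = cc (f ∘ v) (f ∘ κ) (f ∘ p) (f ∘ q) := by
  rw [cc, xNat_tri, xNat_rowP, xNat_rowM, xNat_psi, cc, wP_comp]
theorem map_Lam (v : IV → R) (κ y φ : Vec R) :
    f (Lam v κ y φ) = Lam (f ∘ v) (f ∘ κ) (f ∘ y) (f ∘ φ) := by
  rw [Lam, xNat_tri, xNat_rowP, xNat_psi, vlo, vhi, xNat_vec2, xNat_vec2]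
  rfl
theorem map_cf (v : IV → R) (κ : Vec R) (i j : Fin 3) :
    f (cf v κ i j) = cf (f ∘ v) (f ∘ κ) i j := by
  fin_cases i <;> fin_cases j <;> simp [cf, pol, map_cc, xNat_vec2]
theorem map_bq (c : Fin 3 → Fin 3 → R) (p q : Fin 2 → R) :
    f (bq c p q) = bq (fun i j => f (c i j)) (f ∘ p) (f ∘ q) := by
  simp [bq, mon, Fin.sum_univ_three]
theorem map_Dsc (c : Fin 3 → Fin 3 → R) :
    (Dsc c).map f = Dsc fun i j => f (c i j) := by
  simp [Dsc, PP]
theorem comp_th (y m : Vec R) : f ∘ th y m = th (f ∘ y) (f ∘ m) := by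
  refine extV ?_ (fun a b => ?_) ?_
  · exact xNat_vmv f y m
  · exact xNat_zero f
  · exact xNat_czero f
theorem comp_dl (y m : Vec R) : f ∘ dl y m = dl (f ∘ y) (f ∘ m) := by
  rw [dl, xNat_csub, comp_coad, comp_th, comp_aV, comp_mkK, xNat_zero, f.map_zero, dl]

theorem xNat_goodW {S : Subring R} {w : Mat R} {κ y : Vec R} (h : GoodW S w κ y) :
    GoodW ⊤ (w.map f) (f ∘ κ) (f ∘ y) := by
  obtain ⟨W, -, hW⟩ := h.inv
  obtain ⟨e₀, -, e₁, -, h1⟩ := h.ylo
  obtain ⟨e₂, -, e₃, -, h2⟩ := h.yhi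
  refine ⟨fun _ _ => trivial, fun _ => trivial, fun _ => trivial, ?_, ?_, ?_, ?_,
    ⟨W.map f, fun _ _ => trivial, ?_⟩, ⟨f e₀, trivial, f e₁, trivial, ?_⟩,
    ⟨f e₂, trivial, f e₃, trivial, ?_⟩⟩
  · simp [h.κ0]
  · rw [← xNat_mulVec, h.wκ, xNat_czero]
  · rw [← xNat_vecMul, h.yw, xNat_czero]
  · rw [← RingHom.map_dotProduct, h.yκ, f.map_one]
  · rw [← xNat_vmv, ← xNat_add, ← Matrix.map_mul, hW, Matrix.map_one _ f.map_zero f.map_one]
  · simpa using congrArg f h1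
  · simpa using congrArg f h2

theorem xNat_good {S : Subring R} {v : IV → R} {κ y : Vec R} (h : Good S v κ y) :
    Good ⊤ (f ∘ v) (f ∘ κ) (f ∘ y) := by
  obtain ⟨x, -, hx⟩ := h.xinv
  obtain ⟨φ, -, h1, h2⟩ := h.lam
  refine ⟨xNat_goodW f h.gw, fun _ => trivial, ⟨f x, trivial, ?_⟩,
    ⟨f ∘ φ, fun _ => trivial, ?_, ?_⟩⟩
  · rw [tauP_comp, ← RingHom.map_dotProduct, ← map_mul, hx, f.map_one]
  · rw [← RingHom.map_dotProduct, h1, f.map_zero]
  · rw [← map_Lam, h2, f.map_one]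

theorem xNat_liftW {S : Subring R} {w : Mat R} {κ y : Vec R} (h : GoodW S w κ y) :
    GoodW (R := S) ⊤ (of fun i j => ⟨w i j, h.mw i j⟩) (fun i => ⟨κ i, h.mκ i⟩)
      fun i => ⟨y i, h.my i⟩ := by
  obtain ⟨W, mW, hW⟩ := h.inv
  obtain ⟨e₀, m₀, e₁, m₁, h1⟩ := h.ylo
  obtain ⟨e₂, m₂, e₃, m₃, h2⟩ := h.yhi
  refine ⟨fun _ _ => trivial, fun _ => trivial, fun _ => trivial, Subtype.ext h.κ0, ?_, ?_, ?_,
    ⟨of fun i j => ⟨W i j, mW i j⟩, fun _ _ => trivial, ?_⟩,
    ⟨⟨e₀, m₀⟩, trivial, ⟨e₁, m₁⟩, trivial, Subtype.ext h1⟩,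
    ⟨⟨e₂, m₂⟩, trivial, ⟨e₃, m₃⟩, trivial, Subtype.ext h2⟩⟩
  · funext i
    apply S.subtype_injective
    rw [RingHom.map_mulVec]
    exact congrFun h.wκ i
  · funext i
    apply S.subtype_injective
    rw [RingHom.map_vecMul]
    exact congrFun h.yw i
  · apply S.subtype_injective
    rw [RingHom.map_dotProduct]
    exact h.yκ
  · apply Matrix.map_injective S.subtype_injective
    simp only
    rw [Matrix.map_mul, xNat_add, xNat_vmv,
      Matrix.map_one _ S.subtype.map_zero S.subtype.map_one]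
    exact hW

theorem xNat_lift {S : Subring R} {v : IV → R} {κ y : Vec R} (h : Good S v κ y) :
    Good (R := S) ⊤ (fun i => ⟨v i, h.mv i⟩) (fun i => ⟨κ i, h.gw.mκ i⟩)
      fun i => ⟨y i, h.gw.my i⟩ := by
  obtain ⟨x, mx, hx⟩ := h.xinv
  obtain ⟨φ, mφ, h1, h2⟩ := h.lam
  refine ⟨xNat_liftW h.gw, fun _ => trivial, ⟨⟨x, mx⟩, trivial, ?_⟩,
    ⟨fun i => ⟨φ i, mφ i⟩, fun _ => trivial, ?_, ?_⟩⟩
  · apply S.subtype_injective
    rw [map_mul, RingHom.map_dotProduct]
    exact hx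
  · apply S.subtype_injective
    rw [RingHom.map_dotProduct]
    exact h1
  · apply S.subtype_injective
    rw [map_Lam]
    exact h2

/-- reduce `GoodW` data along a homomorphism defined on the subring -/
theorem GoodW.res {S : Subring R} {w : Mat R} {κ y : Vec R} (h : GoodW S w κ y) (ρ : S →+* R') :
    GoodW ⊤ (of fun i j => ρ ⟨w i j, h.mw i j⟩) (fun i => ρ ⟨κ i, h.mκ i⟩)
      fun i => ρ ⟨y i, h.my i⟩ := xNat_goodW ρ (xNat_liftW h)
theorem Good.res {S : Subring R} {v : IV → R} {κ y : Vec R} (h : Good S v κ y) (ρ : S →+* R') :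
    Good ⊤ (fun i => ρ ⟨v i, h.mv i⟩) (fun i => ρ ⟨κ i, h.gw.mκ i⟩)
      fun i => ρ ⟨y i, h.gw.my i⟩ := xNat_good ρ (xNat_lift h)
theorem GoodW.top {S : Subring R} {w : Mat R} {κ y : Vec R} (h : GoodW S w κ y) :
    GoodW ⊤ w κ y := xNat_goodW (RingHom.id R) h
theorem Good.top {S : Subring R} {v : IV → R} {κ y : Vec R} (h : Good S v κ y) :
    Good ⊤ v κ y := xNat_good (RingHom.id R) h
end hom

section der
variable {A R : Type*} [CommRing A] [CommRing R] [Algebra A R] (D : Derivation A R R)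

theorem xNat_dmul1 (a b : R) : D (a * b) = D a * b + a * D b := by
  rw [D.leibniz, smul_eq_mul, smul_eq_mul]; ring

theorem der_dot {ι : Type*} [Fintype ι] (a b : ι → R) :
    D (a ⬝ᵥ b) = (D ∘ a) ⬝ᵥ b + a ⬝ᵥ (D ∘ b) := by
  simp only [dotProduct, map_sum, xNat_dmul1, Finset.sum_add_distrib, Function.comp_apply]
theorem xNat_dmul (M N : Mat R) : (M * N).map D = M.map D * N + M * N.map D := by
  ext i j
  simp only [map_apply, mul_apply, Matrix.add_apply, map_sum, xNat_dmul1, Finset.sum_add_distrib]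
theorem xNat_dsmul (c : R) (M : Mat R) : (c • M).map D = D c • M + c • M.map D := by
  ext i j
  simp only [map_apply, Matrix.smul_apply, Matrix.add_apply, smul_eq_mul, xNat_dmul1]
theorem xNat_dcsmul {ι : Type*} (c : R) (a : ι → R) : D ∘ (c • a) = D c • a + c • (D ∘ a) := by
  ext i
  simp only [Function.comp_apply, Pi.smul_apply, Pi.add_apply, smul_eq_mul, xNat_dmul1]
theorem xNat_dJJ : (JJ : Mat R).map D = 0 := by
  ext i j; fin_cases i <;> fin_cases j <;> simp [JJ]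
theorem xNat_dMM (w u : Mat R) (a b : Fin 2) :
    (MM w u a b).map D = MM w (u.map D) a b + MM (w.map D) u a b := by
  ext i j
  simp only [MM, wedge, map_apply, Matrix.add_apply, Matrix.sub_apply, vecMulVec_apply, map_add,
    map_sub, xNat_dmul1]
  ring
theorem xNat_dmulVec (M : Mat R) (m : Vec R) :
    D ∘ (M *ᵥ m) = M.map D *ᵥ m + M *ᵥ (D ∘ m) := by
  ext i; exact der_dot D _ _
theorem xNat_dsingle {ι : Type*} [DecidableEq ι] (i : ι) :
    D ∘ (Pi.single i 1 : ι → R) = 0 := by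
  ext j; simp [Pi.single_apply, apply_ite D]
theorem der_act (X : IK → R) (v : IV → R) :
    D ∘ act X v = act (D ∘ X) v + act X (D ∘ v) := by
  refine extV ?_ (fun a b => ?_) ?_
  · simp only [wP_comp, wP_act, wP_add, sP_comp, gP_comp, xNat_sub, xNat_dsmul, xNat_dmul,
      xNat_dJJ, xNat_hat, Matrix.zero_mul, zero_add]
    abel
  · simp only [sgP_comp, sgP_act, sgP_add, wP_comp, uP_comp, gP_comp, xNat_sub, xNat_add,
      xNat_dmul, xNat_dMM, xNat_sk, transpose_map, xNat_hat]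
    abel
  · simp only [tauP_comp, tauP_act, tauP_add, wP_comp, sP_comp, tP_comp, nP_comp, xNat_cadd,
      xNat_dcsmul, xNat_dmulVec, xNat_dJJ, zero_mulVec, zero_add]
    abel
theorem der_kbr (X Y : IK → R) : D ∘ kbr X Y = kbr (D ∘ X) Y + kbr X (D ∘ Y) := by
  refine extK ?_ (by simp [sP_comp]) (by simp [tP_comp]) ?_ ?_
  · simp only [gP_comp, gP_kbr, gP_add, xNat_sub, xNat_dmul, xNat_hat]
    abel
  · simp only [uP_comp, uP_kbr, uP_add, gP_comp, sP_comp, xNat_sub, xNat_add, xNat_dsmul,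
      xNat_dmul, xNat_hat, xNat_dJJ, Matrix.zero_mul, zero_add]
    abel
  · simp only [nP_comp, nP_kbr, nP_add, gP_comp, tP_comp, xNat_csub, xNat_cadd, xNat_dcsmul,
      xNat_dmulVec, xNat_hat]
    abel
theorem der_aV : D ∘ (aV : IV → R) = 0 := by
  refine extV ?_ (fun a b => ?_) ?_
  · rw [wP_comp, wP_aV, wP_zero]
    ext i j
    simp [one_apply, apply_ite D]
  · rw [sgP_comp, sgP_aV, sgP_zero, xNat_zero]
  · rw [tauP_comp, tauP_aV, tauP_zero, xNat_czero]
theorem der_aI : D ∘ (aI : II → R) = 0 := by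
  rw [aI, comp_elim, der_aV, xNat_czero]
  exact extI rfl rfl
theorem der_coad (φ v : IV → R) : D ∘ coad φ v = coad (D ∘ φ) v + coad φ (D ∘ v) := by
  have e : ∀ (φ v : IV → R) (i : IK), coad φ v i = φ ⬝ᵥ act (Pi.single i 1) v := fun _ _ _ => rfl
  ext i
  rw [Function.comp_apply, Pi.add_apply, e, e, e, der_dot, der_act, xNat_dsingle, act_zero_left,
    zero_add]
theorem der_mulVec (M : Mat R) (m : Vec R) :
    D ∘ (M *ᵥ m) = M.map D *ᵥ m + M *ᵥ (D ∘ m) := xNat_dmulVec D M m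
theorem der_vecMul (M : Mat R) (m : Vec R) :
    D ∘ (m ᵥ* M) = (D ∘ m) ᵥ* M + m ᵥ* M.map D := by
  ext i; exact der_dot D _ _
theorem InA.der {κ : Vec R} (hκ : D ∘ κ = 0) {X : IK → R} (h : InA κ X) : InA κ (D ∘ X) := by
  obtain ⟨⟨φ, h1, h2⟩, h3, h4, h5, c, h6⟩ := h
  have hk : ∀ i, D (κ i) = 0 := congrFun hκ
  refine ⟨⟨D ∘ φ, ?_, ?_⟩, ?_, ?_, ?_, D c, ?_⟩
  · rw [gP_comp, ← xNat_hat, h1]
    ext i j
    simp [vecMulVec_apply, hk]
  · have := der_dot D φ κ
    rw [h2, hκ, map_zero, dotProduct_zero, add_zero] at this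
    exact this.symm
  · rw [sP_comp, h3, map_zero]
  · rw [tP_comp, h4, map_zero]
  · have := der_mulVec D (uP X) κ
    rw [h5, hκ, xNat_czero, mulVec_zero, add_zero] at this
    exact this.symm
  · rw [nP_comp, h6, xNat_dcsmul, hκ, smul_zero, add_zero]
end der

section mem
variable {R : Type*} [CommRing R] {S : Subring R}

theorem dot_mem {ι : Type*} [Fintype ι] {a b : ι → R} (ha : ∀ i, a i ∈ S) (hb : ∀ i, b i ∈ S) :
    a ⬝ᵥ b ∈ S := S.sum_mem fun i _ => S.mul_mem (ha i) (hb i)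
theorem xNat_mem {ι : Type*} {a : ι → R} {b : ι → S} (h : S.subtype ∘ b = a) (i : ι) :
    a i ∈ S := h ▸ (b i).2
theorem act_mem {X : IK → R} {v : IV → R} (hX : ∀ i, X i ∈ S) (hv : ∀ i, v i ∈ S) (i : IV) :
    act X v i ∈ S :=
  xNat_mem (comp_act S.subtype (fun i => ⟨X i, hX i⟩) fun i => ⟨v i, hv i⟩) i
theorem kbr_mem {X Y : IK → R} (hX : ∀ i, X i ∈ S) (hY : ∀ i, Y i ∈ S) (i : IK) :
    kbr X Y i ∈ S :=
  xNat_mem (comp_kbr S.subtype (fun i => ⟨X i, hX i⟩) fun i => ⟨Y i, hY i⟩) i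
theorem aV_mem (i : IV) : (aV : IV → R) i ∈ S := xNat_mem (comp_aV S.subtype) i
theorem aI_mem (i : II) : (aI : II → R) i ∈ S := xNat_mem (comp_aI S.subtype) i
theorem coad_mem {φ v : IV → R} (hφ : ∀ i, φ i ∈ S) (hv : ∀ i, v i ∈ S) (i : IK) :
    coad φ v i ∈ S :=
  xNat_mem (comp_coad S.subtype (fun i => ⟨φ i, hφ i⟩) fun i => ⟨v i, hv i⟩) i
theorem mkK_mem {g u : Mat R} {s t : R} {n : Vec R} (hg : ∀ i j, g i j ∈ S) (hs : s ∈ S)
    (ht : t ∈ S) (hu : ∀ i j, u i j ∈ S) (hn : ∀ i, n i ∈ S) (i : IK) : mkK g s t u n i ∈ S := by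
  rcases i with i | i | i | i | i
  exacts [hg _ _, hs, ht, hu _ _, hn _]
theorem th_mem {y m : Vec R} (hy : ∀ i, y i ∈ S) (hm : ∀ i, m i ∈ S) (i : IV) :
    th y m i ∈ S :=
  xNat_mem (comp_th S.subtype (fun i => ⟨y i, hy i⟩) fun i => ⟨m i, hm i⟩) i
theorem dl_mem {y m : Vec R} (hy : ∀ i, y i ∈ S) (hm : ∀ i, m i ∈ S) (i : IK) :
    dl y m i ∈ S :=
  xNat_mem (comp_dl S.subtype (fun i => ⟨y i, hy i⟩) fun i => ⟨m i, hm i⟩) i
theorem mulVec_mem {M : Mat R} {m : Vec R} (hM : ∀ i j, M i j ∈ S) (hm : ∀ i, m i ∈ S)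
    (i : Fin 4) : (M *ᵥ m) i ∈ S := dot_mem (hM i) hm
theorem vecMul_mem {M : Mat R} {m : Vec R} (hM : ∀ i j, M i j ∈ S) (hm : ∀ i, m i ∈ S)
    (i : Fin 4) : (m ᵥ* M) i ∈ S := dot_mem hm fun j => hM j i
end mem

section val
variable {K : Type*} [Field K] {O : ValuationSubring K}

theorem xNat_mul_val {a b : K} (ha : O.valuation a < 1) (hb : b ∈ O) :
    O.valuation (a * b) < 1 := by
  rw [map_mul]
  exact mul_lt_one_of_lt_of_le ha ((O.valuation_le_one_iff b).mpr hb)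
theorem xNat_single_mem {ι : Type*} [DecidableEq ι] (i j : ι) :
    (Pi.single i 1 : ι → K) j ∈ O.toSubring := xNat_mem (xNat_single O.toSubring.subtype i) j

theorem dot_val {ι : Type*} [Fintype ι] {a b : ι → K} (ha : ∀ i, O.valuation (a i) < 1)
    (hb : ∀ i, b i ∈ O) : O.valuation (a ⬝ᵥ b) < 1 :=
  O.valuation.map_sum_lt one_ne_zero fun i _ => xNat_mul_val (ha i) (hb i)
theorem act_val {X : IK → K} {v : IV → K} (hX : ∀ i, O.valuation (X i) < 1) (hv : ∀ i, v i ∈ O)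
    (i : IV) : O.valuation (act X v i) < 1 := by
  rw [← actMat_mulVec, mulVec, dotProduct_comm]
  exact dot_val hX fun j => act_mem (S := O.toSubring) (xNat_single_mem j) hv i
theorem kbr_val {X Y : IK → K} (hX : ∀ i, O.valuation (X i) < 1) (hY : ∀ i, Y i ∈ O)
    (i : IK) : O.valuation (kbr X Y i) < 1 := by
  have e : kbr X Y i = X ⬝ᵥ fun j => kbr (Pi.single j 1) Y i := by
    have : X = ∑ j, X j • (Pi.single j 1 : IK → K) := by
      ext j; simp [Finset.sum_apply, Pi.single_apply]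
    conv_lhs => rw [this, ← kbrL_apply, map_sum, LinearMap.sum_apply]
    simp only [dotProduct, map_smul, LinearMap.smul_apply, kbrL_apply, Finset.sum_apply,
      Pi.smul_apply, smul_eq_mul]
  rw [e]
  exact dot_val hX fun j => kbr_mem (S := O.toSubring) (xNat_single_mem j) hY i
theorem coad_val {φ v : IV → K} (hφ : ∀ i, O.valuation (φ i) < 1) (hv : ∀ i, v i ∈ O)
    (i : IK) : O.valuation (coad φ v i) < 1 :=
  dot_val hφ fun j => act_mem (S := O.toSubring) (xNat_single_mem i) hv j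
/-- specialisation of a polynomial -/
theorem aeval_ne_zero_of_val [Algebra ℂ K] (hC : ∀ c : ℂ, algebraMap ℂ K c ∈ O)
    {x' : II → K} {x : II → ℂ} (h : ∀ i, O.valuation (x' i - algebraMap ℂ K (x i)) < 1)
    {g : MvPolynomial II ℂ} (hg : MvPolynomial.aeval x g ≠ 0) :
    MvPolynomial.aeval x' g ≠ 0 := by
  have hx : ∀ i, x' i ∈ O := fun i => by
    have := O.add_mem _ _ ((O.valuation_le_one_iff _).mp (h i).le) (hC (x i))
    rwa [sub_add_cancel] at this
  have key : ∀ g : MvPolynomial II ℂ,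
      O.valuation (MvPolynomial.aeval x' g - algebraMap ℂ K (MvPolynomial.aeval x g)) < 1 := by
    intro g
    induction g using MvPolynomial.induction_on with
    | C a => simp
    | add p q hp hq =>
      rw [map_add, map_add, map_add, add_sub_add_comm]
      exact O.valuation.map_add_lt hp hq
    | mul_X p i hp =>
      rw [map_mul, map_mul, map_mul, MvPolynomial.aeval_X, MvPolynomial.aeval_X]
      have e : MvPolynomial.aeval x' p * x' i -
          algebraMap ℂ K (MvPolynomial.aeval x p) * algebraMap ℂ K (x i) =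
          (MvPolynomial.aeval x' p - algebraMap ℂ K (MvPolynomial.aeval x p)) * x' i +
          (x' i - algebraMap ℂ K (x i)) * algebraMap ℂ K (MvPolynomial.aeval x p) := by ring
      rw [e]
      exact O.valuation.map_add_lt (xNat_mul_val hp (hx i)) (xNat_mul_val (h i) (hC _))
  intro h0
  have h1 := key g
  rw [h0, zero_sub, Valuation.map_neg] at h1
  have h2 := xNat_mul_val h1 (hC (MvPolynomial.aeval x g)⁻¹)
  rw [← map_mul, mul_inv_cancel₀ hg, map_one, map_one] at h2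
  exact lt_irrefl _ h2
end val

end Pool.Agent.MP_d920b6_mp.Cx
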