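import Pool.Agent.MP_d920b6_mp.Cx.Nat

/-! From a family over a subfield of `ℂ` to `Fam`. -/

namespace Pool.Agent.MP_d920b6_mp.Cx

open MvPolynomial

theorem xTrans_rinv {k ι : Type*} [Field k] [Fintype ι] [DecidableEq ι] {m : ℕ}
    (A : Matrix (Fin m) ι k) (h : LinearIndependent k fun i => A i) :
    ∃ B : Matrix ι (Fin m) k, A * B = 1 := by
  have hinj : Function.Injective A.vecMulLinear := Matrix.vecMul_injective_iff.2 h
  obtain ⟨g, hg⟩ := LinearMap.exists_leftInverse_of_injective A.vecMulLinear
    (LinearMap.ker_eq_bot.2 hinj)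
  refine ⟨Matrix.of fun l j => g (Pi.single l 1) j, ?_⟩
  ext i j
  have h1 : g (A i) = Pi.single i 1 := by
    have := LinearMap.congr_fun hg (Pi.single i 1)
    simpa [Matrix.row] using this
  have h2 : A i = ∑ l, A i l • (Pi.single l 1 : ι → k) := by
    ext l; simp [Finset.sum_apply, Pi.single_apply]
  rw [h2, map_sum] at h1
  have h3 := congrFun h1 j
  simp only [map_smul, Finset.sum_apply, Pi.smul_apply, smul_eq_mul] at h3
  rw [Matrix.mul_apply, Matrix.one_apply]
  simp only [Matrix.of_apply]
  rw [h3, Pi.single_apply]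
  simp only [eq_comm]

theorem xTrans_li {K ι : Type*} [Field K] [Fintype ι] {m : ℕ}
    (A : Matrix (Fin m) ι K) (B : Matrix ι (Fin m) K) (h : (A * B).det ≠ 0) :
    LinearIndependent K fun i => A i := by
  refine Matrix.vecMul_injective_iff.1 ?_
  intro u v huv
  have h1 : Matrix.vecMul (u - v) (A * B) = 0 := by
    have h2 : Matrix.vecMul u A = Matrix.vecMul v A := huv
    rw [← Matrix.vecMul_vecMul, Matrix.sub_vecMul, h2, sub_self, Matrix.zero_vecMul]
  exact sub_eq_zero.1 (Matrix.eq_zero_of_vecMul_eq_zero h h1)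

theorem xTrans_det {R S ι : Type*} [CommRing R] [CommRing S] [Fintype ι] {m : ℕ} (φ : R →+* S)
    (A : Matrix (Fin m) ι R) (B : Matrix ι (Fin m) R) :
    φ (A * B).det = (A.map φ * B.map φ).det := by
  rw [RingHom.map_det, RingHom.mapMatrix_apply, Matrix.map_mul]

/-- evaluate a polynomial over `k` at a point of an extension of `ℂ` -/
noncomputable def xTrans_ev {k : Type*} [Field k] [Algebra k ℂ] {K : Type} [Field K]
    [Algebra ℂ K] (x : II → K) : MvPolynomial II k →+* K :=
  (aeval x : MvPolynomial II ℂ →ₐ[ℂ] K).toRingHom.comp (map (algebraMap k ℂ))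

theorem xTrans_ev_apply {k : Type*} [Field k] [Algebra k ℂ] {K : Type} [Field K]
    [Algebra ℂ K] (x : II → K) (g : MvPolynomial II k) :
    xTrans_ev x g = aeval x (map (algebraMap k ℂ) g) := rfl

theorem xTrans_ev_X {k : Type*} [Field k] [Algebra k ℂ] {K : Type} [Field K]
    [Algebra ℂ K] (x : II → K) :
    (xTrans_ev x : MvPolynomial II k →+* K) ∘ X = x := by
  funext i
  simp [xTrans_ev_apply]

theorem xTrans_ev_grad {k : Type*} [Field k] [Algebra k ℂ] {K : Type} [Field K]
    [Algebra ℂ K] (x : II → K) (g : MvPolynomial II k) :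
    (xTrans_ev x : MvPolynomial II k →+* K) ∘ (fun l => pderiv l g) =
      grad (map (algebraMap k ℂ) g) x := by
  funext l
  simp only [Function.comp, xTrans_ev_apply, grad, pderiv_map]

theorem fam_of {k : Type*} [Field k] [Algebra k ℂ] (m : ℕ) (f : Fin m → MvPolynomial II k)
    (hm : 176 ≤ 2 * m)
    (hinv : ∀ (i j : Fin m) (x : II → k),
      PF x (fun l => eval x (pderiv l (f i))) (fun l => eval x (pderiv l (f j))) = 0 ∧
      PF aI (fun l => eval x (pderiv l (f i))) (fun l => eval x (pderiv l (f j))) = 0)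
    (x₀ : II → k) (hli : LinearIndependent k fun i l => eval x₀ (pderiv l (f i))) :
    Nonempty Fam := by
  have : CharZero k := (algebraMap k ℂ).charZero
  have : Infinite k := Infinite.of_injective (Nat.cast : ℕ → k) Nat.cast_injective
  have h1 : ∀ i j, PF (X : II → MvPolynomial II k) (fun l => pderiv l (f i))
      (fun l => pderiv l (f j)) = 0 := by
    intro i j
    refine MvPolynomial.funext fun x => ?_
    have hx : (eval x : MvPolynomial II k →+* k) ∘ X = x := by
      funext l; simp
    rw [map_PF, hx, map_zero]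
    exact (hinv i j x).1
  have h2 : ∀ i j, PF (aI : II → MvPolynomial II k) (fun l => pderiv l (f i))
      (fun l => pderiv l (f j)) = 0 := by
    intro i j
    refine MvPolynomial.funext fun x => ?_
    rw [map_PF, comp_aI, map_zero]
    exact (hinv i j x).2
  obtain ⟨B, hB⟩ := xTrans_rinv (Matrix.of fun i l => eval x₀ (pderiv l (f i))) hli
  let J : Matrix (Fin m) II (MvPolynomial II k) := Matrix.of fun i l => pderiv l (f i)
  let B' : Matrix II (Fin m) (MvPolynomial II k) := B.map C
  let q : MvPolynomial II k := (J * B').det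
  have hq0 : q ≠ 0 := by
    intro h0
    have h3 : eval x₀ q = (J.map (eval x₀) * B'.map (eval x₀)).det := xTrans_det _ J B'
    have h4 : B'.map (eval x₀ : MvPolynomial II k →+* k) = B := by
      ext l j; simp [B']
    have h5 : J.map (eval x₀ : MvPolynomial II k →+* k) =
        Matrix.of fun i l => eval x₀ (pderiv l (f i)) := rfl
    rw [h4, h5, hB, Matrix.det_one, h0, map_zero] at h3
    exact zero_ne_one h3
  refine ⟨⟨m, fun i => map (algebraMap k ℂ) (f i), map (algebraMap k ℂ) q, hm, ?_, ?_, ?_⟩⟩
  · intro h0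
    exact hq0 (map_injective _ (algebraMap k ℂ).injective (by rw [h0, map_zero]))
  · intro K _ _ x i j
    constructor
    · have := congrArg (xTrans_ev x) (h1 i j)
      rwa [map_PF, xTrans_ev_X, xTrans_ev_grad, xTrans_ev_grad, map_zero] at this
    · have := congrArg (xTrans_ev x) (h2 i j)
      rwa [map_PF, comp_aI, xTrans_ev_grad, xTrans_ev_grad, map_zero] at this
  · intro K _ _ x hx
    rw [← xTrans_ev_apply, xTrans_det (xTrans_ev x) J B'] at hx
    have h6 := xTrans_li _ _ hx
    have h7 : (fun i => J.map (xTrans_ev x) i) =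
        fun i => grad (map (algebraMap k ℂ) (f i)) x := by
      funext i
      exact xTrans_ev_grad x (f i)
    rwa [h7] at h6

end Pool.Agent.MP_d920b6_mp.Cx
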