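import Pool.Agent.MP_d920b6_mp.Cx.Basic

/-! Triple product identities. -/

namespace Pool.Agent.MP_d920b6_mp.Cx

open Matrix

variable {R : Type*} [CommRing R]

theorem xtri_tri (a b c : Vec R) : tri (bar a) (bar b) (bar c) =
    a 1 * (b 2 * c 3 - b 3 * c 2) + a 2 * (b 3 * c 1 - b 1 * c 3) +
      a 3 * (b 1 * c 2 - b 2 * c 1) := by
  simp [tri, bar, cross_apply, dotProduct, Fin.sum_univ_three]

theorem xtri_psi (v : IV → R) (κ : Vec R) (p q : Fin 2 → R) (i : Fin 4) : psi v κ p q i =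
    p 0 * q 0 * (κ ᵥ* sk (sgP v 0 0)) i + p 0 * q 1 * (κ ᵥ* sk (sgP v 0 1)) i +
      (p 1 * q 0 * (κ ᵥ* sk (sgP v 1 0)) i + p 1 * q 1 * (κ ᵥ* sk (sgP v 1 1)) i) := by
  simp only [psi, Fin.sum_univ_two, Pi.add_apply, Pi.smul_apply, smul_eq_mul]

theorem xtri_rowP (p : Fin 2 → R) (w : Mat R) (i : Fin 4) :
    rowP p w i = p 0 * w 0 i + p 1 * w 1 i := rfl

theorem xtri_rowM (q : Fin 2 → R) (w : Mat R) (i : Fin 4) :
    rowM q w i = q 0 * w 2 i + q 1 * w 3 i := rfl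

theorem xtri_vecMul (z : Vec R) (w : Mat R) : z ᵥ* w = rowP (vlo z) w + rowM (vhi z) w := by
  ext i
  simp [vecMul, dotProduct, Fin.sum_univ_four, xtri_rowP, xtri_rowM, vlo, vhi, add_assoc]

theorem xtri_neg {y : Vec R} {w : Mat R} (h : y ᵥ* w = 0) :
    rowM (vhi y) w = -rowP (vlo y) w := by
  rw [xtri_vecMul] at h
  exact eq_neg_of_add_eq_zero_right h

theorem xtri_wedge_apply (a b : Vec R) (i j : Fin 4) : wedge a b i j = a i * b j - b i * a j := rfl

theorem xtri_MM (w u : Mat R) (i j : Fin 4) :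
    MM w u 0 0 i j = u 0 i * w 2 j - w 2 i * u 0 j + (u 2 i * w 0 j - w 0 i * u 2 j) ∧
    MM w u 0 1 i j = u 0 i * w 3 j - w 3 i * u 0 j + (u 3 i * w 0 j - w 0 i * u 3 j) ∧
    MM w u 1 0 i j = u 1 i * w 2 j - w 2 i * u 1 j + (u 2 i * w 1 j - w 1 i * u 2 j) ∧
    MM w u 1 1 i j = u 1 i * w 3 j - w 3 i * u 1 j + (u 3 i * w 1 j - w 1 i * u 3 j) :=
  ⟨rfl, rfl, rfl, rfl⟩

theorem xtri_contract {v : IV → R} {κ φ : Vec R} {w u : Mat R}
    (h : ∀ a b, MM w u a b = wedge φ (κ ᵥ* sk (sgP v a b))) (p q : Fin 2 → R) :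
    wedge (rowP p u) (rowM q w) + wedge (rowM q u) (rowP p w) = wedge φ (psi v κ p q) := by
  ext i j
  obtain ⟨h1, h2, h3, h4⟩ := xtri_MM w u i j
  rw [h, xtri_wedge_apply] at h1 h2 h3 h4
  simp only [Matrix.add_apply, xtri_wedge_apply, xtri_psi, xtri_rowP, xtri_rowM]
  linear_combination (-(p 0 * q 0)) * h1 - p 0 * q 1 * h2 - p 1 * q 0 * h3 - p 1 * q 1 * h4

theorem xtri_wedge {a b c d e f : Vec R} (h : wedge a b + wedge c d = wedge e f) (z : Vec R) :
    tri (bar z) (bar a) (bar b) + tri (bar z) (bar c) (bar d) = tri (bar z) (bar e) (bar f) := by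
  have h1 := congrFun (congrFun h 2) 3
  have h2 := congrFun (congrFun h 3) 1
  have h3 := congrFun (congrFun h 1) 2
  simp only [Matrix.add_apply, xtri_wedge_apply] at h1 h2 h3
  simp only [xtri_tri]
  linear_combination z 1 * h1 + z 2 * h2 + z 3 * h3

theorem cc_eq_bq (v : IV → R) (κ : Vec R) (p q : Fin 2 → R) :
    cc v κ p q = bq (cf v κ) p q := by
  simp only [bq, cf, pol, mon, Fin.sum_univ_three, cons_val_zero, cons_val_one, cons_val_two,
    cons_val_fin_one, head_cons, tail_cons, cc, xtri_tri, xtri_psi, xtri_rowP, xtri_rowM]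
  ring

theorem cc_self (v : IV → R) (κ y : Vec R) (h : y ᵥ* wP v = 0) :
    cc v κ (vlo y) (vhi y) = 0 := by
  rw [cc, xtri_neg h, xtri_tri]
  simp only [Pi.neg_apply]
  ring

theorem sk_vecMulVec (σ : Mat R) (κ φ : Vec R) :
    (vecMulVec κ φ)ᵀ * sk σ + sk σ * vecMulVec κ φ = wedge φ (κ ᵥ* sk σ) := by
  rw [transpose_vecMulVec, vecMulVec_mul, mul_vecMulVec, ← vecMul_transpose, sk_transpose,
    vecMul_neg, neg_vecMulVec, wedge, sub_eq_add_neg]

theorem Lam_add (v : IV → R) (κ y φ φ' : Vec R) :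
    Lam v κ y (φ + φ') = Lam v κ y φ + Lam v κ y φ' := by
  simp only [Lam, xtri_tri, Pi.add_apply]
  ring
theorem Lam_smul (v : IV → R) (κ y φ : Vec R) (c : R) :
    Lam v κ y (c • φ) = c * Lam v κ y φ := by
  simp only [Lam, xtri_tri, Pi.smul_apply, smul_eq_mul]
  ring

/-- stabiliser elements are tangent to the curve -/
theorem Lam_eq_zero (v : IV → R) (κ y φ : Vec R) (u : Mat R) (hy : y ᵥ* wP v = 0)
    (h : ∀ a b, MM (wP v) u a b = wedge φ (κ ᵥ* sk (sgP v a b))) : Lam v κ y φ = 0 := by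
  have h1 := xtri_wedge (xtri_contract h (vlo y) (vhi y)) (rowP (vlo y) (wP v))
  rw [xtri_neg hy] at h1
  simp only [Lam, xtri_tri, Pi.neg_apply] at h1 ⊢
  linear_combination h1

/-- `Lam` is the differential of `cc` -/
theorem two_Lam (v : IV → R) (κ y z : Vec R) (hy : y ᵥ* wP v = 0) :
    2 * Lam v κ y (z ᵥ* wP v) =
      -((cc v κ (vlo y + vlo z) (vhi y) - cc v κ (vlo y - vlo z) (vhi y)) +
        (cc v κ (vlo y) (vhi y + vhi z) - cc v κ (vlo y) (vhi y - vhi z))) := by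
  have e1 : ∀ p p' : Fin 2 → R, rowP (p + p') (wP v) = rowP p (wP v) + rowP p' (wP v) ∧
      rowP (p - p') (wP v) = rowP p (wP v) - rowP p' (wP v) ∧
      rowM (p + p') (wP v) = rowM p (wP v) + rowM p' (wP v) ∧
      rowM (p - p') (wP v) = rowM p (wP v) - rowM p' (wP v) := fun p p' => by
    refine ⟨?_, ?_, ?_, ?_⟩ <;> ext i <;>
      simp only [xtri_rowP, xtri_rowM, Pi.add_apply, Pi.sub_apply] <;> ring
  have e2 : ∀ p p' q : Fin 2 → R, psi v κ (p + p') q = psi v κ p q + psi v κ p' q ∧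
      psi v κ (p - p') q = psi v κ p q - psi v κ p' q ∧
      psi v κ q (p + p') = psi v κ q p + psi v κ q p' ∧
      psi v κ q (p - p') = psi v κ q p - psi v κ q p' := fun p p' q => by
    refine ⟨?_, ?_, ?_, ?_⟩ <;> ext i <;>
      simp only [xtri_psi, Pi.add_apply, Pi.sub_apply] <;> ring
  simp only [Lam, cc, e1, e2, xtri_vecMul z, xtri_neg hy, xtri_tri, Pi.add_apply, Pi.sub_apply,
    Pi.neg_apply]
  ring

/-- the curve does not change under the gauge step -/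
theorem cc_move (v v' : IV → R) (κ φ : Vec R) (u : Mat R) (hu : u *ᵥ κ = 0)
    (hw : wP v' = wP v - vecMulVec κ φ)
    (hσ : ∀ a b, sk (sgP v' a b) = sk (sgP v a b) + MM 1 u a b)
    (h : ∀ a b, MM (wP v') u a b = wedge φ (κ ᵥ* sk (sgP v a b))) (p q : Fin 2 → R) :
    cc v' κ p q = cc v κ p q := by
  have h0 : ∀ i, u i ⬝ᵥ κ = 0 := fun i => congrFun hu i
  have h1 : ∀ a b, κ ᵥ* MM 1 u a b = -(κ (hi b) • u (lo a)) - κ (lo a) • u (hi b) := by
    intro a b
    have e : ∀ i, κ ⬝ᵥ (1 : Mat R) i = κ i := fun i => by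
      simp [dotProduct, one_apply]
    simp only [MM, wedge, vecMul_add, vecMul_sub, vecMul_vecMulVec, e, dotProduct_comm κ (u _), h0,
      zero_smul]
    abel
  have h2 : psi v' κ p q = psi v κ p q - (q 0 * κ 2 + q 1 * κ 3) • rowP p u -
      (p 0 * κ 0 + p 1 * κ 1) • rowM q u := by
    ext i
    simp only [xtri_psi, hσ, vecMul_add, h1, Pi.add_apply, Pi.sub_apply, Pi.neg_apply,
      Pi.smul_apply, smul_eq_mul, xtri_rowP, xtri_rowM, lo, hi, cons_val_zero, cons_val_one,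
      cons_val_fin_one]
    ring
  have h3 : rowP p (wP v) = rowP p (wP v') + (p 0 * κ 0 + p 1 * κ 1) • φ := by
    ext i
    simp only [hw, xtri_rowP, Pi.add_apply, Pi.smul_apply, smul_eq_mul, Matrix.sub_apply,
      vecMulVec_apply]
    ring
  have h4 : rowM q (wP v) = rowM q (wP v') + (q 0 * κ 2 + q 1 * κ 3) • φ := by
    ext i
    simp only [hw, xtri_rowM, Pi.add_apply, Pi.smul_apply, smul_eq_mul, Matrix.sub_apply,
      vecMulVec_apply]
    ring
  have h5 := xtri_wedge (xtri_contract h p q) (rowP p (wP v'))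
  have h6 := xtri_wedge (xtri_contract h p q) (rowM q (wP v'))
  simp only [cc, h2, h3, h4, xtri_tri, Pi.add_apply, Pi.sub_apply, Pi.smul_apply,
    smul_eq_mul] at h5 h6 ⊢
  linear_combination (q 0 * κ 2 + q 1 * κ 3) * h5 - (p 0 * κ 0 + p 1 * κ 1) * h6

end Pool.Agent.MP_d920b6_mp.Cx
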